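import Pool.Agent.KneserLine.Ops

/-!
# Averages over the scale

PROOF. `measurable_Jop_iter`: induction, `StronglyMeasurable.integral_prod_right` for `((r, v), s)
↦ F r (v + s)`. `avg_Jop_nonneg`: induction on `m` for all `F` simultaneously (`(Jop ε)^[m + 1] (F
r) = (Jop ε)^[m] (Jop ε (F r))`); `G r v = Jop ε (F r) v` is measurable, bounded by `ε B (1 + r) ^
((D - 3) / 2)`, and by Fubini (`integral_integral_swap`-type lemmas; `wr D Λ r * F r (v + s)` is
integrable on `(0, ∞) × (0, ε)`, bounded by the function `wr D Λ r * B * (1 + r) ^ ((D - 3) / 2)`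
which is integrable by `integrableOn_wr_mul`) `∫ r in Ioi 0, wr D Λ r * G r v = ∫ s in 0..ε, ∫ r
in Ioi 0, wr D Λ r * F r (v + s) ≥ 0`.
-/

set_option autoImplicit false
set_option linter.unusedSectionVars false

namespace Pool.Agent.KneserLine

open MeasureTheory Set Filter Topology Module
open scoped ENNReal
open Pool.Agent.Kneser Pool.Agent.KneserRank Pool.Agent.KneserCentre Pool.Agent.KneserCone

variable {D n : ℕ}

private theorem measurable_Jop_avg {F : ℝ → ℝ → ℝ} (hF : Measurable (Function.uncurry F))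
    (ε : ℝ) : Measurable (Function.uncurry fun r => Jop ε (F r)) := by
  have h1 : ∀ μ : Measure ℝ, SFinite μ →
      Measurable fun x : ℝ × ℝ => ∫ s, F x.1 (x.2 + s) ∂μ := by
    intro μ hμ
    have h0 : Measurable fun z : (ℝ × ℝ) × ℝ => (z.1.1, z.1.2 + z.2) := by fun_prop
    have h2 : StronglyMeasurable
        (Function.uncurry fun (x : ℝ × ℝ) (s : ℝ) => F x.1 (x.2 + s)) :=
      (hF.comp h0).stronglyMeasurable
    exact h2.integral_prod_right.measurable
  change Measurable fun x : ℝ × ℝ => ∫ s in (0 : ℝ)..ε, F x.1 (x.2 + s)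
  simp only [intervalIntegral]
  exact (h1 _ inferInstance).sub (h1 _ inferInstance)

private theorem measurable_Dop_avg {F : ℝ → ℝ → ℝ} (hF : Measurable (Function.uncurry F))
    (ε : ℝ) : Measurable (Function.uncurry fun r => Dop ε (F r)) := by
  have h0 : Measurable fun z : ℝ × ℝ => (z.1, z.2 + ε) := by fun_prop
  exact hF.sub (hF.comp h0)

theorem measurable_Jop_iter {F : ℝ → ℝ → ℝ} (hF : Measurable (Function.uncurry F)) (ε : ℝ)
    (m : ℕ) : Measurable (fun x : ℝ × ℝ => (Jop ε)^[m] (F x.1) x.2) := by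
  induction m generalizing F with
  | zero => exact hF
  | succ m ih => exact ih (measurable_Jop_avg hF ε)

theorem measurable_Dop_iter {F : ℝ → ℝ → ℝ} (hF : Measurable (Function.uncurry F)) (ε : ℝ)
    (m : ℕ) : Measurable (fun x : ℝ × ℝ => (Dop ε)^[m] (F x.1) x.2) := by
  induction m generalizing F with
  | zero => exact hF
  | succ m ih => exact ih (measurable_Dop_avg hF ε)

private theorem swap_avg (hD : 3 ≤ D) {F : ℝ → ℝ → ℝ} (hF : Measurable (Function.uncurry F))
    {B : ℝ} (hb : ∀ r : ℝ, 0 < r → ∀ v : ℝ, 0 ≤ v → |F r v| ≤ B * (1 + r) ^ (((D : ℝ) - 3) / 2))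
    {Λ : ℝ} (hΛ : 1 ≤ Λ)
    (hpos : ∀ v : ℝ, 0 ≤ v → 0 ≤ ∫ r in Ioi (0 : ℝ), wr D Λ r * F r v) {ε : ℝ} (hε : 0 ≤ ε)
    {v : ℝ} (hv : 0 ≤ v) : 0 ≤ ∫ r in Ioi (0 : ℝ), wr D Λ r * Jop ε (F r) v := by
  have hB : 0 ≤ B := by
    have h1 := (abs_nonneg _).trans (hb 1 one_pos 0 le_rfl)
    have h2 : (0 : ℝ) < (1 + 1 : ℝ) ^ (((D : ℝ) - 3) / 2) := Real.rpow_pos_of_pos (by norm_num) _
    exact nonneg_of_mul_nonneg_left h1 h2
  have hwm : Measurable fun r => wr D Λ r := by
    unfold wr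
    exact (measurable_const.add (measurable_const.mul measurable_id)).pow_const _
  have hwr : ∀ r : ℝ, 0 < r → 0 ≤ wr D Λ r := by
    intro r hr
    unfold wr
    exact Real.rpow_nonneg (by positivity) _
  have hbm : Measurable fun r : ℝ => B * (1 + r) ^ (((D : ℝ) - 3) / 2) :=
    measurable_const.mul ((measurable_const.add measurable_id).pow_const _)
  have hI : IntegrableOn (fun r => wr D Λ r * (B * (1 + r) ^ (((D : ℝ) - 3) / 2)))
      (Ioi (0 : ℝ)) := by
    refine integrableOn_wr_mul hD hbm.aestronglyMeasurable (C := B) (fun r hr => ?_) hΛ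
    rw [abs_of_nonneg (mul_nonneg hB (Real.rpow_nonneg (by positivity) _))]
  have h0 : Measurable fun z : ℝ × ℝ => (z.1, v + z.2) := by fun_prop
  have hm : Measurable fun z : ℝ × ℝ => wr D Λ z.1 * F z.1 (v + z.2) :=
    (hwm.comp measurable_fst).mul (hF.comp h0)
  have hprod : Integrable (fun z : ℝ × ℝ => wr D Λ z.1 * F z.1 (v + z.2))
      ((volume.restrict (Ioi (0 : ℝ))).prod (volume.restrict (Ioc (0 : ℝ) ε))) := by
    have h1 := hI.comp_fst (volume.restrict (Ioc (0 : ℝ) ε))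
    refine Integrable.mono' h1 hm.aestronglyMeasurable ?_
    rw [Measure.prod_restrict, ae_restrict_iff' (measurableSet_Ioi.prod measurableSet_Ioc)]
    refine Eventually.of_forall fun z hz => ?_
    have hz1 : 0 < z.1 := hz.1
    have hz2 : 0 < z.2 := hz.2.1
    rw [Real.norm_eq_abs, abs_mul, abs_of_nonneg (hwr _ hz1)]
    exact mul_le_mul_of_nonneg_left (hb _ hz1 _ (by linarith)) (hwr _ hz1)
  have h2 : ∫ r in Ioi (0 : ℝ), wr D Λ r * Jop ε (F r) v =
      ∫ r in Ioi (0 : ℝ), ∫ s in Ioc (0 : ℝ) ε, wr D Λ r * F r (v + s) := by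
    refine integral_congr_ae (Eventually.of_forall fun r => ?_)
    change wr D Λ r * (∫ s in (0 : ℝ)..ε, F r (v + s)) =
      ∫ s in Ioc (0 : ℝ) ε, wr D Λ r * F r (v + s)
    rw [intervalIntegral.integral_of_le hε, integral_const_mul]
  rw [h2, integral_integral_swap hprod]
  refine setIntegral_nonneg measurableSet_Ioc fun s hs => ?_
  exact hpos _ (add_nonneg hv hs.1.le)

theorem avg_Jop_nonneg (hD : 3 ≤ D) {F : ℝ → ℝ → ℝ} (hF : Measurable (Function.uncurry F))
    {B : ℝ} (hb : ∀ r : ℝ, 0 < r → ∀ v : ℝ, 0 ≤ v → |F r v| ≤ B * (1 + r) ^ (((D : ℝ) - 3) / 2))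
    {Λ : ℝ} (hΛ : 1 ≤ Λ)
    (hpos : ∀ v : ℝ, 0 ≤ v → 0 ≤ ∫ r in Ioi (0 : ℝ), wr D Λ r * F r v) {ε : ℝ} (hε : 0 ≤ ε)
    (m : ℕ) {v : ℝ} (hv : 0 ≤ v) :
    0 ≤ ∫ r in Ioi (0 : ℝ), wr D Λ r * (Jop ε)^[m] (F r) v := by
  induction m generalizing F B v with
  | zero => exact hpos v hv
  | succ m ih =>
    refine ih (F := fun r => Jop ε (F r)) (B := ε * B) (measurable_Jop_avg hF ε) ?_ ?_ hv
    · intro r hr u hu
      change |∫ s in (0 : ℝ)..ε, F r (u + s)| ≤ _
      have h1 := intervalIntegral.norm_integral_le_of_norm_le_const (a := 0) (b := ε)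
        (f := fun s => F r (u + s)) (C := B * (1 + r) ^ (((D : ℝ) - 3) / 2)) (fun s hs => by
          rw [uIoc_of_le hε] at hs
          exact hb r hr _ (add_nonneg hu hs.1.le))
      rw [Real.norm_eq_abs, sub_zero, abs_of_nonneg hε] at h1
      linarith
    · intro u hu
      exact swap_avg hD hF hb hΛ hpos hε hu

end Pool.Agent.KneserLine
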