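import Pool.Agent.KneserLine.Pair

/-!
# The three cases
-/

set_option autoImplicit false
set_option linter.unusedSectionVars false

namespace Pool.Agent.KneserLine

open MeasureTheory Set Filter Topology Module
open scoped ENNReal
open Pool.Agent.Kneser Pool.Agent.KneserRank Pool.Agent.KneserCentre Pool.Agent.KneserCone

variable {D n : ℕ}

variable {E : Type*} [NormedAddCommGroup E] [InnerProductSpace ℝ E] [FiniteDimensional ℝ E]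
  [MeasurableSpace E] [BorelSpace E]

theorem wr_nonneg {Λ r : ℝ} (hΛ : 1 ≤ Λ) (hr : 0 < r) : 0 ≤ wr D Λ r := by
  unfold wr
  exact Real.rpow_nonneg (by nlinarith) _

/-- The truncated iterated difference is measurable. -/
theorem measurable_trunc {X : Type*} [MeasurableSpace X] {μ : Measure X} [SFinite μ] {ω : X → ℝ}
    {y : X → Fin n → ℝ} {s r : Fin n → Fin n → ℝ} {C κ : ℝ} (h : Kern μ ω y s r C κ)
    (φ : ℕ → ℝ) (L : Finset (Fin n)) (i j : Fin n) (c : Fin n → ℝ) (ε : ℝ) (m : ℕ) :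
    Measurable (fun ρ : ℝ => if ρ ≤ 1 then (Dop ε)^[m] (GK μ ω y φ L i j c ρ) 0 else 0) := by
  have h2 := measurable_Dop_iter (measurable_GK h φ L i j c) ε m
  have h3 : Measurable fun ρ : ℝ => ((ρ, (0 : ℝ)) : ℝ × ℝ) := by fun_prop
  exact Measurable.ite measurableSet_Iic (h2.comp h3) measurable_const

/-- The truncated iterated difference is bounded. -/
theorem trunc_bound {X : Type*} [MeasurableSpace X] {μ : Measure X} [SFinite μ] {ω : X → ℝ}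
    {y : X → Fin n → ℝ} {s r : Fin n → Fin n → ℝ} {C κ : ℝ} (h : Kern μ ω y s r C κ)
    {m : ℕ} (hκ : κ = (finrank ℝ E : ℝ) / 2 + ((m : ℝ) + 1))
    (p q : Fin n → E) (hs : ∀ i j, s i j = ‖p i - p j‖ ^ 2) (hr : ∀ i j, r i j = ‖q i - q j‖ ^ 2)
    {i j : Fin n} (hlt : ‖q i - q j‖ < ‖p i - p j‖) (φ : ℕ → ℝ) (L : Finset (Fin n))
    (c : Fin n → ℝ) {ε : ℝ} (hε : 0 ≤ ε) (hD : 3 ≤ D) :
    ∃ C₁ : ℝ, ∀ ρ : ℝ, 0 < ρ →
      |if ρ ≤ 1 then (Dop ε)^[m] (GK μ ω y φ L i j c ρ) 0 else 0| ≤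
        C₁ * (1 + ρ) ^ (((D : ℝ) - 3) / 2) := by
  obtain ⟨B, hB0, hB⟩ := kbound_small h hκ p q hs hr hlt φ (∑ l, |c l|)
  have hcl : ∀ l, |c l| ≤ ∑ l, |c l| := fun l =>
    Finset.single_le_sum (f := fun l => |c l|) (fun l _ => abs_nonneg _) (Finset.mem_univ l)
  refine ⟨2 ^ m * B, fun ρ hρ => ?_⟩
  have h1 := one_le_pow_rate hD hρ
  have h2 : 0 ≤ 2 ^ m * B := by positivity
  split_ifs with hρ1
  · have hBd : Bd (GK μ ω y φ L i j c ρ) B := by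
      refine ⟨?_, fun v hv => hB L c hcl ρ hρ hρ1 v hv⟩
      have h3 : Measurable fun v : ℝ => ((ρ, v) : ℝ × ℝ) := by fun_prop
      exact (measurable_GK h φ L i j c).comp h3
    have h4 := (hBd.dop hε m).bound 0 le_rfl
    exact h4.trans (le_mul_of_one_le_right h2 h1)
  · rw [abs_zero]
    exact mul_nonneg h2 (by linarith)

section cases

variable {N : ℕ} {ι₁ ι₂ : E →ₗ[ℝ] EuclideanSpace ℝ (Fin N)}

/-- The comparison function. -/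
def Cmp (G : ℝ → ℝ) (D : ℕ) : Prop :=
  ∃ (B : ℝ → ℝ) (C₂ : ℝ), Measurable B ∧
    (∀ r : ℝ, 0 < r → |B r| ≤ C₂ * (1 + r) ^ (((D : ℝ) - 3) / 2)) ∧
    (∀ r : ℝ, 0 < r → r ≤ 1 → B r = G r) ∧
    ∀ Λ : ℝ, 1 ≤ Λ → 0 ≤ ∫ r in Ioi (0 : ℝ), wr D Λ r * B r

theorem kappa_H (hN : N = 3 * finrank ℝ E + 4) :
    (N : ℝ) / 2 = (finrank ℝ E : ℝ) / 2 + (((finrank ℝ E + 1 : ℕ) : ℝ) + 1) := by
  rw [hN]; push_cast; ring

theorem case_low (hN : N = 3 * finrank ℝ E + 4)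
    (hι : ∀ x y : E, ‖ι₁ x + ι₂ y‖ ^ 2 = ‖x‖ ^ 2 + ‖y‖ ^ 2) (p q : Fin n → E) {φ : ℕ → ℝ}
    (hφ0 : φ 0 = 0) (hφ : ∀ k, φ (k + 2) - 2 * φ (k + 1) + φ k ≤ 0) (c : Fin n → ℝ)
    {L : Finset (Fin n)} {i j : Fin n} (hi : i ∈ L) (hj : j ∈ L) (hij : i ≠ j)
    (hlt : ‖q i - q j‖ < ‖p i - p j‖)
    (H : ∀ ρ : ℝ, 0 < ρ → Pos (finrank ℝ E) (fun i j => ‖p i - p j‖ ^ 2 / ρ)
      (fun i j => ‖q i - q j‖ ^ 2 / ρ)) {ε : ℝ} (hε : 0 ≤ ε) :
    Cmp (fun r => (Dop ε)^[finrank ℝ E + 1]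
      (GK (muH N) (fun _ => (1 : ℝ)) (yH ι₁ ι₂ p q) φ L i j c r) 0) (finrank ℝ E + 3) := by
  have hK := kern_H hι p q (s := fun i j => ‖p i - p j‖ ^ 2) (r := fun i j => ‖q i - q j‖ ^ 2)
    (fun _ _ => rfl) (fun _ _ => rfl)
  obtain ⟨C₁, hC₁⟩ := trunc_bound (D := finrank ℝ E + 3) hK (kappa_H hN) p q (fun _ _ => rfl)
    (fun _ _ => rfl) hlt φ L c hε (by omega)
  refine ⟨fun ρ => if ρ ≤ 1 then (Dop ε)^[finrank ℝ E + 1]
    (GK (muH N) (fun _ => (1 : ℝ)) (yH ι₁ ι₂ p q) φ L i j c ρ) 0 else 0, C₁,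
    measurable_trunc hK φ L i j c ε _, hC₁, ?_, ?_⟩
  · intro r _ hr1
    simp only [hr1, if_true]
  · intro Λ hΛ
    refine setIntegral_nonneg measurableSet_Ioi fun r hr => ?_
    refine mul_nonneg (wr_nonneg hΛ hr) ?_
    simp only
    split_ifs
    · exact klow hK (kappa_H hN) H hφ0 hφ hij hi hj c hr hε le_rfl
    · exact le_rfl

theorem abs_lt_sum (c : Fin n → ℝ) (l : Fin n) : |c l| < (∑ l, |c l|) + 1 := by
  have := Finset.single_le_sum (f := fun l => |c l|) (fun l _ => abs_nonneg _)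
    (Finset.mem_univ l)
  linarith

theorem rate_eq : ((finrank ℝ E : ℝ)) / 2 = ((((finrank ℝ E + 3 : ℕ) : ℝ)) - 3) / 2 := by
  push_cast; ring

/-- The common part of the two cases with local coordinates. -/
theorem case_kern [Nontrivial E] (hN : N = 3 * finrank ℝ E + 4)
    (hι : ∀ x y : E, ‖ι₁ x + ι₂ y‖ ^ 2 = ‖x‖ ^ 2 + ‖y‖ ^ 2) (p q : Fin n → E) {φ : ℕ → ℝ}
    (hφ0 : φ 0 = 0) (c : Fin n → ℝ)
    {L : Finset (Fin n)} {i j : Fin n} (hi : i ∈ L) (hj : j ∈ L) (hij : i ≠ j)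
    (hlt : ‖q i - q j‖ < ‖p i - p j‖) {X : Type*} [MeasurableSpace X] {μ : Measure X} [SFinite μ]
    {ω : X → ℝ} {y : X → Fin n → ℝ} {C κ : ℝ}
    (h : Kern μ ω y (fun i j => ‖p i - p j‖ ^ 2) (fun i j => ‖q i - q j‖ ^ 2) C κ)
    (hκ : κ = (finrank ℝ E : ℝ) / 2 + 2) {ε : ℝ} (hε : 0 ≤ ε)
    (hpos : ∀ Λ : ℝ, 1 ≤ Λ → 0 ≤ ∫ r in Ioi (0 : ℝ), wr (finrank ℝ E + 3) Λ r *
      (Jop ε)^[finrank ℝ E] ((Dop ε)^[1] (GK μ ω y φ L i j c r)) 0) :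
    Cmp (fun r => (Dop ε)^[finrank ℝ E + 1]
      (GK (muH N) (fun _ => (1 : ℝ)) (yH ι₁ ι₂ p q) φ L i j c r) 0) (finrank ℝ E + 3) := by
  have hK := kern_H hι p q (s := fun i j => ‖p i - p j‖ ^ 2) (r := fun i j => ‖q i - q j‖ ^ 2)
    (fun _ _ => rfl) (fun _ _ => rfl)
  obtain ⟨B, hB0, hB⟩ := kbound h hκ p q (fun _ _ => rfl) (fun _ _ => rfl) hlt φ
    ((∑ l, |c l|) + 1)
  have hB' : ∀ ρ : ℝ, 0 < ρ → ∀ v : ℝ, 0 ≤ v → |GK μ ω y φ L i j c ρ v| ≤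
      B * (1 + ρ) ^ ((((finrank ℝ E + 3 : ℕ) : ℝ) - 3) / 2) := by
    intro ρ hρ v hv
    rw [← rate_eq (E := E)]
    exact hB L c (fun l => (abs_lt_sum c l).le) ρ hρ v hv
  obtain ⟨hm, C₂, hC₂⟩ := local_of_kern h (D := finrank ℝ E + 3) (by omega) φ L i j c hB0 hB'
    (K := 1 / C * Real.pi ^ finrank ℝ E) hε (finrank ℝ E) 1
  have hCK : 0 ≤ 1 / C * Real.pi ^ finrank ℝ E := by
    have := h.C_pos
    positivity
  refine ⟨_, C₂, hm, hC₂, ?_, ?_⟩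
  · intro r hr _
    have hκ2 : (N : ℝ) / 2 = κ + (finrank ℝ E : ℕ) := by
      rw [hN, hκ]; push_cast; ring
    have := kcomp h hK hκ2 (m := 1) hφ0 c hij hi hj hr hε le_rfl (L := L)
    rw [show finrank ℝ E + 1 = 1 + finrank ℝ E from Nat.add_comm _ _]
    exact this.symm
  · intro Λ hΛ
    have e1 : ∫ r in Ioi (0 : ℝ), wr (finrank ℝ E + 3) Λ r *
        (1 / C * Real.pi ^ finrank ℝ E *
          (Jop ε)^[finrank ℝ E] ((Dop ε)^[1] (GK μ ω y φ L i j c r)) 0) =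
        (1 / C * Real.pi ^ finrank ℝ E) * ∫ r in Ioi (0 : ℝ), wr (finrank ℝ E + 3) Λ r *
          (Jop ε)^[finrank ℝ E] ((Dop ε)^[1] (GK μ ω y φ L i j c r)) 0 := by
      rw [← integral_const_mul]
      refine integral_congr_ae (Eventually.of_forall fun r => ?_)
      simp only
      ring
    rw [e1]
    exact mul_nonneg hCK (hpos Λ hΛ)

theorem case_point [Nontrivial E] (hN : N = 3 * finrank ℝ E + 4)
    (hι : ∀ x y : E, ‖ι₁ x + ι₂ y‖ ^ 2 = ‖x‖ ^ 2 + ‖y‖ ^ 2) (p q : Fin n → E) {φ : ℕ → ℝ}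
    (hφ0 : φ 0 = 0) (hφ : ∀ k, φ (k + 2) - 2 * φ (k + 1) + φ k ≤ 0) (c : Fin n → ℝ)
    {L : Finset (Fin n)} {i j : Fin n} (hi : i ∈ L) (hj : j ∈ L) (hij : i ≠ j)
    (hlt : ‖q i - q j‖ < ‖p i - p j‖) {a : Fin (finrank ℝ E + 3) → ℝ} (ha : Pencil a)
    (z : Fin n → Fin (finrank ℝ E + 3) → ℝ) (O : XS (finrank ℝ E + 3))
    (hp : ∀ i j, ‖p i - p j‖ ^ 2 = ∑ k, a k * (z i k - z j k) ^ 2)
    (hq : ∀ i j, ‖q i - q j‖ ^ 2 = ∑ k, (1 - a k) * (z i k - z j k) ^ 2)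
    (hc : ∀ l ∈ L, c l = Yf a z O l) {ε : ℝ} (hε : 0 ≤ ε) :
    Cmp (fun r => (Dop ε)^[finrank ℝ E + 1]
      (GK (muH N) (fun _ => (1 : ℝ)) (yH ι₁ ι₂ p q) φ L i j c r) 0) (finrank ℝ E + 3) := by
  have h := kern_GI ha z (s := fun i j => ‖p i - p j‖ ^ 2) (r := fun i j => ‖q i - q j‖ ^ 2)
    hp hq
  have hκ : (((finrank ℝ E + 3 : ℕ) : ℝ) + 1) / 2 = (finrank ℝ E : ℝ) / 2 + 2 := by
    push_cast; ring
  refine case_kern hN hι p q hφ0 c hi hj hij hlt h hκ hε fun Λ hΛ => ?_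
  obtain ⟨B, hB0, hB⟩ := kbound h hκ p q (fun _ _ => rfl) (fun _ _ => rfl) hlt φ
    ((∑ l, |c l|) + 1)
  have hm := measurable_GK h φ L i j c
  refine avg_Jop_nonneg (D := finrank ℝ E + 3) (by omega)
    (F := fun r => (Dop ε)^[1] (GK (mu (finrank ℝ E + 3)) (fun x => om a x.1) (ya a z) φ L i j c r))
    (measurable_Dop_iter hm ε 1) (B := 2 ^ 1 * B) ?_ hΛ ?_ hε (finrank ℝ E) le_rfl
  · intro r hr v hv
    have hBd : Bd (GK (mu (finrank ℝ E + 3)) (fun x => om a x.1) (ya a z) φ L i j c r)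
        (B * (1 + r) ^ ((finrank ℝ E : ℝ) / 2)) := by
      refine ⟨?_, fun v hv => hB L c (fun l => (abs_lt_sum c l).le) r hr v hv⟩
      have h3 : Measurable fun v : ℝ => ((r, v) : ℝ × ℝ) := by fun_prop
      exact hm.comp h3
    have h4 := (hBd.dop hε 1).bound v hv
    refine h4.trans (le_of_eq ?_)
    rw [rate_eq (E := E)]
    ring
  · intro v hv
    set R : ℝ := (∑ l, |c l - v|) + 1 with hR
    obtain ⟨B', hB0', hB'⟩ := kbound h hκ p q (fun _ _ => rfl) (fun _ _ => rfl) hlt φ R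
    have hc' : ∀ l ∈ L, (fun l => c l - v) l = Yf a z (O.1, (O.2.1, O.2.2 - v)) l := by
      intro l hl
      simp only
      rw [hc l hl]
      unfold Yf
      simp only
      ring
    have := central_nonneg ha z hφ hij hi hj hc' (R := R) (C := B') (fun l => abs_lt_sum (fun l => c l - v) l)
      (fun c' hc'' r hr ε hε => by
        have h5 := hB' L c' hc'' r hr ε hε
        rw [rate_eq (E := E)] at h5
        exact h5) hΛ hε
    refine this.trans (le_of_eq ?_)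
    refine integral_congr_ae (Eventually.of_forall fun r => ?_)
    simp only
    congr 1
    change _ = GK (mu (finrank ℝ E + 3)) (fun x => om a x.1) (ya a z) φ L i j c r v -
      GK (mu (finrank ℝ E + 3)) (fun x => om a x.1) (ya a z) φ L i j c r (v + ε)
    rw [GK_shift, ← add_zero v, GK_shift, add_zero]
    rfl

theorem case_line [Nontrivial E] (hN : N = 3 * finrank ℝ E + 4)
    (hι : ∀ x y : E, ‖ι₁ x + ι₂ y‖ ^ 2 = ‖x‖ ^ 2 + ‖y‖ ^ 2) (p q : Fin n → E) {φ : ℕ → ℝ}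
    (hφ0 : φ 0 = 0) (hφ : ∀ k, φ (k + 2) - 2 * φ (k + 1) + φ k ≤ 0) (c : Fin n → ℝ)
    {L : Finset (Fin n)} {i j : Fin n} (hi : i ∈ L) (hj : j ∈ L) (hij : i ≠ j)
    (hlt : ‖q i - q j‖ < ‖p i - p j‖) {a : Fin (finrank ℝ E + 3 + 1) → ℝ} (ha : Pencil4 a)
    (z : Fin n → Fin (finrank ℝ E + 3 + 1) → ℝ) (w₀ e : Fin (finrank ℝ E + 3 + 1) → ℝ)
    (h₀ β : ℝ) (hp : ∀ i j, ‖p i - p j‖ ^ 2 = ∑ k, a k * (z i k - z j k) ^ 2)
    (hq : ∀ i j, ‖q i - q j‖ ^ 2 = ∑ k, (1 - a k) * (z i k - z j k) ^ 2)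
    (hc0 : ∀ l ∈ L, c l = Yf a z (0, (w₀, h₀)) l)
    (hc1 : ∀ l ∈ L, c l = Yf a z (1, (w₀ + e, h₀ + β)) l) {ε : ℝ} (hε : 0 ≤ ε) :
    Cmp (fun r => (Dop ε)^[finrank ℝ E + 1]
      (GK (muH N) (fun _ => (1 : ℝ)) (yH ι₁ ι₂ p q) φ L i j c r) 0) (finrank ℝ E + 3) := by
  have h := kern_G4 ha.pencil z (s := fun i j => ‖p i - p j‖ ^ 2)
    (r := fun i j => ‖q i - q j‖ ^ 2) hp hq
  have hκ : ((finrank ℝ E + 3 + 1 : ℕ) : ℝ) / 2 = (finrank ℝ E : ℝ) / 2 + 2 := by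
    push_cast; ring
  refine case_kern hN hι p q hφ0 c hi hj hij hlt h hκ hε fun Λ hΛ => ?_
  obtain ⟨B, hB0, hB⟩ := kbound h hκ p q (fun _ _ => rfl) (fun _ _ => rfl) hlt φ
    ((∑ l, |c l|) + 1)
  set G : (Fin n → ℝ) → ℝ → ℝ → ℝ := fun c r v =>
    GK (nu (finrank ℝ E + 3 + 1)) (fun x => om a x.1) (yb a z) φ L i j c r v with hG
  have hm : Measurable (Function.uncurry (G c)) := measurable_GK h φ L i j c
  have hd : 1 ≤ finrank ℝ E := finrank_pos_real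
  have e1 : ∀ r : ℝ, (Jop ε)^[finrank ℝ E] ((Dop ε)^[1] (G c r)) 0 =
      (Jop ε)^[finrank ℝ E - 1] (Jop ε (Dop ε (G c r))) 0 := fun r =>
    Jop_iter_pred ε hd (Dop ε (G c r)) 0
  change 0 ≤ ∫ r in Ioi (0 : ℝ), wr (finrank ℝ E + 3) Λ r *
      (Jop ε)^[finrank ℝ E] ((Dop ε)^[1] (G c r)) 0
  simp only [e1]
  refine avg_Jop_nonneg (D := finrank ℝ E + 3) (by omega)
    (F := fun r => Jop ε (Dop ε (G c r)))
    (measurable_Jop_iter (F := fun r => Dop ε (G c r)) (measurable_Dop_iter hm ε 1) ε 1)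
    (B := ε ^ 1 * (2 ^ 1 * B)) ?_ hΛ ?_ hε (finrank ℝ E - 1) le_rfl
  · intro r hr v hv
    have hBd : Bd (G c r) (B * (1 + r) ^ ((finrank ℝ E : ℝ) / 2)) := by
      refine ⟨?_, fun v hv => hB L c (fun l => (abs_lt_sum c l).le) r hr v hv⟩
      have h3 : Measurable fun v : ℝ => ((r, v) : ℝ × ℝ) := by fun_prop
      exact hm.comp h3
    have h4 := ((hBd.dop hε 1).jop hε 1).bound v hv
    refine h4.trans (le_of_eq ?_)
    rw [rate_eq (E := E)]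
    ring
  · intro v hv
    set R : ℝ := (∑ l, |c l - v|) + 1 with hR
    obtain ⟨B', hB0', hB'⟩ := kbound h hκ p q (fun _ _ => rfl) (fun _ _ => rfl) hlt φ R
    have hc0' : ∀ l ∈ L, (fun l => c l - v) l = Yf a z (0, (w₀, h₀ - v)) l := by
      intro l hl
      simp only
      rw [hc0 l hl]
      unfold Yf
      simp only
      ring
    have hc1' : ∀ l ∈ L, (fun l => c l - v) l = Yf a z (1, (w₀ + e, (h₀ - v) + β)) l := by
      intro l hl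
      simp only
      rw [hc1 l hl]
      unfold Yf
      simp only
      ring
    have := line_nonneg ha z hφ hij hi hj hc0' hc1' (R := R) (B := B') (fun l => abs_lt_sum (fun l => c l - v) l)
      (fun c' hc'' r hr ε hε => by
        have h5 := hB' L c' hc'' r hr ε hε
        rw [rate_eq (E := E)] at h5
        exact h5) hΛ hε
    refine this.trans (le_of_eq ?_)
    refine integral_congr_ae (Eventually.of_forall fun r => ?_)
    simp only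
    congr 1
    unfold Jop Dop
    refine intervalIntegral.integral_congr fun s _ => ?_
    have e2 : ∀ u, GK (nu (finrank ℝ E + 3 + 1)) (fun x => om a x.1) (yb a z) φ L i j
        (fun l => c l - v) r u = G c r (v + u) := fun u =>
      (GK_shift _ _ _ _ _ _ _ _ _ _ _).symm
    rw [e2, e2]
    congr 2 <;> ring

theorem cases_all [Nontrivial E] (hN : N = 3 * finrank ℝ E + 4)
    (hι : ∀ x y : E, ‖ι₁ x + ι₂ y‖ ^ 2 = ‖x‖ ^ 2 + ‖y‖ ^ 2) (p q : Fin n → E) {φ : ℕ → ℝ}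
    (hφ0 : φ 0 = 0) (hφ : ∀ k, φ (k + 2) - 2 * φ (k + 1) + φ k ≤ 0) (c : Fin n → ℝ)
    {L : Finset (Fin n)} {i j : Fin n} (hi : i ∈ L) (hj : j ∈ L) (hij : i ≠ j)
    (hlt : ‖q i - q j‖ < ‖p i - p j‖) (hoff : ∀ k, k ∉ L → p k = p i ∧ q k = q i)
    (hL : finrank ℝ (Submodule.span ℝ ((fun k : Fin n =>
      ((1 : ℝ), p k, q k, ‖p k‖ ^ 2 - c k, ‖q k‖ ^ 2 - c k)) '' (L : Set (Fin n)))) ≤
      finrank ℝ E + 5) {ε : ℝ} (hε : 0 ≤ ε) :
    Cmp (fun r => (Dop ε)^[finrank ℝ E + 1]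
      (GK (muH N) (fun _ => (1 : ℝ)) (yH ι₁ ι₂ p q) φ L i j c r) 0) (finrank ℝ E + 3) := by
  rcases trichotomy p q c L hi hoff hL with H | ⟨a, z, O, ha, hp, hq, hc⟩ |
    ⟨a, z, w₀, e, h₀, β, ha, hp, hq, hc0, hc1⟩
  · exact case_low hN hι p q hφ0 hφ c hi hj hij hlt H hε
  · exact case_point hN hι p q hφ0 hφ c hi hj hij hlt ha z O hp hq hc hε
  · exact case_line hN hι p q hφ0 hφ c hi hj hij hlt ha z w₀ e h₀ β hp hq hc0 hc1 hε

end cases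

end Pool.Agent.KneserLine
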