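import Pool.Agent.KneserCone.Final

/-!
# The local rank condition in all dimensions: definitions

THEOREM D. Let `p, q : Fin n → E`, `d = finrank E`, be a contraction. Assume that for every pair
`i, j` with `dist (q i) (q j) < dist (p i) (p j)` the vectors `(1, p k, q k, ‖p k‖² - ρ k², ‖q k‖²
- ρ k²)`, where `k` runs over the indices such that the three balls with centres `q i`, `q j`, `q
k` have a common point, span a space of dimension `≤ d + 5`. Then the weighted inequality holds.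
(Compared with `KneserCone`: no condition on the rank of `(1, p, q)`.)

OVERVIEW. For a function `f` of one real variable `v` (a shift of all `c l`) let `Dop ε f v = f v
- f (v + ε)`, `Jop ε f v = ∫ s in 0..ε, f (v + s)`. A `Kern` is a measure space with a weight `ω`
and functions `y l` whose Laplace transforms are `C * (π ρ / tot k) ^ κ * ∫ t in 0..1, exp (-((t
quad k s + (1 - t) quad k r) / (tot k ρ)))`. For a `Kern` the pair integrals `GK` satisfy (`m + 1
= κ - d / 2`) `C π ^ (m + 1) (Jop ε)^[m] (VI p - VI q) = ∑ i j, (s i j - r i j) / 2 (Dop ε)^[m] GK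
i j`, and any two `Kern` with the same matrices `s`, `r` are related by `(Dop ε)^[m + ν] GK₂ = C₂
/ C₁ π ^ ν (Jop ε)^[ν] (Dop ε)^[m] GK₁` if `κ₂ = κ₁ + ν`. The universal `Kern` `muH N`, `yH`
exists for all `p`, `q`; its pair integrals are localised (`HDisj`, `KErr`), and then compared
with the pair integrals in local coordinates: of dimension `d + 3` with a common point of the
walls (`kern_GI`, `central_nonneg`), or of dimension `d + 4` with a common line of the walls
(`kern_G4`, `line_nonneg`), or the local configuration has property `Pos` (`klow`).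
-/

set_option autoImplicit false
set_option linter.unusedSectionVars false

namespace Pool.Agent.KneserLine

open MeasureTheory Set Filter Topology
open scoped ENNReal
open Pool.Agent.KneserRank Pool.Agent.KneserCentre Pool.Agent.KneserCone

variable {D n : ℕ}

/-! ### Operators -/

/-- Integration over a window. -/
noncomputable def Jop (ε : ℝ) (f : ℝ → ℝ) (v : ℝ) : ℝ := ∫ s in (0 : ℝ)..ε, f (v + s)

/-- The difference operator. -/
noncomputable def Dop (ε : ℝ) (f : ℝ → ℝ) (v : ℝ) : ℝ := f v - f (v + ε)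

/-- Measurable, and bounded on `[0, ∞)`. -/
structure Bd (f : ℝ → ℝ) (B : ℝ) : Prop where
  meas : Measurable f
  bound : ∀ v, 0 ≤ v → |f v| ≤ B

/-! ### Families of Gaussian type -/

section kern

variable {X : Type*} [MeasurableSpace X]

/-- A weight `ω` and functions `y l` with Laplace transforms of Gaussian type. -/
structure Kern (μ : Measure X) (ω : X → ℝ) (y : X → Fin n → ℝ) (s r : Fin n → Fin n → ℝ)
    (C κ : ℝ) : Prop where
  meas_om : Measurable ω
  meas_y : ∀ l, Measurable fun x => y x l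
  nonneg : ∀ᵐ x ∂μ, 0 ≤ ω x ∧ ∀ l, 0 ≤ y x l
  C_pos : 0 < C
  integrable : ∀ ρ : ℝ, 0 < ρ → ∀ k : Fin n → ℕ, k ≠ 0 →
    Integrable (fun x => ω x * ee k (fun l => y x l / ρ)) μ
  integral : ∀ ρ : ℝ, 0 < ρ → ∀ k : Fin n → ℕ, k ≠ 0 →
    ∫ x, ω x * ee k (fun l => y x l / ρ) ∂μ = C * (Real.pi * ρ / tot k) ^ κ *
      ∫ t in (0 : ℝ)..1, Real.exp (-((t * quad k s + (1 - t) * quad k r) / (tot k * ρ)))

/-- The pair integral. -/
noncomputable def GK (μ : Measure X) (ω : X → ℝ) (y : X → Fin n → ℝ) (φ : ℕ → ℝ)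
    (L : Finset (Fin n)) (i j : Fin n) (c : Fin n → ℝ) (ρ v : ℝ) : ℝ :=
  ∫ x, ω x * gd φ L i j c ρ (fun l => y x l + v) ∂μ

/-- The polynomial pair integral at scale one. -/
noncomputable def PK (μ : Measure X) (ω : X → ℝ) (y : X → Fin n → ℝ) (φ : ℕ → ℝ)
    (L : Finset (Fin n)) (c : Fin n → ℝ) (M : ℕ) (i j : Fin n) (v : ℝ) : ℝ :=
  ∫ x, ω x * pg φ L c M i j (fun l => y x l + v) ∂μ

end kern

/-! ### The three families -/

/-- The measure on `(0, 1) × ℝ ^ D`. -/
noncomputable def nu (D : ℕ) : Measure (ℝ × (Fin D → ℝ)) :=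
  (volume.restrict (Ioo (0 : ℝ) 1)).prod volume

/-- The functions `y l` on `(0, 1) × ℝ ^ D`. -/
noncomputable def yb (a : Fin D → ℝ) (z : Fin n → Fin D → ℝ) (x : ℝ × (Fin D → ℝ)) (l : Fin n) :
    ℝ :=
  ya a z (x.1, (x.2, 0)) l

/-- The measure on `(0, 1) × H`, `H = EuclideanSpace ℝ (Fin N)`. -/
noncomputable def muH (N : ℕ) : Measure (ℝ × EuclideanSpace ℝ (Fin N)) :=
  (volume.restrict (Ioo (0 : ℝ) 1)).prod volume

instance sfinite_mu : SFinite (mu D) := by unfold mu; infer_instance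

instance sfinite_nu : SFinite (nu D) := by unfold nu; infer_instance

instance sfinite_muH (N : ℕ) : SFinite (muH N) := by unfold muH; infer_instance

/-! ### Pencils with four zeros and four ones, apex lines -/

/-- At least four `a k = 0` and at least four `a k = 1`. -/
structure Pencil4 (a : Fin D → ℝ) : Prop where
  nonneg : ∀ k, 0 ≤ a k
  le_one : ∀ k, a k ≤ 1
  zeros : 4 ≤ (Finset.univ.filter fun k => a k = 0).card
  ones : 4 ≤ (Finset.univ.filter fun k => a k = 1).card

theorem Pencil4.pencil {a : Fin D → ℝ} (ha : Pencil4 a) : Pencil a :=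
  ⟨ha.nonneg, ha.le_one, by have := ha.zeros; omega, by have := ha.ones; omega⟩

/-- The function `H - h` in the strip `{(t, r)}` through the line `t ↦ (t, w₀ + t e, h₀ + t β)` in
the direction `(ω, η)`. -/
noncomputable def GS (a w₀ e ω : Fin D → ℝ) (h₀ β η t r : ℝ) : ℝ :=
  HH a 0 (w₀ + t • e + r • ω) t - h₀ - t * β - r * η

/-- Directions `ω` which are generic with respect to the line. -/
structure GenO (a w₀ e ω : Fin D → ℝ) : Prop where
  left : ∃ j k, a j = 1 ∧ a k = 1 ∧ w₀ j * ω k - w₀ k * ω j ≠ 0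
  right : ∃ j k, a j = 0 ∧ a k = 0 ∧ (w₀ j + e j) * ω k - (w₀ k + e k) * ω j ≠ 0

/-- The density of `|t - P| v t dt` under `H`, with the roots `x₁ h < P < x₂ h` of `H = h`. -/
noncomputable def Fl (v : ℝ → ℝ) (P : ℝ) (x₁ x₂ y₁ y₂ : ℝ → ℝ) (h : ℝ) : ℝ :=
  (x₂ h - P) * v (x₂ h) * y₂ h - (P - x₁ h) * v (x₁ h) * y₁ h

/-- The window integral with respect to the line. -/
noncomputable def SI (a w₀ e : Fin D → ℝ) (h₀ β δ : ℝ) (g : (Fin D → ℝ) × ℝ → ℝ≥0∞) (r ε : ℝ) :
    ℝ≥0∞ :=
  ∫⁻ s in Ioo (0 : ℝ) δ, ∫⁻ x, ENNReal.ofReal (om a x.1) *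
    g (r⁻¹ • (x.2 - w₀ - x.1 • e), r⁻¹ * (HH a 0 x.2 x.1 + s + ε - h₀ - x.1 * β)) ∂(nu D)

variable {E : Type*} [NormedAddCommGroup E] [InnerProductSpace ℝ E] [FiniteDimensional ℝ E]
  [MeasurableSpace E] [BorelSpace E]

/-- The functions `y l` of the universal family. -/
noncomputable def yH {N : ℕ} (ι₁ ι₂ : E →ₗ[ℝ] EuclideanSpace ℝ (Fin N)) (p q : Fin n → E)
    (x : ℝ × EuclideanSpace ℝ (Fin N)) (l : Fin n) : ℝ :=
  ‖x.2 - (√x.1 • ι₁ (p l) + √(1 - x.1) • ι₂ (q l))‖ ^ 2

/-- The polynomial volume functional at scale one. -/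
noncomputable def VP (p : Fin n → E) (φ : ℕ → ℝ) (c : Fin n → ℝ) (M : ℕ) (v : ℝ) : ℝ :=
  ∫ x : E, mul φ (fun l => (AL Finset.univ c M l).eval (Real.exp (-(‖x - p l‖ ^ 2 + v))))

end Pool.Agent.KneserLine
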