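import Pool.Agent.KneserLine.Avg

/-!
# Iterated integrals of the volume functionals

PROOF. Pointwise limit: for fixed `v`, `VI p φ c r v → V0 p φ c v` as `r → 0+` (see the first step
of `tendsto_int_VI` in `Pool/Agent/KneserCone/LimV.lean`; if it is private there, copy it). Bound
for `0 < r ≤ 1`: `exists_VI_small`, `Bd` with `measurable_VI`. `tendsto_VJ`: `tendsto_Jop_iter`
along `𝓝[>] 0`. `V0_le_of_Jop`: if `V0 p φ c 0 < V0 q φ c 0` then by `tendsto_V0` there are `κ, δ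
> 0` with `V0 p φ c v - V0 q φ c v ≤ -κ` for `0 ≤ v < δ`; take `ε = δ / (m + 1)`; by induction on
`l`, `(Jop ε)^[l] (V0 p - V0 q) v ≤ -κ ε ^ l` for `0 ≤ v`, `v + l ε < δ` (`V0` is bounded and
measurable in `v` on bounded intervals, `intervalIntegrable_V0`; translate `c` by `v`: `V0 p φ c
(v + s) = V0 p φ (c - v) s`), so `(Jop ε)^[m] (..) 0 < 0`.
-/

set_option autoImplicit false
set_option linter.unusedSectionVars false

namespace Pool.Agent.KneserLine

open MeasureTheory Set Filter Topology Module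
open scoped ENNReal
open Pool.Agent.Kneser Pool.Agent.KneserRank Pool.Agent.KneserCentre Pool.Agent.KneserCone

variable {D n : ℕ}

variable {E : Type*} [NormedAddCommGroup E] [InnerProductSpace ℝ E] [FiniteDimensional ℝ E]
  [MeasurableSpace E] [BorelSpace E]

private theorem cnt2_eq_VJ (p : Fin n → E) (φ : ℕ → ℝ) (c : Fin n → ℝ) (x : E) :
    φ (cnt2 p c x) = mul φ (fun l => if l ∈ Finset.univ.filter (fun i => ‖x - p i‖ ^ 2 ≤ c i)
      then (1 : ℝ) else 0) := by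
  rw [mul_indicator φ]
  rfl

private theorem abs_cnt_VJ (p : Fin n → E) {φ : ℕ → ℝ} (hφ0 : φ 0 = 0) (c : Fin n → ℝ)
    {s : ℝ} (hs : 0 ≤ s) (x : E) :
    ‖φ (cnt2 p (fun l => c l - s) x)‖ ≤ CC n φ * ∑ l, Real.exp (-‖x - p l‖ ^ 2 + c l) := by
  rw [cnt2_eq_VJ p φ, Real.norm_eq_abs]
  refine (abs_mul_le_sum hφ0 (fun l => ?_) (fun l => ?_)).trans ?_
  · split_ifs <;> norm_num
  · split_ifs <;> norm_num
  · refine mul_le_mul_of_nonneg_left (Finset.sum_le_sum fun l _ => ?_) (CC_nonneg n φ)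
    split_ifs with h
    · have h1 := (Finset.mem_filter.1 h).2
      exact Real.one_le_exp (by linarith)
    · exact (Real.exp_pos _).le

private theorem integrable_bd_VJ (p : Fin n → E) (φ : ℕ → ℝ) (c : Fin n → ℝ) :
    Integrable (fun x : E => CC n φ * ∑ l, Real.exp (-‖x - p l‖ ^ 2 + c l)) :=
  (integrable_finsetSum _ fun l _ => integrable_exp_norm (p l) (c l)).const_mul _

private theorem measurable_cnt_VJ (p : Fin n → E) (φ : ℕ → ℝ) (c : Fin n → ℝ) :
    Measurable (fun y : ℝ × E => φ (cnt2 p (fun l => c l - y.1) y.2)) := by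
  have h : (fun y : ℝ × E => cnt2 p (fun l => c l - y.1) y.2) =
      fun y => ∑ i, if ‖y.2 - p i‖ ^ 2 ≤ c i - y.1 then 1 else 0 := by
    funext y
    unfold cnt2
    rw [Finset.card_filter]
  have h1 : Measurable (fun y : ℝ × E => cnt2 p (fun l => c l - y.1) y.2) := by
    rw [h]
    refine Finset.measurable_sum _ fun i _ => ?_
    refine Measurable.ite (measurableSet_le ?_ ?_) measurable_const measurable_const
    · have h2 : Measurable fun x : E => ‖x - p i‖ ^ 2 :=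
        ((continuous_id.sub continuous_const).norm.pow 2).measurable
      exact h2.comp measurable_snd
    · exact measurable_const.sub measurable_fst
  exact (measurable_from_top (f := φ)).comp h1

private theorem tendsto_VI_VJ [Nontrivial E] (p : Fin n → E) {φ : ℕ → ℝ} (hφ0 : φ 0 = 0)
    (c : Fin n → ℝ) (s : ℝ) :
    Tendsto (fun r => VI p φ c r s) (𝓝[>] 0) (𝓝 (V0 p φ c s)) := by
  unfold VI V0
  refine tendsto_integral_filter_of_dominated_convergence
    (bound := fun x => CC n φ * ∑ l, Real.exp (-‖x - p l‖ ^ 2 + (c l - s))) ?_ ?_ ?_ ?_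
  · refine Eventually.of_forall fun r => ?_
    refine Continuous.aestronglyMeasurable ?_
    refine (continuous_mul φ).comp (continuous_pi fun l => continuous_bG.comp ?_)
    fun_prop
  · have h1 : Ioc (0 : ℝ) 1 ∈ 𝓝[>] (0 : ℝ) := Ioc_mem_nhdsGT one_pos
    filter_upwards [h1] with r hr
    refine Eventually.of_forall fun x => ?_
    rw [Real.norm_eq_abs]
    refine (abs_mul_le_sum hφ0 (fun l => bG_nonneg _) fun l => bG_le_one _).trans ?_
    refine mul_le_mul_of_nonneg_left (Finset.sum_le_sum fun l _ => ?_) (CC_nonneg n φ)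
    refine (bG_le_exp_max _).trans ?_
    rw [Real.exp_le_exp]
    set v := ‖x - p l‖ ^ 2 + s - c l with hv
    have h2 : v ≤ max (v / r) 0 := by
      rcases le_or_gt v 0 with h | h
      · exact h.trans (le_max_right _ _)
      · refine le_trans ?_ (le_max_left _ _)
        rw [le_div_iff₀ hr.1]
        nlinarith [hr.2]
    linarith
  · exact integrable_bd_VJ p φ (fun l => c l - s)
  · have hne : ∀ᵐ x : E, ∀ l, ‖x - p l‖ ^ 2 ≠ c l - s :=
      ae_all_iff.2 fun l => ae_ne_sphere (p l) (c l - s)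
    filter_upwards [hne] with x hx
    rw [cnt2_eq_VJ p φ]
    refine ((continuous_mul φ).tendsto _).comp (tendsto_pi_nhds.mpr fun l => ?_)
    rcases lt_or_gt_of_ne (hx l) with h | h
    · have hm : l ∈ Finset.univ.filter (fun i => ‖x - p i‖ ^ 2 ≤ c i - s) :=
        Finset.mem_filter.2 ⟨Finset.mem_univ l, h.le⟩
      rw [if_pos hm]
      exact tendsto_bG_neg (by linarith)
    · have hm : l ∉ Finset.univ.filter (fun i => ‖x - p i‖ ^ 2 ≤ c i - s) :=
        fun hh => absurd (Finset.mem_filter.1 hh).2 (not_le.2 h)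
      rw [if_neg hm]
      exact tendsto_bG_pos (by linarith)

private theorem abs_V0_VJ (p : Fin n → E) {φ : ℕ → ℝ} (hφ0 : φ 0 = 0) (c : Fin n → ℝ)
    {s : ℝ} (hs : 0 ≤ s) :
    ‖V0 p φ c s‖ ≤ ∫ x : E, CC n φ * ∑ l, Real.exp (-‖x - p l‖ ^ 2 + c l) :=
  norm_integral_le_of_norm_le (integrable_bd_VJ p φ c)
    (Eventually.of_forall fun x => abs_cnt_VJ p hφ0 c hs x)

private theorem measurable_V0_VJ (p : Fin n → E) (φ : ℕ → ℝ) (c : Fin n → ℝ) :
    StronglyMeasurable (V0 p φ c) := by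
  have h := (measurable_cnt_VJ p φ c).stronglyMeasurable
  exact h.integral_prod_right'

private theorem bd_V0_VJ (p q : Fin n → E) {φ : ℕ → ℝ} (hφ0 : φ 0 = 0) (c : Fin n → ℝ) :
    ∃ B : ℝ, Bd (fun v => V0 p φ c v - V0 q φ c v) B := by
  have h1 : Measurable (V0 p φ c) := (measurable_V0_VJ p φ c).measurable
  have h2 : Measurable (V0 q φ c) := (measurable_V0_VJ q φ c).measurable
  refine ⟨(∫ x : E, CC n φ * ∑ l, Real.exp (-‖x - p l‖ ^ 2 + c l)) +
    ∫ x : E, CC n φ * ∑ l, Real.exp (-‖x - q l‖ ^ 2 + c l), h1.sub h2, fun v hv => ?_⟩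
  have h3 := abs_V0_VJ p hφ0 c hv
  have h4 := abs_V0_VJ q hφ0 c hv
  rw [Real.norm_eq_abs] at h3 h4
  exact (abs_sub _ _).trans (add_le_add h3 h4)

private theorem measurable_VI2_VJ (p : Fin n → E) (φ : ℕ → ℝ) (c : Fin n → ℝ) (r : ℝ) :
    Measurable fun v => VI p φ c r v := by
  have h1 : Measurable fun x : ℝ × ℝ => VI p φ c x.1 x.2 := (measurable_VI p φ c).measurable
  have h2 : Measurable fun v : ℝ => (r, v) := measurable_const.prodMk measurable_id
  have h3 := h1.comp h2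
  exact h3

private theorem bd_VI_VJ (p q : Fin n → E) {φ : ℕ → ℝ} (hφ0 : φ 0 = 0) (c : Fin n → ℝ) :
    ∃ B : ℝ, 0 ≤ B ∧ ∀ r : ℝ, 0 < r → r ≤ 1 →
      Bd (fun v => VI p φ c r v - VI q φ c r v) B := by
  obtain ⟨C, hC, h⟩ := exists_VI_small p hφ0 (∑ l, |c l|)
  obtain ⟨C', hC', h'⟩ := exists_VI_small q hφ0 (∑ l, |c l|)
  have hc : ∀ l, |c l| ≤ ∑ l, |c l| := fun l =>
    Finset.single_le_sum (f := fun l => |c l|) (fun l _ => abs_nonneg _) (Finset.mem_univ l)
  refine ⟨C + C', add_nonneg hC hC', fun r hr hr1 => ⟨?_, fun v hv => ?_⟩⟩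
  · exact (measurable_VI2_VJ p φ c r).sub (measurable_VI2_VJ q φ c r)
  · refine (abs_sub _ _).trans (add_le_add ?_ ?_)
    · exact (h c hc r hr hr1 v).trans
        (mul_le_of_le_one_right hC (Real.exp_le_one_iff.2 (by linarith)))
    · exact (h' c hc r hr hr1 v).trans
        (mul_le_of_le_one_right hC' (Real.exp_le_one_iff.2 (by linarith)))

private theorem integrable_shift_VJ {g : ℝ → ℝ} {B ε v : ℝ} (h : Bd g B) (hε : 0 ≤ ε)
    (hv : 0 ≤ v) : IntervalIntegrable (fun s => g (v + s)) volume 0 ε := by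
  rw [intervalIntegrable_iff_integrableOn_Ioc_of_le hε]
  refine Measure.integrableOn_of_bounded (M := B) (by simp)
    (h.meas.comp (measurable_const.add measurable_id)).aestronglyMeasurable ?_
  refine (ae_restrict_iff' measurableSet_Ioc).2 (Eventually.of_forall fun s hs => ?_)
  rw [Real.norm_eq_abs]
  exact h.bound _ (by linarith [hs.1])

private theorem jop_neg_VJ {f : ℝ → ℝ} {B κ δ ε : ℝ} (h : Bd f B) (hε : 0 < ε)
    (hf : ∀ v, 0 ≤ v → v < δ → f v ≤ -κ) (l : ℕ) :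
    ∀ v, 0 ≤ v → v + l * ε < δ → (Jop ε)^[l] f v ≤ -(κ * ε ^ l) := by
  induction l with
  | zero =>
    intro v hv hv1
    simp only [Function.iterate_zero, id_eq, pow_zero, mul_one]
    exact hf v hv (by simpa using hv1)
  | succ l ih =>
    intro v hv hv1
    rw [Function.iterate_succ_apply']
    unfold Jop
    push_cast at hv1
    have h1 : ∫ s in (0 : ℝ)..ε, (Jop ε)^[l] f (v + s) ≤
        ∫ _s in (0 : ℝ)..ε, (-(κ * ε ^ l)) := by
      refine intervalIntegral.integral_mono_on hε.le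
        (integrable_shift_VJ (h.jop hε.le l) hε.le hv) intervalIntegrable_const fun s hs => ?_
      exact ih (v + s) (by linarith [hs.1]) (by nlinarith [hs.2])
    refine h1.trans_eq ?_
    rw [intervalIntegral.integral_const, smul_eq_mul, pow_succ]
    ring

theorem measurable_VJ (p q : Fin n → E) (φ : ℕ → ℝ) (c : Fin n → ℝ) (ε : ℝ) (m : ℕ) :
    Measurable fun r => (Jop ε)^[m] (fun v => VI p φ c r v - VI q φ c r v) 0 := by
  have h0 : Measurable fun x : ℝ × ℝ => VI p φ c x.1 x.2 := (measurable_VI p φ c).measurable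
  have h0' : Measurable fun x : ℝ × ℝ => VI q φ c x.1 x.2 := (measurable_VI q φ c).measurable
  have h1 : Measurable (Function.uncurry fun r v => VI p φ c r v - VI q φ c r v) := by
    have h2 := h0.sub h0'
    exact h2
  have h3 : Measurable fun r : ℝ => (r, (0 : ℝ)) := measurable_id.prodMk measurable_const
  have h4 := (measurable_Jop_iter h1 ε m).comp h3
  exact h4

theorem exists_VJ_bound (p q : Fin n → E) {φ : ℕ → ℝ} (hφ0 : φ 0 = 0) (c : Fin n → ℝ) {ε : ℝ}
    (hε : 0 ≤ ε) (m : ℕ) :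
    ∃ B : ℝ, 0 ≤ B ∧ ∀ r : ℝ, 0 < r → r ≤ 1 →
      |(Jop ε)^[m] (fun v => VI p φ c r v - VI q φ c r v) 0| ≤ B := by
  obtain ⟨B, hB, h⟩ := bd_VI_VJ p q hφ0 c
  refine ⟨ε ^ m * B, mul_nonneg (pow_nonneg hε m) hB, fun r hr hr1 => ?_⟩
  exact ((h r hr hr1).jop hε m).bound 0 le_rfl

theorem tendsto_VJ [Nontrivial E] (p q : Fin n → E) {φ : ℕ → ℝ} (hφ0 : φ 0 = 0)
    (c : Fin n → ℝ) {ε : ℝ} (hε : 0 ≤ ε) (m : ℕ) :
    Tendsto (fun r => (Jop ε)^[m] (fun v => VI p φ c r v - VI q φ c r v) 0) (𝓝[>] 0)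
      (𝓝 ((Jop ε)^[m] (fun v => V0 p φ c v - V0 q φ c v) 0)) := by
  obtain ⟨B, hB, h⟩ := bd_VI_VJ p q hφ0 c
  have h1 : Ioc (0 : ℝ) 1 ∈ 𝓝[>] (0 : ℝ) := Ioc_mem_nhdsGT one_pos
  have h2 : ∀ᶠ r : ℝ in 𝓝[>] 0, Bd (fun v => VI p φ c r v - VI q φ c r v) B := by
    filter_upwards [h1] with r hr
    exact h r hr.1 hr.2
  exact tendsto_Jop_iter hε h2
    (fun v _ => (tendsto_VI_VJ p hφ0 c v).sub (tendsto_VI_VJ q hφ0 c v)) m le_rfl

theorem V0_le_of_Jop [Nontrivial E] (p q : Fin n → E) {φ : ℕ → ℝ} (hφ0 : φ 0 = 0)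
    (c : Fin n → ℝ) (m : ℕ)
    (h : ∀ ε : ℝ, 0 < ε → 0 ≤ (Jop ε)^[m] (fun v => V0 p φ c v - V0 q φ c v) 0) :
    V0 q φ c 0 ≤ V0 p φ c 0 := by
  by_contra hcon
  rw [not_le] at hcon
  set κ := (V0 q φ c 0 - V0 p φ c 0) / 2 with hκ
  have hκ0 : 0 < κ := by rw [hκ]; linarith
  have h1 := (tendsto_V0 p hφ0 c).sub (tendsto_V0 q hφ0 c)
  have h2 : ∀ᶠ s : ℝ in 𝓝[>] 0, V0 p φ c s - V0 q φ c s < -κ :=
    h1.eventually (gt_mem_nhds (by linarith))
  obtain ⟨δ, hδ, h3⟩ := mem_nhdsGT_iff_exists_Ioo_subset.1 h2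
  have hδ0 : (0 : ℝ) < δ := hδ
  obtain ⟨B, hB⟩ := bd_V0_VJ p q hφ0 c
  have hm : (0 : ℝ) < m + 1 := by positivity
  have hε : 0 < δ / (m + 1) := div_pos hδ0 hm
  have h4 := h (δ / (m + 1)) hε
  have h5 := jop_neg_VJ hB hε (κ := κ) (δ := δ) (fun v hv hvδ => by
    rcases hv.eq_or_lt with h0 | h0
    · rw [← h0]
      linarith
    · exact le_of_lt (h3 ⟨h0, hvδ⟩)) m 0 le_rfl (by
    rw [zero_add, mul_div_assoc', div_lt_iff₀ hm]
    nlinarith)
  have h6 : 0 < κ * (δ / (m + 1)) ^ m := by positivity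
  linarith

end Pool.Agent.KneserLine
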