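import Pool.Agent.KneserLine.Cases
import Pool.Agent.KneserLine.VJ

/-!
# The local rank condition in all dimensions
-/

set_option autoImplicit false
set_option linter.unusedSectionVars false

namespace Pool.Agent.KneserLine

open MeasureTheory Set Filter Topology Module Metric
open Pool.Agent.Kneser Pool.Agent.KneserRank Pool.Agent.KneserCentre Pool.Agent.KneserCone

variable {D n : ℕ}

variable {E : Type*} [NormedAddCommGroup E] [InnerProductSpace ℝ E] [FiniteDimensional ℝ E]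
  [MeasurableSpace E] [BorelSpace E]

section pair

variable {N : ℕ} {ι₁ ι₂ : E →ₗ[ℝ] EuclideanSpace ℝ (Fin N)}

theorem pair_ok [Nontrivial E] (hN : N = 3 * finrank ℝ E + 4)
    (hι : ∀ x y : E, ‖ι₁ x + ι₂ y‖ ^ 2 = ‖x‖ ^ 2 + ‖y‖ ^ 2) (p q : Fin n → E)
    (hpq : ∀ i j, dist (q i) (q j) ≤ dist (p i) (p j)) {φ : ℕ → ℝ}
    (hφ0 : φ 0 = 0) (hφ : ∀ k, φ (k + 2) - 2 * φ (k + 1) + φ k ≤ 0) (c : Fin n → ℝ)
    {i j : Fin n} (hlt : dist (q i) (q j) < dist (p i) (p j)) (L : Finset (Fin n)) (hi : i ∈ L)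
    (hj : j ∈ L) (hdis : ∀ k, k ∉ L →
      ¬ ∃ y : E, ‖y - q i‖ ^ 2 ≤ c i ∧ ‖y - q j‖ ^ 2 ≤ c j ∧ ‖y - q k‖ ^ 2 ≤ c k)
    (hL : finrank ℝ (Submodule.span ℝ ((fun k : Fin n =>
      ((1 : ℝ), p k, q k, ‖p k‖ ^ 2 - c k, ‖q k‖ ^ 2 - c k)) '' (L : Set (Fin n)))) ≤
      finrank ℝ E + 5) {ε : ℝ} (hε : 0 ≤ ε) :
    PairOK (finrank ℝ E + 3) (TT ι₁ ι₂ p q φ i j c (finrank ℝ E + 1) ε) := by
  classical
  have hij : i ≠ j := by
    rintro rfl
    simp at hlt
  have hlt' : ‖q i - q j‖ < ‖p i - p j‖ := by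
    rw [← dist_eq_norm, ← dist_eq_norm]; exact hlt
  -- the localised configuration
  set p' : Fin n → E := fun k => if k ∈ L then p k else p i with hp'
  set q' : Fin n → E := fun k => if k ∈ L then q k else q i with hq'
  have hp1 : ∀ k ∈ L, p' k = p k := fun k hk => by simp only [hp', hk, if_true]
  have hq1 : ∀ k ∈ L, q' k = q k := fun k hk => by simp only [hq', hk, if_true]
  have hoff : ∀ k, k ∉ L → p' k = p' i ∧ q' k = q' i := by
    intro k hk
    rw [hp1 i hi, hq1 i hi]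
    simp only [hp', hq', hk, if_false, and_self]
  have hL' : finrank ℝ (Submodule.span ℝ ((fun k : Fin n =>
      ((1 : ℝ), p' k, q' k, ‖p' k‖ ^ 2 - c k, ‖q' k‖ ^ 2 - c k)) '' (L : Set (Fin n)))) ≤
      finrank ℝ E + 5 := by
    have e : (fun k : Fin n =>
        ((1 : ℝ), p' k, q' k, ‖p' k‖ ^ 2 - c k, ‖q' k‖ ^ 2 - c k)) '' (L : Set (Fin n)) =
        (fun k : Fin n =>
        ((1 : ℝ), p k, q k, ‖p k‖ ^ 2 - c k, ‖q k‖ ^ 2 - c k)) '' (L : Set (Fin n)) := by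
      refine Set.image_congr fun k hk => ?_
      rw [hp1 k hk, hq1 k hk]
    rw [e]; exact hL
  have hlt'' : ‖q' i - q' j‖ < ‖p' i - p' j‖ := by
    rw [hp1 i hi, hp1 j hj, hq1 i hi, hq1 j hj]; exact hlt'
  obtain ⟨B, C₂, hBm, hBb, hBe, hBp⟩ :=
    cases_all hN hι p' q' hφ0 hφ c hi hj hij hlt'' hoff hL' hε
  have hK := kern_H hι p q (s := fun i j => ‖p i - p j‖ ^ 2) (r := fun i j => ‖q i - q j‖ ^ 2)
    (fun _ _ => rfl) (fun _ _ => rfl)
  obtain ⟨C₁, hC₁⟩ := trunc_bound (D := finrank ℝ E + 3) hK (kappa_H hN) p q (fun _ _ => rfl)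
    (fun _ _ => rfl) hlt' φ Finset.univ c hε (by omega)
  -- the separation
  have hδ : ∃ δ : ℝ, 0 < δ ∧ ∀ k, k ∉ L → ∀ x : ℝ × EuclideanSpace ℝ (Fin N),
      x.1 ∈ Ioo (0 : ℝ) 1 → δ ≤ max (yH ι₁ ι₂ p q x i - c i)
        (max (yH ι₁ ι₂ p q x j - c j) (yH ι₁ ι₂ p q x k - c k)) := by
    have h1 : ∀ k : Fin n, ∃ δ : ℝ, 0 < δ ∧ (k ∉ L → ∀ x : ℝ × EuclideanSpace ℝ (Fin N),
        x.1 ∈ Ioo (0 : ℝ) 1 → δ ≤ max (yH ι₁ ι₂ p q x i - c i)
          (max (yH ι₁ ι₂ p q x j - c j) (yH ι₁ ι₂ p q x k - c k))) := by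
      intro k
      by_cases hk : k ∈ L
      · exact ⟨1, one_pos, fun h => absurd hk h⟩
      · obtain ⟨δ, h0, h2⟩ := exists_disjH (N := N) (by omega) hι p q hpq c (hdis k hk)
        exact ⟨δ, h0, fun _ => h2⟩
    choose δ h0 h2 using h1
    have hne : (Finset.univ : Finset (Fin n)).Nonempty := ⟨i, Finset.mem_univ i⟩
    refine ⟨Finset.univ.inf' hne δ, ?_, ?_⟩
    · rw [Finset.lt_inf'_iff]
      exact fun k _ => h0 k
    · intro k hk x hx
      exact (Finset.inf'_le δ (Finset.mem_univ k)).trans (h2 k hk x hx)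
  obtain ⟨δ, hδ0, hδ1⟩ := hδ
  have hsep : ∀ᵐ x ∂(muH N), ∀ k, k ∉ L → δ ≤ max (yH ι₁ ι₂ p q x i - c i)
      (max (yH ι₁ ι₂ p q x j - c j) (yH ι₁ ι₂ p q x k - c k)) := by
    filter_upwards [ae_mem_H N] with x hx
    exact fun k hk => hδ1 k hk x hx
  refine pairOK_of (by omega) (measurable_trunc hK φ Finset.univ i j c ε _) hBm hC₁ hBb ?_ hBp
  have h1 := tendsto_Dop_iter (l := 𝓝[>] (0 : ℝ)) (f := fun _ => (0 : ℝ)) hε
    (fun v hv => tendsto_kerr hK φ hi hj hδ0 hsep hv) (finrank ℝ E + 1) (le_refl (0 : ℝ))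
  rw [Dop_iter_zero] at h1
  refine h1.congr' ?_
  have h01 : ∀ᶠ r : ℝ in 𝓝[>] (0 : ℝ), r ≤ 1 := by
    have : ∀ᶠ r : ℝ in 𝓝 (0 : ℝ), r ≤ 1 := eventually_le_nhds one_pos
    exact this.filter_mono nhdsWithin_le_nhds
  filter_upwards [self_mem_nhdsWithin, h01] with r hr hr1
  rw [Dop_iter_sub, hBe r hr hr1]
  unfold TT
  rw [if_pos hr1]
  congr 1
  refine congrArg (fun f => (Dop ε)^[finrank ℝ E + 1] f 0) ?_
  funext v
  refine GK_congr φ hi hj (fun _ _ => rfl) (fun x l hl => ?_) r v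
  unfold yH
  rw [hp1 l hl, hq1 l hl]

end pair

/-- The inequality for the counting function. -/
theorem V0_le_line [Nontrivial E] (p q : Fin n → E)
    (hpq : ∀ i j, dist (q i) (q j) ≤ dist (p i) (p j)) {φ : ℕ → ℝ}
    (hφ0 : φ 0 = 0) (hφ : ∀ k, φ (k + 2) - 2 * φ (k + 1) + φ k ≤ 0) (c : Fin n → ℝ)
    (hloc : ∀ i j, dist (q i) (q j) < dist (p i) (p j) → ∃ L : Finset (Fin n), i ∈ L ∧ j ∈ L ∧
      (∀ k, k ∉ L →
        ¬ ∃ y : E, ‖y - q i‖ ^ 2 ≤ c i ∧ ‖y - q j‖ ^ 2 ≤ c j ∧ ‖y - q k‖ ^ 2 ≤ c k) ∧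
      finrank ℝ (Submodule.span ℝ ((fun k : Fin n =>
        ((1 : ℝ), p k, q k, ‖p k‖ ^ 2 - c k, ‖q k‖ ^ 2 - c k)) '' (L : Set (Fin n)))) ≤
        finrank ℝ E + 5) :
    V0 q φ c 0 ≤ V0 p φ c 0 := by
  set d := finrank ℝ E with hd
  set N : ℕ := 3 * d + 4 with hN
  obtain ⟨ι₁, ι₂, hι⟩ := exists_embed (E := E) N (by omega)
  refine V0_le_of_Jop p q hφ0 c (d + 1) fun ε hε => ?_
  have hD3 : 3 ≤ d + 3 := by omega
  set T : Fin n → Fin n → ℝ := fun i j => (‖p i - p j‖ ^ 2 - ‖q i - q j‖ ^ 2) / 2 with hT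
  have hT0 : ∀ i j, 0 ≤ T i j := by
    intro i j
    have h1 := hpq i j
    rw [dist_eq_norm, dist_eq_norm] at h1
    have h2 : ‖q i - q j‖ ^ 2 ≤ ‖p i - p j‖ ^ 2 := by gcongr
    rw [hT]
    simp only
    linarith
  have hTz : ∀ i j, ¬ dist (q i) (q j) < dist (p i) (p j) → T i j = 0 := by
    intro i j h
    have h1 : dist (q i) (q j) = dist (p i) (p j) := le_antisymm (hpq i j) (not_lt.mp h)
    rw [dist_eq_norm, dist_eq_norm] at h1
    rw [hT]
    simp only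
    rw [h1]
    ring
  set G : Fin n → Fin n → ℝ → ℝ := fun i j r => TT ι₁ ι₂ p q φ i j c (d + 1) ε r with hG
  -- the pairs
  have hpair : ∀ i j, dist (q i) (q j) < dist (p i) (p j) → PairOK (d + 3) (G i j) := by
    intro i j h
    obtain ⟨L, hi, hj, hdis, hL⟩ := hloc i j h
    exact pair_ok hN hι p q hpq hφ0 hφ c h L hi hj hdis hL hε.le
  have hpair' : ∀ i j, ∃ (C : ℝ) (e : ℕ → ℝ), Tendsto e atTop (𝓝 0) ∧
      (dist (q i) (q j) < dist (p i) (p j) → Measurable (G i j) ∧ (∀ r : ℝ, 0 < r →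
        |G i j r| ≤ C * (1 + r) ^ ((((d + 3 : ℕ) : ℝ) - 3) / 2)) ∧
      ∀ k : ℕ, e k ≤ ((k : ℝ) + 1) * ∫ r in Ioi (0 : ℝ), wr (d + 3) ((k : ℝ) + 1) r *
        G i j r) := by
    intro i j
    by_cases h : dist (q i) (q j) < dist (p i) (p j)
    · obtain ⟨hm, ⟨C, hC⟩, e, he, he2⟩ := hpair i j h
      exact ⟨C, e, he, fun _ => ⟨hm, hC, he2⟩⟩
    · exact ⟨0, fun _ => 0, tendsto_const_nhds, fun h' => absurd h' h⟩
  choose C e he hCe using hpair'
  -- the identity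
  have hK := kern_H hι p q (s := fun i j => ‖p i - p j‖ ^ 2) (r := fun i j => ‖q i - q j‖ ^ 2)
    (fun _ _ => rfl) (fun _ _ => rfl)
  set A : ℝ → ℝ := fun r => if r ≤ 1 then 1 * Real.pi ^ (d + 1 + 1) *
    (Jop ε)^[d + 1] (fun v => VI p φ c r v - VI q φ c r v) 0 else 0 with hA
  have hAid : ∀ r : ℝ, 0 < r → A r = ∑ i, ∑ j, T i j * G i j r := by
    intro r hr
    rw [hA, hG]
    simp only
    unfold TT
    split_ifs with h1
    · exact kident hK (kappa_H hN) p q (fun _ _ => rfl) (fun _ _ => rfl) hφ0 c hr hε.le le_rfl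
    · simp
  have hAm : AEStronglyMeasurable A (volume.restrict (Ioi (0 : ℝ))) := by
    have h1 : Measurable A := Measurable.ite measurableSet_Iic
      ((measurable_VJ p q φ c ε (d + 1)).const_mul _) measurable_const
    exact h1.aestronglyMeasurable
  obtain ⟨B, hB0, hB⟩ := exists_VJ_bound p q hφ0 c hε.le (d + 1)
  have hAb : ∀ r : ℝ, 0 < r → |A r| ≤
      (1 * Real.pi ^ (d + 1 + 1) * B) * (1 + r) ^ ((((d + 3 : ℕ) : ℝ) - 3) / 2) := by
    intro r hr
    have h1 := one_le_pow_rate hD3 hr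
    have h2 : 0 ≤ 1 * Real.pi ^ (d + 1 + 1) * B := by positivity
    rw [hA]
    simp only
    split_ifs with hr1
    · rw [abs_mul, abs_of_nonneg (by positivity : (0 : ℝ) ≤ 1 * Real.pi ^ (d + 1 + 1))]
      exact (mul_le_mul_of_nonneg_left (hB r hr hr1) (by positivity)).trans
        (le_mul_of_one_le_right h2 h1)
    · rw [abs_zero]
      exact mul_nonneg h2 (by linarith)
  have hAt : Tendsto A (𝓝[>] 0) (𝓝 (1 * Real.pi ^ (d + 1 + 1) *
      (Jop ε)^[d + 1] (fun v => V0 p φ c v - V0 q φ c v) 0)) := by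
    have h1 := (tendsto_VJ p q hφ0 c hε.le (d + 1)).const_mul (1 * Real.pi ^ (d + 1 + 1))
    refine h1.congr' ?_
    have h01 : ∀ᶠ r : ℝ in 𝓝[>] (0 : ℝ), r ≤ 1 := by
      have : ∀ᶠ r : ℝ in 𝓝 (0 : ℝ), r ≤ 1 := eventually_le_nhds one_pos
      exact this.filter_mono nhdsWithin_le_nhds
    filter_upwards [h01] with r hr1
    rw [hA]
    simp only
    rw [if_pos hr1]
  have hlim := tendsto_abel hD3 hAm hAb hAt
  -- the lower bound
  have hlow : ∀ k : ℕ, ∑ i, ∑ j, T i j * e i j k ≤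
      ((k : ℝ) + 1) * ∫ r in Ioi (0 : ℝ), wr (d + 3) ((k : ℝ) + 1) r * A r := by
    intro k
    have hk1 : (1 : ℝ) ≤ (k : ℝ) + 1 := by
      have : (0 : ℝ) ≤ k := Nat.cast_nonneg k
      linarith
    have hi : ∀ i j, IntegrableOn (fun r => T i j * (wr (d + 3) ((k : ℝ) + 1) r *
        G i j r)) (Ioi (0 : ℝ)) := by
      intro i j
      by_cases h : dist (q i) (q j) < dist (p i) (p j)
      · exact (integrableOn_wr_mul hD3 (hCe i j h).1.aestronglyMeasurable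
          (hCe i j h).2.1 hk1).const_mul _
      · rw [hTz i j h]
        simp only [zero_mul]
        exact integrableOn_zero
    have h1 : ∫ r in Ioi (0 : ℝ), wr (d + 3) ((k : ℝ) + 1) r * A r =
        ∑ i, ∑ j, T i j * ∫ r in Ioi (0 : ℝ), wr (d + 3) ((k : ℝ) + 1) r * G i j r := by
      have h2 : ∫ r in Ioi (0 : ℝ), wr (d + 3) ((k : ℝ) + 1) r * A r =
          ∫ r in Ioi (0 : ℝ), ∑ i, ∑ j, T i j * (wr (d + 3) ((k : ℝ) + 1) r * G i j r) := by
        refine setIntegral_congr_fun measurableSet_Ioi fun r hr => ?_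
        rw [hAid r hr, Finset.mul_sum]
        refine Finset.sum_congr rfl fun i _ => ?_
        rw [Finset.mul_sum]
        refine Finset.sum_congr rfl fun j _ => ?_
        ring
      rw [h2, integral_finsetSum _ fun i _ => integrable_finsetSum _ fun j _ => hi i j]
      refine Finset.sum_congr rfl fun i _ => ?_
      rw [integral_finsetSum _ fun j _ => hi i j]
      refine Finset.sum_congr rfl fun j _ => ?_
      rw [integral_const_mul]
    rw [h1, Finset.mul_sum]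
    refine Finset.sum_le_sum fun i _ => ?_
    rw [Finset.mul_sum]
    refine Finset.sum_le_sum fun j _ => ?_
    by_cases h : dist (q i) (q j) < dist (p i) (p j)
    · have h3 := mul_le_mul_of_nonneg_left ((hCe i j h).2.2 k) (hT0 i j)
      refine h3.trans (le_of_eq ?_)
      ring
    · rw [hTz i j h]
      simp
  have he0 : Tendsto (fun k => ∑ i, ∑ j, T i j * e i j k) atTop (𝓝 0) := by
    have h1 : Tendsto (fun k => ∑ i, ∑ j, T i j * e i j k) atTop
        (𝓝 (∑ i : Fin n, ∑ j : Fin n, T i j * 0)) :=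
      tendsto_finsetSum _ fun i _ => tendsto_finsetSum _ fun j _ => (he i j).const_mul _
    simpa using h1
  have hfin := le_of_tendsto_of_tendsto' he0 hlim hlow
  have hw := integral_wr_pos (D := d + 3) hD3
  have h4 := nonneg_of_mul_nonneg_left hfin hw
  have h5 : (0 : ℝ) < 1 * Real.pi ^ (d + 1 + 1) := by positivity
  exact nonneg_of_mul_nonneg_right h4 h5

/-- The theorem. -/
theorem weighted_line (p q : Fin n → E) (ρ τ : Fin n → ℝ)
    (h : ∀ i j, dist (q i) (q j) ≤ dist (p i) (p j)) (hρ : ∀ i, 0 ≤ ρ i)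
    (hloc : ∀ i j, dist (q i) (q j) < dist (p i) (p j) →
      finrank ℝ (Submodule.span ℝ ((fun k : Fin n =>
        ((1 : ℝ), p k, q k, ‖p k‖ ^ 2 - ρ k ^ 2, ‖q k‖ ^ 2 - ρ k ^ 2)) ''
        {k | (closedBall (q i) (ρ i) ∩ closedBall (q j) (ρ j) ∩
          closedBall (q k) (ρ k)).Nonempty})) ≤ finrank ℝ E + 5)
    (hτ : Antitone τ) :
    ∑ k : Fin n, τ k * (volume {x : E | k.val + 1 ≤ num q ρ x}).toReal ≤
      ∑ k : Fin n, τ k * (volume {x : E | k.val + 1 ≤ num p ρ x}).toReal := by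
  classical
  rcases subsingleton_or_nontrivial E with hX | hX
  · have : q = p := funext fun i => Subsingleton.elim _ _
    rw [this]
  refine weighted_of_num p q ρ τ hρ hτ fun φ hφ0 hφ => ?_
  rw [← V0_eq_num q φ ρ hρ, ← V0_eq_num p φ ρ hρ]
  refine V0_le_line p q h hφ0 hφ _ fun i j hij => ?_
  set M : Set (Fin n) := {k | (closedBall (q i) (ρ i) ∩ closedBall (q j) (ρ j) ∩
          closedBall (q k) (ρ k)).Nonempty} with hM
  have hmem : ∀ k, k ∈ M ↔ ∃ y : E, ‖y - q i‖ ^ 2 ≤ ρ i ^ 2 ∧ ‖y - q j‖ ^ 2 ≤ ρ j ^ 2 ∧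
      ‖y - q k‖ ^ 2 ≤ ρ k ^ 2 := by
    intro k
    have e : ∀ (y : E) l, y ∈ closedBall (q l) (ρ l) ↔ ‖y - q l‖ ^ 2 ≤ ρ l ^ 2 := by
      intro y l
      rw [mem_closedBall, dist_eq_norm, sq_le_sq₀ (norm_nonneg _) (hρ l)]
    constructor
    · rintro ⟨y, ⟨hy1, hy2⟩, hy3⟩
      exact ⟨y, (e y i).mp hy1, (e y j).mp hy2, (e y k).mp hy3⟩
    · rintro ⟨y, hy1, hy2, hy3⟩
      exact ⟨y, ⟨(e y i).mpr hy1, (e y j).mpr hy2⟩, (e y k).mpr hy3⟩
  refine ⟨insert i (insert j M.toFinset), by simp, by simp, ?_, ?_⟩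
  · intro k hk hy
    refine hk ?_
    rw [Finset.mem_insert, Finset.mem_insert, Set.mem_toFinset]
    exact Or.inr (Or.inr ((hmem k).mpr hy))
  · rcases M.eq_empty_or_nonempty with h0 | ⟨k, hk⟩
    · have e1 : ((insert i (insert j M.toFinset) : Finset (Fin n)) : Set (Fin n)) =
          (({i, j} : Finset (Fin n)) : Set (Fin n)) := by
        simp [h0]
      rw [e1, ← Finset.coe_image]
      refine (finrank_span_finset_le_card _).trans ?_
      refine Finset.card_image_le.trans (Finset.card_le_two.trans ?_)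
      omega
    · obtain ⟨y, hy1, hy2, hy3⟩ := (hmem k).mp hk
      have hiN : i ∈ M := (hmem i).mpr ⟨y, hy1, hy2, hy1⟩
      have hjN : j ∈ M := (hmem j).mpr ⟨y, hy1, hy2, hy2⟩
      have e1 : ((insert i (insert j M.toFinset) : Finset (Fin n)) : Set (Fin n)) = M := by
        ext l
        simp only [Finset.coe_insert, Set.coe_toFinset, Set.mem_insert_iff]
        constructor
        · rintro (rfl | rfl | hl)
          · exact hiN
          · exact hjN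
          · exact hl
        · exact fun hl => Or.inr (Or.inr hl)
      rw [e1]
      exact hloc i j hij

end Pool.Agent.KneserLine
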