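import Pool.Agent.KneserLine.Defs

/-!
# Almost all directions are generic

PROOF. Let `w₀ j ≠ 0`, `a j = 1`, and choose `k ≠ j` with `a k = 1` (`Pencil` gives three ones).
For fixed values of the other coordinates `w₀ j ω k - w₀ k ω j = 0` determines `ω k`; so the
exceptional set is the kernel of the nonzero linear functional `ω ↦ w₀ j ω k - w₀ k ω j`, a null
set (`Measure.addHaar_submodule`, or see `Pool/Agent/KneserCone/GenAe.lean`). Similarly on the
right. Pass to the product with `Measure.quasiMeasurePreserving_fst`.ae or `Measure.ae_prod`.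
-/

set_option autoImplicit false
set_option linter.unusedSectionVars false

namespace Pool.Agent.KneserLine

open MeasureTheory Set Filter Topology Module
open scoped ENNReal
open Pool.Agent.Kneser Pool.Agent.KneserRank Pool.Agent.KneserCentre Pool.Agent.KneserCone

variable {D n : ℕ}

private theorem ae_lin_GenAe4 {α β : ℝ} {j k : Fin D} (hjk : k ≠ j) (h : α ≠ 0) :
    ∀ᵐ U : (Fin D → ℝ) × ℝ, α * U.1 k - β * U.1 j ≠ 0 := by
  let L : ((Fin D → ℝ) × ℝ) →ₗ[ℝ] ℝ :=
    { toFun := fun U => α * U.1 k - β * U.1 j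
      map_add' := by
        intro U V
        simp only [Prod.fst_add, Pi.add_apply]
        ring
      map_smul' := by
        intro c U
        simp only [Prod.smul_fst, Pi.smul_apply, smul_eq_mul, RingHom.id_apply]
        ring }
  have hL : LinearMap.ker L ≠ ⊤ := by
    intro htop
    have h1 : ((Pi.single k 1, 0) : (Fin D → ℝ) × ℝ) ∈ LinearMap.ker L := by
      rw [htop]
      exact Submodule.mem_top
    have h2 : α * (Pi.single k (1 : ℝ) : Fin D → ℝ) k -
        β * (Pi.single k (1 : ℝ) : Fin D → ℝ) j = 0 := LinearMap.mem_ker.1 h1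
    rw [Pi.single_eq_same, Pi.single_eq_of_ne hjk.symm, mul_one, mul_zero, sub_zero] at h2
    exact h h2
  have hm : (volume : Measure ((Fin D → ℝ) × ℝ)).IsAddHaarMeasure :=
    Measure.prod.instIsAddHaarMeasure _ _
  have h1 := Measure.addHaar_submodule (volume : Measure ((Fin D → ℝ) × ℝ)) (LinearMap.ker L) hL
  rw [ae_iff]
  refine (congrArg (volume : Measure ((Fin D → ℝ) × ℝ)) (Set.ext fun U => ?_)).trans h1
  simp only [ne_eq, not_not, mem_ofPred_eq, SetLike.mem_coe, LinearMap.mem_ker]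
  exact Iff.rfl

private theorem exists_ne_GenAe4 {a : Fin D → ℝ} {c : ℝ} {j : Fin D}
    (h : 3 ≤ (Finset.univ.filter fun k => a k = c).card) : ∃ k, a k = c ∧ k ≠ j := by
  obtain ⟨k, hk, hne⟩ := Finset.exists_mem_ne
    (s := Finset.univ.filter fun k => a k = c) (by omega) j
  exact ⟨k, (Finset.mem_filter.mp hk).2, hne⟩

theorem ae_genO {a w₀ e : Fin D → ℝ} (ha : Pencil a) (hl : ∃ k, a k = 1 ∧ w₀ k ≠ 0)
    (hr : ∃ k, a k = 0 ∧ w₀ k + e k ≠ 0) :
    ∀ᵐ U : (Fin D → ℝ) × ℝ, GenO a w₀ e U.1 := by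
  obtain ⟨j, hj, hwj⟩ := hl
  obtain ⟨i, hi, hwi⟩ := hr
  obtain ⟨k, hk, hkj⟩ := exists_ne_GenAe4 (j := j) ha.ones
  obtain ⟨l, hl, hli⟩ := exists_ne_GenAe4 (j := i) ha.zeros
  filter_upwards [ae_lin_GenAe4 (β := w₀ k) hkj hwj, ae_lin_GenAe4 (β := w₀ l + e l) hli hwi]
    with U h1 h2
  exact ⟨⟨j, k, hj, hk, h1⟩, ⟨i, l, hi, hl, h2⟩⟩

end Pool.Agent.KneserLine
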