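import Pool.Agent.KneserLine.HKern

/-!
# Disjoint triples in the universal family

PROOF. As in `Pool/Agent/KneserCone/Disj.lean`, simpler. Suppose not. For every `m : ℕ` there is
`x = (t, ξ)`, `t ∈ (0, 1)`, with `yH x l - c l < 1 / (m + 1)` for `l ∈ {i, j, k}`. The points `u l
= √t • ι₁ (p l) + √(1 - t) • ι₂ (q l)` satisfy `‖u l - u l'‖² = t ‖p l - p l'‖² + (1 - t) ‖q l - q
l'‖² ≥ ‖q l - q l'‖²` (`dist_H`), so `kirs_three` (with `F` the Euclidean space) gives `y m : E`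
with `‖y m - q l‖² ≤ c l + 1 / (m + 1)` for the three `l`; a convergent subsequence has a limit
contradicting `hne`.
-/

set_option autoImplicit false
set_option linter.unusedSectionVars false

namespace Pool.Agent.KneserLine

open MeasureTheory Set Filter Topology Module
open scoped ENNReal
open Pool.Agent.Kneser Pool.Agent.KneserRank Pool.Agent.KneserCentre Pool.Agent.KneserCone

variable {D n : ℕ}

variable {E : Type*} [NormedAddCommGroup E] [InnerProductSpace ℝ E] [FiniteDimensional ℝ E]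
  [MeasurableSpace E] [BorelSpace E]

private theorem step_HDisj {N : ℕ} (hN : finrank ℝ E ≤ N)
    {ι₁ ι₂ : E →ₗ[ℝ] EuclideanSpace ℝ (Fin N)}
    (hι : ∀ x y : E, ‖ι₁ x + ι₂ y‖ ^ 2 = ‖x‖ ^ 2 + ‖y‖ ^ 2) (p q : Fin n → E)
    (hpq : ∀ i j, dist (q i) (q j) ≤ dist (p i) (p j)) (c : Fin n → ℝ) (idx : Fin 3 → Fin n)
    {δ t : ℝ} {ξ : EuclideanSpace ℝ (Fin N)} (ht : t ∈ Ioo (0 : ℝ) 1)
    (hlt : ∀ s, yH ι₁ ι₂ p q (t, ξ) (idx s) - c (idx s) < δ) :
    ∃ y : E, ∀ s, ‖y - q (idx s)‖ ^ 2 ≤ c (idx s) + δ := by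
  refine kirs_three (E := E) (F := EuclideanSpace ℝ (Fin N)) ?_
    (fun s => √t • ι₁ (p (idx s)) + √(1 - t) • ι₂ (q (idx s))) (fun s => q (idx s)) ?_
    (fun s => c (idx s) + δ) ξ ?_
  · rw [finrank_euclideanSpace, Fintype.card_fin]
    exact hN
  · intro l m
    rw [dist_eq_norm, dist_eq_norm]
    refine le_of_sq_le_sq ?_ (norm_nonneg _)
    rw [dist_H hι _ _ _ _ ⟨ht.1.le, ht.2.le⟩]
    have h1 : ‖q (idx l) - q (idx m)‖ ^ 2 ≤ ‖p (idx l) - p (idx m)‖ ^ 2 := by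
      have h2 := hpq (idx l) (idx m)
      rw [dist_eq_norm, dist_eq_norm] at h2
      exact pow_le_pow_left₀ (norm_nonneg _) h2 2
    have h4 : 0 ≤ t := ht.1.le
    nlinarith
  · intro s
    have h1 := hlt s
    unfold yH at h1
    simp only at h1
    linarith

theorem exists_disjH {N : ℕ} (hN : finrank ℝ E ≤ N) {ι₁ ι₂ : E →ₗ[ℝ] EuclideanSpace ℝ (Fin N)}
    (hι : ∀ x y : E, ‖ι₁ x + ι₂ y‖ ^ 2 = ‖x‖ ^ 2 + ‖y‖ ^ 2) (p q : Fin n → E)
    (hpq : ∀ i j, dist (q i) (q j) ≤ dist (p i) (p j)) (c : Fin n → ℝ) {i j k : Fin n}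
    (hne : ¬ ∃ y : E, ‖y - q i‖ ^ 2 ≤ c i ∧ ‖y - q j‖ ^ 2 ≤ c j ∧ ‖y - q k‖ ^ 2 ≤ c k) :
    ∃ δ : ℝ, 0 < δ ∧ ∀ x : ℝ × EuclideanSpace ℝ (Fin N), x.1 ∈ Ioo (0 : ℝ) 1 →
      δ ≤ max (yH ι₁ ι₂ p q x i - c i)
        (max (yH ι₁ ι₂ p q x j - c j) (yH ι₁ ι₂ p q x k - c k)) := by
  by_contra hcon
  push Not at hcon
  have key : ∀ m : ℕ, ∃ y : E, ∀ s, ‖y - q (![i, j, k] s)‖ ^ 2 ≤
      c (![i, j, k] s) + 1 / ((m : ℝ) + 1) := by
    intro m
    obtain ⟨x, hx, hlt⟩ := hcon (1 / ((m : ℝ) + 1)) (by positivity)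
    obtain ⟨t, ξ⟩ := x
    have h1 := (le_max_left _ _).trans_lt hlt
    have h2 := ((le_max_left _ _).trans (le_max_right _ _)).trans_lt hlt
    have h3 := ((le_max_right _ _).trans (le_max_right _ _)).trans_lt hlt
    refine step_HDisj hN hι p q hpq c ![i, j, k] (t := t) (ξ := ξ) hx ?_
    intro s
    fin_cases s
    · exact h1
    · exact h2
    · exact h3
  let K : ℕ → Set E := fun m => {y | ∀ s, ‖y - q (![i, j, k] s)‖ ^ 2 ≤
      c (![i, j, k] s) + 1 / ((m : ℝ) + 1)}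
  have hcl : ∀ m, IsClosed (K m) := by
    intro m
    have h1 : K m = ⋂ s, {y | ‖y - q (![i, j, k] s)‖ ^ 2 ≤
        c (![i, j, k] s) + 1 / ((m : ℝ) + 1)} := by
      ext y
      simp only [K, mem_iInter]
      rfl
    rw [h1]
    exact isClosed_iInter fun s => isClosed_le (by fun_prop) continuous_const
  have hK0 : IsCompact (K 0) := by
    refine Metric.isCompact_of_isClosed_isBounded (hcl 0) ?_
    refine (Metric.isBounded_closedBall (x := q i) (r := √(c i + 1))).subset ?_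
    intro y hy
    have h1 := hy 0
    simp only [Matrix.cons_val_zero, Nat.cast_zero, zero_add, div_one] at h1
    rw [Metric.mem_closedBall, dist_eq_norm]
    exact Real.le_sqrt_of_sq_le h1
  have hmono : ∀ m, K (m + 1) ⊆ K m := by
    intro m y hy s
    refine (hy s).trans ?_
    have h1 : (1 : ℝ) / (((m + 1 : ℕ) : ℝ) + 1) ≤ 1 / ((m : ℝ) + 1) := by
      push_cast
      exact one_div_le_one_div_of_le (by positivity) (by linarith)
    linarith
  obtain ⟨y, hy⟩ := IsCompact.nonempty_iInter_of_sequence_nonempty_isCompact_isClosed K hmono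
    (fun m => key m) hK0 hcl
  rw [mem_iInter] at hy
  have hle : ∀ s, ‖y - q (![i, j, k] s)‖ ^ 2 ≤ c (![i, j, k] s) := by
    intro s
    refine le_of_forall_pos_le_add fun ε hε => ?_
    obtain ⟨m, hm⟩ := exists_nat_one_div_lt hε
    exact (hy m s).trans (by linarith)
  exact hne ⟨y, hle 0, hle 1, hle 2⟩

end Pool.Agent.KneserLine
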