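import Pool.Agent.KneserLine.Defs

/-!
# The universal family

PROOF. `exists_embed`: orthonormal bases; with `b` an orthonormal basis of `E`
(`stdOrthonormalBasis`, `d = finrank E`) and the standard basis of `EuclideanSpace ℝ (Fin N)`,
`ι₁` maps `b i` to the basis vector `i`, `ι₂` maps `b i` to the basis vector `d + i`. E.g. define
the coordinates of `ι₁ x` by `if h : k < d then b.repr x ⟨k, h⟩ else 0`. `kern_H`: with `u t l =
√t • ι₁ (p l) + √(1-t) • ι₂ (q l)`, `‖u t i - u t j‖² = t s i j + (1 - t) r i j` for `t ∈ (0, 1)`;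
for fixed `t`, `ee k (‖x - u t l‖² / ρ) = ee k (‖(√ρ)⁻¹ • x - (√ρ)⁻¹ • u t l‖²)`; `integral_ee`
(`Pool/Agent/KneserRank/Gauss.lean`) and `Measure.integral_comp_smul` (or directly the Gaussian
integral) give `∫ x, ee k (..) = (π ρ / K) ^ (N/2) exp (-((t quad k s + (1 - t) quad k r) / (K
ρ)))`. Integrability on the product: `integrable_prod_iff'`, or bound by the integrable function
of `x`: for `t ∈ (0, 1)` and some `i` with `k i ≠ 0`, `ee k ≤ exp (-(‖x - u t i‖² / ρ)) ≤ exp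
(-(‖x‖² / (2 ρ)) + R² / ρ)` with `R ≥ ‖u t i‖`, which is integrable (`‖x - u‖² ≥ ‖x‖²/2 - ‖u‖²`).
-/

set_option autoImplicit false
set_option linter.unusedSectionVars false

namespace Pool.Agent.KneserLine

open MeasureTheory Set Filter Topology Module
open scoped ENNReal
open Pool.Agent.Kneser Pool.Agent.KneserRank Pool.Agent.KneserCentre Pool.Agent.KneserCone

variable {D n : ℕ}

variable {E : Type*} [NormedAddCommGroup E] [InnerProductSpace ℝ E] [FiniteDimensional ℝ E]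
  [MeasurableSpace E] [BorelSpace E]

theorem exists_embed (N : ℕ) (hN : 2 * finrank ℝ E ≤ N) :
    ∃ ι₁ ι₂ : E →ₗ[ℝ] EuclideanSpace ℝ (Fin N), ∀ x y : E,
      ‖ι₁ x + ι₂ y‖ ^ 2 = ‖x‖ ^ 2 + ‖y‖ ^ 2 := by
  let b := stdOrthonormalBasis ℝ E
  obtain ⟨c, hc⟩ : ∃ c : Fin (finrank ℝ E) ⊕ Fin (finrank ℝ E) → Fin N,
      Function.Injective c := by
    have h1 : Nonempty ((Fin (finrank ℝ E) ⊕ Fin (finrank ℝ E)) ↪ Fin N) :=
      Function.Embedding.nonempty_of_card_le (by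
        rw [Fintype.card_sum, Fintype.card_fin, Fintype.card_fin]
        omega)
    exact ⟨h1.some, h1.some.injective⟩
  let v : Fin (finrank ℝ E) ⊕ Fin (finrank ℝ E) → EuclideanSpace ℝ (Fin N) :=
    fun s => EuclideanSpace.basisFun (Fin N) ℝ (c s)
  have hv : Orthonormal ℝ v := (EuclideanSpace.basisFun (Fin N) ℝ).orthonormal.comp c hc
  refine ⟨b.toBasis.constr ℝ fun i => v (Sum.inl i), b.toBasis.constr ℝ fun i => v (Sum.inr i),
    fun x y => ?_⟩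
  rw [Basis.constr_apply_fintype, Basis.constr_apply_fintype]
  have h1 : (∑ i, b.toBasis.equivFun x i • v (Sum.inl i)) +
      ∑ i, b.toBasis.equivFun y i • v (Sum.inr i) =
      ∑ s, Sum.elim (b.toBasis.equivFun x) (b.toBasis.equivFun y) s • v s := by
    rw [Fintype.sum_sum_type]
    rfl
  have h2 : ∀ z : E, ‖z‖ ^ 2 = ∑ i, b.toBasis.equivFun z i * b.toBasis.equivFun z i := by
    intro z
    rw [← b.repr.norm_map z, EuclideanSpace.norm_sq_eq]
    refine Finset.sum_congr rfl fun i _ => ?_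
    rw [Real.norm_eq_abs, sq_abs, sq]
    rfl
  rw [h1, ← real_inner_self_eq_norm_sq, hv.inner_sum, Fintype.sum_sum_type, h2 x, h2 y]
  simp only [Sum.elim_inl, Sum.elim_inr, conj_trivial]

theorem ae_mem_H (N : ℕ) : ∀ᵐ x ∂(muH N), x.1 ∈ Ioo (0 : ℝ) 1 :=
  Measure.quasiMeasurePreserving_fst.ae (ae_restrict_mem measurableSet_Ioo)

theorem dist_H {N : ℕ} {ι₁ ι₂ : E →ₗ[ℝ] EuclideanSpace ℝ (Fin N)}
    (hι : ∀ x y : E, ‖ι₁ x + ι₂ y‖ ^ 2 = ‖x‖ ^ 2 + ‖y‖ ^ 2) (x x' y y' : E) {t : ℝ}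
    (ht : t ∈ Icc (0 : ℝ) 1) :
    ‖(√t • ι₁ x + √(1 - t) • ι₂ y) - (√t • ι₁ x' + √(1 - t) • ι₂ y')‖ ^ 2 =
      t * ‖x - x'‖ ^ 2 + (1 - t) * ‖y - y'‖ ^ 2 := by
  have h1 : (√t • ι₁ x + √(1 - t) • ι₂ y) - (√t • ι₁ x' + √(1 - t) • ι₂ y') =
      ι₁ (√t • (x - x')) + ι₂ (√(1 - t) • (y - y')) := by
    rw [map_smul, map_smul, map_sub, map_sub, smul_sub, smul_sub]
    abel
  rw [h1, hι, norm_smul, norm_smul, mul_pow, mul_pow, Real.norm_eq_abs, Real.norm_eq_abs, sq_abs,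
    sq_abs, Real.sq_sqrt ht.1, Real.sq_sqrt (by linarith [ht.2])]

private theorem hkern_scale {N : ℕ} {k : Fin n → ℕ} (hk : k ≠ 0)
    (u : Fin n → EuclideanSpace ℝ (Fin N)) {ρ : ℝ} (hρ : 0 < ρ) :
    ∫ x, ee k (fun l => ‖x - u l‖ ^ 2 / ρ) = (Real.pi * ρ / tot k) ^ ((N : ℝ) / 2) *
      Real.exp (-(quad k (fun i j => ‖u i - u j‖ ^ 2) / (tot k * ρ))) := by
  have hK := tot_pos hk
  have hs : 0 < √ρ := Real.sqrt_pos.2 hρ
  have h0 : ∀ w : EuclideanSpace ℝ (Fin N), ‖(√ρ)⁻¹ • w‖ ^ 2 = ‖w‖ ^ 2 / ρ := by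
    intro w
    rw [norm_smul, mul_pow, Real.norm_eq_abs, sq_abs, inv_pow, Real.sq_sqrt hρ.le]
    ring
  have h1 : ∀ x : EuclideanSpace ℝ (Fin N), ee k (fun l => ‖x - u l‖ ^ 2 / ρ) =
      ee k (fun l => ‖(√ρ)⁻¹ • x - (√ρ)⁻¹ • u l‖ ^ 2) := by
    intro x
    congr 1
    funext l
    rw [← smul_sub, h0]
  simp_rw [h1]
  rw [Measure.integral_comp_smul volume
    (fun x : EuclideanSpace ℝ (Fin N) => ee k (fun l => ‖x - (√ρ)⁻¹ • u l‖ ^ 2)) (√ρ)⁻¹,
    integral_ee hk, finrank_euclideanSpace_fin]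
  have h2 : quad k (fun i j => ‖(√ρ)⁻¹ • u i - (√ρ)⁻¹ • u j‖ ^ 2) =
      quad k (fun i j => ‖u i - u j‖ ^ 2) / ρ := by
    unfold quad
    rw [div_right_comm]
    congr 1
    rw [Finset.sum_div]
    refine Finset.sum_congr rfl fun i _ => ?_
    rw [Finset.sum_div]
    refine Finset.sum_congr rfl fun j _ => ?_
    beta_reduce
    rw [← smul_sub, h0]
    ring
  have h3 : |(((√ρ)⁻¹ ^ N)⁻¹ : ℝ)| = ρ ^ ((N : ℝ) / 2) := by
    rw [inv_pow, inv_inv, abs_of_pos (pow_pos hs N), Real.sqrt_eq_rpow, ← Real.rpow_natCast,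
      ← Real.rpow_mul hρ.le]
    congr 1
    ring
  rw [h2, h3, smul_eq_mul, ← mul_assoc, ← Real.mul_rpow hρ.le (div_pos Real.pi_pos hK).le]
  congr 2
  · ring
  · rw [div_div, mul_comm ρ]

private theorem hkern_quad (k : Fin n → ℕ) (s r : Fin n → Fin n → ℝ) (t : ℝ) :
    quad k (fun i j => t * s i j + (1 - t) * r i j) = t * quad k s + (1 - t) * quad k r := by
  unfold quad
  rw [← mul_div_assoc, ← mul_div_assoc, ← add_div, Finset.mul_sum, Finset.mul_sum,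
    ← Finset.sum_add_distrib]
  congr 1
  refine Finset.sum_congr rfl fun i _ => ?_
  rw [Finset.mul_sum, Finset.mul_sum, ← Finset.sum_add_distrib]
  refine Finset.sum_congr rfl fun j _ => ?_
  ring

private theorem hkern_inner {N : ℕ} {ι₁ ι₂ : E →ₗ[ℝ] EuclideanSpace ℝ (Fin N)}
    (hι : ∀ x y : E, ‖ι₁ x + ι₂ y‖ ^ 2 = ‖x‖ ^ 2 + ‖y‖ ^ 2) (p q : Fin n → E)
    {s r : Fin n → Fin n → ℝ} (hs : ∀ i j, s i j = ‖p i - p j‖ ^ 2)
    (hr : ∀ i j, r i j = ‖q i - q j‖ ^ 2) {k : Fin n → ℕ} (hk : k ≠ 0) {ρ : ℝ} (hρ : 0 < ρ)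
    {t : ℝ} (ht : t ∈ Icc (0 : ℝ) 1) :
    ∫ x, ee k (fun l => yH ι₁ ι₂ p q (t, x) l / ρ) = (Real.pi * ρ / tot k) ^ ((N : ℝ) / 2) *
      Real.exp (-((t * quad k s + (1 - t) * quad k r) / (tot k * ρ))) := by
  have h1 := hkern_scale hk (fun l => √t • ι₁ (p l) + √(1 - t) • ι₂ (q l)) hρ
  have h2 : (fun i j => ‖(√t • ι₁ (p i) + √(1 - t) • ι₂ (q i)) -
      (√t • ι₁ (p j) + √(1 - t) • ι₂ (q j))‖ ^ 2) =
      fun i j => t * s i j + (1 - t) * r i j := by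
    funext i j
    rw [dist_H hι _ _ _ _ ht, hs, hr]
  rw [h2, hkern_quad] at h1
  exact h1

theorem kern_H {N : ℕ} {ι₁ ι₂ : E →ₗ[ℝ] EuclideanSpace ℝ (Fin N)}
    (hι : ∀ x y : E, ‖ι₁ x + ι₂ y‖ ^ 2 = ‖x‖ ^ 2 + ‖y‖ ^ 2) (p q : Fin n → E)
    {s r : Fin n → Fin n → ℝ} (hs : ∀ i j, s i j = ‖p i - p j‖ ^ 2)
    (hr : ∀ i j, r i j = ‖q i - q j‖ ^ 2) :
    Kern (muH N) (fun _ => (1 : ℝ)) (yH ι₁ ι₂ p q) s r 1 ((N : ℝ) / 2) := by
  have hcont : ∀ l, Continuous fun x : ℝ × EuclideanSpace ℝ (Fin N) => yH ι₁ ι₂ p q x l := by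
    intro l
    unfold yH
    fun_prop
  have hcee : ∀ (ρ : ℝ) (k : Fin n → ℕ), Continuous
      fun x : ℝ × EuclideanSpace ℝ (Fin N) => ee k (fun l => yH ι₁ ι₂ p q x l / ρ) := by
    intro ρ k
    unfold ee
    refine Real.continuous_exp.comp (Continuous.neg ?_)
    exact continuous_finsetSum _ fun l _ => continuous_const.mul ((hcont l).div_const ρ)
  have hpos : ∀ (k : Fin n → ℕ) (y : Fin n → ℝ), 0 < ee k y := fun k y => Real.exp_pos _
  have hint : ∀ ρ : ℝ, 0 < ρ → ∀ k : Fin n → ℕ, k ≠ 0 →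
      Integrable (fun x : ℝ × EuclideanSpace ℝ (Fin N) =>
        ee k (fun l => yH ι₁ ι₂ p q x l / ρ)) (muH N) := by
    intro ρ hρ k hk
    unfold muH
    have hK := tot_pos hk
    have hC : 0 < (Real.pi * ρ / tot k) ^ ((N : ℝ) / 2) :=
      Real.rpow_pos_of_pos (div_pos (mul_pos Real.pi_pos hρ) hK) _
    rw [integrable_prod_iff (hcee ρ k).aestronglyMeasurable]
    constructor
    · filter_upwards [ae_restrict_mem measurableSet_Ioo] with t ht
      by_contra hcon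
      have h1 := hkern_inner hι p q hs hr hk hρ (Ioo_subset_Icc_self ht)
      rw [integral_undef hcon] at h1
      exact (mul_pos hC (Real.exp_pos _)).ne h1
    · have h1 : ∀ t ∈ Ioo (0 : ℝ) 1, (∫ x, ‖ee k (fun l => yH ι₁ ι₂ p q (t, x) l / ρ)‖) =
          (Real.pi * ρ / tot k) ^ ((N : ℝ) / 2) *
            Real.exp (-((t * quad k s + (1 - t) * quad k r) / (tot k * ρ))) := by
        intro t ht
        rw [← hkern_inner hι p q hs hr hk hρ (Ioo_subset_Icc_self ht)]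
        congr 1
        funext x
        exact Real.norm_of_nonneg (hpos _ _).le
      have h2 : IntegrableOn (fun t => (Real.pi * ρ / tot k) ^ ((N : ℝ) / 2) *
          Real.exp (-((t * quad k s + (1 - t) * quad k r) / (tot k * ρ)))) (Ioo (0 : ℝ) 1) := by
        refine (Continuous.integrableOn_Icc (a := 0) (b := 1) ?_).mono_set Ioo_subset_Icc_self
        fun_prop
      exact (integrableOn_congr_fun h1 measurableSet_Ioo).2 h2
  refine ⟨measurable_const, fun l => (hcont l).measurable, Eventually.of_forall fun x =>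
    ⟨zero_le_one, fun l => sq_nonneg _⟩, one_pos, ?_, ?_⟩
  · intro ρ hρ k hk
    simp only [one_mul]
    exact hint ρ hρ k hk
  · intro ρ hρ k hk
    simp only [one_mul]
    have h1 := hint ρ hρ k hk
    unfold muH at h1 ⊢
    rw [integral_prod _ h1, intervalIntegral.integral_of_le zero_le_one,
      ← integral_Ioc_eq_integral_Ioo, ← integral_const_mul]
    rw [integral_Ioc_eq_integral_Ioo, integral_Ioc_eq_integral_Ioo]
    refine setIntegral_congr_fun measurableSet_Ioo fun t ht => ?_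
    exact hkern_inner hι p q hs hr hk hρ (Ioo_subset_Icc_self ht)

end Pool.Agent.KneserLine
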