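import Pool.Agent.KneserLine.Defs

/-!
# Elementary properties of `Kern` and `GK`

PROOF. `Kern.scale`: the fields at `ρ` are the fields of `h` at `σ * ρ` (`y / σ / ρ = y / (σ ρ)`,
`quad k (s / σ) = quad k s / σ`, `C * σ ^ κ * (π ρ / K) ^ κ = C * (π (σ ρ) / K) ^ κ`).
`Kern.comap`: for `k : Fin n' → ℕ` let `k' i = ∑ l with f l = i, k l`; then `k' ≠ 0`, `ee k (y ∘
f) = ee k' y`, `tot k' = tot k`, `quad k' s = quad k (s ∘ f)` (`Finset.sum_fiberwise`).
`GK_scale`: `gd φ L i j c ρ y = (ρ⁻¹) ^ 2 * gd φ L i j (c / ρ) 1 (y / ρ)` by definition.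
`GK_shift`: `y + (v + u) - c = y + u - (c - v)`. `GK_congr`: `gd_congr`.
-/

set_option autoImplicit false
set_option linter.unusedSectionVars false

namespace Pool.Agent.KneserLine

open MeasureTheory Set Filter Topology Module
open scoped ENNReal
open Pool.Agent.Kneser Pool.Agent.KneserRank Pool.Agent.KneserCentre Pool.Agent.KneserCone

variable {D n : ℕ}

variable {X : Type*} [MeasurableSpace X]

/-- the exponents pushed forward -/
private noncomputable def pf {n n' : ℕ} (f : Fin n' → Fin n) (k : Fin n' → ℕ) (i : Fin n) : ℕ :=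
  ∑ l with f l = i, k l

private theorem pf_sum {n n' : ℕ} (f : Fin n' → Fin n) (k : Fin n' → ℕ) (F : Fin n → ℝ) :
    ∑ i, (pf f k i : ℝ) * F i = ∑ l, (k l : ℝ) * F (f l) := by
  rw [← Finset.sum_fiberwise Finset.univ f]
  refine Finset.sum_congr rfl fun i _ => ?_
  unfold pf
  push_cast
  rw [Finset.sum_mul]
  refine Finset.sum_congr rfl fun l hl => ?_
  rw [(Finset.mem_filter.1 hl).2]

private theorem pf_ee {n n' : ℕ} (f : Fin n' → Fin n) (k : Fin n' → ℕ) (y : Fin n → ℝ) :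
    ee k (fun l => y (f l)) = ee (pf f k) y := by
  unfold ee
  rw [pf_sum]

private theorem pf_tot {n n' : ℕ} (f : Fin n' → Fin n) (k : Fin n' → ℕ) :
    tot (pf f k) = tot k := by
  have h := pf_sum f k (fun _ => (1 : ℝ))
  simp only [mul_one] at h
  exact h

private theorem pf_quad {n n' : ℕ} (f : Fin n' → Fin n) (k : Fin n' → ℕ)
    (s : Fin n → Fin n → ℝ) :
    quad (pf f k) s = quad k (fun i j => s (f i) (f j)) := by
  unfold quad
  congr 1
  have h1 : ∀ i, ∑ j, (pf f k i : ℝ) * (pf f k j : ℝ) * s i j =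
      (pf f k i : ℝ) * ∑ l, (k l : ℝ) * s i (f l) := by
    intro i
    rw [← pf_sum f k (fun j => s i j), Finset.mul_sum]
    exact Finset.sum_congr rfl fun j _ => by ring
  rw [Finset.sum_congr rfl fun i _ => h1 i, pf_sum f k (fun i => ∑ l, (k l : ℝ) * s i (f l))]
  refine Finset.sum_congr rfl fun i _ => ?_
  rw [Finset.mul_sum]
  exact Finset.sum_congr rfl fun j _ => by ring

private theorem pf_ne_zero {n n' : ℕ} (f : Fin n' → Fin n) {k : Fin n' → ℕ} (hk : k ≠ 0) :
    pf f k ≠ 0 := by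
  intro h
  have h1 := tot_pos hk
  rw [← pf_tot f, h] at h1
  unfold tot at h1
  simp at h1

private theorem quad_div {n : ℕ} (k : Fin n → ℕ) (s : Fin n → Fin n → ℝ) (σ : ℝ) :
    quad k (fun i j => s i j / σ) = quad k s / σ := by
  have h1 : ∑ i, ∑ j, (k i : ℝ) * (k j : ℝ) * (s i j / σ) =
      (∑ i, ∑ j, (k i : ℝ) * (k j : ℝ) * s i j) / σ := by
    rw [Finset.sum_div]
    refine Finset.sum_congr rfl fun i _ => ?_
    rw [Finset.sum_div]
    refine Finset.sum_congr rfl fun j _ => ?_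
    ring
  unfold quad
  rw [h1]
  ring

theorem Kern.scale {μ : Measure X} {ω : X → ℝ} {y : X → Fin n → ℝ} {s r : Fin n → Fin n → ℝ}
    {C κ : ℝ} (h : Kern μ ω y s r C κ) {σ : ℝ} (hσ : 0 < σ) :
    Kern μ ω (fun x l => y x l / σ) (fun i j => s i j / σ) (fun i j => r i j / σ)
      (C * σ ^ κ) κ := by
  constructor
  · exact h.meas_om
  · exact fun l => (h.meas_y l).div_const σ
  · filter_upwards [h.nonneg] with x hx
    exact ⟨hx.1, fun l => div_nonneg (hx.2 l) hσ.le⟩
  · exact mul_pos h.C_pos (Real.rpow_pos_of_pos hσ κ)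
  · intro ρ hρ k hk
    have h1 := h.integrable (σ * ρ) (mul_pos hσ hρ) k hk
    simpa only [div_div] using h1
  · intro ρ hρ k hk
    have h1 := h.integral (σ * ρ) (mul_pos hσ hρ) k hk
    have hK := tot_pos hk
    simp only [div_div]
    rw [h1]
    have e1 : Real.pi * (σ * ρ) / tot k = σ * (Real.pi * ρ / tot k) := by ring
    rw [e1, Real.mul_rpow hσ.le (by positivity), ← mul_assoc, quad_div, quad_div]
    congr 1
    refine intervalIntegral.integral_congr fun t _ => ?_
    show Real.exp _ = Real.exp _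
    congr 2
    field_simp

theorem Kern.comap {μ : Measure X} {ω : X → ℝ} {y : X → Fin n → ℝ} {s r : Fin n → Fin n → ℝ}
    {C κ : ℝ} (h : Kern μ ω y s r C κ) {n' : ℕ} (f : Fin n' → Fin n) :
    Kern μ ω (fun x l => y x (f l)) (fun i j => s (f i) (f j)) (fun i j => r (f i) (f j)) C κ := by
  constructor
  · exact h.meas_om
  · exact fun l => h.meas_y (f l)
  · filter_upwards [h.nonneg] with x hx
    exact ⟨hx.1, fun l => hx.2 (f l)⟩
  · exact h.C_pos
  · intro ρ hρ k hk
    have h1 := h.integrable ρ hρ (pf f k) (pf_ne_zero f hk)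
    refine h1.congr (Filter.Eventually.of_forall fun x => ?_)
    show ω x * ee (pf f k) (fun l => y x l / ρ) = ω x * ee k (fun l => y x (f l) / ρ)
    rw [pf_ee f k (fun l => y x l / ρ)]
  · intro ρ hρ k hk
    have h1 := h.integral ρ hρ (pf f k) (pf_ne_zero f hk)
    rw [pf_tot, pf_quad, pf_quad] at h1
    rw [← h1]
    refine integral_congr_ae (Filter.Eventually.of_forall fun x => ?_)
    show ω x * ee k (fun l => y x (f l) / ρ) = ω x * ee (pf f k) (fun l => y x l / ρ)
    rw [pf_ee f k (fun l => y x l / ρ)]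

theorem GK_scale (μ : Measure X) (ω : X → ℝ) (y : X → Fin n → ℝ) (φ : ℕ → ℝ)
    (L : Finset (Fin n)) (i j : Fin n) (c : Fin n → ℝ) {ρ : ℝ} (hρ : 0 < ρ) (v : ℝ) :
    GK μ ω y φ L i j c ρ v = (ρ⁻¹) ^ 2 *
      GK μ ω (fun x l => y x l / ρ) φ L i j (fun l => c l / ρ) 1 (v / ρ) := by
  unfold GK
  rw [← integral_const_mul]
  refine integral_congr_ae (Filter.Eventually.of_forall fun x => ?_)
  have h1 : ∀ l, (y x l / ρ + v / ρ - c l / ρ) / 1 = (y x l + v - c l) / ρ := fun l => by ring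
  simp only [gd, h1]
  ring

theorem GK_shift (μ : Measure X) (ω : X → ℝ) (y : X → Fin n → ℝ) (φ : ℕ → ℝ)
    (L : Finset (Fin n)) (i j : Fin n) (c : Fin n → ℝ) (ρ v u : ℝ) :
    GK μ ω y φ L i j c ρ (v + u) = GK μ ω y φ L i j (fun l => c l - v) ρ u := by
  unfold GK
  refine integral_congr_ae (Filter.Eventually.of_forall fun x => ?_)
  have h1 : ∀ l, y x l + u - (c l - v) = y x l + (v + u) - c l := fun l => by ring
  simp only [gd, h1]

theorem GK_congr {μ : Measure X} {ω : X → ℝ} {y y' : X → Fin n → ℝ} (φ : ℕ → ℝ)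
    {L : Finset (Fin n)} {i j : Fin n} (hi : i ∈ L) (hj : j ∈ L) {c c' : Fin n → ℝ}
    (hc : ∀ l ∈ L, c l = c' l) (hy : ∀ x, ∀ l ∈ L, y x l = y' x l) (ρ v : ℝ) :
    GK μ ω y φ L i j c ρ v = GK μ ω y' φ L i j c' ρ v := by
  unfold GK
  refine integral_congr_ae (Filter.Eventually.of_forall fun x => ?_)
  have h1 := gd_congr φ L hi hj (r := ρ) hc (y := fun l => y x l + v)
    (y' := fun l => y' x l + v) (fun l hl => by rw [hy x l hl])
  show ω x * _ = ω x * _
  rw [h1]

end Pool.Agent.KneserLine
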