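import Pool.Agent.KneserLine.KIdentPoly
import Pool.Agent.KneserLine.KScale

/-!
# The identity

PROOF. `kident_one`: the limit `M → ∞` of `kident_poly`: `tendsto_Dop_iter` with `tendsto_PK` (the
terms with `i = j` vanish identically), and `tendsto_Jop_iter` for `VP p φ c M u - VP q φ c M u`,
with `tendsto_VI_one` (`Pool/Agent/KneserCone/PolyV.lean`) and a bound `Bd (..) B` for `M ≥ exp (c
l)` (`abs_mul_le_sum`, `AL_le_exp`, `integrable_exp_norm`: `|VP| ≤ CC n φ ∑ l, exp (c l) ∫ exp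
(-‖x - p l‖²)`; measurability in `u`: by `exists_repr` it is a finite sum of exponentials, or
`StronglyMeasurable.integral_prod_right`). `kident`: apply `kident_one` to `h.scale hρ`, `(√ρ)⁻¹ •
p`, `(√ρ)⁻¹ • q`, `c / ρ`, `ε / ρ`, `v / ρ`, and use `VI_scale`
(`Pool/Agent/KneserCone/Scale.lean`), `GK_scale`, `Jop_iter_scale`, `Dop_iter_scale`,
`Jop_iter_const_mul`, `Dop_iter_const_mul`: the left side at scale `ρ` is `ρ ^ (d/2 + m - κ) =
ρ⁻¹` times the one at scale one with `C ρ ^ κ`, the right side has the factor `ρ⁻² * ρ` (`(s - r)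
/ 2 = ρ (s/ρ - r/ρ) / 2`).
-/

set_option autoImplicit false
set_option linter.unusedSectionVars false

namespace Pool.Agent.KneserLine

open MeasureTheory Set Filter Topology Module
open scoped ENNReal
open Pool.Agent.Kneser Pool.Agent.KneserRank Pool.Agent.KneserCentre Pool.Agent.KneserCone

variable {D n : ℕ}

variable {E : Type*} [NormedAddCommGroup E] [InnerProductSpace ℝ E] [FiniteDimensional ℝ E]
  [MeasurableSpace E] [BorelSpace E]

variable {X : Type*} [MeasurableSpace X]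

private theorem ev_KIdent (c : Fin n → ℝ) : ∀ᶠ M : ℕ in atTop, ∀ l, Real.exp (c l) ≤ M := by
  rw [eventually_all]
  intro l
  exact tendsto_natCast_atTop_atTop.eventually (eventually_ge_atTop (Real.exp (c l)))

private noncomputable def bb_KIdent (p : Fin n → E) (φ : ℕ → ℝ) (c : Fin n → ℝ) (x : E) : ℝ :=
  (∑ S : Finset (Fin n), |φ S.card|) * ∑ l, Real.exp (-‖x - p l‖ ^ 2 + c l)

private theorem bb_int_KIdent (p : Fin n → E) (φ : ℕ → ℝ) (c : Fin n → ℝ) :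
    Integrable (bb_KIdent p φ c) := by
  unfold bb_KIdent
  exact (integrable_finsetSum _ fun l _ => integrable_exp_norm (p l) (c l)).const_mul _

private theorem bound_KIdent (p : Fin n → E) {φ : ℕ → ℝ} (hφ0 : φ 0 = 0) (c : Fin n → ℝ) {s : ℝ}
    (hs : 0 ≤ s) {M : ℕ} (hM : ∀ l, Real.exp (c l) ≤ M) (x : E) :
    ‖mul φ (fun l => (AL Finset.univ c M l).eval (Real.exp (-(‖x - p l‖ ^ 2 + s))))‖ ≤
      bb_KIdent p φ c x := by
  have hneg : ∀ l, -(‖x - p l‖ ^ 2 + s) ≤ 0 := fun l => neg_nonpos.mpr (by positivity)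
  rw [Real.norm_eq_abs]
  refine (abs_mul_le_sum hφ0 (fun l => AL_nonneg _ c hM l (hneg l))
    (fun l => AL_le_one _ c hM l (hneg l))).trans ?_
  unfold bb_KIdent
  refine mul_le_mul_of_nonneg_left (Finset.sum_le_sum fun l _ => ?_)
    (Finset.sum_nonneg fun S _ => abs_nonneg _)
  refine (AL_le_exp _ c hM l (hneg l)).trans (Real.exp_le_exp.mpr ?_)
  linarith

private theorem cont_KIdent (p : Fin n → E) (φ : ℕ → ℝ) (c : Fin n → ℝ) (M : ℕ) :
    Continuous (fun q : ℝ × E => mul φ (fun l => (AL Finset.univ c M l).eval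
      (Real.exp (-(‖q.2 - p l‖ ^ 2 + q.1))))) := by
  refine (continuous_mul φ).comp (continuous_pi fun l => ?_)
  refine (AL Finset.univ c M l).continuous.comp (Real.continuous_exp.comp ?_)
  fun_prop

private theorem vp_meas_KIdent (p : Fin n → E) (φ : ℕ → ℝ) (c : Fin n → ℝ) (M : ℕ) :
    StronglyMeasurable (VP p φ c M) := by
  have h1 : StronglyMeasurable (Function.uncurry (fun (s : ℝ) (x : E) =>
      mul φ (fun l => (AL Finset.univ c M l).eval (Real.exp (-(‖x - p l‖ ^ 2 + s)))))) :=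
    (cont_KIdent p φ c M).stronglyMeasurable
  exact h1.integral_prod_right

private theorem vp_bd_KIdent (p : Fin n → E) {φ : ℕ → ℝ} (hφ0 : φ 0 = 0) (c : Fin n → ℝ) {M : ℕ}
    (hM : ∀ l, Real.exp (c l) ≤ M) {s : ℝ} (hs : 0 ≤ s) :
    |VP p φ c M s| ≤ ∫ x, bb_KIdent p φ c x := by
  rw [← Real.norm_eq_abs]
  exact norm_integral_le_of_norm_le (bb_int_KIdent p φ c)
    (Eventually.of_forall fun x => bound_KIdent p hφ0 c hs hM x)

theorem kident_one {μ : Measure X} {ω : X → ℝ} {y : X → Fin n → ℝ} {s r : Fin n → Fin n → ℝ}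
    {C κ : ℝ} (h : Kern μ ω y s r C κ) {m : ℕ} (hκ : κ = (finrank ℝ E : ℝ) / 2 + ((m : ℝ) + 1))
    (p q : Fin n → E) (hs : ∀ i j, s i j = ‖p i - p j‖ ^ 2) (hr : ∀ i j, r i j = ‖q i - q j‖ ^ 2)
    {φ : ℕ → ℝ} (hφ0 : φ 0 = 0) (c : Fin n → ℝ) {ε v : ℝ} (hε : 0 ≤ ε) (hv : 0 ≤ v) :
    C * Real.pi ^ (m + 1) * (Jop ε)^[m] (fun u => VI p φ c 1 u - VI q φ c 1 u) v =
      ∑ i, ∑ j, (‖p i - p j‖ ^ 2 - ‖q i - q j‖ ^ 2) / 2 *
        (Dop ε)^[m] (GK μ ω y φ Finset.univ i j c 1) v := by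
  have hev : ∀ᶠ M : ℕ in atTop, Bd (fun u => VP p φ c M u - VP q φ c M u)
      ((∫ x, bb_KIdent p φ c x) + ∫ x, bb_KIdent q φ c x) := by
    filter_upwards [ev_KIdent c] with M hM
    refine ⟨((vp_meas_KIdent p φ c M).sub (vp_meas_KIdent q φ c M)).measurable, ?_⟩
    intro s hs
    exact (abs_sub _ _).trans
      (add_le_add (vp_bd_KIdent p hφ0 c hM hs) (vp_bd_KIdent q hφ0 c hM hs))
  have t1 : Tendsto (fun M => (Jop ε)^[m] (fun u => VP p φ c M u - VP q φ c M u) v) atTop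
      (𝓝 ((Jop ε)^[m] (fun u => VI p φ c 1 u - VI q φ c 1 u) v)) :=
    tendsto_Jop_iter hε hev
      (fun u hu => (tendsto_VI_one p hφ0 c hu).sub (tendsto_VI_one q hφ0 c hu)) m hv
  have t2 : Tendsto (fun M => ∑ i, ∑ j, (‖p i - p j‖ ^ 2 - ‖q i - q j‖ ^ 2) / 2 *
        (Dop ε)^[m] (PK μ ω y φ Finset.univ c M i j) v) atTop
      (𝓝 (∑ i, ∑ j, (‖p i - p j‖ ^ 2 - ‖q i - q j‖ ^ 2) / 2 *
        (Dop ε)^[m] (GK μ ω y φ Finset.univ i j c 1) v)) := by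
    refine tendsto_finsetSum _ fun i _ => tendsto_finsetSum _ fun j _ => ?_
    rcases eq_or_ne i j with rfl | hij
    · simp
    · exact (tendsto_Dop_iter hε (fun u hu => tendsto_PK h φ Finset.univ hij (Finset.mem_univ i)
        (Finset.mem_univ j) c hu) m hv).const_mul _
  refine tendsto_nhds_unique (t1.const_mul (C * Real.pi ^ (m + 1))) (t2.congr fun M => ?_)
  exact (kident_poly h hκ p q hs hr hφ0 c M ε v).symm

theorem kident {μ : Measure X} {ω : X → ℝ} {y : X → Fin n → ℝ} {s r : Fin n → Fin n → ℝ}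
    {C κ : ℝ} (h : Kern μ ω y s r C κ) {m : ℕ} (hκ : κ = (finrank ℝ E : ℝ) / 2 + ((m : ℝ) + 1))
    (p q : Fin n → E) (hs : ∀ i j, s i j = ‖p i - p j‖ ^ 2) (hr : ∀ i j, r i j = ‖q i - q j‖ ^ 2)
    {φ : ℕ → ℝ} (hφ0 : φ 0 = 0) (c : Fin n → ℝ) {ρ : ℝ} (hρ : 0 < ρ) {ε v : ℝ} (hε : 0 ≤ ε)
    (hv : 0 ≤ v) :
    C * Real.pi ^ (m + 1) * (Jop ε)^[m] (fun u => VI p φ c ρ u - VI q φ c ρ u) v =
      ∑ i, ∑ j, (‖p i - p j‖ ^ 2 - ‖q i - q j‖ ^ 2) / 2 *
        (Dop ε)^[m] (GK μ ω y φ Finset.univ i j c ρ) v := by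
  have hsq : 0 < √ρ := Real.sqrt_pos.mpr hρ
  have hnorm : ∀ (p : Fin n → E) (i j : Fin n),
      ‖(√ρ)⁻¹ • p i - (√ρ)⁻¹ • p j‖ ^ 2 = ‖p i - p j‖ ^ 2 / ρ := by
    intro p i j
    rw [← smul_sub, norm_smul, mul_pow, Real.norm_eq_abs, sq_abs, inv_pow, Real.sq_sqrt hρ.le]
    ring
  have h1 := kident_one (h.scale hρ) hκ (fun l => (√ρ)⁻¹ • p l) (fun l => (√ρ)⁻¹ • q l)
    (fun i j => by rw [hnorm p, hs]) (fun i j => by rw [hnorm q, hr]) hφ0 (fun l => c l / ρ)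
    (div_nonneg hε hρ.le) (div_nonneg hv hρ.le)
  obtain ⟨F, hF⟩ : ∃ F : ℝ → ℝ, F = fun u => VI (fun l => (√ρ)⁻¹ • p l) φ (fun l => c l / ρ) 1 u -
      VI (fun l => (√ρ)⁻¹ • q l) φ (fun l => c l / ρ) 1 u := ⟨_, rfl⟩
  have hL : (fun u => VI p φ c ρ u - VI q φ c ρ u) = fun u => ρ ^ ((finrank ℝ E : ℝ) / 2) *
      F (u / ρ) := by
    funext u
    rw [VI_scale p φ c hρ u, VI_scale q φ c hρ u, hF]
    ring
  rw [← hF] at h1
  rw [hL, Jop_iter_const_mul, Jop_iter_scale ε hρ]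
  have hR : ∀ i j, (Dop ε)^[m] (GK μ ω y φ Finset.univ i j c ρ) v = (ρ⁻¹) ^ 2 *
      (Dop (ε / ρ))^[m] (GK μ ω (fun x l => y x l / ρ) φ Finset.univ i j
        (fun l => c l / ρ) 1) (v / ρ) := by
    intro i j
    have e1 : GK μ ω y φ Finset.univ i j c ρ = fun v => (ρ⁻¹) ^ 2 *
        GK μ ω (fun x l => y x l / ρ) φ Finset.univ i j (fun l => c l / ρ) 1 (v / ρ) := by
      funext v
      exact GK_scale μ ω y φ Finset.univ i j c hρ v
    rw [e1, Dop_iter_const_mul, Dop_iter_scale ε hρ]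
  have hS : ∑ i, ∑ j, (‖p i - p j‖ ^ 2 - ‖q i - q j‖ ^ 2) / 2 *
        (Dop ε)^[m] (GK μ ω y φ Finset.univ i j c ρ) v = ρ⁻¹ *
      ∑ i, ∑ j, (‖(√ρ)⁻¹ • p i - (√ρ)⁻¹ • p j‖ ^ 2 - ‖(√ρ)⁻¹ • q i - (√ρ)⁻¹ • q j‖ ^ 2) / 2 *
        (Dop (ε / ρ))^[m] (GK μ ω (fun x l => y x l / ρ) φ Finset.univ i j
          (fun l => c l / ρ) 1) (v / ρ) := by
    rw [Finset.mul_sum]
    refine Finset.sum_congr rfl fun i _ => ?_
    rw [Finset.mul_sum]
    refine Finset.sum_congr rfl fun j _ => ?_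
    rw [hR i j, hnorm p, hnorm q]
    ring
  rw [hS, ← h1, hκ, Real.rpow_add hρ]
  have h9 : ρ ^ ((m : ℝ) + 1) = ρ ^ (m + 1) := by
    rw [← Real.rpow_natCast]; push_cast; rfl
  rw [h9, pow_succ ρ m]
  field_simp

end Pool.Agent.KneserLine
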