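import Pool.Agent.KneserLine.KMeas
import Pool.Agent.KneserLine.KIdent

/-!
# The pair integrals: bounds

PROOF of `kbound_small`. Let `f = ![i, j] : Fin 2 → Fin n`, `p' = p ∘ f`, `q' = q ∘ f`, `c' = c ∘
f`, `φ' k = min k 1` (`φ' 0 = 0`, and `sd φ' 0 1 w = sd φ' 1 0 w = 1` for all `w : Fin 2 → ℝ`), `G
v = GK μ ω (y ∘ f) φ' univ 0 1 c' ρ v = ∫ ω (ρ⁻¹)² eG ((y i + v - c i) / ρ) eG ((y j + v - c j) /
ρ)`, which is equal to the one for `1 0`. `kident` for `h.comap f` says, for all `ε ≥ 0`, `v ≥ 0`,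
`C π ^ (m+1) (Jop ε)^[m] (VI p' - VI q') v = σ (Dop ε)^[m] G v`, `σ = ‖p i - p j‖² - ‖q i - q j‖²
> 0`. For `ε → ∞` the right side tends to `σ G v` (`tendsto_Dop_atTop`, `tendsto_GK_atTop`), and
the left side is bounded by `C π ^ (m+1) 2 C' exp (-v)` (`Jop_iter_abs_le_exp`, `exists_VI_small`
for `p'`, `q'` and `R`, uniform in `ρ ≤ 1`). So `G v ≤ B'`. Finally `|GK φ L i j c ρ v| ≤ CC n φ *
G v` (`abs_gd_le`, `integrable_kgd`). `kbound`: `m = 1`; for `ρ ≥ 1` use `kbound_large`.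
-/

set_option autoImplicit false
set_option linter.unusedSectionVars false

namespace Pool.Agent.KneserLine

open MeasureTheory Set Filter Topology Module
open scoped ENNReal
open Pool.Agent.Kneser Pool.Agent.KneserRank Pool.Agent.KneserCentre Pool.Agent.KneserCone

variable {D n : ℕ}

variable {E : Type*} [NormedAddCommGroup E] [InnerProductSpace ℝ E] [FiniteDimensional ℝ E]
  [MeasurableSpace E] [BorelSpace E]

variable {X : Type*} [MeasurableSpace X]

/-- `min k 1` -/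
private noncomputable def ph_KBound (k : ℕ) : ℝ := ((min k 1 : ℕ) : ℝ)

private theorem sd_ph_KBound (w : Fin 2 → ℝ) :
    sd ph_KBound 0 1 w = 1 ∧ sd ph_KBound 1 0 w = 1 := by
  have hu : (Finset.univ : Finset (Finset (Fin 2))) = {∅, {0}, {1}, {0, 1}} := by decide
  have h01 : ((Finset.univ : Finset (Fin 2)).erase 0).erase 1 = ∅ := by decide
  have h10 : ((Finset.univ : Finset (Fin 2)).erase 1).erase 0 = ∅ := by decide
  have n1 : (∅ : Finset (Fin 2)) ∉ ({{0}, {1}, {0, 1}} : Finset (Finset (Fin 2))) := by decide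
  have n2 : ({0} : Finset (Fin 2)) ∉ ({{1}, {0, 1}} : Finset (Finset (Fin 2))) := by decide
  have n3 : ({1} : Finset (Fin 2)) ∉ ({{0, 1}} : Finset (Finset (Fin 2))) := by decide
  have c2 : ({0, 1} : Finset (Fin 2)).card = 2 := by decide
  constructor
  · unfold sd
    rw [hu, h01, Finset.sum_insert n1, Finset.sum_insert n2, Finset.sum_insert n3,
      Finset.sum_singleton]
    simp only [Finset.prod_empty, Finset.card_empty, Finset.card_singleton, c2, ph_KBound]
    norm_num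
  · unfold sd
    rw [hu, h10, Finset.sum_insert n1, Finset.sum_insert n2, Finset.sum_insert n3,
      Finset.sum_singleton]
    simp only [Finset.prod_empty, Finset.card_empty, Finset.card_singleton, c2, ph_KBound]
    norm_num

/-- the integrand of the pair bound -/
private noncomputable def Fs_KBound (ω : X → ℝ) (y : X → Fin n → ℝ) (i j : Fin n)
    (c : Fin n → ℝ) (r v : ℝ) (x : X) : ℝ :=
  ω x * ((r⁻¹) ^ 2 * (eG ((y x i + v - c i) / r) * eG ((y x j + v - c j) / r)))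

/-- the two indices -/
private def two_KBound (i j : Fin n) : Fin 2 → Fin n := ![i, j]

private theorem gd_ph_KBound (ω : X → ℝ) (y : X → Fin n → ℝ) (i j : Fin n) (c : Fin n → ℝ)
    (r v : ℝ) (x : X) :
    ω x * gd ph_KBound Finset.univ 0 1 (fun l => c (two_KBound i j l)) r
      (fun l => y x (two_KBound i j l) + v) = Fs_KBound ω y i j c r v x ∧
    ω x * gd ph_KBound Finset.univ 1 0 (fun l => c (two_KBound i j l)) r
      (fun l => y x (two_KBound i j l) + v) = Fs_KBound ω y i j c r v x := by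
  unfold gd Fs_KBound
  constructor
  · rw [(sd_ph_KBound _).1, mul_one]
    rfl
  · rw [(sd_ph_KBound _).2, mul_one, mul_comm (eG _) (eG _)]
    rfl

private theorem GK_ph_KBound (μ : Measure X) (ω : X → ℝ) (y : X → Fin n → ℝ) (i j : Fin n)
    (c : Fin n → ℝ) (r : ℝ) :
    GK μ ω (fun x l => y x (two_KBound i j l)) ph_KBound Finset.univ 0 1
        (fun l => c (two_KBound i j l)) r = (fun v => ∫ x, Fs_KBound ω y i j c r v x ∂μ) ∧
      GK μ ω (fun x l => y x (two_KBound i j l)) ph_KBound Finset.univ 1 0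
        (fun l => c (two_KBound i j l)) r = fun v => ∫ x, Fs_KBound ω y i j c r v x ∂μ := by
  constructor
  · funext v
    unfold GK
    exact integral_congr_ae (Eventually.of_forall fun x => (gd_ph_KBound ω y i j c r v x).1)
  · funext v
    unfold GK
    exact integral_congr_ae (Eventually.of_forall fun x => (gd_ph_KBound ω y i j c r v x).2)

private theorem integrable_Fs_KBound {μ : Measure X} {ω : X → ℝ} {y : X → Fin n → ℝ}
    {s r : Fin n → Fin n → ℝ} {C κ : ℝ} (h : Kern μ ω y s r C κ) (i j : Fin n)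
    (c : Fin n → ℝ) {ρ : ℝ} (hρ : 0 < ρ) (v : ℝ) :
    Integrable (Fs_KBound ω y i j c ρ v) μ := by
  have h1 := integrable_kgd (h.comap (two_KBound i j)) ph_KBound Finset.univ 0 1
    (fun l => c (two_KBound i j l)) hρ v
  exact h1.congr (Eventually.of_forall fun x => (gd_ph_KBound ω y i j c ρ v x).1)

theorem kbound_small {μ : Measure X} {ω : X → ℝ} {y : X → Fin n → ℝ} {s r : Fin n → Fin n → ℝ}
    {C κ : ℝ} (h : Kern μ ω y s r C κ) {m : ℕ} (hκ : κ = (finrank ℝ E : ℝ) / 2 + ((m : ℝ) + 1))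
    (p q : Fin n → E) (hs : ∀ i j, s i j = ‖p i - p j‖ ^ 2) (hr : ∀ i j, r i j = ‖q i - q j‖ ^ 2)
    {i j : Fin n} (hlt : ‖q i - q j‖ < ‖p i - p j‖) (φ : ℕ → ℝ) (R : ℝ) :
    ∃ B : ℝ, 0 ≤ B ∧ ∀ (L : Finset (Fin n)) (c : Fin n → ℝ), (∀ l, |c l| ≤ R) →
      ∀ ρ : ℝ, 0 < ρ → ρ ≤ 1 → ∀ v : ℝ, 0 ≤ v → |GK μ ω y φ L i j c ρ v| ≤ B := by
  have hφ0 : ph_KBound 0 = 0 := by simp [ph_KBound]
  obtain ⟨C1, hC1, h1⟩ := exists_VI_small (fun l => p (two_KBound i j l)) hφ0 R
  obtain ⟨C2, hC2, h2⟩ := exists_VI_small (fun l => q (two_KBound i j l)) hφ0 R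
  have hσ : 0 < ‖p i - p j‖ ^ 2 - ‖q i - q j‖ ^ 2 := by
    have := norm_nonneg (q i - q j)
    nlinarith
  set σ := ‖p i - p j‖ ^ 2 - ‖q i - q j‖ ^ 2 with hσd
  have hCp := h.C_pos
  have hCC := CC_nonneg n φ
  set K : ℝ := C * Real.pi ^ (m + 1) * (C1 + C2) / σ with hK
  have hK0 : 0 ≤ K := by positivity
  refine ⟨CC n φ * K, by positivity, fun L c hc ρ hρ hρ1 v hv => ?_⟩
  -- the identity for two points
  have hid : ∀ ε : ℝ, 0 ≤ ε → C * Real.pi ^ (m + 1) *
      (Jop ε)^[m] (fun u => VI (fun l => p (two_KBound i j l)) ph_KBound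
          (fun l => c (two_KBound i j l)) ρ u -
        VI (fun l => q (two_KBound i j l)) ph_KBound (fun l => c (two_KBound i j l)) ρ u) v =
      σ * (Dop ε)^[m] (fun v => ∫ x, Fs_KBound ω y i j c ρ v x ∂μ) v := by
    intro ε hε
    have h3 := kident (h.comap (two_KBound i j)) hκ (fun l => p (two_KBound i j l))
      (fun l => q (two_KBound i j l)) (fun i' j' => hs _ _) (fun i' j' => hr _ _) hφ0
      (fun l => c (two_KBound i j l)) hρ hε hv
    rw [Fin.sum_univ_two, Fin.sum_univ_two, Fin.sum_univ_two, (GK_ph_KBound μ ω y i j c ρ).1,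
      (GK_ph_KBound μ ω y i j c ρ).2] at h3
    have e0 : two_KBound i j 0 = i := rfl
    have e1 : two_KBound i j 1 = j := rfl
    simp only [e0, e1, sub_self, norm_zero] at h3
    rw [h3, norm_sub_rev (p j) (p i), norm_sub_rev (q j) (q i)]
    ring
  have hbd : ∀ ε : ℝ, 0 ≤ ε →
      |(Dop ε)^[m] (fun v => ∫ x, Fs_KBound ω y i j c ρ v x ∂μ) v| ≤ K := by
    intro ε hε
    have h4 := Jop_iter_abs_le_exp hε (C := C1 + C2) (g := fun u =>
      VI (fun l => p (two_KBound i j l)) ph_KBound (fun l => c (two_KBound i j l)) ρ u -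
        VI (fun l => q (two_KBound i j l)) ph_KBound (fun l => c (two_KBound i j l)) ρ u)
      (fun u _ => by
        have g1 := h1 (fun l => c (two_KBound i j l)) (fun l => hc _) ρ hρ hρ1 u
        have g2 := h2 (fun l => c (two_KBound i j l)) (fun l => hc _) ρ hρ hρ1 u
        refine (abs_sub _ _).trans ?_
        rw [add_mul]
        exact add_le_add g1 g2) m hv
    have h5 : (C1 + C2) * Real.exp (-v) ≤ C1 + C2 :=
      mul_le_of_le_one_right (add_nonneg hC1 hC2) (Real.exp_le_one_iff.2 (by linarith))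
    have h6 := congrArg abs (hid ε hε)
    rw [abs_mul, abs_mul σ, abs_of_pos hσ,
      abs_of_nonneg (by positivity : (0 : ℝ) ≤ C * Real.pi ^ (m + 1))] at h6
    have h7 : σ * |(Dop ε)^[m] (fun v => ∫ x, Fs_KBound ω y i j c ρ v x ∂μ) v| ≤ σ * K := by
      rw [← h6]
      calc _ ≤ C * Real.pi ^ (m + 1) * (C1 + C2) :=
            mul_le_mul_of_nonneg_left (h4.trans h5) (by positivity)
        _ = σ * K := by
            rw [hK]
            field_simp
    exact le_of_mul_le_mul_left h7 hσ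
  have hlim0 : Tendsto (fun v => ∫ x, Fs_KBound ω y i j c ρ v x ∂μ) atTop (𝓝 0) := by
    have h3 := tendsto_GK_atTop (h.comap (two_KBound i j)) ph_KBound Finset.univ 0 1
      (fun l => c (two_KBound i j l)) hρ
    have h4 := (GK_ph_KBound μ ω y i j c ρ).1
    have h5 : (fun v => GK μ ω (fun x l => y x (two_KBound i j l)) ph_KBound Finset.univ 0 1
        (fun l => c (two_KBound i j l)) ρ v) = fun v => ∫ x, Fs_KBound ω y i j c ρ v x ∂μ := h4
    rw [h5] at h3
    exact h3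
  have hG : |∫ x, Fs_KBound ω y i j c ρ v x ∂μ| ≤ K := by
    have h3 := (tendsto_Dop_atTop hlim0 m v).abs
    refine le_of_tendsto h3 ?_
    filter_upwards [eventually_ge_atTop (0 : ℝ)] with ε hε
    exact hbd ε hε
  have hfin : |GK μ ω y φ L i j c ρ v| ≤ CC n φ * ∫ x, Fs_KBound ω y i j c ρ v x ∂μ := by
    unfold GK
    rw [← Real.norm_eq_abs, ← integral_const_mul]
    refine norm_integral_le_of_norm_le
      ((integrable_Fs_KBound h i j c hρ v).const_mul (CC n φ)) ?_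
    filter_upwards [h.nonneg] with x hx
    rw [Real.norm_eq_abs, abs_mul, abs_of_nonneg hx.1]
    refine (mul_le_mul_of_nonneg_left (abs_gd_le φ L i j c ρ _) hx.1).trans
      (le_of_eq ?_)
    unfold Fs_KBound
    ring
  exact hfin.trans (mul_le_mul_of_nonneg_left ((le_abs_self _).trans hG) hCC)

theorem kbound {μ : Measure X} {ω : X → ℝ} {y : X → Fin n → ℝ} {s r : Fin n → Fin n → ℝ}
    {C κ : ℝ} (h : Kern μ ω y s r C κ) (hκ : κ = (finrank ℝ E : ℝ) / 2 + 2)
    (p q : Fin n → E) (hs : ∀ i j, s i j = ‖p i - p j‖ ^ 2) (hr : ∀ i j, r i j = ‖q i - q j‖ ^ 2)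
    {i j : Fin n} (hlt : ‖q i - q j‖ < ‖p i - p j‖) (φ : ℕ → ℝ) (R : ℝ) :
    ∃ B : ℝ, 0 ≤ B ∧ ∀ (L : Finset (Fin n)) (c : Fin n → ℝ), (∀ l, |c l| ≤ R) →
      ∀ ρ : ℝ, 0 < ρ → ∀ v : ℝ, 0 ≤ v →
      |GK μ ω y φ L i j c ρ v| ≤ B * (1 + ρ) ^ ((finrank ℝ E : ℝ) / 2) := by
  obtain ⟨B1, hB1, h1⟩ := kbound_small h (m := 1) (by rw [hκ]; push_cast; ring) p q hs hr hlt
    φ R
  obtain ⟨B2, hB2, h2⟩ := kbound_large h φ i j R
  have hexp : 0 ≤ (finrank ℝ E : ℝ) / 2 := by positivity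
  refine ⟨B1 + B2, by positivity, fun L c hc ρ hρ v hv => ?_⟩
  have hr0 : (0 : ℝ) ≤ (1 + ρ) ^ ((finrank ℝ E : ℝ) / 2) := by positivity
  rcases le_total ρ 1 with hr1 | hr1
  · have h3 := h1 L c hc ρ hρ hr1 v hv
    have h4 : (1 : ℝ) ≤ (1 + ρ) ^ ((finrank ℝ E : ℝ) / 2) :=
      Real.one_le_rpow (by linarith) hexp
    calc |GK μ ω y φ L i j c ρ v| ≤ B1 := h3
      _ ≤ B1 + B2 := by linarith
      _ = (B1 + B2) * 1 := (mul_one _).symm
      _ ≤ _ := mul_le_mul_of_nonneg_left h4 (by positivity)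
  · have h3 := h2 L c hc ρ hr1 v hv
    have e : κ - 2 = (finrank ℝ E : ℝ) / 2 := by rw [hκ]; ring
    rw [e] at h3
    calc |GK μ ω y φ L i j c ρ v| ≤ B2 * ρ ^ ((finrank ℝ E : ℝ) / 2) := h3
      _ ≤ B2 * (1 + ρ) ^ ((finrank ℝ E : ℝ) / 2) :=
          mul_le_mul_of_nonneg_left (Real.rpow_le_rpow hρ.le (by linarith) hexp) hB2
      _ ≤ _ := mul_le_mul_of_nonneg_right (by linarith) hr0

end Pool.Agent.KneserLine
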