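import Pool.Agent.KneserLine.Defs

/-!
# The operators `Jop` and `Dop`

PROOF. Inductions on `m` (`Function.iterate_succ_apply'`, `Function.iterate_succ_apply`). `Jop` of
an exponential: `∫ s in 0..ε, exp (-(K (v + s))) = exp (-(K v)) (1 - exp (-(K ε))) / K`. `Bd.jop`:
`Jop ε f` is measurable (`StronglyMeasurable.integral_prod_right` for `(v, s) ↦ f (v + s)` and
`intervalIntegral.integral_of_le`), and bounded on `[0, ∞)`. `tendsto_Jop_iter`: dominated
convergence on `[0, ε]`, induction with `Bd.jop`. `Jop_iter_abs_le_exp`: `|Jop ε g v| ≤ ∫ s in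
0..ε, C exp (-(v + s)) ≤ C exp (-v)`. `tendsto_Dop_atTop`: show by induction on `m` that for every
`b : ℝ → ℝ` with `Tendsto b atTop atTop` one has `(Dop ε)^[m] f (b ε) → 0` as `ε → ∞`, then `(Dop
ε)^[m + 1] f v = (Dop ε)^[m] f v - (Dop ε)^[m] f (v + ε)`.
-/

set_option autoImplicit false
set_option linter.unusedSectionVars false

namespace Pool.Agent.KneserLine

open MeasureTheory Set Filter Topology Module
open scoped ENNReal
open Pool.Agent.Kneser Pool.Agent.KneserRank Pool.Agent.KneserCentre Pool.Agent.KneserCone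

variable {D n : ℕ}

private theorem ops_exp_int {K : ℝ} (hK : K ≠ 0) (ε v : ℝ) :
    ∫ s in (0 : ℝ)..ε, Real.exp (-(K * (v + s))) =
      (1 - Real.exp (-(K * ε))) / K * Real.exp (-(K * v)) := by
  have h : ∀ s ∈ uIcc (0 : ℝ) ε, HasDerivAt (fun s => -Real.exp (-(K * (v + s))) / K)
      (Real.exp (-(K * (v + s)))) s := by
    intro s _
    have h1 : HasDerivAt (fun s : ℝ => -(K * (v + s))) (-(K * 1)) s :=
      (((hasDerivAt_id s).const_add v).const_mul K).neg
    have h2 := (h1.exp.neg).div_const K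
    refine h2.congr_deriv ?_
    field_simp
  rw [intervalIntegral.integral_eq_sub_of_hasDerivAt h
    (Continuous.intervalIntegrable (by fun_prop) _ _)]
  have h3 : Real.exp (-(K * (v + ε))) = Real.exp (-(K * ε)) * Real.exp (-(K * v)) := by
    rw [← Real.exp_add]
    congr 1
    ring
  rw [h3, add_zero]
  field_simp
  ring

theorem Dop_iter_congr {ε : ℝ} (hε : 0 ≤ ε) {f g : ℝ → ℝ} (h : ∀ v, 0 ≤ v → f v = g v) (m : ℕ)
    {v : ℝ} (hv : 0 ≤ v) : (Dop ε)^[m] f v = (Dop ε)^[m] g v := by
  induction m generalizing f g v with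
  | zero => exact h v hv
  | succ m ih =>
    rw [Function.iterate_succ_apply, Function.iterate_succ_apply]
    refine ih (fun u hu => ?_) hv
    unfold Dop
    rw [h u hu, h (u + ε) (by linarith)]

theorem Jop_iter_congr {ε : ℝ} (hε : 0 ≤ ε) {f g : ℝ → ℝ} (h : ∀ v, 0 ≤ v → f v = g v) (m : ℕ)
    {v : ℝ} (hv : 0 ≤ v) : (Jop ε)^[m] f v = (Jop ε)^[m] g v := by
  induction m generalizing f g v with
  | zero => exact h v hv
  | succ m ih =>
    rw [Function.iterate_succ_apply, Function.iterate_succ_apply]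
    refine ih (fun u hu => ?_) hv
    unfold Jop
    refine intervalIntegral.integral_congr (fun s hs => ?_)
    rw [uIcc_of_le hε] at hs
    exact h (u + s) (by linarith [hs.1])

theorem Dop_iter_const_mul (ε A : ℝ) (f : ℝ → ℝ) (m : ℕ) (v : ℝ) :
    (Dop ε)^[m] (fun u => A * f u) v = A * (Dop ε)^[m] f v := by
  induction m generalizing v with
  | zero => rfl
  | succ m ih =>
    rw [Function.iterate_succ_apply', Function.iterate_succ_apply']
    unfold Dop at ih ⊢
    rw [ih, ih]
    ring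

theorem Jop_iter_const_mul (ε A : ℝ) (f : ℝ → ℝ) (m : ℕ) (v : ℝ) :
    (Jop ε)^[m] (fun u => A * f u) v = A * (Jop ε)^[m] f v := by
  induction m generalizing v with
  | zero => rfl
  | succ m ih =>
    rw [Function.iterate_succ_apply', Function.iterate_succ_apply']
    show ∫ s in (0 : ℝ)..ε, (Jop ε)^[m] (fun u => A * f u) (v + s) =
      A * ∫ s in (0 : ℝ)..ε, (Jop ε)^[m] f (v + s)
    rw [← intervalIntegral.integral_const_mul]
    exact intervalIntegral.integral_congr (fun s _ => ih (v + s))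

theorem Dop_iter_sub (ε : ℝ) (f g : ℝ → ℝ) (m : ℕ) (v : ℝ) :
    (Dop ε)^[m] (fun u => f u - g u) v = (Dop ε)^[m] f v - (Dop ε)^[m] g v := by
  induction m generalizing v with
  | zero => rfl
  | succ m ih =>
    rw [Function.iterate_succ_apply', Function.iterate_succ_apply', Function.iterate_succ_apply']
    show (Dop ε)^[m] (fun u => f u - g u) v - (Dop ε)^[m] (fun u => f u - g u) (v + ε) =
      ((Dop ε)^[m] f v - (Dop ε)^[m] f (v + ε)) - ((Dop ε)^[m] g v - (Dop ε)^[m] g (v + ε))
    rw [ih, ih]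
    ring

theorem Dop_iter_scale (ε : ℝ) {ρ : ℝ} (hρ : 0 < ρ) (g : ℝ → ℝ) (m : ℕ) (v : ℝ) :
    (Dop ε)^[m] (fun u => g (u / ρ)) v = (Dop (ε / ρ))^[m] g (v / ρ) := by
  induction m generalizing v with
  | zero => rfl
  | succ m ih =>
    rw [Function.iterate_succ_apply', Function.iterate_succ_apply']
    show (Dop ε)^[m] (fun u => g (u / ρ)) v - (Dop ε)^[m] (fun u => g (u / ρ)) (v + ε) =
      (Dop (ε / ρ))^[m] g (v / ρ) - (Dop (ε / ρ))^[m] g (v / ρ + ε / ρ)
    rw [ih, ih, add_div]

theorem Jop_iter_scale (ε : ℝ) {ρ : ℝ} (hρ : 0 < ρ) (g : ℝ → ℝ) (m : ℕ) (v : ℝ) :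
    (Jop ε)^[m] (fun u => g (u / ρ)) v = ρ ^ m * (Jop (ε / ρ))^[m] g (v / ρ) := by
  induction m generalizing v with
  | zero => simp
  | succ m ih =>
    rw [Function.iterate_succ_apply', Function.iterate_succ_apply']
    show ∫ s in (0 : ℝ)..ε, (Jop ε)^[m] (fun u => g (u / ρ)) (v + s) =
      ρ ^ (m + 1) * ∫ s in (0 : ℝ)..(ε / ρ), (Jop (ε / ρ))^[m] g (v / ρ + s)
    have h1 : ∀ s, (Jop ε)^[m] (fun u => g (u / ρ)) (v + s) =
        ρ ^ m * (Jop (ε / ρ))^[m] g (v / ρ + s / ρ) := by
      intro s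
      rw [ih, add_div]
    rw [intervalIntegral.integral_congr (g := fun s =>
      ρ ^ m * (Jop (ε / ρ))^[m] g (v / ρ + s / ρ)) (fun s _ => h1 s),
      intervalIntegral.integral_const_mul,
      intervalIntegral.integral_comp_add_div (fun x => (Jop (ε / ρ))^[m] g x) hρ.ne' (v / ρ),
      intervalIntegral.integral_comp_add_left (fun x => (Jop (ε / ρ))^[m] g x) (v / ρ),
      smul_eq_mul, zero_div, pow_succ]
    ring

theorem Dop_iter_exp_sum {κ : Type*} (T : Finset κ) (A K : κ → ℝ) (ε : ℝ) (m : ℕ) (v : ℝ) :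
    (Dop ε)^[m] (fun u => ∑ k ∈ T, A k * Real.exp (-(K k * u))) v =
      ∑ k ∈ T, A k * (1 - Real.exp (-(K k * ε))) ^ m * Real.exp (-(K k * v)) := by
  induction m generalizing v with
  | zero => simp
  | succ m ih =>
    rw [Function.iterate_succ_apply']
    unfold Dop at ih ⊢
    rw [ih, ih, ← Finset.sum_sub_distrib]
    refine Finset.sum_congr rfl (fun k _ => ?_)
    have h3 : Real.exp (-(K k * (v + ε))) = Real.exp (-(K k * ε)) * Real.exp (-(K k * v)) := by
      rw [← Real.exp_add]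
      congr 1
      ring
    rw [h3, pow_succ]
    ring

theorem Jop_iter_exp_sum {κ : Type*} (T : Finset κ) (A K : κ → ℝ) (hK : ∀ k ∈ T, K k ≠ 0)
    (ε : ℝ) (m : ℕ) (v : ℝ) :
    (Jop ε)^[m] (fun u => ∑ k ∈ T, A k * Real.exp (-(K k * u))) v =
      ∑ k ∈ T, A k * ((1 - Real.exp (-(K k * ε))) / K k) ^ m * Real.exp (-(K k * v)) := by
  induction m generalizing v with
  | zero => simp
  | succ m ih =>
    rw [Function.iterate_succ_apply']
    show ∫ s in (0 : ℝ)..ε, (Jop ε)^[m] (fun u => ∑ k ∈ T, A k * Real.exp (-(K k * u))) (v + s) = _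
    rw [intervalIntegral.integral_congr (g := fun s => ∑ k ∈ T,
      A k * ((1 - Real.exp (-(K k * ε))) / K k) ^ m * Real.exp (-(K k * (v + s))))
      (fun s _ => ih (v + s))]
    rw [intervalIntegral.integral_finsetSum (fun k _ =>
      Continuous.intervalIntegrable (by fun_prop) _ _)]
    refine Finset.sum_congr rfl (fun k hk => ?_)
    rw [intervalIntegral.integral_const_mul, ops_exp_int (hK k hk), pow_succ]
    ring

theorem Bd.dop {f : ℝ → ℝ} {B ε : ℝ} (hε : 0 ≤ ε) (h : Bd f B) (m : ℕ) :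
    Bd ((Dop ε)^[m] f) (2 ^ m * B) := by
  induction m with
  | zero => simpa using h
  | succ m ih =>
    rw [Function.iterate_succ_apply']
    refine ⟨?_, fun v hv => ?_⟩
    · exact ih.meas.sub (ih.meas.comp (measurable_id.add_const ε))
    · unfold Dop at ih ⊢
      have h1 := ih.bound v hv
      have h2 := ih.bound (v + ε) (by linarith)
      rw [pow_succ]
      have h3 := abs_sub (((fun f v => f v - f (v + ε))^[m] f) v)
        (((fun f v => f v - f (v + ε))^[m] f) (v + ε))
      linarith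

private theorem ops_meas_jop {f : ℝ → ℝ} {ε : ℝ} (hε : 0 ≤ ε) (hf : Measurable f) :
    Measurable (Jop ε f) := by
  have h1 : Jop ε f = fun v => ∫ s in Ioc (0 : ℝ) ε, f (v + s) := by
    funext v
    unfold Jop
    rw [intervalIntegral.integral_of_le hε]
  rw [h1]
  have h2 : StronglyMeasurable (Function.uncurry fun v s : ℝ => f (v + s)) :=
    (hf.comp (measurable_fst.add measurable_snd)).stronglyMeasurable
  exact (h2.integral_prod_right (ν := volume.restrict (Ioc (0 : ℝ) ε))).measurable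

private theorem ops_jop_one {f : ℝ → ℝ} {B ε : ℝ} (hε : 0 ≤ ε) (h : Bd f B) :
    Bd (Jop ε f) (ε * B) := by
  refine ⟨ops_meas_jop hε h.meas, fun v hv => ?_⟩
  have h1 := intervalIntegral.norm_integral_le_of_norm_le_const (a := 0) (b := ε)
    (f := fun s => f (v + s)) (C := B) (fun s hs => by
      rw [uIoc_of_le hε] at hs
      exact h.bound (v + s) (by linarith [hs.1]))
  rw [sub_zero, abs_of_nonneg hε] at h1
  unfold Jop
  rw [← Real.norm_eq_abs, mul_comm]
  exact h1

theorem Bd.jop {f : ℝ → ℝ} {B ε : ℝ} (hε : 0 ≤ ε) (h : Bd f B) (m : ℕ) :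
    Bd ((Jop ε)^[m] f) (ε ^ m * B) := by
  induction m with
  | zero => simpa using h
  | succ m ih =>
    rw [Function.iterate_succ_apply', pow_succ, mul_comm (ε ^ m) ε, mul_assoc]
    exact ops_jop_one hε ih

theorem Jop_iter_nonneg {ε : ℝ} (hε : 0 ≤ ε) {f : ℝ → ℝ} (h : ∀ v, 0 ≤ v → 0 ≤ f v) (m : ℕ)
    {v : ℝ} (hv : 0 ≤ v) : 0 ≤ (Jop ε)^[m] f v := by
  induction m generalizing f v with
  | zero => exact h v hv
  | succ m ih =>
    rw [Function.iterate_succ_apply]
    refine ih (fun u hu => ?_) hv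
    unfold Jop
    exact intervalIntegral.integral_nonneg hε (fun s hs => h (u + s) (by linarith [hs.1]))

theorem tendsto_Dop_iter {ι : Type*} {l : Filter ι} {F : ι → ℝ → ℝ} {f : ℝ → ℝ} {ε : ℝ}
    (hε : 0 ≤ ε) (h : ∀ v, 0 ≤ v → Tendsto (fun i => F i v) l (𝓝 (f v))) (m : ℕ) {v : ℝ}
    (hv : 0 ≤ v) : Tendsto (fun i => (Dop ε)^[m] (F i) v) l (𝓝 ((Dop ε)^[m] f v)) := by
  induction m generalizing F f v with
  | zero => exact h v hv
  | succ m ih =>
    simp only [Function.iterate_succ_apply]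
    refine ih (fun u hu => ?_) hv
    unfold Dop
    exact (h u hu).sub (h (u + ε) (by linarith))

theorem tendsto_Jop_iter {ι : Type*} {l : Filter ι} [l.IsCountablyGenerated] {F : ι → ℝ → ℝ}
    {f : ℝ → ℝ} {B ε : ℝ} (hε : 0 ≤ ε) (hB : ∀ᶠ i in l, Bd (F i) B)
    (h : ∀ v, 0 ≤ v → Tendsto (fun i => F i v) l (𝓝 (f v))) (m : ℕ) {v : ℝ} (hv : 0 ≤ v) :
    Tendsto (fun i => (Jop ε)^[m] (F i) v) l (𝓝 ((Jop ε)^[m] f v)) := by
  induction m generalizing F f B v with
  | zero => exact h v hv
  | succ m ih =>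
    simp only [Function.iterate_succ_apply]
    refine ih (B := ε * B) (hB.mono fun i hi => ops_jop_one hε hi) (fun u hu => ?_) hv
    unfold Jop
    refine intervalIntegral.tendsto_integral_filter_of_dominated_convergence (fun _ => B) ?_ ?_
      intervalIntegrable_const ?_
    · exact hB.mono fun i hi =>
        (hi.meas.comp (measurable_id.const_add u)).aestronglyMeasurable
    · refine hB.mono fun i hi => Eventually.of_forall fun s hs => ?_
      rw [uIoc_of_le hε] at hs
      exact hi.bound (u + s) (by linarith [hs.1])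
    · refine Eventually.of_forall fun s hs => ?_
      rw [uIoc_of_le hε] at hs
      exact h (u + s) (by linarith [hs.1])

theorem Jop_iter_abs_le_exp {ε : ℝ} (hε : 0 ≤ ε) {g : ℝ → ℝ} {C : ℝ}
    (h : ∀ v, 0 ≤ v → |g v| ≤ C * Real.exp (-v)) (m : ℕ) {v : ℝ} (hv : 0 ≤ v) :
    |(Jop ε)^[m] g v| ≤ C * Real.exp (-v) := by
  have hC : 0 ≤ C := by
    have h1 := h 0 (le_refl 0)
    rw [neg_zero, Real.exp_zero, mul_one] at h1
    exact (abs_nonneg _).trans h1
  induction m generalizing g v with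
  | zero => exact h v hv
  | succ m ih =>
    rw [Function.iterate_succ_apply]
    refine ih (fun u hu => ?_) hv
    unfold Jop
    have h1 := intervalIntegral.norm_integral_le_of_norm_le (a := 0) (b := ε) (μ := volume)
      (f := fun s => g (u + s)) (g := fun s => C * Real.exp (-(1 * (u + s)))) hε
      (Eventually.of_forall fun s hs => by
        have h2 := h (u + s) (by linarith [hs.1])
        rw [one_mul]
        exact h2)
      (Continuous.intervalIntegrable (by fun_prop) _ _)
    rw [Real.norm_eq_abs, intervalIntegral.integral_const_mul, ops_exp_int one_ne_zero] at h1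
    refine h1.trans (mul_le_mul_of_nonneg_left ?_ hC)
    rw [one_mul, one_mul, div_one]
    have h3 : 0 < Real.exp (-u) := Real.exp_pos _
    have h4 : 0 < Real.exp (-ε) := Real.exp_pos _
    nlinarith

private theorem ops_tendsto_zero {f : ℝ → ℝ} (h : Tendsto f atTop (𝓝 0)) (m : ℕ) :
    ∀ b : ℝ → ℝ, Tendsto b atTop atTop →
      Tendsto (fun ε => (Dop ε)^[m] f (b ε)) atTop (𝓝 0) := by
  induction m with
  | zero =>
    intro b hb
    exact h.comp hb
  | succ m ih =>
    intro b hb
    simp only [Function.iterate_succ_apply']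
    have h1 := (ih b hb).sub (ih (fun ε => b ε + ε) (hb.atTop_add_atTop tendsto_id))
    rw [sub_zero] at h1
    exact h1

theorem tendsto_Dop_atTop {f : ℝ → ℝ} (h : Tendsto f atTop (𝓝 0)) (m : ℕ) (v : ℝ) :
    Tendsto (fun ε => (Dop ε)^[m] f v) atTop (𝓝 (f v)) := by
  induction m with
  | zero => exact tendsto_const_nhds
  | succ m ih =>
    simp only [Function.iterate_succ_apply']
    have h1 := ih.sub (ops_tendsto_zero h m (fun ε => v + ε)
      (tendsto_atTop_add_const_left _ v tendsto_id))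
    rw [sub_zero] at h1
    exact h1

end Pool.Agent.KneserLine
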