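import Pool.Agent.KneserLine.KPoly
import Pool.Agent.KneserLine.Ops
import Pool.Agent.KneserLine.KScale

/-!
# Comparison of two families

PROOF. `kcomp_poly`: with `exists_repr` and `PK_eq`, the polynomial pair integrals are `PK = ∑ k ∈
T, A k * C * (π / K) ^ κ * I k * exp (-(K v))`, `K = tot k > 0`. By `Dop_iter_exp_sum` the left
side is `∑ A k C₂ (π / K) ^ κ₂ I k (1 - exp (-(K ε))) ^ (m + ν) exp (-(K v))`, and by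
`Dop_iter_exp_sum`, `Jop_iter_exp_sum` (rewrite the function `(Dop ε)^[m] PK₁` first with
`funext`) the right side is `C₂ / C₁ π ^ ν ∑ A k C₁ (π / K) ^ κ₁ I k (1 - exp (-(K ε))) ^ m ((1 -
exp (-(K ε))) / K) ^ ν exp (-(K v))`; `(π / K) ^ κ₂ = (π / K) ^ κ₁ (π / K) ^ ν`. `kcomp_one`:
limit `M → ∞`: `tendsto_Dop_iter`, `tendsto_PK`, `tendsto_Jop_iter` with `exists_PK_bound`,
`Bd.dop` (for all large `M` one has `exp (c l) ≤ M` for all `l`). `kcomp`: apply `kcomp_one` to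
`h₁.scale hρ`, `h₂.scale hρ`, `c / ρ`, `ε / ρ`, `v / ρ` and use `GK_scale`, `Dop_iter_scale`,
`Jop_iter_scale`, `Dop_iter_const_mul`, `Jop_iter_const_mul`; the factor `ρ ^ κ₂ / ρ ^ κ₁ = ρ ^ ν`
is the one of `Jop_iter_scale`.
-/

set_option autoImplicit false
set_option linter.unusedSectionVars false

namespace Pool.Agent.KneserLine

open MeasureTheory Set Filter Topology Module
open scoped ENNReal
open Pool.Agent.Kneser Pool.Agent.KneserRank Pool.Agent.KneserCentre Pool.Agent.KneserCone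

variable {D n : ℕ}

variable {X : Type*} [MeasurableSpace X]

variable {Y : Type*} [MeasurableSpace Y]

theorem kcomp_poly {μ₁ : Measure X} {ω₁ : X → ℝ} {y₁ : X → Fin n → ℝ} {μ₂ : Measure Y}
    {ω₂ : Y → ℝ} {y₂ : Y → Fin n → ℝ} {s r : Fin n → Fin n → ℝ} {C₁ κ₁ C₂ κ₂ : ℝ}
    (h₁ : Kern μ₁ ω₁ y₁ s r C₁ κ₁) (h₂ : Kern μ₂ ω₂ y₂ s r C₂ κ₂) {ν m : ℕ}
    (hκ : κ₂ = κ₁ + ν) {φ : ℕ → ℝ} (hφ0 : φ 0 = 0) (L : Finset (Fin n)) (c : Fin n → ℝ)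
    {i j : Fin n} (hij : i ≠ j) (M : ℕ) (ε v : ℝ) :
    (Dop ε)^[m + ν] (PK μ₂ ω₂ y₂ φ L c M i j) v =
      C₂ / C₁ * Real.pi ^ ν * (Jop ε)^[ν] ((Dop ε)^[m] (PK μ₁ ω₁ y₁ φ L c M i j)) v := by
  obtain ⟨T, A, hT, -, hpg⟩ := exists_repr hφ0 L c M
  have e1 : PK μ₁ ω₁ y₁ φ L c M i j = fun v =>
      ∑ k ∈ T, ((-(A k * ((k i : ℝ) * (k j : ℝ)))) * (C₁ * (Real.pi / tot k) ^ κ₁ *
      ∫ t in (0 : ℝ)..1, Real.exp (-((t * quad k s + (1 - t) * quad k r) / tot k)))) *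
        Real.exp (-(tot k * v)) := by
    funext v
    exact PK_eq h₁ hT (hpg i j hij) v
  have e2 : PK μ₂ ω₂ y₂ φ L c M i j = fun v =>
      ∑ k ∈ T, ((-(A k * ((k i : ℝ) * (k j : ℝ)))) * (C₂ * (Real.pi / tot k) ^ κ₂ *
      ∫ t in (0 : ℝ)..1, Real.exp (-((t * quad k s + (1 - t) * quad k r) / tot k)))) *
        Real.exp (-(tot k * v)) := by
    funext v
    exact PK_eq h₂ hT (hpg i j hij) v
  rw [e2, Dop_iter_exp_sum, e1]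
  have e3 : (Dop ε)^[m] (fun v =>
      ∑ k ∈ T, ((-(A k * ((k i : ℝ) * (k j : ℝ)))) * (C₁ * (Real.pi / tot k) ^ κ₁ *
      ∫ t in (0 : ℝ)..1, Real.exp (-((t * quad k s + (1 - t) * quad k r) / tot k)))) *
        Real.exp (-(tot k * v))) = fun v =>
      ∑ k ∈ T, (((-(A k * ((k i : ℝ) * (k j : ℝ)))) * (C₁ * (Real.pi / tot k) ^ κ₁ *
      ∫ t in (0 : ℝ)..1, Real.exp (-((t * quad k s + (1 - t) * quad k r) / tot k)))) *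
        (1 - Real.exp (-(tot k * ε))) ^ m) * Real.exp (-(tot k * v)) := by
    funext v
    exact Dop_iter_exp_sum T _ tot ε m v
  rw [e3, Jop_iter_exp_sum T _ tot (fun k hk => (tot_pos (hT k hk)).ne') ε ν v, Finset.mul_sum]
  refine Finset.sum_congr rfl fun k hk => ?_
  have hK := tot_pos (hT k hk)
  have hC := h₁.C_pos
  have hpK : 0 < Real.pi / tot k := div_pos Real.pi_pos hK
  rw [hκ, Real.rpow_add hpK, Real.rpow_natCast, pow_add, div_pow, div_pow]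
  generalize (∫ t in (0 : ℝ)..1,
    Real.exp (-((t * quad k s + (1 - t) * quad k r) / tot k))) = I
  generalize (Real.pi / tot k) ^ κ₁ = R
  field_simp

theorem kcomp_one {μ₁ : Measure X} {ω₁ : X → ℝ} {y₁ : X → Fin n → ℝ} {μ₂ : Measure Y}
    {ω₂ : Y → ℝ} {y₂ : Y → Fin n → ℝ} {s r : Fin n → Fin n → ℝ} {C₁ κ₁ C₂ κ₂ : ℝ}
    (h₁ : Kern μ₁ ω₁ y₁ s r C₁ κ₁) (h₂ : Kern μ₂ ω₂ y₂ s r C₂ κ₂) {ν m : ℕ}
    (hκ : κ₂ = κ₁ + ν) {φ : ℕ → ℝ} (hφ0 : φ 0 = 0) {L : Finset (Fin n)} (c : Fin n → ℝ)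
    {i j : Fin n} (hij : i ≠ j) (hi : i ∈ L) (hj : j ∈ L) {ε v : ℝ} (hε : 0 ≤ ε) (hv : 0 ≤ v) :
    (Dop ε)^[m + ν] (GK μ₂ ω₂ y₂ φ L i j c 1) v =
      C₂ / C₁ * Real.pi ^ ν * (Jop ε)^[ν] ((Dop ε)^[m] (GK μ₁ ω₁ y₁ φ L i j c 1)) v := by
  obtain ⟨B, hB⟩ := exists_PK_bound h₁ hφ0 L c hij
  have hev : ∀ᶠ M : ℕ in atTop, Bd (PK μ₁ ω₁ y₁ φ L c M i j) B := by
    have h1 : ∀ᶠ M : ℕ in atTop, ∀ l, Real.exp (c l) ≤ M :=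
      eventually_all.2 fun l => tendsto_natCast_atTop_atTop.eventually_ge_atTop _
    exact h1.mono fun M hM => hB M hM
  have t1 : Tendsto (fun M => (Dop ε)^[m + ν] (PK μ₂ ω₂ y₂ φ L c M i j) v) atTop
      (𝓝 ((Dop ε)^[m + ν] (GK μ₂ ω₂ y₂ φ L i j c 1) v)) :=
    tendsto_Dop_iter hε (fun v hv => tendsto_PK h₂ φ L hij hi hj c hv) (m + ν) hv
  have t2 : Tendsto (fun M => (Jop ε)^[ν] ((Dop ε)^[m] (PK μ₁ ω₁ y₁ φ L c M i j)) v) atTop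
      (𝓝 ((Jop ε)^[ν] ((Dop ε)^[m] (GK μ₁ ω₁ y₁ φ L i j c 1)) v)) :=
    tendsto_Jop_iter hε (hev.mono fun M hM => hM.dop hε m)
      (fun v hv => tendsto_Dop_iter hε (fun v hv => tendsto_PK h₁ φ L hij hi hj c hv) m hv) ν hv
  have t3 := t2.const_mul (C₂ / C₁ * Real.pi ^ ν)
  refine tendsto_nhds_unique t1 (t3.congr fun M => ?_)
  exact (kcomp_poly h₁ h₂ hκ hφ0 L c hij M ε v).symm

theorem kcomp {μ₁ : Measure X} {ω₁ : X → ℝ} {y₁ : X → Fin n → ℝ} {μ₂ : Measure Y}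
    {ω₂ : Y → ℝ} {y₂ : Y → Fin n → ℝ} {s r : Fin n → Fin n → ℝ} {C₁ κ₁ C₂ κ₂ : ℝ}
    (h₁ : Kern μ₁ ω₁ y₁ s r C₁ κ₁) (h₂ : Kern μ₂ ω₂ y₂ s r C₂ κ₂) {ν m : ℕ}
    (hκ : κ₂ = κ₁ + ν) {φ : ℕ → ℝ} (hφ0 : φ 0 = 0) {L : Finset (Fin n)} (c : Fin n → ℝ)
    {i j : Fin n} (hij : i ≠ j) (hi : i ∈ L) (hj : j ∈ L) {ρ : ℝ} (hρ : 0 < ρ) {ε v : ℝ}
    (hε : 0 ≤ ε) (hv : 0 ≤ v) :
    (Dop ε)^[m + ν] (GK μ₂ ω₂ y₂ φ L i j c ρ) v =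
      C₂ / C₁ * Real.pi ^ ν * (Jop ε)^[ν] ((Dop ε)^[m] (GK μ₁ ω₁ y₁ φ L i j c ρ)) v := by
  have hC := h₁.C_pos
  have e1 : GK μ₁ ω₁ y₁ φ L i j c ρ = fun v => (ρ⁻¹) ^ 2 *
      GK μ₁ ω₁ (fun x l => y₁ x l / ρ) φ L i j (fun l => c l / ρ) 1 (v / ρ) := by
    funext v
    exact GK_scale μ₁ ω₁ y₁ φ L i j c hρ v
  have e2 : GK μ₂ ω₂ y₂ φ L i j c ρ = fun v => (ρ⁻¹) ^ 2 *
      GK μ₂ ω₂ (fun x l => y₂ x l / ρ) φ L i j (fun l => c l / ρ) 1 (v / ρ) := by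
    funext v
    exact GK_scale μ₂ ω₂ y₂ φ L i j c hρ v
  have h3 := kcomp_one (h₁.scale hρ) (h₂.scale hρ) hκ hφ0 (m := m) (fun l => c l / ρ) hij hi hj
    (div_nonneg hε hρ.le) (div_nonneg hv hρ.le)
  have e3 : (Dop ε)^[m] (fun v => (ρ⁻¹) ^ 2 *
      GK μ₁ ω₁ (fun x l => y₁ x l / ρ) φ L i j (fun l => c l / ρ) 1 (v / ρ)) = fun v =>
      (ρ⁻¹) ^ 2 * (Dop (ε / ρ))^[m]
        (GK μ₁ ω₁ (fun x l => y₁ x l / ρ) φ L i j (fun l => c l / ρ) 1) (v / ρ) := by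
    funext v
    rw [Dop_iter_const_mul, Dop_iter_scale ε hρ]
  rw [e2, Dop_iter_const_mul, Dop_iter_scale ε hρ, h3, e1, e3, Jop_iter_const_mul,
    Jop_iter_scale ε hρ, hκ, Real.rpow_add hρ, Real.rpow_natCast]
  have hρ1 : 0 < ρ ^ κ₁ := Real.rpow_pos_of_pos hρ _
  field_simp

end Pool.Agent.KneserLine
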