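import Pool.Agent.KneserLine.KMeas

/-!
# The error of the localisation

PROOF. As in `Pool/Agent/KneserCone/Err.lean` (`om`, `ya`, `mu D` replaced by `ω`, `y`, `μ`;
`integrable_single` replaced by `Kern.integrable` for `Pi.single i 1` and `ρ = 2`).
-/

set_option autoImplicit false
set_option linter.unusedSectionVars false

namespace Pool.Agent.KneserLine

open MeasureTheory Set Filter Topology Module
open scoped ENNReal
open Pool.Agent.Kneser Pool.Agent.KneserRank Pool.Agent.KneserCentre Pool.Agent.KneserCone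

variable {D n : ℕ}

variable {X : Type*} [MeasurableSpace X]

private theorem kerr_three {u v w r δ : ℝ} (hr : 0 < r) (hr1 : r ≤ 1) (hδ : 0 < δ)
    (h : δ ≤ max u (max v w)) :
    eG (u / r) * eG (v / r) * bG (w / r) ≤
      Real.exp (-(δ / (2 * r))) * Real.exp (-(u / 2)) := by
  have h1 : eG (u / r) * eG (v / r) * bG (w / r) ≤
      Real.exp (-max (u / r) 0) * Real.exp (-max (v / r) 0) * Real.exp (-max (w / r) 0) :=
    mul_le_mul (mul_le_mul (eG_le_exp_max _) (eG_le_exp_max _) (eG_nonneg _)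
      (Real.exp_pos _).le) (bG_le_exp_max _) (bG_nonneg _)
      (mul_nonneg (Real.exp_pos _).le (Real.exp_pos _).le)
  refine h1.trans ?_
  rw [← Real.exp_add, ← Real.exp_add, ← Real.exp_add, Real.exp_le_exp]
  set m := max u (max v w) with hm
  have hmpos : 0 < m := lt_of_lt_of_le hδ h
  have h2 : m / r ≤ max (u / r) 0 + max (v / r) 0 + max (w / r) 0 := by
    have a1 := le_max_left (u / r) 0
    have a2 := le_max_left (v / r) 0
    have a3 := le_max_left (w / r) 0
    have b1 := le_max_right (u / r) 0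
    have b2 := le_max_right (v / r) 0
    have b3 := le_max_right (w / r) 0
    have h3 : m = u ∨ m = v ∨ m = w := by
      rcases max_choice u (max v w) with h4 | h4
      · exact Or.inl h4
      · rcases max_choice v w with h5 | h5
        · exact Or.inr (Or.inl (h4.trans h5))
        · exact Or.inr (Or.inr (h4.trans h5))
    rcases h3 with h4 | h4 | h4 <;> rw [h4] <;> linarith
  have h3 : δ / (2 * r) + m / 2 ≤ m / r := by
    have h4 : m / r = m / (2 * r) + m / (2 * r) := by
      field_simp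
      ring
    have h5 : δ / (2 * r) ≤ m / (2 * r) := div_le_div_of_nonneg_right h (by positivity)
    have h6 : m / 2 ≤ m / (2 * r) :=
      div_le_div_of_nonneg_left hmpos.le (by positivity) (by linarith)
    linarith
  have h4 : u / 2 ≤ m / 2 := by
    have := le_max_left u (max v w)
    linarith
  linarith

private theorem kerr_pt (φ : ℕ → ℝ) {L : Finset (Fin n)} {i j : Fin n} {c : Fin n → ℝ} {δ r : ℝ}
    (hδ : 0 < δ) (hr : 0 < r) (hr1 : r ≤ 1) (y : Fin n → ℝ)
    (h : ∀ k, k ∉ L → δ ≤ max (y i - c i) (max (y j - c j) (y k - c k))) :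
    |gd φ Finset.univ i j c r y - gd φ L i j c r y| ≤
      (r⁻¹) ^ 2 * (CC n φ * (n * (Real.exp (-(δ / (2 * r))) *
        Real.exp (-((y i - c i) / 2))))) := by
  unfold gd
  have h0 : 0 ≤ eG ((y i - c i) / r) * eG ((y j - c j) / r) :=
    mul_nonneg (eG_nonneg _) (eG_nonneg _)
  have hr2 : 0 ≤ (r⁻¹) ^ 2 := sq_nonneg _
  rw [← mul_sub, abs_mul, abs_of_nonneg (mul_nonneg hr2 h0), mul_assoc]
  refine mul_le_mul_of_nonneg_left ?_ hr2
  have h1 := sd_sub_le φ i j
    (w := fun l => if l ∈ (Finset.univ : Finset (Fin n)) then bG ((y l - c l) / r) else 0)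
    (w' := fun l => if l ∈ L then bG ((y l - c l) / r) else 0)
    (fun l => by
      split_ifs
      · exact bG_nonneg _
      · exact le_refl _)
    (fun l => by
      split_ifs
      · exact bG_le_one _
      · exact zero_le_one)
    (fun l => by
      split_ifs
      · exact bG_nonneg _
      · exact le_refl _)
    (fun l => by
      split_ifs
      · exact bG_le_one _
      · exact zero_le_one)
  refine (mul_le_mul_of_nonneg_left h1 h0).trans ?_
  rw [← mul_assoc, mul_comm _ (CC n φ), mul_assoc]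
  refine mul_le_mul_of_nonneg_left ?_ (CC_nonneg n φ)
  rw [Finset.mul_sum]
  have h2 : ∀ l ∈ (Finset.univ : Finset (Fin n)),
      eG ((y i - c i) / r) * eG ((y j - c j) / r) *
        |(if l ∈ (Finset.univ : Finset (Fin n)) then bG ((y l - c l) / r) else 0) -
          (if l ∈ L then bG ((y l - c l) / r) else 0)| ≤
      Real.exp (-(δ / (2 * r))) * Real.exp (-((y i - c i) / 2)) := by
    intro l _
    rw [if_pos (Finset.mem_univ l)]
    by_cases hl : l ∈ L
    · rw [if_pos hl, sub_self, abs_zero, mul_zero]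
      exact mul_nonneg (Real.exp_pos _).le (Real.exp_pos _).le
    · rw [if_neg hl, sub_zero, abs_of_nonneg (bG_nonneg _)]
      exact kerr_three hr hr1 hδ (h l hl)
  refine (Finset.sum_le_sum h2).trans ?_
  rw [Finset.sum_const, Finset.card_univ, Fintype.card_fin, nsmul_eq_mul]

private theorem kerr_ee_single (i : Fin n) (y : Fin n → ℝ) :
    ee (Pi.single i 1 : Fin n → ℕ) y = Real.exp (-y i) := by
  unfold ee
  rw [Finset.sum_eq_single i]
  · simp
  · intro b _ hb
    rw [Pi.single_eq_of_ne hb]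
    simp
  · simp

private theorem kerr_single {μ : Measure X} {ω : X → ℝ} {y : X → Fin n → ℝ}
    {s r : Fin n → Fin n → ℝ} {C κ : ℝ} (h : Kern μ ω y s r C κ) (i : Fin n) :
    Integrable (fun x => ω x * Real.exp (-(y x i / 2))) μ := by
  have hne : (Pi.single i 1 : Fin n → ℕ) ≠ 0 := by
    intro h0
    have := congrFun h0 i
    simp at this
  have h1 := h.integrable 2 (by norm_num) (Pi.single i 1) hne
  refine h1.congr (ae_of_all _ fun x => ?_)
  simp only [kerr_ee_single]

theorem kerr {μ : Measure X} {ω : X → ℝ} {y : X → Fin n → ℝ} {s r : Fin n → Fin n → ℝ}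
    {C κ : ℝ} (h : Kern μ ω y s r C κ) (φ : ℕ → ℝ) {L : Finset (Fin n)} {i j : Fin n}
    (hi : i ∈ L) (hj : j ∈ L) {c : Fin n → ℝ} {δ : ℝ} (hδ : 0 < δ)
    (hsep : ∀ᵐ x ∂μ, ∀ k, k ∉ L →
      δ ≤ max (y x i - c i) (max (y x j - c j) (y x k - c k))) :
    ∃ B : ℝ, 0 ≤ B ∧ ∀ ρ : ℝ, 0 < ρ → ρ ≤ 1 → ∀ v : ℝ, 0 ≤ v →
      |GK μ ω y φ Finset.univ i j c ρ v - GK μ ω y φ L i j c ρ v| ≤
        B * ((ρ⁻¹) ^ 2 * Real.exp (-(δ / (2 * ρ)))) := by
  have hI : 0 ≤ ∫ x, ω x * Real.exp (-(y x i / 2)) ∂μ := by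
    refine integral_nonneg_of_ae ?_
    filter_upwards [h.nonneg] with x hx
    exact mul_nonneg hx.1 (Real.exp_pos _).le
  refine ⟨CC n φ * (n * (Real.exp (c i / 2) * ∫ x, ω x * Real.exp (-(y x i / 2)) ∂μ)), ?_, ?_⟩
  · exact mul_nonneg (CC_nonneg n φ) (mul_nonneg (Nat.cast_nonneg n)
      (mul_nonneg (Real.exp_pos _).le hI))
  · intro ρ hρ hρ1 v hv
    unfold GK
    rw [← integral_sub (integrable_kgd h φ Finset.univ i j c hρ v)
      (integrable_kgd h φ L i j c hρ v)]
    set K : ℝ := (ρ⁻¹) ^ 2 * (CC n φ * (n * (Real.exp (-(δ / (2 * ρ))) *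
      Real.exp (c i / 2)))) with hK
    have hint : Integrable (fun x => K * (ω x * Real.exp (-(y x i / 2)))) μ :=
      (kerr_single h i).const_mul K
    have hb := norm_integral_le_of_norm_le
      (f := fun x => ω x * gd φ Finset.univ i j c ρ (fun l => y x l + v) -
        ω x * gd φ L i j c ρ (fun l => y x l + v)) hint ?_
    · rw [Real.norm_eq_abs, integral_const_mul] at hb
      refine hb.trans (le_of_eq ?_)
      rw [hK]
      ring
    · filter_upwards [h.nonneg, hsep] with x hx hsx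
      rw [← mul_sub, Real.norm_eq_abs, abs_mul, abs_of_nonneg hx.1]
      have h1 := kerr_pt φ (L := L) (i := i) (j := j) (c := c) hδ hρ hρ1
        (fun l => y x l + v) (fun k hk => by
          refine (hsx k hk).trans ?_
          exact max_le_max (by linarith) (max_le_max (by linarith) (by linarith)))
      refine (mul_le_mul_of_nonneg_left h1 hx.1).trans ?_
      have h2 : Real.exp (-((y x i + v - c i) / 2)) ≤
          Real.exp (c i / 2) * Real.exp (-(y x i / 2)) := by
        rw [← Real.exp_add, Real.exp_le_exp]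
        linarith
      have h3 : ω x * ((ρ⁻¹) ^ 2 * (CC n φ * (n * (Real.exp (-(δ / (2 * ρ))) *
          (Real.exp (c i / 2) * Real.exp (-(y x i / 2))))))) =
          K * (ω x * Real.exp (-(y x i / 2))) := by
        rw [hK]
        ring
      rw [← h3]
      refine mul_le_mul_of_nonneg_left ?_ hx.1
      refine mul_le_mul_of_nonneg_left ?_ (sq_nonneg _)
      refine mul_le_mul_of_nonneg_left ?_ (CC_nonneg n φ)
      refine mul_le_mul_of_nonneg_left ?_ (Nat.cast_nonneg n)
      exact mul_le_mul_of_nonneg_left h2 (Real.exp_pos _).le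

private theorem kerr_lim {δ : ℝ} (hδ : 0 < δ) :
    Tendsto (fun r : ℝ => (r⁻¹) ^ 2 * Real.exp (-(δ / (2 * r)))) (𝓝[>] 0) (𝓝 0) := by
  have h1 : Tendsto (fun r : ℝ => δ / 2 * r⁻¹) (𝓝[>] 0) atTop :=
    Tendsto.const_mul_atTop (by positivity) tendsto_inv_nhdsGT_zero
  have h2 := (Real.tendsto_pow_mul_exp_neg_atTop_nhds_zero 2).comp h1
  have h3 := h2.const_mul ((2 / δ) ^ 2)
  rw [mul_zero] at h3
  refine h3.congr' ?_
  filter_upwards [self_mem_nhdsWithin] with r hr
  have hr' : (0 : ℝ) < r := hr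
  have h4 : δ / 2 * r⁻¹ = δ / (2 * r) := by
    field_simp
  simp only [Function.comp_apply]
  rw [← mul_assoc, h4]
  congr 1
  field_simp

theorem tendsto_kerr {μ : Measure X} {ω : X → ℝ} {y : X → Fin n → ℝ} {s r : Fin n → Fin n → ℝ}
    {C κ : ℝ} (h : Kern μ ω y s r C κ) (φ : ℕ → ℝ) {L : Finset (Fin n)} {i j : Fin n}
    (hi : i ∈ L) (hj : j ∈ L) {c : Fin n → ℝ} {δ : ℝ} (hδ : 0 < δ)
    (hsep : ∀ᵐ x ∂μ, ∀ k, k ∉ L →
      δ ≤ max (y x i - c i) (max (y x j - c j) (y x k - c k))) {v : ℝ} (hv : 0 ≤ v) :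
    Tendsto (fun ρ => GK μ ω y φ Finset.univ i j c ρ v - GK μ ω y φ L i j c ρ v) (𝓝[>] 0)
      (𝓝 0) := by
  obtain ⟨B, _, hB⟩ := kerr h φ hi hj hδ hsep
  have h1 := (kerr_lim hδ).const_mul B
  rw [mul_zero] at h1
  refine squeeze_zero_norm' ?_ h1
  have h2 : Ioc (0 : ℝ) 1 ∈ 𝓝[>] (0 : ℝ) := Ioc_mem_nhdsGT zero_lt_one
  filter_upwards [h2] with ρ hρ
  rw [Real.norm_eq_abs]
  exact hB ρ hρ.1 hρ.2 v hv

end Pool.Agent.KneserLine
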