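import Pool.Agent.KneserLine.Defs

/-!
# The families `kern_GI` and `kern_G4`

PROOF. `kern_GI`: at `ρ = 1` these are `integrable_trip`, `integral_trip`, `ya_nonneg`,
`ae_mem_Ioo`, `measurable_ya`, `measurable_om` (`Pool/Agent/KneserCone/Trip.lean`). For general
`ρ` use `measure_scale`, `integrable_scale`, `ya_scale` (`Scale.lean`) with `σ = √ρ`: `ya a z (σ
x) l / ρ = ya a (z / σ) x l`, and `quad k (∑ a ((z i - z j) / σ)²) = quad k s / ρ`; `ρ ^ ((D+1)/2)
(π / K) ^ ((D+1)/2) = (π ρ / K) ^ ((D+1)/2)`. `kern_G4`: `ya a z (t, (w, η)) l = yb a z (t, w) l +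
η²`, so `ee k (ya (t, (w, η)) / ρ) = ee k (yb (t, w) / ρ) * exp (-(K η² / ρ))`, the measure `mu D`
is (up to the obvious equivalence `ℝ × ((Fin D → ℝ) × ℝ) ≃ (ℝ × (Fin D → ℝ)) × ℝ`,
`MeasurableEquiv.prodAssoc`) the product of `nu D` and `volume`, so the integral of `kern_GI` is
the product of the one wanted and `∫ η, exp (-(K η² / ρ)) = √(π ρ / K)` (`integral_gaussian`); for
the integrability use `Integrable.integral_prod_left` or `integrable_prod_iff` and that the second
factor is not zero.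
-/

set_option autoImplicit false
set_option linter.unusedSectionVars false

namespace Pool.Agent.KneserLine

open MeasureTheory Set Filter Topology Module
open scoped ENNReal
open Pool.Agent.Kneser Pool.Agent.KneserRank Pool.Agent.KneserCentre Pool.Agent.KneserCone

variable {D n : ℕ}

private theorem kgi_scaled (a : Fin D → ℝ) (z : Fin n → Fin D → ℝ) (k : Fin n → ℕ) {ρ : ℝ}
    (hρ : 0 < ρ) (x : XS D) :
    om a ((x.1, (√ρ • x.2.1, √ρ * x.2.2)) : XS D).1 *
      ee k (fun l => ya a z (x.1, (√ρ • x.2.1, √ρ * x.2.2)) l / ρ) =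
    om a x.1 * ee k (ya a (fun l m => z l m / √ρ) x) := by
  have hσ : 0 < √ρ := Real.sqrt_pos.mpr hρ
  congr 2
  funext l
  rw [ya_scale a z hσ x l, Real.sq_sqrt hρ.le]
  field_simp

private theorem kgi_quad (b : Fin D → ℝ) (z : Fin n → Fin D → ℝ) (k : Fin n → ℕ) {ρ : ℝ}
    (hρ : 0 < ρ) {s : Fin n → Fin n → ℝ} (hs : ∀ i j, s i j = ∑ m, b m * (z i m - z j m) ^ 2) :
    quad k (fun i j => ∑ m, b m * (z i m / √ρ - z j m / √ρ) ^ 2) = quad k s / ρ := by
  have hij : ∀ i j, ∑ m, b m * (z i m / √ρ - z j m / √ρ) ^ 2 = s i j / ρ := by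
    intro i j
    rw [hs i j, Finset.sum_div]
    refine Finset.sum_congr rfl fun m _ => ?_
    rw [← sub_div, div_pow, Real.sq_sqrt hρ.le, mul_div_assoc]
  unfold quad
  simp_rw [hij]
  rw [div_right_comm]
  congr 1
  rw [Finset.sum_div]
  refine Finset.sum_congr rfl fun i _ => ?_
  rw [Finset.sum_div]
  refine Finset.sum_congr rfl fun j _ => ?_
  ring

theorem kern_GI {a : Fin D → ℝ} (ha : Pencil a) (z : Fin n → Fin D → ℝ)
    {s r : Fin n → Fin n → ℝ} (hs : ∀ i j, s i j = ∑ k, a k * (z i k - z j k) ^ 2)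
    (hr : ∀ i j, r i j = ∑ k, (1 - a k) * (z i k - z j k) ^ 2) :
    Kern (mu D) (fun x => om a x.1) (ya a z) s r (2 ^ D) (((D : ℝ) + 1) / 2) := by
  refine ⟨(measurable_om a).comp measurable_fst, measurable_ya a z, ?_, by positivity, ?_, ?_⟩
  · filter_upwards [ae_mem_Ioo (D := D)] with x hx
    refine ⟨?_, fun l => ya_nonneg ha z hx l⟩
    unfold om
    positivity
  · intro ρ hρ k hk
    have hσ : 0 < √ρ := Real.sqrt_pos.mpr hρ
    refine integrable_scale hσ ?_
    refine (integrable_trip ha (fun l m => z l m / √ρ) hk).congr ?_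
    exact Eventually.of_forall fun x => (kgi_scaled a z k hρ x).symm
  · intro ρ hρ k hk
    have hσ : 0 < √ρ := Real.sqrt_pos.mpr hρ
    rw [measure_scale hσ]
    have e1 : ∫ x : XS D, om a ((x.1, (√ρ • x.2.1, √ρ * x.2.2)) : XS D).1 *
        ee k (fun l => ya a z (x.1, (√ρ • x.2.1, √ρ * x.2.2)) l / ρ) ∂(mu D) =
        ∫ x, om a x.1 * ee k (ya a (fun l m => z l m / √ρ) x) ∂(mu D) :=
      integral_congr_ae (Eventually.of_forall fun x => kgi_scaled a z k hρ x)
    rw [e1, integral_trip ha _ hk, kgi_quad a z k hρ hs,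
      kgi_quad (fun m => 1 - a m) z k hρ hr]
    have hK := tot_pos hk
    have e2 : (√ρ) ^ (D + 1) = ρ ^ (((D : ℝ) + 1) / 2) := by
      rw [Real.sqrt_eq_rpow, ← Real.rpow_natCast, ← Real.rpow_mul hρ.le]
      congr 1
      push_cast
      ring
    have e3 : (Real.pi * ρ / tot k) ^ (((D : ℝ) + 1) / 2) =
        (Real.pi / tot k) ^ (((D : ℝ) + 1) / 2) * ρ ^ (((D : ℝ) + 1) / 2) := by
      rw [← Real.mul_rpow (by positivity) hρ.le]
      congr 1
      ring
    rw [e2, e3]
    have e4 : ∀ t : ℝ, -((t * (quad k s / ρ) + (1 - t) * (quad k r / ρ)) / tot k) =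
        -((t * quad k s + (1 - t) * quad k r) / (tot k * ρ)) := by
      intro t
      field_simp
    simp_rw [e4]
    ring

private theorem kgi_split (a : Fin D → ℝ) (z : Fin n → Fin D → ℝ) (k : Fin n → ℕ) (ρ : ℝ)
    (p : (ℝ × (Fin D → ℝ)) × ℝ) :
    om a (MeasurableEquiv.prodAssoc p).1 *
      ee k (fun l => ya a z (MeasurableEquiv.prodAssoc p) l / ρ) =
    (om a p.1.1 * ee k (fun l => yb a z p.1 l / ρ)) * Real.exp (-(tot k / ρ) * p.2 ^ 2) := by
  obtain ⟨⟨t, w⟩, η⟩ := p
  change om a t * ee k (fun l => ya a z (t, (w, η)) l / ρ) =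
    (om a t * ee k (fun l => yb a z (t, w) l / ρ)) * Real.exp (-(tot k / ρ) * η ^ 2)
  rw [mul_assoc]
  congr 1
  unfold ee yb ya tot
  rw [← Real.exp_add]
  congr 1
  simp only
  rw [Finset.sum_div, neg_mul, ← neg_add, Finset.sum_mul, ← Finset.sum_add_distrib]
  congr 1
  refine Finset.sum_congr rfl fun l _ => ?_
  ring

theorem kern_G4 {a : Fin D → ℝ} (ha : Pencil a) (z : Fin n → Fin D → ℝ)
    {s r : Fin n → Fin n → ℝ} (hs : ∀ i j, s i j = ∑ k, a k * (z i k - z j k) ^ 2)
    (hr : ∀ i j, r i j = ∑ k, (1 - a k) * (z i k - z j k) ^ 2) :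
    Kern (nu D) (fun x => om a x.1) (yb a z) s r (2 ^ D) ((D : ℝ) / 2) := by
  have h := kern_GI ha z hs hr
  have hmp : MeasurePreserving (MeasurableEquiv.prodAssoc : (ℝ × (Fin D → ℝ)) × ℝ ≃ᵐ XS D)
      ((nu D).prod volume) (mu D) := by
    unfold nu mu
    exact measurePreserving_prodAssoc _ _ _
  refine ⟨(measurable_om a).comp measurable_fst, ?_, ?_, by positivity, ?_, ?_⟩
  · intro l
    have h1 : Measurable fun x : ℝ × (Fin D → ℝ) => ((x.1, (x.2, (0 : ℝ))) : XS D) := by fun_prop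
    exact (measurable_ya a z l).comp h1
  · have h1 : ∀ᵐ t ∂((volume : Measure ℝ).restrict (Ioo (0 : ℝ) 1)), t ∈ Ioo (0 : ℝ) 1 :=
      ae_restrict_mem measurableSet_Ioo
    have h2 : ∀ᵐ x ∂(nu D), x.1 ∈ Ioo (0 : ℝ) 1 := by
      unfold nu
      exact Measure.quasiMeasurePreserving_fst.ae h1
    filter_upwards [h2] with x hx
    refine ⟨?_, fun l => ya_nonneg ha z (x := (x.1, (x.2, 0))) hx l⟩
    unfold om
    positivity
  · intro ρ hρ k hk
    have h1 := h.integrable ρ hρ k hk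
    have h2 := (hmp.integrable_comp_emb (MeasurableEquiv.measurableEmbedding _)).mpr h1
    have h3 : Integrable (fun p : (ℝ × (Fin D → ℝ)) × ℝ =>
        (om a p.1.1 * ee k (fun l => yb a z p.1 l / ρ)) * Real.exp (-(tot k / ρ) * p.2 ^ 2))
        ((nu D).prod volume) :=
      h2.congr (Eventually.of_forall fun p => kgi_split a z k ρ p)
    have h4 := h3.prod_left_ae
    obtain ⟨η, hη⟩ := h4.exists
    have h5 := hη.mul_const (Real.exp (-(tot k / ρ) * η ^ 2))⁻¹
    refine h5.congr (Eventually.of_forall fun x => ?_)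
    simp only
    rw [mul_assoc, mul_inv_cancel₀ (Real.exp_pos _).ne', mul_one]
  · intro ρ hρ k hk
    have hK := tot_pos hk
    have h1 := h.integral ρ hρ k hk
    have h2 : ∫ x, om a x.1 * ee k (fun l => ya a z x l / ρ) ∂(mu D) =
        ∫ p, (om a p.1.1 * ee k (fun l => yb a z p.1 l / ρ)) *
          Real.exp (-(tot k / ρ) * p.2 ^ 2) ∂((nu D).prod volume) := by
      rw [← hmp.integral_comp (MeasurableEquiv.measurableEmbedding _)]
      exact integral_congr_ae (Eventually.of_forall fun p => kgi_split a z k ρ p)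
    rw [h2, integral_prod_mul (fun x : ℝ × (Fin D → ℝ) => om a x.1 *
      ee k (fun l => yb a z x l / ρ)) (fun η : ℝ => Real.exp (-(tot k / ρ) * η ^ 2)),
      integral_gaussian] at h1
    have hpos : 0 < Real.pi * ρ / tot k := by positivity
    have e1 : Real.pi / (tot k / ρ) = Real.pi * ρ / tot k := by
      field_simp
    rw [e1] at h1
    have e2 : (Real.pi * ρ / tot k) ^ (((D : ℝ) + 1) / 2) =
        (Real.pi * ρ / tot k) ^ ((D : ℝ) / 2) * √(Real.pi * ρ / tot k) := by
      rw [Real.sqrt_eq_rpow, ← Real.rpow_add hpos]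
      congr 1
      ring
    rw [e2] at h1
    have hne : √(Real.pi * ρ / tot k) ≠ 0 := (Real.sqrt_pos.mpr hpos).ne'
    refine mul_right_cancel₀ hne (h1.trans ?_)
    ring

end Pool.Agent.KneserLine
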