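import Pool.Agent.KneserLine.KPoly
import Pool.Agent.KneserLine.Ops

/-!
# The identity for polynomials at scale one

PROOF. As in `Pool/Agent/KneserCone/PolyId.lean`. With `exists_repr` (`L = univ`), `K = tot k`, `P
= quad k (‖p i - p j‖²)`, `Q = quad k (‖q i - q j‖²)`, `I k` the integral over `t`, `d = finrank
E`: `VP p φ c M u = ∑ k ∈ T, A k (π / K) ^ (d/2) exp (-(P / K)) exp (-(K u))` (`integral_ee`,
`integral_finset_sum`, integrability from `Pool/Agent/KneserRank/Gauss.lean`), and `exp (-(P/K)) -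
exp (-(Q/K)) = -((P - Q)/K) I k` (`exp_sub_exp`). By `Jop_iter_exp_sum` the left side is `-∑ A k C
π ^ (m+1) π ^ (d/2) K ^ (-(d/2) - 1 - m) (P - Q) I k (1 - exp (-(K ε))) ^ m exp (-(K v))`. By
`PK_eq`, `Dop_iter_exp_sum` the right side is `-∑ i j (s - r)/2 ∑ k, A k k i k j C (π / K) ^ κ I k
(1 - exp (-(K ε))) ^ m exp (-(K v))` (terms with `i = j` vanish), and `∑ i j, k i k j (s i j - r i
j) / 2 = P - Q`, `κ = d/2 + m + 1`.
-/

set_option autoImplicit false
set_option linter.unusedSectionVars false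

namespace Pool.Agent.KneserLine

open MeasureTheory Set Filter Topology Module
open scoped ENNReal
open Pool.Agent.Kneser Pool.Agent.KneserRank Pool.Agent.KneserCentre Pool.Agent.KneserCone

variable {D n : ℕ}

variable {E : Type*} [NormedAddCommGroup E] [InnerProductSpace ℝ E] [FiniteDimensional ℝ E]
  [MeasurableSpace E] [BorelSpace E]

variable {X : Type*} [MeasurableSpace X]

private theorem ee_add_KIdentPoly (k : Fin n → ℕ) (y : Fin n → ℝ) (s : ℝ) :
    ee k (fun l => y l + s) = Real.exp (-(tot k * s)) * ee k y := by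
  unfold ee tot
  rw [← Real.exp_add]
  congr 1
  have h : ∑ i, (k i : ℝ) * (y i + s) = ∑ i, (k i : ℝ) * y i + (∑ i, (k i : ℝ)) * s := by
    rw [Finset.sum_mul, ← Finset.sum_add_distrib]
    exact Finset.sum_congr rfl fun i _ => by ring
  rw [h]
  ring

private theorem quad_sub_KIdentPoly (k : Fin n → ℕ) (s r : Fin n → Fin n → ℝ) :
    ∑ i, ∑ j, (s i j - r i j) / 2 * ((k i : ℝ) * (k j : ℝ)) = quad k s - quad k r := by
  unfold quad
  rw [← sub_div, ← Finset.sum_sub_distrib, Finset.sum_div]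
  refine Finset.sum_congr rfl fun i _ => ?_
  rw [← Finset.sum_sub_distrib, Finset.sum_div]
  refine Finset.sum_congr rfl fun j _ => ?_
  ring

/-- The polynomial volume functional as a sum of exponentials. -/
private theorem VP_eq_KIdentPoly (p : Fin n → E) {φ : ℕ → ℝ} {c : Fin n → ℝ} {M : ℕ}
    {T : Finset (Fin n → ℕ)} {A : (Fin n → ℕ) → ℝ} (hT : ∀ k ∈ T, k ≠ 0)
    (hmul : ∀ y : Fin n → ℝ, mul φ (fun l => (AL Finset.univ c M l).eval (Real.exp (-y l))) =
      ∑ k ∈ T, A k * ee k y) (u : ℝ) :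
    VP p φ c M u = ∑ k ∈ T, (A k * ((Real.pi / tot k) ^ ((finrank ℝ E : ℝ) / 2) *
      Real.exp (-(quad k (fun i j => ‖p i - p j‖ ^ 2) / tot k)))) *
        Real.exp (-(tot k * u)) := by
  unfold VP
  have e1 : ∀ x : E, mul φ (fun l => (AL Finset.univ c M l).eval
      (Real.exp (-(‖x - p l‖ ^ 2 + u)))) =
      ∑ k ∈ T, A k * (Real.exp (-(tot k * u)) * ee k (fun l => ‖x - p l‖ ^ 2)) := by
    intro x
    rw [hmul (fun l => ‖x - p l‖ ^ 2 + u)]
    exact Finset.sum_congr rfl fun k _ => by rw [ee_add_KIdentPoly]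
  simp only [e1]
  rw [integral_finsetSum]
  · refine Finset.sum_congr rfl fun k hk => ?_
    rw [integral_const_mul, integral_const_mul, integral_ee (hT k hk)]
    ring
  · intro k hk
    exact ((integrable_ee (hT k hk) p).const_mul _).const_mul _

/-- the term of the exponent `k` -/
private theorem term_KIdentPoly {d m : ℕ} {K κ C : ℝ} (hK : 0 < K) (P Q e F : ℝ)
    (hκ : κ = (d : ℝ) / 2 + ((m : ℝ) + 1)) :
    C * Real.pi ^ (m + 1) * (((Real.pi / K) ^ ((d : ℝ) / 2) *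
      (Real.exp (-(P / K)) - Real.exp (-(Q / K)))) * ((1 - e) / K) ^ m * F) =
      -((P - Q) * ((C * (Real.pi / K) ^ κ *
        ∫ t in (0 : ℝ)..1, Real.exp (-((t * P + (1 - t) * Q) / K))) * (1 - e) ^ m * F)) := by
  rw [exp_sub_exp]
  have h7 : ∀ t : ℝ, -((t * P + (1 - t) * Q) / K) = -(t * (P / K) + (1 - t) * (Q / K)) := by
    intro t; ring
  simp only [h7]
  have hpK : 0 < Real.pi / K := div_pos Real.pi_pos hK
  rw [hκ, Real.rpow_add hpK]
  have h9 : (Real.pi / K) ^ ((m : ℝ) + 1) = (Real.pi / K) ^ (m + 1) := by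
    rw [← Real.rpow_natCast]; push_cast; rfl
  rw [h9]
  generalize (∫ t in (0 : ℝ)..1, Real.exp (-(t * (P / K) + (1 - t) * (Q / K)))) = I
  generalize (Real.pi / K) ^ ((d : ℝ) / 2) = R
  rw [div_pow, div_pow, pow_succ K m]
  field_simp

theorem kident_poly {μ : Measure X} {ω : X → ℝ} {y : X → Fin n → ℝ} {s r : Fin n → Fin n → ℝ}
    {C κ : ℝ} (h : Kern μ ω y s r C κ) {m : ℕ} (hκ : κ = (finrank ℝ E : ℝ) / 2 + ((m : ℝ) + 1))
    (p q : Fin n → E) (hs : ∀ i j, s i j = ‖p i - p j‖ ^ 2) (hr : ∀ i j, r i j = ‖q i - q j‖ ^ 2)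
    {φ : ℕ → ℝ} (hφ0 : φ 0 = 0) (c : Fin n → ℝ) (M : ℕ) (ε v : ℝ) :
    C * Real.pi ^ (m + 1) * (Jop ε)^[m] (fun u => VP p φ c M u - VP q φ c M u) v =
      ∑ i, ∑ j, (‖p i - p j‖ ^ 2 - ‖q i - q j‖ ^ 2) / 2 *
        (Dop ε)^[m] (PK μ ω y φ Finset.univ c M i j) v := by
  have hs' : s = fun i j => ‖p i - p j‖ ^ 2 := by funext i j; exact hs i j
  have hr' : r = fun i j => ‖q i - q j‖ ^ 2 := by funext i j; exact hr i j
  obtain ⟨T, A, hT, hmul, hpg⟩ := exists_repr hφ0 Finset.univ c M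
  -- the left side
  have hL : (fun u => VP p φ c M u - VP q φ c M u) = fun u =>
      ∑ k ∈ T, (A k * ((Real.pi / tot k) ^ ((finrank ℝ E : ℝ) / 2) *
        (Real.exp (-(quad k (fun i j => ‖p i - p j‖ ^ 2) / tot k)) -
        Real.exp (-(quad k (fun i j => ‖q i - q j‖ ^ 2) / tot k))))) *
        Real.exp (-(tot k * u)) := by
    funext u
    rw [VP_eq_KIdentPoly p hT hmul u, VP_eq_KIdentPoly q hT hmul u, ← Finset.sum_sub_distrib]
    exact Finset.sum_congr rfl fun k _ => by ring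
  rw [hL, Jop_iter_exp_sum T _ tot (fun k hk => (tot_pos (hT k hk)).ne') ε m v]
  -- the right side
  have hR : ∀ i j, (‖p i - p j‖ ^ 2 - ‖q i - q j‖ ^ 2) / 2 *
        (Dop ε)^[m] (PK μ ω y φ Finset.univ c M i j) v =
      ∑ k ∈ T, (‖p i - p j‖ ^ 2 - ‖q i - q j‖ ^ 2) / 2 * ((k i : ℝ) * (k j : ℝ)) *
        -(A k * ((C * (Real.pi / tot k) ^ κ *
          ∫ t in (0 : ℝ)..1, Real.exp (-((t * quad k s + (1 - t) * quad k r) / tot k))) *
          (1 - Real.exp (-(tot k * ε))) ^ m * Real.exp (-(tot k * v)))) := by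
    intro i j
    rcases eq_or_ne i j with rfl | hij
    · simp
    · have h1 : PK μ ω y φ Finset.univ c M i j = fun v =>
          ∑ k ∈ T, ((-(A k * ((k i : ℝ) * (k j : ℝ)))) * (C * (Real.pi / tot k) ^ κ *
          ∫ t in (0 : ℝ)..1, Real.exp (-((t * quad k s + (1 - t) * quad k r) / tot k)))) *
            Real.exp (-(tot k * v)) := by
        funext v
        exact PK_eq h hT (hpg i j hij) v
      rw [h1, Dop_iter_exp_sum, Finset.mul_sum]
      exact Finset.sum_congr rfl fun k _ => by ring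
  simp only [hR]
  have hswap : ∀ g : Fin n → Fin n → (Fin n → ℕ) → ℝ,
      ∑ i, ∑ j, ∑ k ∈ T, g i j k = ∑ k ∈ T, ∑ i, ∑ j, g i j k := by
    intro g
    have e : ∀ i, ∑ j, ∑ k ∈ T, g i j k = ∑ k ∈ T, ∑ j, g i j k := fun i => Finset.sum_comm
    simp only [e]
    exact Finset.sum_comm
  rw [hswap, Finset.mul_sum]
  refine Finset.sum_congr rfl fun k hk => ?_
  simp only [← Finset.sum_mul]
  rw [quad_sub_KIdentPoly k (fun i j => ‖p i - p j‖ ^ 2) (fun i j => ‖q i - q j‖ ^ 2), hs', hr']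
  have ht := term_KIdentPoly (C := C) (tot_pos (hT k hk)) (quad k (fun i j => ‖p i - p j‖ ^ 2))
    (quad k (fun i j => ‖q i - q j‖ ^ 2)) (Real.exp (-(tot k * ε))) (Real.exp (-(tot k * v))) hκ
  linear_combination (A k) * ht

end Pool.Agent.KneserLine
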