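import Pool.Agent.KneserLine.KPoly
import Pool.Agent.KneserLine.Ops
import Pool.Agent.KneserLine.KScale

/-!
# Configurations with property `Pos`

PROOF. `klow_one`: the limit `M → ∞` (`tendsto_Dop_iter`, `tendsto_PK`) of `0 ≤ (Dop ε)^[m] (PK μ
ω y φ L c M i j) v`, valid for all large `M` (`exp (c l) ≤ M` for all `l`). With `exists_repr`,
`PK_eq`, `B k = -(A k * (k i * k j))` and `Dop_iter_exp_sum` the right side is `∑ k ∈ T, B k C (π
/ K) ^ κ I k (1 - exp (-(K ε))) ^ m exp (-(K v)) = C π ^ κ (Jop ε)^[m] (fun u => ∑ k ∈ T, (B k K ^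
(-(d/2 + 1)) I k) exp (-(K u))) v` (`Jop_iter_exp_sum`, `K ^ (-κ) = K ^ (-(d/2 + 1)) / K ^ m`),
and the function in brackets is `≥ 0` for `u ≥ 0` by `H`, applied to the coefficients `B k exp
(-(K u))`: for `y ≥ 0`, `∑ k ∈ T, (B k exp (-(K u))) ee k y = pg φ L c M i j (y + u) ≥ 0`
(`pg_nonneg`). `Jop_iter_nonneg`. Compare with `Pool/Agent/KneserCone/LowOne.lean`. `klow`: apply
`klow_one` to `h.scale hρ`, `c / ρ`, `ε / ρ`, `v / ρ`, `GK_scale`, `Dop_iter_const_mul`,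
`Dop_iter_scale`.
-/

set_option autoImplicit false
set_option linter.unusedSectionVars false

namespace Pool.Agent.KneserLine

open MeasureTheory Set Filter Topology Module
open scoped ENNReal
open Pool.Agent.Kneser Pool.Agent.KneserRank Pool.Agent.KneserCentre Pool.Agent.KneserCone

variable {D n : ℕ}

variable {X : Type*} [MeasurableSpace X]

private theorem klow_ee_shift (k : Fin n → ℕ) (y : Fin n → ℝ) (ε : ℝ) :
    ee k (fun i => y i + ε) = Real.exp (-(tot k * ε)) * ee k y := by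
  unfold ee tot
  rw [← Real.exp_add]
  congr 1
  rw [Finset.sum_mul, ← neg_add, ← Finset.sum_add_distrib]
  congr 1
  refine Finset.sum_congr rfl fun i _ => ?_
  ring

theorem klow_one {μ : Measure X} {ω : X → ℝ} {y : X → Fin n → ℝ} {s r : Fin n → Fin n → ℝ}
    {C κ : ℝ} (h : Kern μ ω y s r C κ) {d m : ℕ} (hκ : κ = (d : ℝ) / 2 + ((m : ℝ) + 1))
    (H : Pos d s r) {φ : ℕ → ℝ}
    (hφ0 : φ 0 = 0) (hφ : ∀ k, φ (k + 2) - 2 * φ (k + 1) + φ k ≤ 0) {L : Finset (Fin n)}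
    {i j : Fin n} (hij : i ≠ j) (hi : i ∈ L) (hj : j ∈ L) (c : Fin n → ℝ)
    {ε v : ℝ} (hε : 0 ≤ ε) (hv : 0 ≤ v) :
    0 ≤ (Dop ε)^[m] (GK μ ω y φ L i j c 1) v := by
  have t := tendsto_Dop_iter hε (fun v hv => tendsto_PK h φ L hij hi hj c hv) m hv
  refine ge_of_tendsto t ?_
  obtain ⟨M₀, hM₀⟩ : ∃ M₀ : ℕ, ∀ l, Real.exp (c l) ≤ M₀ := by
    obtain ⟨M₀, hM₀⟩ := exists_nat_ge (∑ l, Real.exp (c l))
    refine ⟨M₀, fun l => le_trans ?_ hM₀⟩
    exact Finset.single_le_sum (f := fun l => Real.exp (c l)) (fun _ _ => (Real.exp_pos _).le)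
      (Finset.mem_univ l)
  filter_upwards [eventually_ge_atTop M₀] with M hM
  have hM' : ∀ l, Real.exp (c l) ≤ M := fun l => (hM₀ l).trans (by exact_mod_cast hM)
  obtain ⟨T, A, hT, -, hpg⟩ := exists_repr hφ0 L c M
  have hPK : (PK μ ω y φ L c M i j) = fun u => ∑ k ∈ T,
      ((-(A k * ((k i : ℝ) * (k j : ℝ)))) * (C * (Real.pi / tot k) ^ κ *
        ∫ t in (0 : ℝ)..1, Real.exp (-((t * quad k s + (1 - t) * quad k r) / tot k)))) *
        Real.exp (-(tot k * u)) := by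
    funext u
    exact PK_eq h hT (hpg i j hij) u
  have hpi := Real.pi_pos
  have hmain : (Dop ε)^[m] (PK μ ω y φ L c M i j) v = C * Real.pi ^ κ *
      (Jop ε)^[m] (fun u => ∑ k ∈ T, ((-(A k * ((k i : ℝ) * (k j : ℝ)))) *
        (tot k ^ (-((d : ℝ) / 2 + 1)) *
        ∫ t in (0 : ℝ)..1, Real.exp (-((t * quad k s + (1 - t) * quad k r) / tot k)))) *
        Real.exp (-(tot k * u))) v := by
    rw [hPK, Dop_iter_exp_sum, Jop_iter_exp_sum T _ _ (fun k hk => (tot_pos (hT k hk)).ne'),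
      Finset.mul_sum]
    refine Finset.sum_congr rfl fun k hk => ?_
    have hK := tot_pos (hT k hk)
    have h1 : (Real.pi / tot k) ^ κ = Real.pi ^ κ * tot k ^ (-((d : ℝ) / 2 + 1)) / tot k ^ m := by
      rw [Real.div_rpow hpi.le hK.le, hκ, ← add_assoc, add_right_comm,
        Real.rpow_add hK, Real.rpow_neg hK.le, Real.rpow_natCast]
      field_simp
    rw [h1, div_pow]
    generalize (∫ t in (0 : ℝ)..1,
      Real.exp (-((t * quad k s + (1 - t) * quad k r) / tot k))) = I0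
    field_simp
  rw [hmain]
  refine mul_nonneg (mul_nonneg h.C_pos.le (by positivity)) ?_
  refine Jop_iter_nonneg hε (fun u hu => ?_) m hv
  have h5 := H T (fun k => (-(A k * ((k i : ℝ) * (k j : ℝ)))) * Real.exp (-(tot k * u))) hT
    (fun z hz => by
      have h9 := pg_nonneg hφ L c hM' hij (y := fun i => z i + u)
        (fun i => add_nonneg (hz i) hu)
      rw [hpg i j hij] at h9
      refine h9.trans_eq (Finset.sum_congr rfl fun k _ => ?_)
      rw [klow_ee_shift]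
      ring)
  refine h5.trans_eq (Finset.sum_congr rfl fun k _ => ?_)
  ring

theorem klow {μ : Measure X} {ω : X → ℝ} {y : X → Fin n → ℝ} {s r : Fin n → Fin n → ℝ}
    {C κ : ℝ} (h : Kern μ ω y s r C κ) {d m : ℕ} (hκ : κ = (d : ℝ) / 2 + ((m : ℝ) + 1))
    (H : ∀ ρ : ℝ, 0 < ρ → Pos d (fun i j => s i j / ρ) (fun i j => r i j / ρ)) {φ : ℕ → ℝ}
    (hφ0 : φ 0 = 0) (hφ : ∀ k, φ (k + 2) - 2 * φ (k + 1) + φ k ≤ 0) {L : Finset (Fin n)}
    {i j : Fin n} (hij : i ≠ j) (hi : i ∈ L) (hj : j ∈ L) (c : Fin n → ℝ) {ρ : ℝ} (hρ : 0 < ρ)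
    {ε v : ℝ} (hε : 0 ≤ ε) (hv : 0 ≤ v) :
    0 ≤ (Dop ε)^[m] (GK μ ω y φ L i j c ρ) v := by
  have h1 : (GK μ ω y φ L i j c ρ) = fun u => (ρ⁻¹) ^ 2 *
      GK μ ω (fun x l => y x l / ρ) φ L i j (fun l => c l / ρ) 1 (u / ρ) := by
    funext u
    exact GK_scale μ ω y φ L i j c hρ u
  rw [h1, Dop_iter_const_mul, Dop_iter_scale ε hρ
    (fun u => GK μ ω (fun x l => y x l / ρ) φ L i j (fun l => c l / ρ) 1 u)]
  refine mul_nonneg (by positivity) ?_
  exact klow_one (h.scale hρ) hκ (H ρ hρ) hφ0 hφ hij hi hj (fun l => c l / ρ)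
    (div_nonneg hε hρ.le) (div_nonneg hv hρ.le)

end Pool.Agent.KneserLine
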