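import Pool.Agent.KneserLine.KScale

/-!
# The pair integrals: integrability, measurability, large scales, continuity

PROOF. As in `Pool/Agent/KneserCone/GMeas.lean`. `|gd| ≤ CC (ρ⁻¹)² eG (..) eG (..) ≤ CC (ρ⁻¹)² exp
(-((y i + v - c i) / ρ))` by `abs_gd_le`, `eG_le_exp`, `eG ≤ 1`; the integral of `ω exp (-(y i /
ρ))` is `Kern.integral` for `Pi.single i 1` (`tot = 1`; the integral over `t` is at most `1` if
`s, r ≥ 0`; instead of assuming this write `I` for it and note that `quad (Pi.single i 1) s = s i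
i / 2`, so `I` is bounded for `ρ ≥ 1` by `exp (|s i i| + |r i i|)`). `measurable_GK`: joint
measurability of the integrand (`measurable_gd`) and `StronglyMeasurable.integral_prod_right`.
`tendsto_GK_c`, `tendsto_GK_atTop`: dominated convergence, resp. `|GK ρ v| ≤ CC (ρ⁻¹)² exp ((c i -
v) / ρ) ∫ ω exp (-(y i / ρ))`.
-/

set_option autoImplicit false
set_option linter.unusedSectionVars false

namespace Pool.Agent.KneserLine

open MeasureTheory Set Filter Topology Module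
open scoped ENNReal
open Pool.Agent.Kneser Pool.Agent.KneserRank Pool.Agent.KneserCentre Pool.Agent.KneserCone

variable {D n : ℕ}

variable {X : Type*} [MeasurableSpace X]

private theorem single_ne_KMeas (i : Fin n) : (Pi.single i 1 : Fin n → ℕ) ≠ 0 := by
  intro h
  have h1 := congrFun h i
  simp at h1

private theorem ee_single_KMeas (i : Fin n) (w : Fin n → ℝ) :
    ee (Pi.single i 1 : Fin n → ℕ) w = Real.exp (-w i) := by
  unfold ee
  congr 2
  rw [Finset.sum_eq_single i]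
  · simp
  · intro j _ hj
    rw [Pi.single_eq_of_ne hj]
    simp
  · intro h
    exact absurd (Finset.mem_univ i) h

private theorem tot_single_KMeas (i : Fin n) : tot (Pi.single i 1 : Fin n → ℕ) = 1 := by
  unfold tot
  rw [Finset.sum_eq_single i]
  · simp
  · intro j _ hj
    rw [Pi.single_eq_of_ne hj]
    simp
  · intro h
    exact absurd (Finset.mem_univ i) h

private theorem quad_single_KMeas (i : Fin n) (s : Fin n → Fin n → ℝ) :
    quad (Pi.single i 1 : Fin n → ℕ) s = s i i / 2 := by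
  unfold quad
  congr 1
  rw [Finset.sum_eq_single i]
  · rw [Finset.sum_eq_single i]
    · simp
    · intro j _ hj
      rw [Pi.single_eq_of_ne hj]
      simp
    · intro h
      exact absurd (Finset.mem_univ i) h
  · intro j _ hj
    rw [Pi.single_eq_of_ne hj]
    simp
  · intro h
    exact absurd (Finset.mem_univ i) h

private theorem integrable_single_KMeas {μ : Measure X} {ω : X → ℝ} {y : X → Fin n → ℝ}
    {s r : Fin n → Fin n → ℝ} {C κ : ℝ} (h : Kern μ ω y s r C κ) (i : Fin n) {ρ : ℝ}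
    (hρ : 0 < ρ) : Integrable (fun x => ω x * Real.exp (-(y x i / ρ))) μ := by
  have h1 := h.integrable ρ hρ (Pi.single i 1) (single_ne_KMeas i)
  simp only [ee_single_KMeas] at h1
  exact h1

private theorem integral_single_KMeas {μ : Measure X} {ω : X → ℝ} {y : X → Fin n → ℝ}
    {s r : Fin n → Fin n → ℝ} {C κ : ℝ} (h : Kern μ ω y s r C κ) (i : Fin n) {ρ : ℝ}
    (hρ : 0 < ρ) : ∫ x, ω x * Real.exp (-(y x i / ρ)) ∂μ = C * (Real.pi * ρ) ^ κ *
      ∫ t in (0 : ℝ)..1, Real.exp (-((t * (s i i / 2) + (1 - t) * (r i i / 2)) / ρ)) := by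
  have h1 := h.integral ρ hρ (Pi.single i 1) (single_ne_KMeas i)
  simp only [ee_single_KMeas, tot_single_KMeas, quad_single_KMeas, div_one, one_mul] at h1
  exact h1

private theorem joint_KMeas {μ : Measure X} {ω : X → ℝ} {y : X → Fin n → ℝ}
    {s r : Fin n → Fin n → ℝ} {C κ : ℝ} (h : Kern μ ω y s r C κ) (φ : ℕ → ℝ)
    (L : Finset (Fin n)) (i j : Fin n) (c : Fin n → ℝ) :
    Measurable (fun x : (ℝ × ℝ) × X =>
      ω x.2 * gd φ L i j c x.1.1 (fun l => y x.2 l + x.1.2)) := by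
  have h1 : Measurable fun x : (ℝ × ℝ) × X => ω x.2 := h.meas_om.comp measurable_snd
  have h2 : Measurable fun x : (ℝ × ℝ) × X =>
      ((x.1.1, fun l => y x.2 l + x.1.2) : ℝ × (Fin n → ℝ)) :=
    (measurable_fst.comp measurable_fst).prodMk (measurable_pi_iff.2 fun l =>
      ((h.meas_y l).comp measurable_snd).add (measurable_snd.comp measurable_fst))
  exact h1.mul ((measurable_gd φ L i j c).comp h2)

private theorem meas_KMeas {μ : Measure X} {ω : X → ℝ} {y : X → Fin n → ℝ}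
    {s r : Fin n → Fin n → ℝ} {C κ : ℝ} (h : Kern μ ω y s r C κ) (φ : ℕ → ℝ)
    (L : Finset (Fin n)) (i j : Fin n) (c : Fin n → ℝ) (ρ v : ℝ) :
    Measurable (fun x => ω x * gd φ L i j c ρ (fun l => y x l + v)) :=
  (joint_KMeas h φ L i j c).comp
    ((measurable_const (a := ((ρ, v) : ℝ × ℝ))).prodMk measurable_id)

private theorem bound_KMeas (y : X → Fin n → ℝ) (φ : ℕ → ℝ)
    (L : Finset (Fin n)) (i j : Fin n) (c : Fin n → ℝ) {ρ : ℝ} (hρ : 0 < ρ) (v : ℝ) {R : ℝ}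
    (hR : c i ≤ R) (x : X) {o : ℝ} (ho : 0 ≤ o) :
    |o * gd φ L i j c ρ (fun l => y x l + v)| ≤
      (CC n φ * (ρ⁻¹) ^ 2 * Real.exp ((R - v) / ρ)) * (o * Real.exp (-(y x i / ρ))) := by
  rw [abs_mul, abs_of_nonneg ho]
  have h1 := abs_gd_le φ L i j c ρ (fun l => y x l + v)
  have h2 : eG ((y x i + v - c i) / ρ) * eG ((y x j + v - c j) / ρ) ≤
      Real.exp ((R - v) / ρ) * Real.exp (-(y x i / ρ)) := by
    have h3 : eG ((y x i + v - c i) / ρ) ≤ Real.exp (-((y x i + v - c i) / ρ)) := eG_le_exp _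
    have h4 : eG ((y x j + v - c j) / ρ) ≤ 1 := by
      refine (eG_le_exp_max _).trans ?_
      rw [Real.exp_le_one_iff]
      have := le_max_right ((y x j + v - c j) / ρ) 0
      linarith
    have h5 : eG ((y x i + v - c i) / ρ) * eG ((y x j + v - c j) / ρ) ≤
        Real.exp (-((y x i + v - c i) / ρ)) * 1 :=
      mul_le_mul h3 h4 (eG_nonneg _) (Real.exp_pos _).le
    refine h5.trans ?_
    rw [mul_one, ← Real.exp_add, Real.exp_le_exp]
    have h6 : (R - v) / ρ + -(y x i / ρ) = (R - v - y x i) / ρ := by ring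
    have h7 : -((y x i + v - c i) / ρ) = (c i - v - y x i) / ρ := by ring
    rw [h6, h7]
    exact div_le_div_of_nonneg_right (by linarith) hρ.le
  have h3 : |gd φ L i j c ρ (fun l => y x l + v)| ≤ CC n φ * ((ρ⁻¹) ^ 2 *
      (Real.exp ((R - v) / ρ) * Real.exp (-(y x i / ρ)))) :=
    h1.trans (mul_le_mul_of_nonneg_left (mul_le_mul_of_nonneg_left h2 (sq_nonneg _))
      (CC_nonneg n φ))
  calc o * |gd φ L i j c ρ (fun l => y x l + v)|
      ≤ o * (CC n φ * ((ρ⁻¹) ^ 2 *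
        (Real.exp ((R - v) / ρ) * Real.exp (-(y x i / ρ))))) :=
        mul_le_mul_of_nonneg_left h3 ho
    _ = _ := by ring

private theorem abs_GK_le_KMeas {μ : Measure X} {ω : X → ℝ} {y : X → Fin n → ℝ}
    {s r : Fin n → Fin n → ℝ} {C κ : ℝ} (h : Kern μ ω y s r C κ) (φ : ℕ → ℝ)
    (L : Finset (Fin n)) (i j : Fin n) (c : Fin n → ℝ) {ρ : ℝ} (hρ : 0 < ρ) (v : ℝ) {R : ℝ}
    (hR : c i ≤ R) :
    |GK μ ω y φ L i j c ρ v| ≤ (CC n φ * (ρ⁻¹) ^ 2 * Real.exp ((R - v) / ρ)) *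
      ∫ x, ω x * Real.exp (-(y x i / ρ)) ∂μ := by
  rw [← integral_const_mul]
  unfold GK
  rw [← Real.norm_eq_abs]
  refine norm_integral_le_of_norm_le ((integrable_single_KMeas h i hρ).const_mul _) ?_
  filter_upwards [h.nonneg] with x hx
  rw [Real.norm_eq_abs]
  exact bound_KMeas y φ L i j c hρ v hR x hx.1

theorem integrable_kgd {μ : Measure X} {ω : X → ℝ} {y : X → Fin n → ℝ} {s r : Fin n → Fin n → ℝ}
    {C κ : ℝ} (h : Kern μ ω y s r C κ) (φ : ℕ → ℝ) (L : Finset (Fin n)) (i j : Fin n)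
    (c : Fin n → ℝ) {ρ : ℝ} (hρ : 0 < ρ) (v : ℝ) :
    Integrable (fun x => ω x * gd φ L i j c ρ (fun l => y x l + v)) μ := by
  refine ((integrable_single_KMeas h i hρ).const_mul
    (CC n φ * (ρ⁻¹) ^ 2 * Real.exp ((c i - v) / ρ))).mono'
    (meas_KMeas h φ L i j c ρ v).aestronglyMeasurable ?_
  filter_upwards [h.nonneg] with x hx
  rw [Real.norm_eq_abs]
  exact bound_KMeas y φ L i j c hρ v le_rfl x hx.1

theorem measurable_GK {μ : Measure X} [SFinite μ] {ω : X → ℝ} {y : X → Fin n → ℝ}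
    {s r : Fin n → Fin n → ℝ} {C κ : ℝ} (h : Kern μ ω y s r C κ) (φ : ℕ → ℝ)
    (L : Finset (Fin n)) (i j : Fin n) (c : Fin n → ℝ) :
    Measurable (Function.uncurry fun ρ v => GK μ ω y φ L i j c ρ v) := by
  have h1 : StronglyMeasurable fun q : ℝ × ℝ =>
      ∫ x, ω x * gd φ L i j c q.1 (fun l => y x l + q.2) ∂μ :=
    (joint_KMeas h φ L i j c).stronglyMeasurable.integral_prod_right'
  exact h1.measurable

theorem kbound_large {μ : Measure X} {ω : X → ℝ} {y : X → Fin n → ℝ} {s r : Fin n → Fin n → ℝ}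
    {C κ : ℝ} (h : Kern μ ω y s r C κ) (φ : ℕ → ℝ) (i j : Fin n) (R : ℝ) :
    ∃ B : ℝ, 0 ≤ B ∧ ∀ (L : Finset (Fin n)) (c : Fin n → ℝ), (∀ l, |c l| ≤ R) →
      ∀ ρ : ℝ, 1 ≤ ρ → ∀ v : ℝ, 0 ≤ v → |GK μ ω y φ L i j c ρ v| ≤ B * ρ ^ (κ - 2) := by
  refine ⟨CC n φ * Real.exp R * (C * Real.pi ^ κ * Real.exp (|s i i| + |r i i|)), ?_, ?_⟩
  · exact mul_nonneg (mul_nonneg (CC_nonneg n φ) (Real.exp_pos _).le)
      (mul_nonneg (mul_nonneg h.C_pos.le (Real.rpow_nonneg Real.pi_pos.le _))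
        (Real.exp_pos _).le)
  · intro L c hc ρ hρ v hv
    have hρ0 : 0 < ρ := by linarith
    have hR0 : 0 ≤ R := (abs_nonneg _).trans (hc i)
    have hcR : c i ≤ R := (le_abs_self _).trans (hc i)
    have h1 := abs_GK_le_KMeas h φ L i j c hρ0 v hcR
    rw [integral_single_KMeas h i hρ0] at h1
    have h2 : Real.exp ((R - v) / ρ) ≤ Real.exp R := by
      rw [Real.exp_le_exp, div_le_iff₀ hρ0]
      nlinarith
    have h3 : (Real.pi * ρ) ^ κ = Real.pi ^ κ * ρ ^ κ := Real.mul_rpow Real.pi_pos.le hρ0.le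
    have h4 : (ρ⁻¹) ^ 2 * ρ ^ κ = ρ ^ (κ - 2) := by
      rw [inv_pow, ← Real.rpow_natCast ρ 2, ← Real.rpow_neg hρ0.le, ← Real.rpow_add hρ0]
      congr 1
      push_cast
      ring
    have h5 : ∫ t in (0 : ℝ)..1, Real.exp (-((t * (s i i / 2) + (1 - t) * (r i i / 2)) / ρ)) ≤
        Real.exp (|s i i| + |r i i|) := by
      have h6 : ‖∫ t in (0 : ℝ)..1,
          Real.exp (-((t * (s i i / 2) + (1 - t) * (r i i / 2)) / ρ))‖ ≤
          Real.exp (|s i i| + |r i i|) * |(1 : ℝ) - 0| := by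
        refine intervalIntegral.norm_integral_le_of_norm_le_const fun t ht => ?_
        rw [uIoc_of_le zero_le_one] at ht
        rw [Real.norm_of_nonneg (Real.exp_pos _).le, Real.exp_le_exp, ← neg_div,
          div_le_iff₀ hρ0]
        have e1 : -(t * (s i i / 2)) ≤ |s i i| := by
          have e2 : -(t * (s i i / 2)) ≤ |t * (s i i / 2)| := neg_le_abs _
          rw [abs_mul, abs_div, abs_of_pos ht.1, abs_of_pos (two_pos : (0 : ℝ) < 2)] at e2
          have e3 := abs_nonneg (s i i)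
          nlinarith [ht.2]
        have e4 : -((1 - t) * (r i i / 2)) ≤ |r i i| := by
          have e2 : -((1 - t) * (r i i / 2)) ≤ |(1 - t) * (r i i / 2)| := neg_le_abs _
          rw [abs_mul, abs_div, abs_of_nonneg (by linarith [ht.2] : (0 : ℝ) ≤ 1 - t),
            abs_of_pos (two_pos : (0 : ℝ) < 2)] at e2
          have e3 := abs_nonneg (r i i)
          nlinarith [ht.1]
        have e5 := abs_nonneg (s i i)
        have e6 := abs_nonneg (r i i)
        nlinarith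
      rw [sub_zero, abs_one, mul_one] at h6
      exact (le_abs_self _).trans (by rwa [Real.norm_eq_abs] at h6)
    have h7 : 0 ≤ CC n φ * (ρ⁻¹) ^ 2 := mul_nonneg (CC_nonneg n φ) (sq_nonneg _)
    have h8 : 0 ≤ C * (Real.pi * ρ) ^ κ :=
      mul_nonneg h.C_pos.le (Real.rpow_nonneg (mul_nonneg Real.pi_pos.le hρ0.le) _)
    have h9 : 0 ≤ ∫ t in (0 : ℝ)..1,
        Real.exp (-((t * (s i i / 2) + (1 - t) * (r i i / 2)) / ρ)) :=
      intervalIntegral.integral_nonneg zero_le_one fun t _ => (Real.exp_pos _).le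
    calc |GK μ ω y φ L i j c ρ v| ≤ (CC n φ * (ρ⁻¹) ^ 2 * Real.exp ((R - v) / ρ)) *
          (C * (Real.pi * ρ) ^ κ * ∫ t in (0 : ℝ)..1,
            Real.exp (-((t * (s i i / 2) + (1 - t) * (r i i / 2)) / ρ))) := h1
      _ ≤ (CC n φ * (ρ⁻¹) ^ 2 * Real.exp R) * (C * (Real.pi * ρ) ^ κ * ∫ t in (0 : ℝ)..1,
            Real.exp (-((t * (s i i / 2) + (1 - t) * (r i i / 2)) / ρ))) :=
          mul_le_mul_of_nonneg_right (mul_le_mul_of_nonneg_left h2 h7) (mul_nonneg h8 h9)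
      _ ≤ (CC n φ * (ρ⁻¹) ^ 2 * Real.exp R) * (C * (Real.pi * ρ) ^ κ *
            Real.exp (|s i i| + |r i i|)) :=
          mul_le_mul_of_nonneg_left (mul_le_mul_of_nonneg_left h5 h8)
            (mul_nonneg h7 (Real.exp_pos _).le)
      _ = CC n φ * Real.exp R * (C * Real.pi ^ κ * Real.exp (|s i i| + |r i i|)) *
          ((ρ⁻¹) ^ 2 * ρ ^ κ) := by rw [h3]; ring
      _ = _ := by rw [h4]

theorem tendsto_GK_c {μ : Measure X} {ω : X → ℝ} {y : X → Fin n → ℝ} {s r : Fin n → Fin n → ℝ}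
    {C κ : ℝ} (h : Kern μ ω y s r C κ) (φ : ℕ → ℝ) (L : Finset (Fin n)) {i j : Fin n}
    (hi : i ∈ L) (hj : j ∈ L) {R : ℝ} (c : Fin n → ℝ) (cs : ℕ → Fin n → ℝ)
    (hcs : ∀ ν l, |cs ν l| ≤ R)
    (hlim : ∀ l ∈ L, Tendsto (fun ν => cs ν l) atTop (𝓝 (c l))) {ρ : ℝ} (hρ : 0 < ρ) (v : ℝ) :
    Tendsto (fun ν => GK μ ω y φ L i j (cs ν) ρ v) atTop (𝓝 (GK μ ω y φ L i j c ρ v)) := by
  unfold GK
  refine tendsto_integral_of_dominated_convergence
    (fun x => (CC n φ * (ρ⁻¹) ^ 2 * Real.exp ((R - v) / ρ)) *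
      (ω x * Real.exp (-(y x i / ρ))))
    (fun ν => (meas_KMeas h φ L i j (cs ν) ρ v).aestronglyMeasurable)
    ((integrable_single_KMeas h i hρ).const_mul _) (fun ν => ?_) ?_
  · filter_upwards [h.nonneg] with x hx
    rw [Real.norm_eq_abs]
    exact bound_KMeas y φ L i j (cs ν) hρ v ((le_abs_self _).trans (hcs ν i)) x hx.1
  · refine Filter.Eventually.of_forall fun x => ?_
    have h1 : ∀ l ∈ L, Tendsto (fun ν => (y x l + v - cs ν l) / ρ) atTop
        (𝓝 ((y x l + v - c l) / ρ)) := fun l hl =>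
      (tendsto_const_nhds.sub (hlim l hl)).div_const ρ
    have h2 : Tendsto (fun ν => (fun l => if l ∈ L then bG ((y x l + v - cs ν l) / ρ)
        else 0 : Fin n → ℝ)) atTop
        (𝓝 (fun l => if l ∈ L then bG ((y x l + v - c l) / ρ) else 0)) := by
      refine tendsto_pi_nhds.2 fun l => ?_
      by_cases hl : l ∈ L
      · simp only [if_pos hl]
        exact (continuous_bG.tendsto _).comp (h1 l hl)
      · simp only [if_neg hl]
        exact tendsto_const_nhds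
    have h3 := ((continuous_sd φ i j).tendsto _).comp h2
    have h4 := (continuous_eG.tendsto _).comp (h1 i hi)
    have h5 := (continuous_eG.tendsto _).comp (h1 j hj)
    exact tendsto_const_nhds.mul ((tendsto_const_nhds.mul (h4.mul h5)).mul h3)

theorem tendsto_GK_atTop {μ : Measure X} {ω : X → ℝ} {y : X → Fin n → ℝ}
    {s r : Fin n → Fin n → ℝ} {C κ : ℝ} (h : Kern μ ω y s r C κ) (φ : ℕ → ℝ)
    (L : Finset (Fin n)) (i j : Fin n) (c : Fin n → ℝ) {ρ : ℝ} (hρ : 0 < ρ) :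
    Tendsto (fun v => GK μ ω y φ L i j c ρ v) atTop (𝓝 0) := by
  have h1 : Tendsto (fun v : ℝ => (c i - v) / ρ) atTop atBot := by
    refine Tendsto.atBot_div_const hρ ?_
    exact tendsto_atBot_add_const_left atTop (c i) tendsto_neg_atTop_atBot
  have h2 : Tendsto (fun v : ℝ => (CC n φ * (ρ⁻¹) ^ 2 * Real.exp ((c i - v) / ρ)) *
      ∫ x, ω x * Real.exp (-(y x i / ρ)) ∂μ) atTop (𝓝 0) := by
    have h3 := (Real.tendsto_exp_atBot.comp h1).const_mul (CC n φ * (ρ⁻¹) ^ 2)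
    have h4 := h3.mul_const (∫ x, ω x * Real.exp (-(y x i / ρ)) ∂μ)
    rw [mul_zero, zero_mul] at h4
    exact h4
  refine squeeze_zero_norm (fun v => ?_) h2
  rw [Real.norm_eq_abs]
  exact abs_GK_le_KMeas h φ L i j c hρ v le_rfl

end Pool.Agent.KneserLine
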