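import Pool.Agent.KneserLine.Defs

/-!
# Polynomial approximation for a `Kern` (scale one)

PROOF. `exists_repr`: `T = (idx (Fin n) N).erase 0`, `A = coef φ (AL L c M)`, `N` larger than all
degrees: `mul_expand`, `mix_sum_expand`, `coef_zero` (`AL_coeff_zero`), see the proofs in
`Pool/Agent/KneserCone/PolyId.lean` and `LowOne.lean`. `PK_eq`: `ee k (y + v) = exp (-(tot k * v))
ee k y`, `Kern.integral` at `ρ = 1`. `exists_PK_bound`: `PK_eq` (with `exists_repr`) gives
measurability; `abs_pg_le` and `Kern.integrable` for `Pi.single i 1 + Pi.single j 1` give the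
bound `CC n φ * exp (c i + c j) * ∫ ω exp (-(y i + y j))`. `tendsto_PK`: copy the proof of
`tendsto_GI_one` in `Pool/Agent/KneserCone/PolyGI.lean` (`om`, `ya`, `mu D` replaced by `ω`, `y`,
`μ`).
-/

set_option autoImplicit false
set_option linter.unusedSectionVars false

namespace Pool.Agent.KneserLine

open MeasureTheory Set Filter Topology Module
open scoped ENNReal
open Pool.Agent.Kneser Pool.Agent.KneserRank Pool.Agent.KneserCentre Pool.Agent.KneserCone

variable {D n : ℕ}

variable {X : Type*} [MeasurableSpace X]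

private theorem KPoly_ee_add (k : Fin n → ℕ) (y : Fin n → ℝ) (v : ℝ) :
    ee k (fun l => y l + v) = Real.exp (-(tot k * v)) * ee k y := by
  unfold ee tot
  rw [← Real.exp_add]
  congr 1
  have h : ∑ i, (k i : ℝ) * (y i + v) = ∑ i, (k i : ℝ) * y i + (∑ i, (k i : ℝ)) * v := by
    rw [Finset.sum_mul, ← Finset.sum_add_distrib]
    exact Finset.sum_congr rfl fun i _ => by ring
  rw [h]
  ring

private theorem KPoly_pair_ne {i j : Fin n} : (Pi.single i 1 + Pi.single j 1 : Fin n → ℕ) ≠ 0 := by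
  intro h0
  have h1 := congrFun h0 i
  simp at h1

private theorem KPoly_ee_pair (i j : Fin n) (y : Fin n → ℝ) :
    ee (Pi.single i 1 + Pi.single j 1 : Fin n → ℕ) y = Real.exp (-(y i + y j)) := by
  unfold ee
  congr 2
  have h1 : ∀ l, ((Pi.single i 1 + Pi.single j 1 : Fin n → ℕ) l : ℝ) * y l =
      (if l = i then y l else 0) + (if l = j then y l else 0) := by
    intro l
    rw [Pi.add_apply, Pi.single_apply, Pi.single_apply]
    split_ifs <;> simp <;> ring
  simp only [h1, Finset.sum_add_distrib, Finset.sum_ite_eq', Finset.mem_univ, if_true]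

private theorem KPoly_integrable {μ : Measure X} {ω : X → ℝ} {y : X → Fin n → ℝ}
    {s r : Fin n → Fin n → ℝ} {C κ : ℝ} (h : Kern μ ω y s r C κ) {k : Fin n → ℕ} (hk : k ≠ 0) :
    Integrable (fun x => ω x * ee k (y x)) μ := by
  have h1 := h.integrable 1 one_pos k hk
  simp only [div_one] at h1
  exact h1

private theorem KPoly_integral {μ : Measure X} {ω : X → ℝ} {y : X → Fin n → ℝ}
    {s r : Fin n → Fin n → ℝ} {C κ : ℝ} (h : Kern μ ω y s r C κ) {k : Fin n → ℕ} (hk : k ≠ 0) :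
    ∫ x, ω x * ee k (y x) ∂μ = C * (Real.pi / tot k) ^ κ *
      ∫ t in (0 : ℝ)..1, Real.exp (-((t * quad k s + (1 - t) * quad k r) / tot k)) := by
  have h1 := h.integral 1 one_pos k hk
  simp only [div_one, mul_one] at h1
  exact h1

/-- the pair density is dominated -/
private theorem KPoly_le {μ : Measure X} {ω : X → ℝ} {y : X → Fin n → ℝ}
    {s r : Fin n → Fin n → ℝ} {C κ : ℝ} (h : Kern μ ω y s r C κ) (φ : ℕ → ℝ)
    (L : Finset (Fin n)) {i j : Fin n} (hij : i ≠ j) (c : Fin n → ℝ) {v : ℝ} (hv : 0 ≤ v) {M : ℕ}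
    (hM : ∀ l, Real.exp (c l) ≤ M) :
    ∀ᵐ x ∂μ, ‖ω x * pg φ L c M i j (fun l => y x l + v)‖ ≤
      CC n φ * Real.exp (c i + c j) *
        (ω x * ee (Pi.single i 1 + Pi.single j 1 : Fin n → ℕ) (y x)) := by
  filter_upwards [h.nonneg] with x hx
  have hy : ∀ l, 0 ≤ y x l + v := fun l => add_nonneg (hx.2 l) hv
  have h1 := abs_pg_le φ L c hM hij hy
  rw [Real.norm_eq_abs, abs_mul, abs_of_nonneg hx.1, KPoly_ee_pair]
  have h2 : Real.exp (-(y x i + v + (y x j + v))) ≤ Real.exp (-(y x i + y x j)) :=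
    Real.exp_le_exp.2 (by linarith)
  have h3 : 0 ≤ CC n φ * Real.exp (c i + c j) :=
    mul_nonneg (CC_nonneg n φ) (Real.exp_pos _).le
  calc ω x * |pg φ L c M i j fun l => y x l + v|
      ≤ ω x * (CC n φ * Real.exp (c i + c j) * Real.exp (-(y x i + y x j))) :=
        mul_le_mul_of_nonneg_left (h1.trans (mul_le_mul_of_nonneg_left h2 h3)) hx.1
    _ = CC n φ * Real.exp (c i + c j) * (ω x * Real.exp (-(y x i + y x j))) := by ring

theorem exists_repr {φ : ℕ → ℝ} (hφ0 : φ 0 = 0) (L : Finset (Fin n)) (c : Fin n → ℝ) (M : ℕ) :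
    ∃ (T : Finset (Fin n → ℕ)) (A : (Fin n → ℕ) → ℝ), (∀ k ∈ T, k ≠ 0) ∧
      (∀ y : Fin n → ℝ, mul φ (fun l => (AL L c M l).eval (Real.exp (-y l))) =
        ∑ k ∈ T, A k * ee k y) ∧
      ∀ i j, i ≠ j → ∀ y : Fin n → ℝ, pg φ L c M i j y =
        ∑ k ∈ T, (-(A k * ((k i : ℝ) * (k j : ℝ)))) * ee k y := by
  classical
  obtain ⟨N, hN0, hN⟩ : ∃ N : ℕ, 0 < N ∧ ∀ l, (AL L c M l).natDegree < N := by
    refine ⟨(∑ l, (AL L c M l).natDegree) + 1, Nat.succ_pos _, fun l => ?_⟩
    have := Finset.single_le_sum (f := fun l => (AL L c M l).natDegree)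
      (fun _ _ => Nat.zero_le _) (Finset.mem_univ l)
    exact Nat.lt_succ_of_le this
  have hzero : coef φ (AL L c M) 0 = 0 := coef_zero hφ0 (AL_coeff_zero L c M)
  refine ⟨(idx (Fin n) N).erase 0, coef φ (AL L c M),
    fun k hk => (Finset.mem_erase.mp hk).1, fun y => ?_, fun i j hij y => ?_⟩
  · rw [mul_expand φ hN hN0 y]
    exact (Finset.sum_erase (idx (Fin n) N) (a := 0) (by rw [hzero, zero_mul])).symm
  · unfold pg
    rw [mix_sum_expand φ hN hN0 hij y]
    rw [← Finset.sum_erase (idx (Fin n) N) (a := 0) (by rw [hzero, zero_mul]),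
      ← Finset.sum_neg_distrib]
    refine Finset.sum_congr rfl fun k _ => ?_
    ring

theorem PK_eq {μ : Measure X} {ω : X → ℝ} {y : X → Fin n → ℝ} {s r : Fin n → Fin n → ℝ}
    {C κ : ℝ} (h : Kern μ ω y s r C κ) {φ : ℕ → ℝ} {L : Finset (Fin n)} {c : Fin n → ℝ} {M : ℕ}
    {i j : Fin n} {T : Finset (Fin n → ℕ)} {A : (Fin n → ℕ) → ℝ} (hT : ∀ k ∈ T, k ≠ 0)
    (hpg : ∀ y : Fin n → ℝ, pg φ L c M i j y = ∑ k ∈ T, A k * ee k y) (v : ℝ) :
    PK μ ω y φ L c M i j v = ∑ k ∈ T, (A k * (C * (Real.pi / tot k) ^ κ *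
      ∫ t in (0 : ℝ)..1, Real.exp (-((t * quad k s + (1 - t) * quad k r) / tot k)))) *
        Real.exp (-(tot k * v)) := by
  have e1 : ∀ x : X, ω x * pg φ L c M i j (fun l => y x l + v) =
      ∑ k ∈ T, (A k * Real.exp (-(tot k * v))) * (ω x * ee k (y x)) := by
    intro x
    rw [hpg, Finset.mul_sum]
    refine Finset.sum_congr rfl fun k _ => ?_
    rw [KPoly_ee_add]
    ring
  unfold PK
  simp only [e1]
  rw [integral_finsetSum T (fun k hk => (KPoly_integrable h (hT k hk)).const_mul _)]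
  refine Finset.sum_congr rfl fun k hk => ?_
  rw [integral_const_mul, KPoly_integral h (hT k hk)]
  ring

theorem exists_PK_bound {μ : Measure X} {ω : X → ℝ} {y : X → Fin n → ℝ}
    {s r : Fin n → Fin n → ℝ} {C κ : ℝ} (h : Kern μ ω y s r C κ) {φ : ℕ → ℝ} (hφ0 : φ 0 = 0)
    (L : Finset (Fin n)) (c : Fin n → ℝ) {i j : Fin n} (hij : i ≠ j) :
    ∃ B : ℝ, ∀ M : ℕ, (∀ l, Real.exp (c l) ≤ M) → Bd (PK μ ω y φ L c M i j) B := by
  refine ⟨∫ x, CC n φ * Real.exp (c i + c j) *
    (ω x * ee (Pi.single i 1 + Pi.single j 1 : Fin n → ℕ) (y x)) ∂μ, fun M hM => ⟨?_, ?_⟩⟩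
  · obtain ⟨T, A, hT, -, hpg⟩ := exists_repr hφ0 L c M
    have h1 : PK μ ω y φ L c M i j = fun v => ∑ k ∈ T,
        (-(A k * ((k i : ℝ) * (k j : ℝ))) * (C * (Real.pi / tot k) ^ κ *
        ∫ t in (0 : ℝ)..1, Real.exp (-((t * quad k s + (1 - t) * quad k r) / tot k)))) *
          Real.exp (-(tot k * v)) := by
      funext v
      exact PK_eq h hT (hpg i j hij) v
    rw [h1]
    refine Continuous.measurable ?_
    fun_prop
  · intro v hv
    have h1 := norm_integral_le_of_norm_le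
      ((KPoly_integrable h (k := (Pi.single i 1 + Pi.single j 1 : Fin n → ℕ))
        KPoly_pair_ne).const_mul (CC n φ * Real.exp (c i + c j)))
      (KPoly_le h φ L hij c hv hM)
    rw [Real.norm_eq_abs] at h1
    exact h1

theorem tendsto_PK {μ : Measure X} {ω : X → ℝ} {y : X → Fin n → ℝ} {s r : Fin n → Fin n → ℝ}
    {C κ : ℝ} (h : Kern μ ω y s r C κ) (φ : ℕ → ℝ) (L : Finset (Fin n)) {i j : Fin n}
    (hij : i ≠ j) (hi : i ∈ L) (hj : j ∈ L) (c : Fin n → ℝ) {v : ℝ} (hv : 0 ≤ v) :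
    Tendsto (fun M => PK μ ω y φ L c M i j v) atTop (𝓝 (GK μ ω y φ L i j c 1 v)) := by
  have hM : ∀ᶠ M : ℕ in atTop, ∀ l : Fin n, Real.exp (c l) ≤ (M : ℝ) := by
    rw [eventually_all]
    exact fun l => tendsto_natCast_atTop_atTop.eventually_ge_atTop (Real.exp (c l))
  have hint := (KPoly_integrable h (k := (Pi.single i 1 + Pi.single j 1 : Fin n → ℕ))
    KPoly_pair_ne).const_mul (CC n φ * Real.exp (c i + c j))
  unfold GK PK
  refine tendsto_integral_filter_of_dominated_convergence _ ?_ ?_ hint ?_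
  · refine Eventually.of_forall fun M => Measurable.aestronglyMeasurable ?_
    have hd : ∀ P : Polynomial ℝ, Measurable (dP P) := fun P =>
      (Real.continuous_exp.mul ((Polynomial.continuous _).comp Real.continuous_exp)).measurable
    have hy : ∀ l, Measurable fun x : X => -(y x l + v) := fun l =>
      ((h.meas_y l).add_const v).neg
    have h1 : Measurable fun x : X => (fun l => (AL L c M l).eval
        (Real.exp (-(y x l + v))) : Fin n → ℝ) := by
      refine measurable_pi_iff.2 fun l => ?_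
      exact (Polynomial.continuous _).measurable.comp (Real.measurable_exp.comp (hy l))
    have h2 : (fun x : X => ω x * pg φ L c M i j (fun l => y x l + v)) =
        fun x : X => ω x * (dP (AL L c M i) (-(y x i + v)) *
          dP (AL L c M j) (-(y x j + v)) *
          sd φ i j (fun l => (AL L c M l).eval (Real.exp (-(y x l + v))))) := by
      funext x
      rw [pg_eq φ L c M hij]
    rw [h2]
    exact h.meas_om.mul
      ((((hd _).comp (hy i)).mul ((hd _).comp (hy j))).mul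
        ((continuous_sd φ i j).measurable.comp h1))
  · filter_upwards [hM] with M hM
    exact KPoly_le h φ L hij c hv hM
  · exact Eventually.of_forall fun x =>
      (pg_tendsto φ L c hij hi hj (fun l => y x l + v)).const_mul _

end Pool.Agent.KneserLine
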