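import Pool.Agent.KneserLine.Space4
import Pool.Agent.KneserLine.KMeas
import Pool.Agent.KneserLine.KGI
import Pool.Agent.KneserLine.Avg

/-!
# Apex lines: the generic case

PROOF. By `hc0`, `hc1` and since `Yf` is affine in `X`, `c l = Yf a z (t, (w₀ + t • e, h₀ + t β))
l` for all `t` and `l ∈ L`. Hence for `x = (t, w)`, `l ∈ L`, `(yb a z x l + s - c l) / r = lam l
(r⁻¹ • (w - w₀ - t • e), r⁻¹ * (HH a 0 w t + s - h₀ - t * β))` with `lam l U = U.2 - ∑ k, U.1 k *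
z l k` (`yb a z x l = Yf a z (t, (w, HH a 0 w t)) l`). So `gd φ L i j c r (yb + s + ε) = (r⁻¹) ^ 2
* g1 (..)` with the measurable function `g1 U = eG (lam i U) * eG (lam j U) * sd φ i j (fun l =>
if l ∈ L then bG (lam l U) else 0) ≥ 0`. With `g U = ENNReal.ofReal (g1 U)`, `G v = GK .. c r v`,
for `r > 0`, `v ≥ 0`, `ofReal (G v) = ofReal ((r⁻¹) ^ 2) * ∫⁻ x, ofReal (om a x.1) * g (..) ∂(nu
(D + 1))` (`ofReal_integral_eq_lintegral_ofReal`, `integrable_kgd`), so `ofReal (∫ s in 0..ε, G (s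
+ ε)) = ofReal ((r⁻¹) ^ 2) * SI a w₀ e h₀ β ε g r ε`, and `ofReal (∫ s in 0..ε, G s) = ofReal
((r⁻¹) ^ 2) * SI a w₀ e h₀ β ε g r 0`. `space4_le` with `δ = ε` gives `∫⁻ r in Ioi 0, ofReal (wr D
Λ r * ∫ s in 0..ε, G (s + ε)) ≤ ∫⁻ r in Ioi 0, ofReal (wr D Λ r * ∫ s in 0..ε, G s)`, both finite
by `hb` (`integrableOn_wr_mul`, `measurable_GK`, `measurable_Jop_iter`). Convert to Bochner
integrals (see `Pool/Agent/KneserCone/Central.lean`); `Jop ε (Dop ε G) 0 = ∫ s in 0..ε, (G s - G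
(s + ε))`.
-/

set_option autoImplicit false
set_option linter.unusedSectionVars false

namespace Pool.Agent.KneserLine

open MeasureTheory Set Filter Topology Module
open scoped ENNReal
open Pool.Agent.Kneser Pool.Agent.KneserRank Pool.Agent.KneserCentre Pool.Agent.KneserCone

variable {D n : ℕ}

/-- The linear functionals. -/
private noncomputable def lamL4 (z : Fin n → Fin D → ℝ) (l : Fin n) (U : (Fin D → ℝ) × ℝ) : ℝ :=
  U.2 - ∑ k, U.1 k * z l k

private theorem measurable_lamL4 (z : Fin n → Fin D → ℝ) (l : Fin n) :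
    Measurable (lamL4 z l) := by
  have hc : Continuous (lamL4 z l) := by
    unfold lamL4
    fun_prop
  exact hc.measurable

/-- The homogeneous pair density. -/
private noncomputable def g1L4 (z : Fin n → Fin D → ℝ) (φ : ℕ → ℝ)
    (L : Finset (Fin n)) (i j : Fin n) (U : (Fin D → ℝ) × ℝ) : ℝ :=
  eG (lamL4 z i U) * eG (lamL4 z j U) *
    sd φ i j (fun l => if l ∈ L then bG (lamL4 z l U) else 0)

private theorem measurable_g1L4 (z : Fin n → Fin D → ℝ) (φ : ℕ → ℝ)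
    (L : Finset (Fin n)) (i j : Fin n) : Measurable (g1L4 z φ L i j) := by
  unfold g1L4
  refine ((continuous_eG.measurable.comp (measurable_lamL4 z i)).mul
    (continuous_eG.measurable.comp (measurable_lamL4 z j))).mul ?_
  refine (continuous_sd φ i j).measurable.comp ?_
  refine measurable_pi_lambda _ fun l => ?_
  by_cases h : l ∈ L
  · simp only [h, if_true]
    exact continuous_bG.measurable.comp (measurable_lamL4 z l)
  · simp only [h, if_false]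
    exact measurable_const

/-- The point of the family over the apex line. -/
private noncomputable def ptL4 (a w₀ e : Fin D → ℝ) (h₀ β r v : ℝ) (x : ℝ × (Fin D → ℝ)) :
    (Fin D → ℝ) × ℝ :=
  (r⁻¹ • (x.2 - w₀ - x.1 • e), r⁻¹ * (HH a 0 x.2 x.1 + v - h₀ - x.1 * β))

private theorem LL_sub_L4 (a : Fin D → ℝ) (z : Fin n → Fin D → ℝ) (w w' : Fin D → ℝ) (l : Fin n) :
    LL a z w l - LL a z w' l = - ∑ k, (w k - w' k) * z l k := by
  unfold LL
  rw [← Finset.sum_sub_distrib, ← Finset.sum_neg_distrib]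
  refine Finset.sum_congr rfl fun k _ => ?_
  ring

private theorem lamL4_pt (a : Fin D → ℝ) (z : Fin n → Fin D → ℝ) (l : Fin n)
    (w₀ e : Fin D → ℝ) (h₀ β r v cl : ℝ) (h0 : cl = Yf a z (0, (w₀, h₀)) l)
    (h1 : cl = Yf a z (1, (w₀ + e, h₀ + β)) l) (x : ℝ × (Fin D → ℝ)) :
    lamL4 z l (ptL4 a w₀ e h₀ β r v x) = (yb a z x l + v - cl) / r := by
  have e1 := LL_sub_L4 a z x.2 w₀ l
  have e2 := LL_sub_L4 a z (w₀ + e) w₀ l
  have e3 : ∑ k, (r⁻¹ • (x.2 - w₀ - x.1 • e)) k * z l k =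
      r⁻¹ * (∑ k, (x.2 k - w₀ k) * z l k - x.1 * ∑ k, ((w₀ + e) k - w₀ k) * z l k) := by
    rw [Finset.mul_sum, ← Finset.sum_sub_distrib, Finset.mul_sum]
    refine Finset.sum_congr rfl fun k _ => ?_
    simp only [Pi.smul_apply, Pi.sub_apply, Pi.add_apply, smul_eq_mul]
    ring
  have h2 : yb a z x l = HH a 0 x.2 x.1 + LL a z x.2 l + x.1 * zet a z l := by
    unfold yb ya
    simp
  have h3 : Yf a z (0, (w₀, h₀)) l = h₀ + LL a z w₀ l := by
    unfold Yf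
    simp
  have h4 : Yf a z (1, (w₀ + e, h₀ + β)) l = h₀ + β + LL a z (w₀ + e) l + zet a z l := by
    unfold Yf
    simp
  rw [h3] at h0
  rw [h4] at h1
  unfold lamL4 ptL4
  simp only
  rw [e3, h2, div_eq_inv_mul]
  linear_combination r⁻¹ * (-e1 + x.1 * e2 + (1 - x.1) * h0 + x.1 * h1)

private theorem gd_eq_L4 {a : Fin D → ℝ} (z : Fin n → Fin D → ℝ) (φ : ℕ → ℝ)
    {L : Finset (Fin n)} {i j : Fin n} (hi : i ∈ L) (hj : j ∈ L) {w₀ e : Fin D → ℝ} {h₀ β : ℝ}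
    {c : Fin n → ℝ} (hc0 : ∀ l ∈ L, c l = Yf a z (0, (w₀, h₀)) l)
    (hc1 : ∀ l ∈ L, c l = Yf a z (1, (w₀ + e, h₀ + β)) l) (r v : ℝ) (x : ℝ × (Fin D → ℝ)) :
    gd φ L i j c r (fun l => yb a z x l + v) =
      (r⁻¹) ^ 2 * g1L4 z φ L i j (ptL4 a w₀ e h₀ β r v x) := by
  have hs : (fun l => if l ∈ L then bG ((yb a z x l + v - c l) / r) else 0) =
      (fun l => if l ∈ L then bG (lamL4 z l (ptL4 a w₀ e h₀ β r v x)) else 0) := by
    funext l
    by_cases h : l ∈ L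
    · simp only [h, if_true]
      rw [lamL4_pt a z l w₀ e h₀ β r v (c l) (hc0 l h) (hc1 l h)]
    · simp only [h, if_false]
  unfold gd g1L4
  rw [hs, lamL4_pt a z i w₀ e h₀ β r v (c i) (hc0 i hi) (hc1 i hi),
    lamL4_pt a z j w₀ e h₀ β r v (c j) (hc0 j hj) (hc1 j hj)]
  ring

private theorem om_nonnegL4 (a : Fin D → ℝ) (t : ℝ) : 0 ≤ om a t := by
  unfold om
  positivity

private theorem wr_nonnegL4 {Λ : ℝ} (hΛ : 1 ≤ Λ) {r : ℝ} (hr : 0 < r) : 0 ≤ wr D Λ r := by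
  unfold wr
  have h : 0 ≤ 1 + Λ * r := by
    have := mul_nonneg (zero_le_one.trans hΛ) hr.le
    linarith
  exact Real.rpow_nonneg h _

private theorem GK_nonnegL4 (a : Fin D → ℝ) (z : Fin n → Fin D → ℝ) {φ : ℕ → ℝ}
    (hφ : ∀ k, φ (k + 2) - 2 * φ (k + 1) + φ k ≤ 0) (L : Finset (Fin n)) {i j : Fin n}
    (hij : i ≠ j) (c : Fin n → ℝ) (r v : ℝ) :
    0 ≤ GK (nu D) (fun x => om a x.1) (yb a z) φ L i j c r v := by
  unfold GK
  exact integral_nonneg fun x => mul_nonneg (om_nonnegL4 _ _) (gd_nonneg hφ L hij c r _)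

/-- The pair integral over the apex line. -/
private theorem ofReal_GK_L4 {a : Fin D → ℝ} (ha : Pencil a) (z : Fin n → Fin D → ℝ)
    {φ : ℕ → ℝ} (hφ : ∀ k, φ (k + 2) - 2 * φ (k + 1) + φ k ≤ 0) {L : Finset (Fin n)}
    {i j : Fin n} (hij : i ≠ j) (hi : i ∈ L) (hj : j ∈ L) {w₀ e : Fin D → ℝ} {h₀ β : ℝ}
    {c : Fin n → ℝ} (hc0 : ∀ l ∈ L, c l = Yf a z (0, (w₀, h₀)) l)
    (hc1 : ∀ l ∈ L, c l = Yf a z (1, (w₀ + e, h₀ + β)) l) {r : ℝ} (hr : 0 < r) (v : ℝ) :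
    ENNReal.ofReal (GK (nu D) (fun x => om a x.1) (yb a z) φ L i j c r v) =
      ENNReal.ofReal ((r⁻¹) ^ 2) * ∫⁻ x, ENNReal.ofReal (om a x.1) *
        ENNReal.ofReal (g1L4 z φ L i j (ptL4 a w₀ e h₀ β r v x)) ∂(nu D) := by
  have hK := kern_G4 ha z (s := fun i j => ∑ k, a k * (z i k - z j k) ^ 2)
    (r := fun i j => ∑ k, (1 - a k) * (z i k - z j k) ^ 2) (fun _ _ => rfl) (fun _ _ => rfl)
  have hi2 := integrable_kgd hK φ L i j c hr v
  have hnn : 0 ≤ᵐ[nu D] (fun x => om a x.1 * gd φ L i j c r (fun l => yb a z x l + v)) :=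
    Eventually.of_forall fun x => mul_nonneg (om_nonnegL4 _ _) (gd_nonneg hφ L hij c r _)
  unfold GK
  rw [ofReal_integral_eq_lintegral_ofReal hi2 hnn,
    ← lintegral_const_mul' _ _ ENNReal.ofReal_ne_top]
  refine lintegral_congr fun x => ?_
  rw [gd_eq_L4 z φ hi hj hc0 hc1, ENNReal.ofReal_mul (om_nonnegL4 _ _),
    ENNReal.ofReal_mul (by positivity)]
  ring

private theorem integrableOn_L4 {f : ℝ → ℝ} {B : ℝ} (h : Bd f B) {v : ℝ} (hv : 0 ≤ v) (ε : ℝ) :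
    IntegrableOn (fun s => f (v + s)) (Ioc (0 : ℝ) ε) := by
  refine Integrable.of_bound
    (h.meas.comp (measurable_id.const_add v)).aestronglyMeasurable B ?_
  refine (ae_restrict_iff' measurableSet_Ioc).2 (Eventually.of_forall fun s hs => ?_)
  exact h.bound (v + s) (add_nonneg hv hs.1.le)

/-- The window integral of a nonnegative function. -/
private theorem ofReal_Jop_L4 {f : ℝ → ℝ} {B : ℝ} (h : Bd f B) (h0 : ∀ u, 0 ≤ f u) {v : ℝ}
    (hv : 0 ≤ v) {ε : ℝ} (hε : 0 ≤ ε) :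
    ENNReal.ofReal (Jop ε f v) = ∫⁻ s in Ioo (0 : ℝ) ε, ENNReal.ofReal (f (s + v)) := by
  unfold Jop
  rw [intervalIntegral.integral_of_le hε,
    ofReal_integral_eq_lintegral_ofReal (integrableOn_L4 h hv ε)
      (Eventually.of_forall fun s => h0 _), restrict_Ioo_eq_restrict_Ioc]
  refine lintegral_congr fun s => ?_
  rw [add_comm v s]

private theorem three_le_L4 {a : Fin (D + 1) → ℝ} (ha : Pencil4 a) : 3 ≤ D := by
  have h := ha.zeros
  have h2 := Finset.card_filter_le (Finset.univ : Finset (Fin (D + 1))) (fun k => a k = 0)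
  rw [Finset.card_univ, Fintype.card_fin] at h2
  omega

theorem line_aux {a : Fin (D + 1) → ℝ} (ha : Pencil4 a) (z : Fin n → Fin (D + 1) → ℝ)
    {φ : ℕ → ℝ} (hφ : ∀ k, φ (k + 2) - 2 * φ (k + 1) + φ k ≤ 0) {L : Finset (Fin n)}
    {i j : Fin n} (hij : i ≠ j) (hi : i ∈ L) (hj : j ∈ L) {w₀ e : Fin (D + 1) → ℝ} {h₀ β : ℝ}
    (hl : ∃ k, a k = 1 ∧ w₀ k ≠ 0) (hr : ∃ k, a k = 0 ∧ w₀ k + e k ≠ 0) {c : Fin n → ℝ}
    (hc0 : ∀ l ∈ L, c l = Yf a z (0, (w₀, h₀)) l)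
    (hc1 : ∀ l ∈ L, c l = Yf a z (1, (w₀ + e, h₀ + β)) l) {B : ℝ}
    (hb : ∀ r : ℝ, 0 < r → ∀ v : ℝ, 0 ≤ v →
      |GK (nu (D + 1)) (fun x => om a x.1) (yb a z) φ L i j c r v| ≤
        B * (1 + r) ^ (((D : ℝ) - 3) / 2)) {Λ : ℝ} (hΛ : 1 ≤ Λ) {ε : ℝ} (hε : 0 ≤ ε) :
    0 ≤ ∫ r in Ioi (0 : ℝ), wr D Λ r *
      Jop ε (Dop ε (GK (nu (D + 1)) (fun x => om a x.1) (yb a z) φ L i j c r)) 0 := by
  have hD : 3 ≤ D := three_le_L4 ha
  have hK := kern_G4 ha.pencil z (s := fun i j => ∑ k, a k * (z i k - z j k) ^ 2)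
    (r := fun i j => ∑ k, (1 - a k) * (z i k - z j k) ^ 2) (fun _ _ => rfl) (fun _ _ => rfl)
  obtain ⟨G, hG⟩ : ∃ G : ℝ → ℝ → ℝ, G = fun r v =>
    GK (nu (D + 1)) (fun x => om a x.1) (yb a z) φ L i j c r v := ⟨_, rfl⟩
  have hGm : Measurable (Function.uncurry G) := by
    rw [hG]
    exact measurable_GK hK φ L i j c
  have hG0 : ∀ r v, 0 ≤ G r v := fun r v => by
    rw [hG]
    exact GK_nonnegL4 a z hφ L hij c r v
  have hBd : ∀ r : ℝ, 0 < r → Bd (G r) (B * (1 + r) ^ (((D : ℝ) - 3) / 2)) := by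
    intro r hr
    refine ⟨hGm.comp (measurable_const.prodMk measurable_id), fun v hv => ?_⟩
    rw [hG]
    exact hb r hr v hv
  have hJb : ∀ r : ℝ, 0 < r → ∀ v : ℝ, 0 ≤ v →
      |Jop ε (G r) v| ≤ ε * B * (1 + r) ^ (((D : ℝ) - 3) / 2) := by
    intro r hr v hv
    have h1 := ((hBd r hr).jop hε 1).bound v hv
    rw [pow_one] at h1
    rw [mul_assoc]
    exact h1
  have hJm : ∀ v : ℝ, Measurable fun r => Jop ε (G r) v := by
    intro v
    exact (measurable_Jop_iter hGm ε 1).comp (measurable_id.prodMk measurable_const)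
  have hJ0 : ∀ r v, 0 ≤ v → 0 ≤ Jop ε (G r) v := fun r v hv => by
    unfold Jop
    exact intervalIntegral.integral_nonneg hε fun s _ => hG0 _ _
  have hint : ∀ v : ℝ, 0 ≤ v → IntegrableOn (fun r => wr D Λ r * Jop ε (G r) v)
      (Ioi (0 : ℝ)) := fun v hv =>
    integrableOn_wr_mul hD (hJm v).aestronglyMeasurable (fun r hr => hJb r hr v hv) hΛ
  have hnn : ∀ v : ℝ, 0 ≤ v → 0 ≤ᵐ[volume.restrict (Ioi (0 : ℝ))]
      (fun r => wr D Λ r * Jop ε (G r) v) := by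
    intro v hv
    refine (ae_restrict_iff' measurableSet_Ioi).2 (Eventually.of_forall fun r hr => ?_)
    exact mul_nonneg (wr_nonnegL4 hΛ hr) (hJ0 r v hv)
  have hg : Measurable (fun U => ENNReal.ofReal (g1L4 z φ L i j U)) :=
    (measurable_g1L4 z φ L i j).ennreal_ofReal
  have hle := space4_le ha hl hr h₀ β (zero_le_one.trans hΛ) ε hε hg
  have hkey : ∀ v : ℝ, 0 ≤ v →
      ∫⁻ r in Ioi (0 : ℝ), ENNReal.ofReal (wr D Λ r * (r⁻¹) ^ 2) *
        SI a w₀ e h₀ β ε (fun U => ENNReal.ofReal (g1L4 z φ L i j U)) r v =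
      ENNReal.ofReal (∫ r in Ioi (0 : ℝ), wr D Λ r * Jop ε (G r) v) := by
    intro v hv
    rw [ofReal_integral_eq_lintegral_ofReal (hint v hv) (hnn v hv)]
    refine setLIntegral_congr_fun measurableSet_Ioi fun r hr => ?_
    have hr' : 0 < r := hr
    have hw := wr_nonnegL4 (D := D) hΛ hr'
    have h1 : ENNReal.ofReal (Jop ε (G r) v) = ENNReal.ofReal ((r⁻¹) ^ 2) *
        SI a w₀ e h₀ β ε (fun U => ENNReal.ofReal (g1L4 z φ L i j U)) r v := by
      rw [ofReal_Jop_L4 (hBd r hr') (hG0 r) hv hε]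
      unfold SI
      rw [← lintegral_const_mul' _ _ ENNReal.ofReal_ne_top]
      refine lintegral_congr fun s => ?_
      have h2 := ofReal_GK_L4 ha.pencil z hφ hij hi hj hc0 hc1 hr' (s + v)
      rw [hG]
      simp only
      rw [h2]
      congr 1
      refine lintegral_congr fun x => ?_
      unfold ptL4
      rw [← add_assoc]
    beta_reduce
    rw [ENNReal.ofReal_mul hw, ENNReal.ofReal_mul hw, h1, mul_assoc]
  rw [hkey 0 le_rfl, hkey ε hε] at hle
  have hle2 := (ENNReal.ofReal_le_ofReal_iff (integral_nonneg_of_ae (hnn 0 le_rfl))).1 hle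
  have hsub : ∫ r in Ioi (0 : ℝ), wr D Λ r *
      Jop ε (Dop ε (GK (nu (D + 1)) (fun x => om a x.1) (yb a z) φ L i j c r)) 0 =
      (∫ r in Ioi (0 : ℝ), wr D Λ r * Jop ε (G r) 0) -
        ∫ r in Ioi (0 : ℝ), wr D Λ r * Jop ε (G r) ε := by
    rw [← integral_sub (hint 0 le_rfl) (hint ε hε)]
    refine setIntegral_congr_fun measurableSet_Ioi fun r hr => ?_
    have hr' : 0 < r := hr
    have h1 : Jop ε (Dop ε (GK (nu (D + 1)) (fun x => om a x.1) (yb a z) φ L i j c r)) 0 =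
        Jop ε (G r) 0 - Jop ε (G r) ε := by
      have i0 : IntervalIntegrable (fun s => G r (0 + s)) volume 0 ε :=
        (intervalIntegrable_iff_integrableOn_Ioc_of_le hε).2
          (integrableOn_L4 (hBd r hr') le_rfl ε)
      have i1 : IntervalIntegrable (fun s => G r (ε + s)) volume 0 ε :=
        (intervalIntegrable_iff_integrableOn_Ioc_of_le hε).2
          (integrableOn_L4 (hBd r hr') hε ε)
      unfold Jop
      rw [← intervalIntegral.integral_sub i0 i1]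
      refine intervalIntegral.integral_congr fun s _ => ?_
      rw [hG]
      unfold Dop
      have h3 : 0 + s + ε = ε + s := by ring
      rw [h3]
    beta_reduce
    rw [h1, mul_sub]
  rw [hsub]
  exact sub_nonneg.2 hle2

end Pool.Agent.KneserLine
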