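import Pool.Agent.KneserLine.LineLe
import Pool.Agent.KneserLine.WConv4

/-!
# The inequality on a line, with an affine function

PROOF. `exists_absorb` (`Pool/Agent/KneserCone/Absorb.lean`) gives `e'`, `w'`, `γ'` with `Generic
a e' w'` and `HH a e w t - β * t = HH a e' w' t - γ'` on `(0, 1)`. Apply `line_le_gen` to `e'`,
`w'`, the function `k' x = k (x - γ' - γ)` and the weight of `wt_cut4`, `convexOn_cut4`.
-/

set_option autoImplicit false
set_option linter.unusedSectionVars false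

namespace Pool.Agent.KneserLine

open MeasureTheory Set Filter Topology Module
open scoped ENNReal
open Pool.Agent.Kneser Pool.Agent.KneserRank Pool.Agent.KneserCentre Pool.Agent.KneserCone

variable {D n : ℕ}

theorem line_le {a : Fin (D + 1) → ℝ} (ha : Pencil4 a) {e w : Fin (D + 1) → ℝ}
    (hg : Generic a e w) (β γ : ℝ) {P : ℝ} (hP : P ∈ Ioo (0 : ℝ) 1)
    (hmin : ∀ t ∈ Ioo (0 : ℝ) 1, HH a e w P - β * P ≤ HH a e w t - β * t) {Λ : ℝ} (hΛ : 0 ≤ Λ)
    (x0 x1 : ℝ) {ε : ℝ} (hε : 0 ≤ ε) {k : ℝ → ℝ≥0∞} (hk : Measurable k) :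
    ∫⁻ t in Ioo (0 : ℝ) 1,
        ENNReal.ofReal (|t - P| * (om a t * KneserCone.cut D Λ (x0 + x1 * t))) *
        k (HH a e w t - β * t - γ + ε) ≤
      ∫⁻ t in Ioo (0 : ℝ) 1,
        ENNReal.ofReal (|t - P| * (om a t * KneserCone.cut D Λ (x0 + x1 * t))) *
        k (HH a e w t - β * t - γ) := by
  obtain ⟨e', w', γ', hg', hH⟩ := exists_absorb ha.pencil hg β
  have hmin' : ∀ t ∈ Ioo (0 : ℝ) 1, HH a e' w' P ≤ HH a e' w' t := by
    intro t ht
    have h1 := hmin t ht
    rw [hH t ht, hH P hP] at h1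
    linarith
  have hk' : Measurable fun x : ℝ => k (x - γ' - γ) :=
    hk.comp ((measurable_id.sub_const γ').sub_const γ)
  have h2 := line_le_gen ha.pencil hg' (wt_cut4 ha hΛ x0 x1)
    (fun x₁ h₁ x₂ h₂ => convexOn_cut4 ha hg' hΛ x0 x1 h₁ h₂) hP hmin' hε hk'
  have h3 : ∀ δ : ℝ, ∫⁻ t in Ioo (0 : ℝ) 1,
        ENNReal.ofReal (|t - P| * (om a t * KneserCone.cut D Λ (x0 + x1 * t))) *
        k (HH a e w t - β * t - γ + δ) =
      ∫⁻ t in Ioo (0 : ℝ) 1,
        ENNReal.ofReal (|t - P| * (om a t * KneserCone.cut D Λ (x0 + x1 * t))) *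
        k (HH a e' w' t + δ - γ' - γ) := by
    intro δ
    refine setLIntegral_congr_fun measurableSet_Ioo fun t ht => ?_
    have h4 : HH a e w t - β * t - γ + δ = HH a e' w' t + δ - γ' - γ := by
      rw [hH t ht]
      ring
    simp only [h4]
  have h5 := h3 0
  simp only [add_zero] at h5
  rw [h3 ε, h5]
  exact h2

end Pool.Agent.KneserLine
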