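import Pool.Agent.KneserLine.Line4

/-!
# Apex lines

PROOF. Perturb `w₀`: let `w₀' = w₀ + η / (ν + 1)` (the constant vector), `η > 0` small, `ν : ℕ`.
For `l ∈ L`, `Yf a z (0, (w₀', h₀)) l = c l - η / (ν + 1) * ∑ k, z l k` and the same for the point
with `t = 1`, so `cs ν l = c l - η / (ν + 1) * ∑ k, z l k` for `l ∈ L`, `cs ν l = c l` otherwise.
If `η` is small, then `|cs ν l| ≤ R`, and `w₀' k ≠ 0`, `w₀' k + e k ≠ 0` for all `k` and `ν` (for
every number `x` and all sufficiently small `η' > 0`, `x + η' ≠ 0`). `line_aux` for `cs ν`, then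
`ν → ∞`: for fixed `r > 0` `GK (cs ν) r v → GK c r v` for every `v` (`tendsto_GK_c`), hence `Jop ε
(Dop ε GK) 0` converges (`tendsto_Dop_iter`, `tendsto_Jop_iter` with `m = 1`, `Bd` from `hb` and
`measurable_GK`), and dominated convergence in `r` with the bound `wr D Λ r * (2 ε B (1 + r) ^ ((D
- 3) / 2))` (`integrableOn_wr_mul`). Compare `Pool/Agent/KneserCone/CentralAll.lean`.
-/

set_option autoImplicit false
set_option linter.unusedSectionVars false

namespace Pool.Agent.KneserLine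

open MeasureTheory Set Filter Topology Module
open scoped ENNReal
open Pool.Agent.Kneser Pool.Agent.KneserRank Pool.Agent.KneserCentre Pool.Agent.KneserCone

variable {D n : ℕ}

private theorem lineall_wr_nonneg (D : ℕ) {Λ r : ℝ} (hΛ : 1 ≤ Λ) (hr : 0 < r) :
    0 ≤ wr D Λ r := by
  unfold wr
  refine Real.rpow_nonneg ?_ _
  nlinarith

private theorem lineall_wr_meas (D : ℕ) (Λ : ℝ) : Measurable (wr D Λ) := by
  unfold wr
  exact ((measurable_const.mul measurable_id).const_add 1).pow_const _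

private theorem lineall_meas {F : ℝ → ℝ → ℝ} (hF : Measurable (Function.uncurry F)) (ε : ℝ) :
    Measurable fun r => Jop ε (Dop ε (F r)) 0 := by
  have h1 := measurable_Dop_iter hF ε 1
  have h2 : Measurable (Function.uncurry fun r v => Dop ε (F r) v) := h1
  have h3 := measurable_Jop_iter h2 ε 1
  exact h3.comp (measurable_id.prodMk measurable_const)

private theorem lineall_bd {f : ℝ → ℝ} {B ε : ℝ} (hε : 0 ≤ ε) (h : Bd f B) :
    |Jop ε (Dop ε f) 0| ≤ 2 * ε * B := by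
  have h1 := ((h.dop hε 1).jop hε 1).bound 0 le_rfl
  have h2 : ε ^ 1 * (2 ^ 1 * B) = 2 * ε * B := by ring
  rw [h2] at h1
  exact h1

private theorem lineall_tend {F : ℕ → ℝ → ℝ} {f : ℝ → ℝ} {B ε : ℝ} (hε : 0 ≤ ε)
    (hB : ∀ ν, Bd (F ν) B) (h : ∀ v, 0 ≤ v → Tendsto (fun ν => F ν v) atTop (𝓝 (f v))) :
    Tendsto (fun ν => Jop ε (Dop ε (F ν)) 0) atTop (𝓝 (Jop ε (Dop ε f) 0)) := by
  have h1 : ∀ v, 0 ≤ v → Tendsto (fun ν => Dop ε (F ν) v) atTop (𝓝 (Dop ε f v)) :=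
    fun v hv => tendsto_Dop_iter hε h 1 hv
  exact tendsto_Jop_iter hε (Eventually.of_forall fun ν => (hB ν).dop hε 1) h1 1 le_rfl

/-- The limit of a sequence of configurations with an apex line. -/
private theorem lineall_lim {a : Fin (D + 1) → ℝ} (ha : Pencil4 a)
    (z : Fin n → Fin (D + 1) → ℝ) (φ : ℕ → ℝ) {L : Finset (Fin n)} {i j : Fin n} (hi : i ∈ L)
    (hj : j ∈ L) {c : Fin n → ℝ} {R B : ℝ}
    (hb : ∀ c' : Fin n → ℝ, (∀ l, |c' l| ≤ R) → ∀ r : ℝ, 0 < r → ∀ v : ℝ, 0 ≤ v →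
      |GK (nu (D + 1)) (fun x => om a x.1) (yb a z) φ L i j c' r v| ≤
        B * (1 + r) ^ (((D : ℝ) - 3) / 2)) {Λ : ℝ} (hΛ : 1 ≤ Λ) {ε : ℝ} (hε : 0 ≤ ε)
    (cs : ℕ → Fin n → ℝ) (hcs : ∀ ν l, |cs ν l| ≤ R)
    (hlim : ∀ l ∈ L, Tendsto (fun ν => cs ν l) atTop (𝓝 (c l)))
    (h : ∀ ν, 0 ≤ ∫ r in Ioi (0 : ℝ), wr D Λ r *
      Jop ε (Dop ε (GK (nu (D + 1)) (fun x => om a x.1) (yb a z) φ L i j (cs ν) r)) 0) :
    0 ≤ ∫ r in Ioi (0 : ℝ), wr D Λ r *
      Jop ε (Dop ε (GK (nu (D + 1)) (fun x => om a x.1) (yb a z) φ L i j c r)) 0 := by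
  have hD : 3 ≤ D := by
    have h1 := ha.zeros
    have h2 := Finset.card_filter_le (Finset.univ : Finset (Fin (D + 1))) (fun k => a k = 0)
    rw [Finset.card_univ, Fintype.card_fin] at h2
    omega
  have hB : 0 ≤ B := by
    have h1 := (abs_nonneg _).trans (hb (cs 0) (hcs 0) 1 one_pos 0 le_rfl)
    by_contra hneg
    push Not at hneg
    have h2 : 0 < (1 + (1 : ℝ)) ^ (((D : ℝ) - 3) / 2) := Real.rpow_pos_of_pos (by norm_num) _
    nlinarith
  have hK := kern_G4 ha.pencil z (s := fun i j => ∑ k, a k * (z i k - z j k) ^ 2)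
    (r := fun i j => ∑ k, (1 - a k) * (z i k - z j k) ^ 2) (fun _ _ => rfl) (fun _ _ => rfl)
  have hmG : ∀ c' : Fin n → ℝ, Measurable (Function.uncurry fun ρ v =>
      GK (nu (D + 1)) (fun x => om a x.1) (yb a z) φ L i j c' ρ v) := fun c' =>
    measurable_GK hK φ L i j c'
  have hmJ : ∀ c' : Fin n → ℝ, Measurable fun r =>
      Jop ε (Dop ε (GK (nu (D + 1)) (fun x => om a x.1) (yb a z) φ L i j c' r)) 0 := by
    intro c'
    exact lineall_meas (hmG c') ε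
  have hBd : ∀ c' : Fin n → ℝ, (∀ l, |c' l| ≤ R) → ∀ r : ℝ, 0 < r →
      Bd (GK (nu (D + 1)) (fun x => om a x.1) (yb a z) φ L i j c' r)
        (B * (1 + r) ^ (((D : ℝ) - 3) / 2)) := fun c' hc' r hr =>
    ⟨(hmG c').comp measurable_prodMk_left, fun v hv => hb c' hc' r hr v hv⟩
  have hJB : ∀ c' : Fin n → ℝ, (∀ l, |c' l| ≤ R) → ∀ r : ℝ, 0 < r →
      |Jop ε (Dop ε (GK (nu (D + 1)) (fun x => om a x.1) (yb a z) φ L i j c' r)) 0| ≤
        2 * ε * B * (1 + r) ^ (((D : ℝ) - 3) / 2) := by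
    intro c' hc' r hr
    have h1 := lineall_bd hε (hBd c' hc' r hr)
    rw [← mul_assoc] at h1
    exact h1
  have hint : Integrable (fun r => wr D Λ r * (2 * ε * B * (1 + r) ^ (((D : ℝ) - 3) / 2)))
      (volume.restrict (Ioi (0 : ℝ))) := by
    refine integrableOn_wr_mul hD (A := fun r => 2 * ε * B * (1 + r) ^ (((D : ℝ) - 3) / 2))
      (C := 2 * ε * B) ?_ ?_ hΛ
    · exact (((measurable_id.const_add (1 : ℝ)).pow_const _).const_mul
        (2 * ε * B)).aestronglyMeasurable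
    · intro r hr
      rw [abs_of_nonneg]
      exact mul_nonneg (by positivity) (Real.rpow_nonneg (by linarith) _)
  refine ge_of_tendsto' (tendsto_integral_of_dominated_convergence
    (fun r => wr D Λ r * (2 * ε * B * (1 + r) ^ (((D : ℝ) - 3) / 2))) (fun ν => ?_) hint
    (fun ν => ?_) ?_) h
  · exact ((lineall_wr_meas D Λ).stronglyMeasurable.mul
      (hmJ (cs ν)).stronglyMeasurable).aestronglyMeasurable
  · refine ae_restrict_of_forall_mem measurableSet_Ioi fun r hr => ?_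
    have hr0 : (0 : ℝ) < r := hr
    rw [Real.norm_eq_abs, abs_mul, abs_of_nonneg (lineall_wr_nonneg D hΛ hr0)]
    exact mul_le_mul_of_nonneg_left (hJB (cs ν) (hcs ν) r hr0) (lineall_wr_nonneg D hΛ hr0)
  · refine ae_restrict_of_forall_mem measurableSet_Ioi fun r hr => ?_
    have hr0 : (0 : ℝ) < r := hr
    refine tendsto_const_nhds.mul ?_
    exact lineall_tend hε (fun ν => hBd (cs ν) (hcs ν) r hr0)
      fun v _ => tendsto_GK_c hK φ L hi hj c cs hcs hlim hr0 v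

private theorem lineall_ne {δ : ℕ → ℝ} (hδ0 : ∀ ν, 0 < δ ν) (hδ : Tendsto δ atTop (𝓝 0))
    (x : ℝ) : ∀ᶠ ν in atTop, x + δ ν ≠ 0 := by
  by_cases hx : x = 0
  · refine Eventually.of_forall fun ν => ?_
    rw [hx, zero_add]
    exact (hδ0 ν).ne'
  · have h1 : Tendsto (fun ν => x + δ ν) atTop (𝓝 (x + 0)) := hδ.const_add x
    rw [add_zero] at h1
    exact h1.eventually_ne hx

theorem line_nonneg {a : Fin (D + 1) → ℝ} (ha : Pencil4 a) (z : Fin n → Fin (D + 1) → ℝ)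
    {φ : ℕ → ℝ} (hφ : ∀ k, φ (k + 2) - 2 * φ (k + 1) + φ k ≤ 0) {L : Finset (Fin n)}
    {i j : Fin n} (hij : i ≠ j) (hi : i ∈ L) (hj : j ∈ L) {w₀ e : Fin (D + 1) → ℝ} {h₀ β : ℝ}
    {c : Fin n → ℝ} (hc0 : ∀ l ∈ L, c l = Yf a z (0, (w₀, h₀)) l)
    (hc1 : ∀ l ∈ L, c l = Yf a z (1, (w₀ + e, h₀ + β)) l) {R B : ℝ} (hR : ∀ l, |c l| < R)
    (hb : ∀ c' : Fin n → ℝ, (∀ l, |c' l| ≤ R) → ∀ r : ℝ, 0 < r → ∀ v : ℝ, 0 ≤ v →
      |GK (nu (D + 1)) (fun x => om a x.1) (yb a z) φ L i j c' r v| ≤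
        B * (1 + r) ^ (((D : ℝ) - 3) / 2)) {Λ : ℝ} (hΛ : 1 ≤ Λ) {ε : ℝ} (hε : 0 ≤ ε) :
    0 ≤ ∫ r in Ioi (0 : ℝ), wr D Λ r *
      Jop ε (Dop ε (GK (nu (D + 1)) (fun x => om a x.1) (yb a z) φ L i j c r)) 0 := by
  -- the perturbed lines
  let δ : ℕ → ℝ := fun ν => 1 / ((ν : ℝ) + 2)
  have hδ0 : ∀ ν, 0 < δ ν := fun ν => by
    have : (0 : ℝ) ≤ ν := Nat.cast_nonneg ν
    exact one_div_pos.2 (by linarith)
  have hδ : Tendsto δ atTop (𝓝 0) := by
    have h1 : Tendsto (fun ν : ℕ => (ν : ℝ) + 2) atTop atTop :=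
      tendsto_atTop_add_const_right _ _ tendsto_natCast_atTop_atTop
    exact (h1.inv_tendsto_atTop).congr fun ν => by
      change ((ν : ℝ) + 2)⁻¹ = 1 / ((ν : ℝ) + 2)
      rw [one_div]
  let w : ℕ → Fin (D + 1) → ℝ := fun ν k => w₀ k + δ ν
  have hLL : ∀ (u : Fin (D + 1) → ℝ) (x : ℝ) (l : Fin n),
      LL a z (fun k => u k + x) l = LL a z u l - x * ∑ k, z l k := by
    intro u x l
    unfold LL
    rw [Finset.mul_sum, ← Finset.sum_sub_distrib]
    refine Finset.sum_congr rfl fun k _ => ?_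
    ring
  have hY0 : ∀ ν, ∀ l ∈ L, Yf a z (0, (w ν, h₀)) l = c l - δ ν * ∑ k, z l k := by
    intro ν l hl
    rw [hc0 l hl]
    change h₀ + LL a z (fun k => w₀ k + δ ν) l + 0 * zet a z l =
      h₀ + LL a z w₀ l + 0 * zet a z l - δ ν * ∑ k, z l k
    rw [hLL]
    ring
  have hY1 : ∀ ν, ∀ l ∈ L, Yf a z (1, (w ν + e, h₀ + β)) l = c l - δ ν * ∑ k, z l k := by
    intro ν l hl
    rw [hc1 l hl]
    have h1 : w ν + e = fun k => (w₀ + e) k + δ ν := by
      funext k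
      change w₀ k + δ ν + e k = w₀ k + e k + δ ν
      ring
    rw [h1]
    change h₀ + β + LL a z (fun k => (w₀ + e) k + δ ν) l + 1 * zet a z l =
      h₀ + β + LL a z (w₀ + e) l + 1 * zet a z l - δ ν * ∑ k, z l k
    rw [hLL]
    ring
  let cs : ℕ → Fin n → ℝ := fun ν l => if l ∈ L then c l - δ ν * ∑ k, z l k else c l
  have hlim : ∀ l, Tendsto (fun ν => cs ν l) atTop (𝓝 (c l)) := by
    intro l
    by_cases hl : l ∈ L
    · have h1 : (fun ν => cs ν l) = fun ν => c l - δ ν * ∑ k, z l k := by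
        funext ν
        exact if_pos hl
      rw [h1]
      have h2 : Tendsto (fun ν => c l - δ ν * ∑ k, z l k) atTop
          (𝓝 (c l - 0 * ∑ k, z l k)) := (hδ.mul_const _).const_sub _
      rwa [zero_mul, sub_zero] at h2
    · have h1 : (fun ν => cs ν l) = fun _ => c l := by
        funext ν
        exact if_neg hl
      rw [h1]
      exact tendsto_const_nhds
  have hev : ∀ᶠ ν in atTop, (∀ l, |cs ν l| ≤ R) ∧ (∀ k, w₀ k + δ ν ≠ 0) ∧
      ∀ k, w₀ k + e k + δ ν ≠ 0 := by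
    refine Eventually.and ?_ (Eventually.and ?_ ?_)
    · rw [eventually_all]
      intro l
      have h1 : Tendsto (fun ν => |cs ν l|) atTop (𝓝 |c l|) := (hlim l).abs
      exact (h1.eventually (gt_mem_nhds (hR l))).mono fun ν hν => le_of_lt hν
    · rw [eventually_all]
      exact fun k => lineall_ne hδ0 hδ _
    · rw [eventually_all]
      exact fun k => lineall_ne hδ0 hδ _
  obtain ⟨N, hN⟩ := eventually_atTop.1 hev
  obtain ⟨k1, hk1⟩ : ∃ k, a k = 1 := by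
    have h1 : 0 < (Finset.univ.filter fun k => a k = 1).card := by
      have := ha.ones
      omega
    obtain ⟨k, hk⟩ := Finset.card_pos.1 h1
    exact ⟨k, (Finset.mem_filter.1 hk).2⟩
  obtain ⟨k0, hk0⟩ : ∃ k, a k = 0 := by
    have h1 : 0 < (Finset.univ.filter fun k => a k = 0).card := by
      have := ha.zeros
      omega
    obtain ⟨k, hk⟩ := Finset.card_pos.1 h1
    exact ⟨k, (Finset.mem_filter.1 hk).2⟩
  refine lineall_lim ha z φ hi hj hb hΛ hε (fun ν => cs (ν + N))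
    (fun ν l => (hN (ν + N) (by omega)).1 l)
    (fun l _ => (hlim l).comp (tendsto_add_atTop_nat N)) fun ν => ?_
  obtain ⟨g1, g2, g3⟩ := hN (ν + N) (by omega)
  refine line_aux ha z hφ hij hi hj (w₀ := w (ν + N)) (e := e) (h₀ := h₀) (β := β)
    ⟨k1, hk1, g2 k1⟩ ⟨k0, hk0, ?_⟩ (fun l hl => ?_) (fun l hl => ?_)
    (hb (cs (ν + N)) g1) hΛ hε
  · have h1 := g3 k0
    change w₀ k0 + δ (ν + N) + e k0 ≠ 0
    intro h2
    apply h1
    linarith
  · rw [hY0 _ l hl]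
    exact if_pos hl
  · rw [hY1 _ l hl]
    exact if_pos hl

end Pool.Agent.KneserLine
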