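import Pool.Agent.KneserLine.Defs
import Pool.Agent.KneserRank.Param

/-!
# The parametrisation by the roots

PROOF. `kk_rel` at `t = x₁ h` and `t = x₂ h` gives `-y₁ (x₂ - x₁) kk = 1`, `y₂ (x₂ - x₁) kk = 1`,
so `y₁ < 0 < y₂` (`kk_pos`). `HH P = m`: `m ≤ HH P` by `hr.low`, and `HH P ≤ HH (x₁ h) = h` for
all `h > m`. `HH_interp` with `x₁ h`, `x₂ h`: `h - HH t = (t - x₁)(x₂ - t) kk`, so `HH t < h` iff
`x₁ h < t < x₂ h` and `HH t = h` iff `t = x₁ h` or `t = x₂ h`; hence `x₁ h < P < x₂ h`. If `t ≠ P`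
and `HH t = m` then `HH_interp` for `P`, `t` at the midpoint gives a value `< m`. So for `t > P`,
`h = HH t > m` and `t = x₂ h`. Injectivity: `HH (x₁ h) = h`.
-/

set_option autoImplicit false
set_option linter.unusedSectionVars false

namespace Pool.Agent.KneserLine

open MeasureTheory Set Filter Topology Module
open scoped ENNReal
open Pool.Agent.Kneser Pool.Agent.KneserRank Pool.Agent.KneserCentre Pool.Agent.KneserCone

variable {D n : ℕ}

private theorem interp_LineRoot {a e w : Fin D → ℝ} (ha : Pencil a) {m : ℝ}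
    {x₁ x₂ y₁ y₂ : ℝ → ℝ} (hr : Roots a e w m x₁ x₂ y₁ y₂) {u : ℝ} (hu : m < u) {t : ℝ}
    (ht : t ∈ Ioo (0 : ℝ) 1) :
    u - HH a e w t = (t - x₁ u) * (x₂ u - t) * kk a e w (x₁ u) (x₂ u) t := by
  have h1 := HH_interp ha e w (hr.mem₁ u hu) (hr.mem₂ u hu) ht
  rw [hr.root₁ u hu, hr.root₂ u hu] at h1
  have h2 : 0 < x₂ u - x₁ u := sub_pos.2 (hr.lt u hu)
  apply mul_left_cancel₀ h2.ne'
  linarith

private theorem strict_LineRoot {a e w : Fin D → ℝ} (ha : Pencil a) (hg : Generic a e w) {m : ℝ}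
    (hlow : ∀ t ∈ Ioo (0 : ℝ) 1, m ≤ HH a e w t) {s t : ℝ} (hs : s ∈ Ioo (0 : ℝ) 1)
    (ht : t ∈ Ioo (0 : ℝ) 1) (hst : s < t) (h1 : HH a e w s = m) (h2 : HH a e w t = m) :
    False := by
  have hz : (s + t) / 2 ∈ Ioo (0 : ℝ) 1 := ⟨by linarith [hs.1, ht.1], by linarith [hs.2, ht.2]⟩
  have h3 := HH_interp ha e w hs ht hz
  rw [h1, h2] at h3
  have h4 := kk_pos ha hg hs ht hz
  have h5 := hlow _ hz
  have h6 : 0 < t - s := sub_pos.2 hst
  have h7 : 0 < (t - s) * (((s + t) / 2 - s) * (t - (s + t) / 2)) *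
      kk a e w s t ((s + t) / 2) :=
    mul_pos (mul_pos h6 (mul_pos (by linarith) (by linarith))) h4
  have h8 : (t - s) * m ≤ (t - s) * HH a e w ((s + t) / 2) := mul_le_mul_of_nonneg_left h5 h6.le
  linarith

theorem roots_facts {a e w : Fin D → ℝ} (ha : Pencil a) (hg : Generic a e w) {m : ℝ}
    {x₁ x₂ y₁ y₂ : ℝ → ℝ} (hr : Roots a e w m x₁ x₂ y₁ y₂) {P : ℝ} (hP : P ∈ Ioo (0 : ℝ) 1)
    (hmin : ∀ t ∈ Ioo (0 : ℝ) 1, HH a e w P ≤ HH a e w t) :
    HH a e w P = m ∧ (∀ h, m < h → x₁ h < P ∧ P < x₂ h ∧ y₁ h < 0 ∧ 0 < y₂ h) ∧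
      InjOn x₁ (Ioi m) ∧ InjOn x₂ (Ioi m) ∧ x₁ '' Ioi m = Ioo 0 P ∧ x₂ '' Ioi m = Ioo P 1 := by
  have hPm : HH a e w P = m := by
    refine le_antisymm (le_of_forall_pos_le_add fun ε hε => ?_) (hr.low P hP)
    have h1 := hmin _ (hr.mem₁ (m + ε) (by linarith))
    rwa [hr.root₁ (m + ε) (by linarith)] at h1
  have hside : ∀ h, m < h → x₁ h < P ∧ P < x₂ h := by
    intro h hh
    have h1 := interp_LineRoot ha hr hh hP
    have h2 := kk_pos ha hg (hr.mem₁ h hh) (hr.mem₂ h hh) hP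
    rw [hPm] at h1
    have h3 : 0 < (P - x₁ h) * (x₂ h - P) := by
      by_contra hcon
      have := mul_nonpos_of_nonpos_of_nonneg (not_lt.1 hcon) h2.le
      linarith
    have h4 := hr.lt h hh
    constructor
    · by_contra hcon
      have := mul_nonpos_of_nonpos_of_nonneg (a := P - x₁ h) (b := x₂ h - P) (by linarith)
        (by linarith)
      linarith
    · by_contra hcon
      have := mul_nonpos_of_nonneg_of_nonpos (a := P - x₁ h) (b := x₂ h - P) (by linarith)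
        (by linarith)
      linarith
  have hroot : ∀ h, m < h → ∀ t ∈ Ioo (0 : ℝ) 1, HH a e w t = h → t = x₁ h ∨ t = x₂ h := by
    intro h hh t ht hth
    have h1 := interp_LineRoot ha hr hh ht
    have h2 := kk_pos ha hg (hr.mem₁ h hh) (hr.mem₂ h hh) ht
    rw [hth, sub_self] at h1
    rcases mul_eq_zero.1 (mul_eq_zero.1 h1.symm |>.resolve_right h2.ne') with h3 | h3
    · exact Or.inl (by linarith)
    · exact Or.inr (by linarith)
  refine ⟨hPm, fun h hh => ⟨(hside h hh).1, (hside h hh).2, ?_, ?_⟩, ?_, ?_, ?_, ?_⟩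
  · have h1 := kk_rel ha hr hh (hr.mem₁ h hh)
    have h2 := kk_pos ha hg (hr.mem₁ h hh) (hr.mem₂ h hh) (hr.mem₁ h hh)
    have h3 : 0 < x₂ h - x₁ h := sub_pos.2 (hr.lt h hh)
    rw [sub_self, mul_zero, add_zero, zero_mul, zero_mul, add_zero] at h1
    by_contra hcon
    have h4 : 0 ≤ y₁ h * (x₂ h - x₁ h) * kk a e w (x₁ h) (x₂ h) (x₁ h) :=
      mul_nonneg (mul_nonneg (not_lt.1 hcon) h3.le) h2.le
    linarith
  · have h1 := kk_rel ha hr hh (hr.mem₂ h hh)
    have h2 := kk_pos ha hg (hr.mem₁ h hh) (hr.mem₂ h hh) (hr.mem₂ h hh)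
    have h3 : 0 < x₂ h - x₁ h := sub_pos.2 (hr.lt h hh)
    rw [sub_self, mul_zero, zero_add, mul_zero, zero_mul, add_zero] at h1
    by_contra hcon
    have h4 : y₂ h * (x₂ h - x₁ h) * kk a e w (x₁ h) (x₂ h) (x₂ h) ≤ 0 :=
      mul_nonpos_of_nonpos_of_nonneg
        (mul_nonpos_of_nonpos_of_nonneg (not_lt.1 hcon) h3.le) h2.le
    linarith
  · intro h hh h' hh' he
    have := congrArg (HH a e w) he
    rwa [hr.root₁ h hh, hr.root₁ h' hh'] at this
  · intro h hh h' hh' he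
    have := congrArg (HH a e w) he
    rwa [hr.root₂ h hh, hr.root₂ h' hh'] at this
  · ext t
    constructor
    · rintro ⟨h, hh, rfl⟩
      exact ⟨(hr.mem₁ h hh).1, (hside h hh).1⟩
    · intro ht
      have ht' : t ∈ Ioo (0 : ℝ) 1 := ⟨ht.1, ht.2.trans hP.2⟩
      have hm : m < HH a e w t := lt_of_le_of_ne (hr.low t ht') fun h =>
        strict_LineRoot ha hg hr.low ht' hP ht.2 h.symm hPm
      refine ⟨HH a e w t, hm, ?_⟩
      rcases hroot _ hm t ht' rfl with h | h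
      · exact h.symm
      · exact absurd h (ne_of_lt (ht.2.trans (hside _ hm).2))
  · ext t
    constructor
    · rintro ⟨h, hh, rfl⟩
      exact ⟨(hside h hh).2, (hr.mem₂ h hh).2⟩
    · intro ht
      have ht' : t ∈ Ioo (0 : ℝ) 1 := ⟨hP.1.trans ht.1, ht.2⟩
      have hm : m < HH a e w t := lt_of_le_of_ne (hr.low t ht') fun h =>
        strict_LineRoot ha hg hr.low hP ht' ht.1 hPm h.symm
      refine ⟨HH a e w t, hm, ?_⟩
      rcases hroot _ hm t ht' rfl with h | h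
      · exact absurd h (ne_of_gt ((hside _ hm).1.trans ht.1))
      · exact h.symm

end Pool.Agent.KneserLine
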