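import Pool.Agent.KneserLine.LineMono
import Pool.Agent.KneserLine.LineRoot
import Pool.Agent.KneserRank.Roots

/-!
# The inequality on a line

PROOF. `exists_roots ha hg` gives `m, x₁, x₂, y₁, y₂` with `Roots`. `(0, 1)` is the union of `(0,
P)`, `{P}`, `(P, 1)`. Substitute `t = x₁ h`, `t = x₂ h`
(`lintegral_image_eq_lintegral_abs_deriv_mul` on `Ioi m`, `roots_facts`): for every `ε` the
integral of `ofReal (|t - P| v t) * k (HH t + ε)` is `∫⁻ h in Ioi m, ofReal (Fl v P x₁ x₂ y₁ y₂ h)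
* k (h + ε)`. Translate: this is `∫⁻ h in Ioi (m + ε), ofReal (Fl .. (h - ε)) * k h ≤ ∫⁻ h in Ioi
m, ofReal (Fl .. h) * k h` by `Fl_mono`.
-/

set_option autoImplicit false
set_option linter.unusedSectionVars false

namespace Pool.Agent.KneserLine

open MeasureTheory Set Filter Topology Module
open scoped ENNReal
open Pool.Agent.Kneser Pool.Agent.KneserRank Pool.Agent.KneserCentre Pool.Agent.KneserCone

variable {D n : ℕ}

private theorem subst_LineLe {a e w : Fin D → ℝ} (ha : Pencil a) (hg : Generic a e w)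
    {v v' : ℝ → ℝ} (hv : Wt v v') {P : ℝ} (hP : P ∈ Ioo (0 : ℝ) 1)
    (hmin : ∀ t ∈ Ioo (0 : ℝ) 1, HH a e w P ≤ HH a e w t) {m : ℝ}
    {x₁ x₂ y₁ y₂ : ℝ → ℝ} (hr : Roots a e w m x₁ x₂ y₁ y₂) {g : ℝ → ℝ≥0∞} (hgm : Measurable g) :
    ∫⁻ t in Ioo (0 : ℝ) 1, ENNReal.ofReal (|t - P| * v t) * g (HH a e w t) =
      ∫⁻ h in Ioi m, ENNReal.ofReal (Fl v P x₁ x₂ y₁ y₂ h) * g h := by
  obtain ⟨-, hside, hi₁, hi₂, him₁, him₂⟩ := roots_facts ha hg hr hP hmin
  have hvc : ContinuousOn v (Ioo (0 : ℝ) 1) :=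
    fun t ht => (hv.deriv t ht).continuousAt.continuousWithinAt
  have hx₁ : ContinuousOn x₁ (Ioi m) := fun u hu =>
    (hr.deriv₁ u hu).continuousAt.continuousWithinAt
  have hsplit : Ioo (0 : ℝ) 1 =ᵐ[volume] (Ioo 0 P ∪ Ioo P 1 : Set ℝ) := by
    have h1 : Ioo (0 : ℝ) 1 = Ioo 0 P ∪ Ico P 1 := (Ioo_union_Ico_eq_Ioo hP.1 hP.2.le).symm
    rw [h1]
    exact (ae_eq_refl _).union Ioo_ae_eq_Ico.symm
  have hdis : Disjoint (Ioo 0 P) (Ioo P 1) := by
    rw [Set.disjoint_left]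
    intro t ht ht'
    exact lt_asymm ht.2 ht'.1
  rw [setLIntegral_congr hsplit, lintegral_union measurableSet_Ioo hdis, ← him₁, ← him₂,
    lintegral_image_eq_lintegral_abs_deriv_mul measurableSet_Ioi
      (fun u hu => (hr.deriv₁ u hu).hasDerivWithinAt) hi₁,
    lintegral_image_eq_lintegral_abs_deriv_mul measurableSet_Ioi
      (fun u hu => (hr.deriv₂ u hu).hasDerivWithinAt) hi₂]
  have e1 : ∫⁻ h in Ioi m, ENNReal.ofReal |y₁ h| *
      (ENNReal.ofReal (|x₁ h - P| * v (x₁ h)) * g (HH a e w (x₁ h))) =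
      ∫⁻ h in Ioi m, ENNReal.ofReal ((P - x₁ h) * v (x₁ h) * (-y₁ h)) * g h := by
    refine setLIntegral_congr_fun measurableSet_Ioi fun h hh => ?_
    obtain ⟨s1, s2, s3, s4⟩ := hside h hh
    rw [hr.root₁ h hh, ← mul_assoc, ← ENNReal.ofReal_mul (abs_nonneg _), abs_of_neg s3,
      abs_of_neg (sub_neg.2 s1)]
    congr 2
    ring
  have e2 : ∫⁻ h in Ioi m, ENNReal.ofReal |y₂ h| *
      (ENNReal.ofReal (|x₂ h - P| * v (x₂ h)) * g (HH a e w (x₂ h))) =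
      ∫⁻ h in Ioi m, ENNReal.ofReal ((x₂ h - P) * v (x₂ h) * y₂ h) * g h := by
    refine setLIntegral_congr_fun measurableSet_Ioi fun h hh => ?_
    obtain ⟨s1, s2, s3, s4⟩ := hside h hh
    rw [hr.root₂ h hh, ← mul_assoc, ← ENNReal.ofReal_mul (abs_nonneg _), abs_of_pos s4,
      abs_of_pos (sub_pos.2 s2)]
    congr 2
    ring
  rw [e1, e2, ← lintegral_add_left']
  · refine setLIntegral_congr_fun measurableSet_Ioi fun h hh => ?_
    obtain ⟨s1, s2, s3, s4⟩ := hside h hh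
    rw [← add_mul, ← ENNReal.ofReal_add]
    · congr 2
      unfold Fl
      ring
    · exact mul_nonneg (mul_nonneg (sub_pos.2 s1).le (hv.nonneg _ (hr.mem₁ h hh)))
        (neg_pos.2 s3).le
    · exact mul_nonneg (mul_nonneg (sub_pos.2 s2).le (hv.nonneg _ (hr.mem₂ h hh))) s4.le
  · refine AEMeasurable.mul ?_ hgm.aemeasurable
    refine AEMeasurable.ennreal_ofReal ?_
    refine ContinuousOn.aemeasurable ?_ measurableSet_Ioi
    exact ((continuousOn_const.sub hx₁).mul (hvc.comp hx₁ fun u hu => hr.mem₁ u hu)).mul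
      hr.cont₁.neg

theorem line_le_gen {a e w : Fin D → ℝ} (ha : Pencil a) (hg : Generic a e w) {v v' : ℝ → ℝ}
    (hv : Wt v v') (hc : ∀ x₁ ∈ Ioo (0 : ℝ) 1, ∀ x₂ ∈ Ioo (0 : ℝ) 1,
      ConvexOn ℝ (Ioo (0 : ℝ) 1) (fun t => v t * kk a e w x₁ x₂ t ^ (-2 : ℝ)))
    {P : ℝ} (hP : P ∈ Ioo (0 : ℝ) 1) (hmin : ∀ t ∈ Ioo (0 : ℝ) 1, HH a e w P ≤ HH a e w t)
    {ε : ℝ} (hε : 0 ≤ ε) {k : ℝ → ℝ≥0∞} (hk : Measurable k) :
    ∫⁻ t in Ioo (0 : ℝ) 1, ENNReal.ofReal (|t - P| * v t) * k (HH a e w t + ε) ≤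
      ∫⁻ t in Ioo (0 : ℝ) 1, ENNReal.ofReal (|t - P| * v t) * k (HH a e w t) := by
  obtain ⟨m, x₁, x₂, y₁, y₂, hr⟩ := exists_roots ha hg
  obtain ⟨-, hside, -, -, -, -⟩ := roots_facts ha hg hr hP hmin
  have hmono := Fl_mono ha hg hv hc hr (P := P) fun h hh =>
    ⟨(hside h hh).1.le, (hside h hh).2.1.le⟩
  have hk' : Measurable fun h => k (h + ε) := hk.comp (measurable_id.add_const ε)
  have h1 := subst_LineLe ha hg hv hP hmin hr hk'
  have h2 := subst_LineLe ha hg hv hP hmin hr hk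
  rw [h1, h2, ← lintegral_indicator measurableSet_Ioi, ← lintegral_indicator measurableSet_Ioi,
    ← lintegral_sub_right_eq_self _ ε]
  refine lintegral_mono fun h => ?_
  by_cases hh : m < h - ε
  · have hh' : m < h := by linarith
    rw [Set.indicator_of_mem (show h - ε ∈ Ioi m from hh),
      Set.indicator_of_mem (show h ∈ Ioi m from hh'), sub_add_cancel]
    exact mul_le_mul' (ENNReal.ofReal_le_ofReal
      (hmono (show h - ε ∈ Ioi m from hh) (show h ∈ Ioi m from hh') (by linarith))) le_rfl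
  · rw [Set.indicator_of_notMem (show h - ε ∉ Ioi m from hh)]
    exact zero_le

end Pool.Agent.KneserLine
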