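import Pool.Agent.KneserLine.Defs

/-!
# Monotonicity of the density

PROOF. Fix `h > m` and write `x₁, x₂, y₁, y₂` for the values at `h`, `D = x₂ - x₁ > 0`, `g t = kk
a e w x₁ x₂ t`, `g₁ = g x₁`, `g₂ = g x₂`, `k₁ = kkt .. x₁`, `k₂ = kkt .. x₂`. `kk_rel` at `t = x₂`
and `t = x₁` gives `y₂ D g₂ = 1`, `-y₁ D g₁ = 1`. So on `Ioi m`, `Fl = ((x₂ - P) v(x₂) / kk x₁ x₂
x₂ + (P - x₁) v(x₁) / kk x₁ x₂ x₁) / (x₂ - x₁)`. Differentiate this in `h` with `hasDerivAt_kk`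
(for `s = x₂` and `s = x₁`): the derivative of `kk x₁ x₂ x₂` is `k₂ y₂ + kkh (x₂)`. Taking
derivatives in `t` of `kk_rel` (it holds for all `t ∈ (0, 1)`; `kkh` is differentiable in `t`;
only the factor `(t - x₁)(x₂ - t)` matters, e.g. divide `1 - (-y₁ (x₂ - t) + y₂ (t - x₁)) kk t` by
`x₂ - t` and let `t → x₂`) one gets `D kkh (x₂) = (y₁ + y₂) g₂ + y₂ D k₂` and `D kkh (x₁) = -(y₁ +
y₂) g₁ + y₁ D k₁`; so `(kk x₁ x₂ x₂)' = (y₁ + y₂) g₂ / D + 2 y₂ k₂`, `(kk x₁ x₂ x₁)' = -(y₁ + y₂)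
g₁ / D + 2 y₁ k₁`. With `f t = v t * g t ^ (-2)` (`x₁, x₂` fixed), `f₁ = v(x₁)/g₁²`, `f₂ =
v(x₂)/g₂²`, `f'(x₂) = v'(x₂)/g₂² - 2 v(x₂) k₂/g₂³`, `f'(x₁) = v'(x₁)/g₁² - 2 v(x₁) k₁/g₁³`, one
obtains by `field_simp`, `ring` the identity `D² Fl' = (x₂ - P) (f'(x₂) - (f₂ - f₁)/D) + (P - x₁)
((f₂ - f₁)/D - f'(x₁))`, and both brackets are `≥ 0` by convexity of `f` (`ConvexOn` slope and
derivative lemmas, `hasDerivAt_kk`, `kk_pos`). Then `monotoneOn_of_deriv_nonneg` (see `Flin_mono`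
in `Pool/Agent/KneserCone/WMono.lean` for the pattern).
-/

set_option autoImplicit false
set_option linter.unusedSectionVars false

namespace Pool.Agent.KneserLine

open MeasureTheory Set Filter Topology Module
open scoped ENNReal
open Pool.Agent.Kneser Pool.Agent.KneserRank Pool.Agent.KneserCentre Pool.Agent.KneserCone

variable {D n : ℕ}

private theorem lineMono_kkh_diff {a e w : Fin D → ℝ} (ha : Pencil a) {x₁ x₂ y₁ y₂ t : ℝ}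
    (h₁ : x₁ ∈ Ioo (0 : ℝ) 1) (h₂ : x₂ ∈ Ioo (0 : ℝ) 1) (ht : t ∈ Ioo (0 : ℝ) 1) :
    DifferentiableAt ℝ (kkh a e w x₁ x₂ y₁ y₂) t := by
  have h : DifferentiableAt ℝ (fun t => kkh a e w x₁ x₂ y₁ y₂ t) t := by
    unfold kkh
    refine (DifferentiableAt.fun_sum fun k _ => ?_).neg
    have hne : 4 * ll a k x₁ * ll a k x₂ * ll a k t ≠ 0 :=
      mul_ne_zero (mul_ne_zero (mul_ne_zero (by norm_num) (ll_pos ha h₁ k).ne')
        (ll_pos ha h₂ k).ne') (ll_pos ha ht k).ne'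
    have hl : DifferentiableAt ℝ (fun t => 4 * ll a k x₁ * ll a k x₂ * ll a k t) t := by
      unfold ll
      fun_prop
    exact (DifferentiableAt.fun_div (differentiableAt_const _) hl hne).fun_mul
      (differentiableAt_const _)
  exact h

private theorem lineMono_kk_deriv {a e w : Fin D → ℝ} (ha : Pencil a) {x₁ x₂ t : ℝ}
    (h₁ : x₁ ∈ Ioo (0 : ℝ) 1) (h₂ : x₂ ∈ Ioo (0 : ℝ) 1) (ht : t ∈ Ioo (0 : ℝ) 1) :
    HasDerivAt (kk a e w x₁ x₂) (kkt a e w x₁ x₂ t) t := by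
  have h := hasDerivAt_kk (e := e) (w := w) ha (x₁ := fun _ => x₁) (x₂ := fun _ => x₂)
    (s := fun u => u) (h := t) h₁ h₂ ht (hasDerivAt_const t x₁) (hasDerivAt_const t x₂)
    (hasDerivAt_id t)
  have h0 : kkh a e w x₁ x₂ 0 0 t = 0 := by
    unfold kkh
    simp
  simpa [h0] using h

/-- The derivative in `t` of the relation `kk_rel`. -/
private theorem lineMono_rel {a e w : Fin D → ℝ} (ha : Pencil a) {x₁ x₂ y₁ y₂ s : ℝ}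
    (h₁ : x₁ ∈ Ioo (0 : ℝ) 1) (h₂ : x₂ ∈ Ioo (0 : ℝ) 1) (hs : s ∈ Ioo (0 : ℝ) 1)
    (hrel : ∀ t ∈ Ioo (0 : ℝ) 1, (-y₁ * (x₂ - t) + y₂ * (t - x₁)) * kk a e w x₁ x₂ t +
      (t - x₁) * (x₂ - t) * kkh a e w x₁ x₂ y₁ y₂ t = 1) :
    (y₁ + y₂) * kk a e w x₁ x₂ s + (-y₁ * (x₂ - s) + y₂ * (s - x₁)) * kkt a e w x₁ x₂ s +
      ((x₂ - s) - (s - x₁)) * kkh a e w x₁ x₂ y₁ y₂ s +
      (s - x₁) * (x₂ - s) * deriv (kkh a e w x₁ x₂ y₁ y₂) s = 0 := by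
  have dK := lineMono_kk_deriv (e := e) (w := w) ha h₁ h₂ hs
  have dH : HasDerivAt (kkh a e w x₁ x₂ y₁ y₂) (deriv (kkh a e w x₁ x₂ y₁ y₂) s) s :=
    (lineMono_kkh_diff ha h₁ h₂ hs).hasDerivAt
  have f1 : HasDerivAt (fun u : ℝ => u - x₁) 1 s := (hasDerivAt_id s).sub_const x₁
  have f2 : HasDerivAt (fun u : ℝ => x₂ - u) (-1) s := (hasDerivAt_id s).const_sub x₂
  have g := (((f2.const_mul (-y₁)).add (f1.const_mul y₂)).mul dK).add ((f1.mul f2).mul dH)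
  have hev : (fun _ : ℝ => (1 : ℝ)) =ᶠ[𝓝 s]
      ((fun u => (-y₁) * (x₂ - u)) + (fun u => y₂ * (u - x₁))) * (kk a e w x₁ x₂) +
        ((fun u => u - x₁) * (fun u => x₂ - u)) * (kkh a e w x₁ x₂ y₁ y₂) := by
    filter_upwards [isOpen_Ioo.mem_nhds hs] with u hu
    have := hrel u hu
    simp only [Pi.add_apply, Pi.mul_apply]
    exact this.symm
  have g0 := (g.congr_of_eventuallyEq hev).unique (hasDerivAt_const s (1 : ℝ))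
  simp only [Pi.add_apply, Pi.mul_apply] at g0
  linear_combination g0

/-- The algebra of the derivative. -/
private theorem lineMono_alg {d G₁ G₂ y₁ y₂ k₁ k₂ H₁ H₂ v₁ v₂ v₁' v₂' s₁ s₂ : ℝ}
    (hd : d ≠ 0) (hG₁ : G₁ ≠ 0) (hG₂ : G₂ ≠ 0) (e₁ : -y₁ * d * G₁ = 1) (e₂ : y₂ * d * G₂ = 1)
    (hH₂ : d * H₂ = (y₁ + y₂) * G₂ + y₂ * d * k₂)
    (hH₁ : d * H₁ = -(y₁ + y₂) * G₁ + y₁ * d * k₁) (hs : s₁ + s₂ = d) :
    d ^ 2 * (((y₂ * v₂ + s₂ * (v₂' * y₂)) * (d * G₂) -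
        s₂ * v₂ * ((y₂ - y₁) * G₂ + d * (k₂ * y₂ + H₂))) / (d * G₂) ^ 2 +
      ((-y₁ * v₁ + s₁ * (v₁' * y₁)) * (d * G₁) -
        s₁ * v₁ * ((y₂ - y₁) * G₁ + d * (k₁ * y₁ + H₁))) / (d * G₁) ^ 2) =
    s₂ * ((v₂' / G₂ ^ 2 - 2 * v₂ * k₂ / G₂ ^ 3) - (v₂ / G₂ ^ 2 - v₁ / G₁ ^ 2) / d) +
      s₁ * ((v₂ / G₂ ^ 2 - v₁ / G₁ ^ 2) / d - (v₁' / G₁ ^ 2 - 2 * v₁ * k₁ / G₁ ^ 3)) := by
  have hy₁ : y₁ = -(1 / (d * G₁)) := by field_simp; linarith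
  have hy₂ : y₂ = 1 / (d * G₂) := by field_simp; linarith
  have hH₂' : H₂ = ((y₁ + y₂) * G₂ + y₂ * d * k₂) / d := by field_simp; linarith
  have hH₁' : H₁ = (-(y₁ + y₂) * G₁ + y₁ * d * k₁) / d := by field_simp; linarith
  subst hs
  rw [hH₂', hH₁', hy₁, hy₂]
  field_simp
  ring

theorem Fl_mono {a e w : Fin D → ℝ} (ha : Pencil a) (hg : Generic a e w) {v v' : ℝ → ℝ}
    (hv : Wt v v') (hc : ∀ x₁ ∈ Ioo (0 : ℝ) 1, ∀ x₂ ∈ Ioo (0 : ℝ) 1,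
      ConvexOn ℝ (Ioo (0 : ℝ) 1) (fun t => v t * kk a e w x₁ x₂ t ^ (-2 : ℝ)))
    {m : ℝ} {x₁ x₂ y₁ y₂ : ℝ → ℝ} (hr : Roots a e w m x₁ x₂ y₁ y₂) {P : ℝ}
    (hP : ∀ h, m < h → x₁ h ≤ P ∧ P ≤ x₂ h) : MonotoneOn (Fl v P x₁ x₂ y₁ y₂) (Ioi m) := by
  have key : ∀ h, m < h → ∃ F' : ℝ, 0 ≤ F' ∧ HasDerivAt (Fl v P x₁ x₂ y₁ y₂) F' h := by
    intro h hh
    have q₁ := hr.mem₁ h hh
    have q₂ := hr.mem₂ h hh
    have d₁ := hr.deriv₁ h hh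
    have d₂ := hr.deriv₂ h hh
    have hlt := hr.lt h hh
    have hd : 0 < x₂ h - x₁ h := sub_pos.2 hlt
    have rel : ∀ u, m < u → -y₁ u * (x₂ u - x₁ u) * kk a e w (x₁ u) (x₂ u) (x₁ u) = 1 ∧
        y₂ u * (x₂ u - x₁ u) * kk a e w (x₁ u) (x₂ u) (x₂ u) = 1 := by
      intro u hu
      have r₁ := kk_rel (t := x₁ u) ha hr hu (hr.mem₁ u hu)
      have r₂ := kk_rel (t := x₂ u) ha hr hu (hr.mem₂ u hu)
      constructor
      · linear_combination r₁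
      · linear_combination r₂
    have gp : ∀ u, m < u → 0 < kk a e w (x₁ u) (x₂ u) (x₁ u) ∧
        0 < kk a e w (x₁ u) (x₂ u) (x₂ u) := fun u hu =>
      ⟨kk_pos ha hg (hr.mem₁ u hu) (hr.mem₂ u hu) (hr.mem₁ u hu),
        kk_pos ha hg (hr.mem₁ u hu) (hr.mem₂ u hu) (hr.mem₂ u hu)⟩
    have dA := hasDerivAt_kk (e := e) (w := w) ha q₁ q₂ q₂ d₁ d₂ d₂
    have dB := hasDerivAt_kk (e := e) (w := w) ha q₁ q₂ q₁ d₁ d₂ d₁
    have hrel : ∀ t ∈ Ioo (0 : ℝ) 1, (-y₁ h * (x₂ h - t) + y₂ h * (t - x₁ h)) *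
        kk a e w (x₁ h) (x₂ h) t +
        (t - x₁ h) * (x₂ h - t) * kkh a e w (x₁ h) (x₂ h) (y₁ h) (y₂ h) t = 1 :=
      fun t ht => kk_rel ha hr hh ht
    have l₂ := lineMono_rel ha q₁ q₂ q₂ hrel
    have l₁ := lineMono_rel ha q₁ q₂ q₁ hrel
    obtain ⟨e₁, e₂⟩ := rel h hh
    obtain ⟨p₁, p₂⟩ := gp h hh
    -- the function near `h`
    have hev : Fl v P x₁ x₂ y₁ y₂ =ᶠ[𝓝 h] fun u =>
        (x₂ u - P) * v (x₂ u) / ((x₂ u - x₁ u) * kk a e w (x₁ u) (x₂ u) (x₂ u)) +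
        (P - x₁ u) * v (x₁ u) / ((x₂ u - x₁ u) * kk a e w (x₁ u) (x₂ u) (x₁ u)) := by
      filter_upwards [Ioi_mem_nhds hh] with u hu
      obtain ⟨r₁, r₂⟩ := rel u hu
      obtain ⟨g₁, g₂⟩ := gp u hu
      have hdu : 0 < x₂ u - x₁ u := sub_pos.2 (hr.lt u hu)
      have z₂ : y₂ u = 1 / ((x₂ u - x₁ u) * kk a e w (x₁ u) (x₂ u) (x₂ u)) := by
        rw [eq_div_iff (mul_pos hdu g₂).ne']
        linear_combination r₂
      have z₁ : y₁ u = -(1 / ((x₂ u - x₁ u) * kk a e w (x₁ u) (x₂ u) (x₁ u))) := by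
        rw [← neg_eq_iff_eq_neg, eq_div_iff (mul_pos hdu g₁).ne']
        linear_combination r₁
      unfold Fl
      rw [z₁, z₂]
      ring
    have dv₂ : HasDerivAt (fun u => v (x₂ u)) (v' (x₂ h) * y₂ h) h :=
      (hv.deriv _ q₂).comp h d₂
    have dv₁ : HasDerivAt (fun u => v (x₁ u)) (v' (x₁ h) * y₁ h) h :=
      (hv.deriv _ q₁).comp h d₁
    have t₂ := (((d₂.sub_const P).fun_mul dv₂).fun_div ((d₂.fun_sub d₁).fun_mul dA)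
      (mul_pos hd p₂).ne')
    have t₁ := (((d₁.const_sub P).fun_mul dv₁).fun_div ((d₂.fun_sub d₁).fun_mul dB)
      (mul_pos hd p₁).ne')
    have dF := (t₂.fun_add t₁).congr_of_eventuallyEq hev
    refine ⟨_, ?_, dF⟩
    -- the sign
    have hcv := hc _ q₁ _ q₂
    have df : ∀ t ∈ Ioo (0 : ℝ) 1, HasDerivAt (fun t => v t * kk a e w (x₁ h) (x₂ h) t ^ (-2 : ℝ))
        (v' t / kk a e w (x₁ h) (x₂ h) t ^ 2 -
          2 * v t * kkt a e w (x₁ h) (x₂ h) t / kk a e w (x₁ h) (x₂ h) t ^ 3) t := by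
      intro t ht
      have hk := kk_pos ha hg q₁ q₂ ht
      have h1 := (hv.deriv t ht).fun_mul
        ((lineMono_kk_deriv (e := e) (w := w) ha q₁ q₂ ht).rpow_const (p := (-2 : ℝ))
          (Or.inl hk.ne'))
      refine h1.congr_deriv ?_
      have e3 : (-2 : ℝ) - 1 = -3 := by norm_num
      have e4 : kk a e w (x₁ h) (x₂ h) t ^ (-2 : ℝ) = (kk a e w (x₁ h) (x₂ h) t ^ 2)⁻¹ := by
        rw [Real.rpow_neg hk.le]
        norm_num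
      have e5 : kk a e w (x₁ h) (x₂ h) t ^ (-3 : ℝ) = (kk a e w (x₁ h) (x₂ h) t ^ 3)⁻¹ := by
        rw [Real.rpow_neg hk.le]
        norm_num
      rw [e3, e4, e5]
      ring
    have vf : ∀ t ∈ Ioo (0 : ℝ) 1, v t * kk a e w (x₁ h) (x₂ h) t ^ (-2 : ℝ) =
        v t / kk a e w (x₁ h) (x₂ h) t ^ 2 := by
      intro t ht
      have hk := kk_pos ha hg q₁ q₂ ht
      rw [Real.rpow_neg hk.le]
      norm_num
      ring
    have s1 := hcv.le_slope_of_hasDerivAt q₁ q₂ hlt (df _ q₁)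
    have s2 := hcv.slope_le_of_hasDerivAt q₁ q₂ hlt (df _ q₂)
    rw [slope_def_field, vf _ q₁, vf _ q₂] at s1 s2
    have hH₂ : (x₂ h - x₁ h) * kkh a e w (x₁ h) (x₂ h) (y₁ h) (y₂ h) (x₂ h) =
        (y₁ h + y₂ h) * kk a e w (x₁ h) (x₂ h) (x₂ h) +
          y₂ h * (x₂ h - x₁ h) * kkt a e w (x₁ h) (x₂ h) (x₂ h) := by
      linear_combination (-1 : ℝ) * l₂
    have hH₁ : (x₂ h - x₁ h) * kkh a e w (x₁ h) (x₂ h) (y₁ h) (y₂ h) (x₁ h) =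
        -(y₁ h + y₂ h) * kk a e w (x₁ h) (x₂ h) (x₁ h) +
          y₁ h * (x₂ h - x₁ h) * kkt a e w (x₁ h) (x₂ h) (x₁ h) := by
      linear_combination l₁
    have alg := lineMono_alg (v₁ := v (x₁ h)) (v₂ := v (x₂ h)) (v₁' := v' (x₁ h))
      (v₂' := v' (x₂ h)) (s₁ := P - x₁ h) (s₂ := x₂ h - P) hd.ne' p₁.ne' p₂.ne' e₁ e₂
      hH₂ hH₁ (by ring)
    obtain ⟨P₁, P₂⟩ := hP h hh
    have hsgn : 0 ≤ (x₂ h - P) * ((v' (x₂ h) / kk a e w (x₁ h) (x₂ h) (x₂ h) ^ 2 -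
          2 * v (x₂ h) * kkt a e w (x₁ h) (x₂ h) (x₂ h) /
            kk a e w (x₁ h) (x₂ h) (x₂ h) ^ 3) -
        (v (x₂ h) / kk a e w (x₁ h) (x₂ h) (x₂ h) ^ 2 -
          v (x₁ h) / kk a e w (x₁ h) (x₂ h) (x₁ h) ^ 2) / (x₂ h - x₁ h)) +
        (P - x₁ h) * ((v (x₂ h) / kk a e w (x₁ h) (x₂ h) (x₂ h) ^ 2 -
          v (x₁ h) / kk a e w (x₁ h) (x₂ h) (x₁ h) ^ 2) / (x₂ h - x₁ h) -
        (v' (x₁ h) / kk a e w (x₁ h) (x₂ h) (x₁ h) ^ 2 -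
          2 * v (x₁ h) * kkt a e w (x₁ h) (x₂ h) (x₁ h) /
            kk a e w (x₁ h) (x₂ h) (x₁ h) ^ 3)) :=
      add_nonneg (mul_nonneg (sub_nonneg.2 P₂) (sub_nonneg.2 s2))
        (mul_nonneg (sub_nonneg.2 P₁) (sub_nonneg.2 s1))
    rw [← alg] at hsgn
    exact nonneg_of_mul_nonneg_right hsgn (by positivity)
  refine monotoneOn_of_deriv_nonneg (convex_Ioi m) ?_ ?_ ?_
  · intro h hh
    obtain ⟨F', -, hF⟩ := key h hh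
    exact hF.continuousAt.continuousWithinAt
  · rw [interior_Ioi]
    intro h hh
    obtain ⟨F', -, hF⟩ := key h hh
    exact hF.differentiableAt.differentiableWithinAt
  · rw [interior_Ioi]
    intro h hh
    obtain ⟨F', h0, hF⟩ := key h hh
    rw [hF.deriv]
    exact h0

end Pool.Agent.KneserLine
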