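import Pool.Agent.KneserLine.Defs

/-!
# Configurations with an apex line

PROOF. Let `U` be the span of the vectors `u k = (1, z k, ‖p k‖² - c k, ‖q k‖² - c k)`, `k ∈ L`,
in `ℝ × (Fin D → ℝ) × ℝ × ℝ`. The linear map `(s, v, α, β) ↦ (s, s x₀ + P v, s y₀ + Q v, α, β)` is
injective (`‖P v‖² + ‖Q v‖² = ∑ v k ^ 2`) and maps `u k` to the given vectors, so `finrank U ≤
finrank E + 5 = D + 1` (see `Pool/Agent/KneserCone/Rnk.lean`, which contains all this). The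
projection `U → ℝ × (Fin D → ℝ)` is surjective by `hfull`, hence injective (equal dimensions):
there are linear functionals `F, G` on `ℝ × (Fin D → ℝ)` with `‖p k‖² - c k = F (1, z k)`, `‖q k‖²
- c k = G (1, z k)` for `k ∈ L`. Now `‖p k‖² = ‖x₀‖² + 2 ⟪x₀, P (z k)⟫ + ∑ a m (z k m)²`, so `c k
= h₁ - ∑ w₁ m z k m + ∑ a m (z k m)²` for suitable `h₁`, `w₁`, which is `Yf a z (1, (w₁, h₁)) k`;
and `c k = h₀ - ∑ w₀ m z k m + ∑ (1 - a m) (z k m)² = Yf a z (0, (w₀, h₀)) k`. Take `e = w₁ - w₀`,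
`β = h₁ - h₀`.
-/

set_option autoImplicit false
set_option linter.unusedSectionVars false

namespace Pool.Agent.KneserLine

open MeasureTheory Set Filter Topology Module
open scoped ENNReal
open Pool.Agent.Kneser Pool.Agent.KneserRank Pool.Agent.KneserCentre Pool.Agent.KneserCone

variable {D n : ℕ}

variable {E : Type*} [NormedAddCommGroup E] [InnerProductSpace ℝ E] [FiniteDimensional ℝ E]
  [MeasurableSpace E] [BorelSpace E]

/-- A function `c` with `‖p k‖² - c k` linear in `(1, z k)` is of the form required. -/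
private theorem rnkLine_coord (p : Fin n → E) (x₀ : E) {b : Fin D → ℝ}
    (P : (Fin D → ℝ) →ₗ[ℝ] E) (z : Fin n → Fin D → ℝ) (hp : ∀ i, p i = x₀ + P (z i))
    (hP : ∀ v, ‖P v‖ ^ 2 = ∑ k, b k * v k ^ 2) (c : Fin n → ℝ) (L : Finset (Fin n))
    (F : (ℝ × (Fin D → ℝ)) →ₗ[ℝ] ℝ) (hF : ∀ k ∈ L, F (1, z k) = ‖p k‖ ^ 2 - c k) :
    ∃ (w : Fin D → ℝ) (h : ℝ), ∀ l ∈ L,
      c l = h + ∑ m, (b m * z l m ^ 2 - w m * z l m) := by
  let ℓ : (Fin D → ℝ) →ₗ[ℝ] ℝ := F ∘ₗ (LinearMap.inr ℝ ℝ (Fin D → ℝ)) -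
    (2 : ℝ) • ((innerₛₗ ℝ x₀) ∘ₗ P)
  have hℓ : ∀ v, ℓ v = F (0, v) - 2 * inner ℝ x₀ (P v) := by
    intro v
    simp [ℓ]
  have hℓs : ∀ v, ℓ v = ∑ m, v m * ℓ (Pi.single m 1) := by
    intro v
    rw [LinearMap.pi_apply_eq_sum_univ ℓ v]
    refine Finset.sum_congr rfl fun m _ => ?_
    rw [smul_eq_mul]
    congr 2
    funext j
    by_cases h : m = j
    · subst h
      simp
    · rw [if_neg h, Pi.single_eq_of_ne (Ne.symm h)]
  refine ⟨fun m => ℓ (Pi.single m 1), ‖x₀‖ ^ 2 - F (1, 0), fun l hl => ?_⟩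
  have h1 := hF l hl
  have h2 : F (1, z l) = F (1, 0) + F (0, z l) := by
    rw [← map_add]
    congr 1
    simp
  have h3 : ‖p l‖ ^ 2 = ‖x₀‖ ^ 2 + 2 * inner ℝ x₀ (P (z l)) + ∑ m, b m * z l m ^ 2 := by
    rw [hp, norm_add_sq_real, hP]
  rw [Finset.sum_sub_distrib]
  have h4 : ∑ m, ℓ (Pi.single m 1) * z l m = ℓ (z l) := by
    rw [hℓs (z l)]
    exact Finset.sum_congr rfl fun m _ => mul_comm _ _
  rw [h4, hℓ]
  linarith

theorem exists_line (p q : Fin n → E) (x₀ y₀ : E) {a : Fin D → ℝ} (hD : D = finrank ℝ E + 4)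
    (P Q : (Fin D → ℝ) →ₗ[ℝ] E) (z : Fin n → Fin D → ℝ) (hp : ∀ i, p i = x₀ + P (z i))
    (hq : ∀ i, q i = y₀ + Q (z i)) (hP : ∀ v, ‖P v‖ ^ 2 = ∑ k, a k * v k ^ 2)
    (hQ : ∀ v, ‖Q v‖ ^ 2 = ∑ k, (1 - a k) * v k ^ 2) (c : Fin n → ℝ) (L : Finset (Fin n))
    (hfull : Submodule.span ℝ ((fun k : Fin n => ((1 : ℝ), z k)) '' (L : Set (Fin n))) = ⊤)
    (hL : finrank ℝ (Submodule.span ℝ ((fun k : Fin n =>
      ((1 : ℝ), p k, q k, ‖p k‖ ^ 2 - c k, ‖q k‖ ^ 2 - c k)) '' (L : Set (Fin n)))) ≤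
      finrank ℝ E + 5) :
    ∃ (w₀ e : Fin D → ℝ) (h₀ β : ℝ), (∀ l ∈ L, c l = Yf a z (0, (w₀, h₀)) l) ∧
      ∀ l ∈ L, c l = Yf a z (1, (w₀ + e, h₀ + β)) l := by
  classical
  -- the vectors `u k` and the linear map
  let u : Fin n → ℝ × (Fin D → ℝ) × ℝ × ℝ := fun k => (1, z k, ‖p k‖ ^ 2 - c k, ‖q k‖ ^ 2 - c k)
  let Φ : (ℝ × (Fin D → ℝ) × ℝ × ℝ) →ₗ[ℝ] (ℝ × E × E × ℝ × ℝ) :=
    { toFun := fun x => (x.1, x.1 • x₀ + P x.2.1, x.1 • y₀ + Q x.2.1, x.2.2.1, x.2.2.2)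
      map_add' := by
        intro x y
        refine Prod.ext rfl (Prod.ext ?_ (Prod.ext ?_ rfl))
        · simp only [Prod.fst_add, Prod.snd_add, map_add, add_smul]
          abel
        · simp only [Prod.fst_add, Prod.snd_add, map_add, add_smul]
          abel
      map_smul' := by
        intro r x
        refine Prod.ext rfl (Prod.ext ?_ (Prod.ext ?_ rfl))
        · simp only [Prod.smul_fst, Prod.smul_snd, map_smul, smul_add, smul_smul, smul_eq_mul,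
            RingHom.id_apply]
        · simp only [Prod.smul_fst, Prod.smul_snd, map_smul, smul_add, smul_smul, smul_eq_mul,
            RingHom.id_apply] }
  have hΦ : Function.Injective Φ := by
    rw [← LinearMap.ker_eq_bot, LinearMap.ker_eq_bot']
    rintro ⟨s, v, α, β⟩ h
    simp only [Φ, LinearMap.coe_mk, AddHom.coe_mk, Prod.mk_eq_zero] at h
    obtain ⟨h1, h2, h3, h4, h5⟩ := h
    rw [h1, zero_smul, zero_add] at h2 h3
    have e1 := hP v
    have e2 := hQ v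
    rw [h2] at e1
    rw [h3] at e2
    have e3 : ∑ k, v k ^ 2 = 0 := by
      have : ∑ k, v k ^ 2 = ∑ k, a k * v k ^ 2 + ∑ k, (1 - a k) * v k ^ 2 := by
        rw [← Finset.sum_add_distrib]
        exact Finset.sum_congr rfl fun k _ => by ring
      rw [this, ← e1, ← e2]
      simp
    have e4 : v = 0 := by
      funext k
      have := (Finset.sum_eq_zero_iff_of_nonneg (fun k _ => sq_nonneg (v k))).1 e3 k
        (Finset.mem_univ k)
      simpa using this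
    rw [h1, e4, h4, h5]
    rfl
  have hΦu : ∀ k, Φ (u k) = ((1 : ℝ), p k, q k, ‖p k‖ ^ 2 - c k, ‖q k‖ ^ 2 - c k) := by
    intro k
    simp only [Φ, u, LinearMap.coe_mk, AddHom.coe_mk, one_smul, ← hp, ← hq]
  have hspan : Submodule.span ℝ ((fun k : Fin n =>
      ((1 : ℝ), p k, q k, ‖p k‖ ^ 2 - c k, ‖q k‖ ^ 2 - c k)) '' (L : Set (Fin n))) =
      (Submodule.span ℝ (u '' (L : Set (Fin n)))).map Φ := by
    rw [Submodule.map_span, Set.image_image]
    congr 1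
    exact Set.image_congr fun k _ => (hΦu k).symm
  set U := Submodule.span ℝ (u '' (L : Set (Fin n))) with hU
  have hfrU : finrank ℝ U ≤ D + 1 := by
    rw [hspan, ← (Submodule.equivMapOfInjective Φ hΦ _).finrank_eq] at hL
    omega
  -- the projection
  let π : (ℝ × (Fin D → ℝ) × ℝ × ℝ) →ₗ[ℝ] (ℝ × (Fin D → ℝ)) :=
    { toFun := fun x => (x.1, x.2.1)
      map_add' := fun x y => rfl
      map_smul' := fun r x => rfl }
  have hsurj : Function.Surjective (π ∘ₗ U.subtype) := by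
    rw [← LinearMap.range_eq_top, LinearMap.range_comp, Submodule.range_subtype, hU,
      Submodule.map_span, Set.image_image, ← hfull]
    rfl
  have hT : finrank ℝ (ℝ × (Fin D → ℝ)) = D + 1 := by
    simp only [finrank_prod, finrank_self, finrank_fin_fun]
    omega
  have hfr : finrank ℝ U = finrank ℝ (ℝ × (Fin D → ℝ)) := by
    refine le_antisymm (by omega) ?_
    have h1 := LinearMap.finrank_range_le (π ∘ₗ U.subtype)
    rw [LinearMap.range_eq_top.mpr hsurj, finrank_top] at h1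
    exact h1
  have hinj : Function.Injective (π ∘ₗ U.subtype) :=
    (LinearMap.injective_iff_surjective_of_finrank_eq_finrank hfr).mpr hsurj
  let e := LinearEquiv.ofBijective (π ∘ₗ U.subtype) ⟨hinj, hsurj⟩
  have huU : ∀ k ∈ L, u k ∈ U := fun k hk => Submodule.subset_span ⟨k, hk, rfl⟩
  have he : ∀ k (hk : k ∈ L), e.symm (1, z k) = ⟨u k, huU k hk⟩ := by
    intro k hk
    rw [LinearEquiv.symm_apply_eq]
    rfl
  let θ₁ : (ℝ × (Fin D → ℝ) × ℝ × ℝ) →ₗ[ℝ] ℝ :=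
    { toFun := fun x => x.2.2.1
      map_add' := fun x y => rfl
      map_smul' := fun r x => rfl }
  let θ₂ : (ℝ × (Fin D → ℝ) × ℝ × ℝ) →ₗ[ℝ] ℝ :=
    { toFun := fun x => x.2.2.2
      map_add' := fun x y => rfl
      map_smul' := fun r x => rfl }
  obtain ⟨w₁, h₁, H₁⟩ := rnkLine_coord p x₀ P z hp hP c L
    (θ₁ ∘ₗ U.subtype ∘ₗ (e.symm : (ℝ × (Fin D → ℝ)) →ₗ[ℝ] U)) (fun k hk => by
      show θ₁ (U.subtype (e.symm (1, z k))) = _
      rw [he k hk]
      rfl)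
  obtain ⟨w₀, h₀, H₀⟩ := rnkLine_coord q y₀ Q z hq hQ c L
    (θ₂ ∘ₗ U.subtype ∘ₗ (e.symm : (ℝ × (Fin D → ℝ)) →ₗ[ℝ] U)) (fun k hk => by
      show θ₂ (U.subtype (e.symm (1, z k))) = _
      rw [he k hk]
      rfl)
  refine ⟨w₀, w₁ - w₀, h₀, h₁ - h₀, fun l hl => ?_, fun l hl => ?_⟩
  · rw [H₀ l hl]
    simp only [Yf, LL, zet]
    rw [zero_mul, add_zero]
  · rw [H₁ l hl, add_sub_cancel, add_sub_cancel]
    simp only [Yf, LL, zet]
    rw [one_mul, add_assoc, ← Finset.sum_add_distrib]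
    congr 1
    exact Finset.sum_congr rfl fun m _ => by ring

end Pool.Agent.KneserLine
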