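import Pool.Agent.KneserLine.RnkLow
import Pool.Agent.KneserLine.RnkLine

/-!
# The trichotomy

PROOF. Let `W` be the span of the vectors `(p i - p i₀, q i - q i₀)` in `WithLp 2 (E × E)`. Since
`i₀ ∈ L` and the vectors off `L` are `0`, it is the span over `L`, and `finrank W + 1` is the
dimension of the span of the vectors `(1, p k, q k)`, `k ∈ L` (see `finrank_span_le` in
`Pool/Agent/KneserCone/Final.lean`), which is `≤ finrank E + 5` (projection of the given span). So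
`finrank W ≤ finrank E + 4`. If `finrank W ≤ finrank E + 2`: first case by `pos_scale_of_dim`. If
`finrank W = finrank E + 3`: `exists_coord2 p q i₀` (`Pool/Agent/KneserCone/Coord2.lean`) with `D
= finrank E + 3` gives `a`, `P`, `Q`, `z`; the card conditions give three zeros and three ones, so
`Pencil a`; the squared distances as in `weighted_local` (`KneserCone/Final.lean`);
`rank_dichotomy` (`KneserCone/Rnk.lean`) gives the second case or the rank of `(1, p k, q k, ‖p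
k‖² - ‖q k‖²)` over `L`, which is the rank over all `k` as the vectors off `L` are equal to the
one of `i₀`, is `≤ finrank E + 4`: first case by `pos_scale_of_rank`. If `finrank W = finrank E +
4`: `exists_coord2` with `D = finrank E + 3 + 1` gives `Pencil4 a`; `hfull` of `exists_line`: the
map `(s, v) ↦ (s, P v, Q v)` is injective and maps `(1, z k)` to `(1, p k - p i₀, q k - q i₀)`; `z
i₀ = 0` because `P (z i₀) = 0`, `Q (z i₀) = 0`; so the span of the `(1, z k)`, `k ∈ L`, has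
dimension `1 + finrank W = D + 1`. Then `exists_line` gives the third case.
-/

set_option autoImplicit false
set_option linter.unusedSectionVars false

namespace Pool.Agent.KneserLine

open MeasureTheory Set Filter Topology Module
open scoped ENNReal
open Pool.Agent.Kneser Pool.Agent.KneserRank Pool.Agent.KneserCentre Pool.Agent.KneserCone

variable {D n : ℕ}

variable {E : Type*} [NormedAddCommGroup E] [InnerProductSpace ℝ E] [FiniteDimensional ℝ E]
  [MeasurableSpace E] [BorelSpace E]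

private theorem finrank_lt_rnk3 (p q : Fin n → E) (i₀ : Fin n) :
    finrank ℝ (Submodule.span ℝ (Set.range fun i : Fin n =>
        (WithLp.toLp 2 (p i - p i₀, q i - q i₀) : WithLp 2 (E × E)))) <
      finrank ℝ (Submodule.span ℝ (Set.range fun i : Fin n => ((1 : ℝ), p i, q i))) := by
  set S' := Submodule.span ℝ (Set.range fun i : Fin n => ((1 : ℝ), p i, q i)) with hS'
  set W := Submodule.span ℝ (Set.range fun i : Fin n =>
        (WithLp.toLp 2 (p i - p i₀, q i - q i₀) : WithLp 2 (E × E))) with hW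
  let ψ : WithLp 2 (E × E) →ₗ[ℝ] (ℝ × E × E) :=
    (LinearMap.inr ℝ ℝ (E × E)).comp (WithLp.linearEquiv 2 ℝ (E × E)).toLinearMap
  have hψ : ∀ u v : E, ψ (WithLp.toLp 2 (u, v)) = ((0 : ℝ), u, v) := fun u v => rfl
  have hψi : Function.Injective ψ := by
    intro x y hxy
    have h1 := LinearMap.inr_injective (R := ℝ) (M := ℝ) (M₂ := E × E) hxy
    exact (WithLp.linearEquiv 2 ℝ (E × E)).injective h1
  have hWS : W.map ψ < S' := by
    refine lt_of_le_of_ne ?_ ?_
    · rw [hW, Submodule.map_span, Submodule.span_le]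
      rintro _ ⟨_, ⟨i, rfl⟩, rfl⟩
      have e1 : ψ (WithLp.toLp 2 (p i - p i₀, q i - q i₀)) =
          ((1 : ℝ), p i, q i) - ((1 : ℝ), p i₀, q i₀) := by
        rw [hψ]; simp
      change ψ (WithLp.toLp 2 (p i - p i₀, q i - q i₀)) ∈ S'
      rw [e1]
      exact S'.sub_mem (Submodule.subset_span ⟨i, rfl⟩) (Submodule.subset_span ⟨i₀, rfl⟩)
    · intro heq
      have h1 : ((1 : ℝ), p i₀, q i₀) ∈ S' := Submodule.subset_span ⟨i₀, rfl⟩
      rw [← heq] at h1
      obtain ⟨x, _, hx⟩ := h1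
      have h2 : (ψ x).1 = 0 := rfl
      rw [hx] at h2
      exact one_ne_zero h2
  have h1 := Submodule.finrank_lt_finrank_of_lt hWS
  rwa [← LinearEquiv.finrank_eq (Submodule.equivMapOfInjective ψ hψi W)] at h1

/-- If `f k = f i₀` off `L` and `i₀` is in `L`, the image of `L` is the range. -/
private theorem image_eq_range_rnk3 {α : Type*} (f : Fin n → α) (L : Finset (Fin n)) {i₀ : Fin n}
    (hi₀ : i₀ ∈ L) (h : ∀ k, k ∉ L → f k = f i₀) : f '' (L : Set (Fin n)) = Set.range f := by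
  ext x
  constructor
  · rintro ⟨k, _, rfl⟩
    exact ⟨k, rfl⟩
  · rintro ⟨k, rfl⟩
    by_cases hk : k ∈ L
    · exact ⟨k, hk, rfl⟩
    · exact ⟨i₀, hi₀, (h k hk).symm⟩

theorem trichotomy (p q : Fin n → E) (c : Fin n → ℝ) (L : Finset (Fin n)) {i₀ : Fin n}
    (hi₀ : i₀ ∈ L) (hoff : ∀ k, k ∉ L → p k = p i₀ ∧ q k = q i₀)
    (hL : finrank ℝ (Submodule.span ℝ ((fun k : Fin n =>
      ((1 : ℝ), p k, q k, ‖p k‖ ^ 2 - c k, ‖q k‖ ^ 2 - c k)) '' (L : Set (Fin n)))) ≤
      finrank ℝ E + 5) :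
    (∀ ρ : ℝ, 0 < ρ → Pos (finrank ℝ E) (fun i j => ‖p i - p j‖ ^ 2 / ρ)
      (fun i j => ‖q i - q j‖ ^ 2 / ρ)) ∨
    (∃ (a : Fin (finrank ℝ E + 3) → ℝ) (z : Fin n → Fin (finrank ℝ E + 3) → ℝ)
      (O : XS (finrank ℝ E + 3)), Pencil a ∧
      (∀ i j, ‖p i - p j‖ ^ 2 = ∑ k, a k * (z i k - z j k) ^ 2) ∧
      (∀ i j, ‖q i - q j‖ ^ 2 = ∑ k, (1 - a k) * (z i k - z j k) ^ 2) ∧
      ∀ l ∈ L, c l = Yf a z O l) ∨
    ∃ (a : Fin (finrank ℝ E + 3 + 1) → ℝ) (z : Fin n → Fin (finrank ℝ E + 3 + 1) → ℝ)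
      (w₀ e : Fin (finrank ℝ E + 3 + 1) → ℝ) (h₀ β : ℝ), Pencil4 a ∧
      (∀ i j, ‖p i - p j‖ ^ 2 = ∑ k, a k * (z i k - z j k) ^ 2) ∧
      (∀ i j, ‖q i - q j‖ ^ 2 = ∑ k, (1 - a k) * (z i k - z j k) ^ 2) ∧
      (∀ l ∈ L, c l = Yf a z (0, (w₀, h₀)) l) ∧
      ∀ l ∈ L, c l = Yf a z (1, (w₀ + e, h₀ + β)) l := by
  classical
  set d := finrank ℝ E with hd
  have h3 : finrank ℝ (Submodule.span ℝ (Set.range fun i : Fin n => ((1 : ℝ), p i, q i))) ≤
      d + 5 := by
    rw [← image_eq_range_rnk3 (fun i : Fin n => ((1 : ℝ), p i, q i)) L hi₀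
      (fun k hk => by simp only [(hoff k hk).1, (hoff k hk).2])]
    refine le_trans ?_ hL
    let π : (ℝ × E × E × ℝ × ℝ) →ₗ[ℝ] (ℝ × E × E) :=
      { toFun := fun x => (x.1, x.2.1, x.2.2.1)
        map_add' := fun x y => rfl
        map_smul' := fun r x => rfl }
    have e : Submodule.span ℝ ((fun i : Fin n => ((1 : ℝ), p i, q i)) '' (L : Set (Fin n))) =
        (Submodule.span ℝ ((fun k : Fin n =>
          ((1 : ℝ), p k, q k, ‖p k‖ ^ 2 - c k, ‖q k‖ ^ 2 - c k)) '' (L : Set (Fin n)))).map π := by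
      rw [Submodule.map_span, Set.image_image]
      rfl
    rw [e]
    exact Submodule.finrank_map_le _ _
  have hW := (finrank_lt_rnk3 p q i₀).trans_le h3
  have hoffz : ∀ {D : ℕ} {a : Fin D → ℝ} {P Q : (Fin D → ℝ) →ₗ[ℝ] E} {z : Fin n → Fin D → ℝ},
      (∀ i, p i = p i₀ + P (z i)) → (∀ i, q i = q i₀ + Q (z i)) →
      (∀ v, ‖P v‖ ^ 2 = ∑ k, a k * v k ^ 2) → (∀ v, ‖Q v‖ ^ 2 = ∑ k, (1 - a k) * v k ^ 2) →
      ∀ k, p k = p i₀ → q k = q i₀ → z k = 0 := by
    intro D a P Q z hpz hqz hP hQ k hk1 hk2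
    have e1 : P (z k) = 0 := by
      have := hpz k
      rw [hk1] at this
      exact left_eq_add.mp this
    have e2 : Q (z k) = 0 := by
      have := hqz k
      rw [hk2] at this
      exact left_eq_add.mp this
    have f1 := hP (z k)
    have f2 := hQ (z k)
    rw [e1] at f1
    rw [e2] at f2
    have e3 : ∑ m, z k m ^ 2 = 0 := by
      have : ∑ m, z k m ^ 2 = ∑ m, a m * z k m ^ 2 + ∑ m, (1 - a m) * z k m ^ 2 := by
        rw [← Finset.sum_add_distrib]
        exact Finset.sum_congr rfl fun m _ => by ring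
      rw [this, ← f1, ← f2]
      simp
    funext m
    have := (Finset.sum_eq_zero_iff_of_nonneg (fun m _ => sq_nonneg (z k m))).1 e3 m
      (Finset.mem_univ m)
    simpa using this
  have hdp : ∀ {D : ℕ} {a : Fin D → ℝ} {P : (Fin D → ℝ) →ₗ[ℝ] E} {z : Fin n → Fin D → ℝ}
      {r : Fin n → E}, (∀ i, r i = r i₀ + P (z i)) → (∀ v, ‖P v‖ ^ 2 = ∑ k, a k * v k ^ 2) →
      ∀ i j, ‖r i - r j‖ ^ 2 = ∑ k, a k * (z i k - z j k) ^ 2 := by
    intro D a P z r hr hP i j
    have e1 : r i - r j = P (z i - z j) := by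
      rw [hr i, hr j, map_sub]; abel
    rw [e1, hP]
    rfl
  by_cases h2 : finrank ℝ (Submodule.span ℝ (Set.range fun i : Fin n =>
        (WithLp.toLp 2 (p i - p i₀, q i - q i₀) : WithLp 2 (E × E)))) ≤ d + 2
  · exact Or.inl fun ρ hρ => pos_scale_of_dim p q i₀ h2 hρ
  by_cases h4 : finrank ℝ (Submodule.span ℝ (Set.range fun i : Fin n =>
        (WithLp.toLp 2 (p i - p i₀, q i - q i₀) : WithLp 2 (E × E)))) = d + 3
  · obtain ⟨a, P, Q, z, ha0, ha1, hz, ho, hpz, hqz, hP, hQ⟩ := exists_coord2 p q i₀ h4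
    have ha : Pencil a := ⟨ha0, ha1, by omega, by omega⟩
    rcases rank_dichotomy p q (p i₀) (q i₀) rfl P Q z hpz hqz hP hQ c L hL with h | ⟨O, hO⟩
    · left
      intro ρ hρ
      refine pos_scale_of_rank p q ?_ hρ
      rw [← image_eq_range_rnk3 (fun i : Fin n => ((1 : ℝ), p i, q i, ‖p i‖ ^ 2 - ‖q i‖ ^ 2)) L
        hi₀ (fun k hk => by simp only [(hoff k hk).1, (hoff k hk).2])]
      exact h
    · exact Or.inr (Or.inl ⟨a, z, O, ha, hdp hpz hP, hdp hqz hQ, hO⟩)
  have h5 : finrank ℝ (Submodule.span ℝ (Set.range fun i : Fin n =>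
        (WithLp.toLp 2 (p i - p i₀, q i - q i₀) : WithLp 2 (E × E)))) = d + 3 + 1 := by omega
  obtain ⟨a, P, Q, z, ha0, ha1, hz, ho, hpz, hqz, hP, hQ⟩ := exists_coord2 p q i₀ h5
  have ha : Pencil4 a := ⟨ha0, ha1, by omega, by omega⟩
  have hz0 : z i₀ = 0 := hoffz hpz hqz hP hQ i₀ rfl rfl
  have hzk : ∀ k, k ∉ L → z k = 0 := fun k hk =>
    hoffz hpz hqz hP hQ k (hoff k hk).1 (hoff k hk).2
  have hspanz : Submodule.span ℝ (Set.range z) = ⊤ := by
    let Φ : (Fin (d + 3 + 1) → ℝ) →ₗ[ℝ] WithLp 2 (E × E) :=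
      (WithLp.linearEquiv 2 ℝ (E × E)).symm.toLinearMap.comp (P.prod Q)
    have e : Submodule.span ℝ (Set.range fun i : Fin n =>
        (WithLp.toLp 2 (p i - p i₀, q i - q i₀) : WithLp 2 (E × E))) =
        (Submodule.span ℝ (Set.range z)).map Φ := by
      rw [Submodule.map_span, ← Set.range_comp]
      congr 2
      funext i
      have e1 : p i - p i₀ = P (z i) := by rw [hpz i]; abel
      have e2 : q i - q i₀ = Q (z i) := by rw [hqz i]; abel
      rw [e1, e2]
      rfl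
    have e3 := Submodule.finrank_map_le Φ (Submodule.span ℝ (Set.range z))
    rw [← e, h5] at e3
    refine Submodule.eq_top_of_finrank_eq (le_antisymm (Submodule.finrank_le _) ?_)
    rw [finrank_fin_fun]
    exact e3
  have hfull : Submodule.span ℝ ((fun k : Fin n => ((1 : ℝ), z k)) '' (L : Set (Fin n))) = ⊤ := by
    set S := Submodule.span ℝ ((fun k : Fin n => ((1 : ℝ), z k)) '' (L : Set (Fin n))) with hS
    have e1 : ((1 : ℝ), (0 : Fin (d + 3 + 1) → ℝ)) ∈ S := by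
      rw [← hz0]
      exact Submodule.subset_span ⟨i₀, hi₀, rfl⟩
    have e2 : Submodule.span ℝ (Set.range z) ≤
        S.comap (LinearMap.inr ℝ ℝ (Fin (d + 3 + 1) → ℝ)) := by
      rw [Submodule.span_le]
      rintro _ ⟨k, rfl⟩
      show ((0 : ℝ), z k) ∈ S
      by_cases hk : k ∈ L
      · have e3 : ((1 : ℝ), z k) ∈ S := Submodule.subset_span ⟨k, hk, rfl⟩
        have e4 := S.sub_mem e3 e1
        simpa using e4
      · rw [hzk k hk]
        exact S.zero_mem
    rw [hspanz] at e2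
    rw [eq_top_iff]
    rintro ⟨s, v⟩ -
    have e3 : ((0 : ℝ), v) ∈ S := e2 (Submodule.mem_top (x := v))
    have e4 := S.add_mem (S.smul_mem s e1) e3
    simpa using e4
  obtain ⟨w₀, e, h₀, β, hw, hw'⟩ :=
    exists_line p q (p i₀) (q i₀) rfl P Q z hpz hqz hP hQ c L hfull hL
  exact Or.inr (Or.inr ⟨a, z, w₀, e, h₀, β, ha, hdp hpz hP, hdp hqz hQ, hw, hw'⟩)

end Pool.Agent.KneserLine
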