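import Pool.Agent.KneserLine.KComp
import Pool.Agent.KneserLine.KBound
import Pool.Agent.KneserLine.KLow
import Pool.Agent.KneserLine.KErr
import Pool.Agent.KneserLine.KGI
import Pool.Agent.KneserLine.HDisj
import Pool.Agent.KneserLine.LineAll
import Pool.Agent.KneserLine.Rnk3

/-!
# The lower bound for one pair
-/

set_option autoImplicit false
set_option linter.unusedSectionVars false

namespace Pool.Agent.KneserLine

open MeasureTheory Set Filter Topology Module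
open scoped ENNReal
open Pool.Agent.Kneser Pool.Agent.KneserRank Pool.Agent.KneserCentre Pool.Agent.KneserCone

variable {D n : ℕ}

variable {E : Type*} [NormedAddCommGroup E] [InnerProductSpace ℝ E] [FiniteDimensional ℝ E]
  [MeasurableSpace E] [BorelSpace E]

/-- The truncated iterated difference of the universal pair integral. -/
noncomputable def TT {N : ℕ} (ι₁ ι₂ : E →ₗ[ℝ] EuclideanSpace ℝ (Fin N)) (p q : Fin n → E)
    (φ : ℕ → ℝ) (i j : Fin n) (c : Fin n → ℝ) (m : ℕ) (ε r : ℝ) : ℝ :=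
  if r ≤ 1 then
    (Dop ε)^[m] (GK (muH N) (fun _ => (1 : ℝ)) (yH ι₁ ι₂ p q) φ Finset.univ i j c r) 0
  else 0

theorem Jop_iter_pred (ε : ℝ) {d : ℕ} (hd : 1 ≤ d) (f : ℝ → ℝ) (v : ℝ) :
    (Jop ε)^[d] f v = (Jop ε)^[d - 1] (Jop ε f) v := by
  obtain ⟨k, rfl⟩ : ∃ k, d = k + 1 := ⟨d - 1, by omega⟩
  rw [Function.iterate_succ_apply]
  rfl

theorem Dop_iter_zero (ε : ℝ) (m : ℕ) (v : ℝ) : (Dop ε)^[m] (fun _ => (0 : ℝ)) v = 0 := by
  have h := Dop_iter_const_mul ε 0 (fun _ => (0 : ℝ)) m v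
  simpa using h

theorem finrank_pos_real [Nontrivial E] : 1 ≤ finrank ℝ E := finrank_pos

/-- The conclusion for one pair. -/
def PairOK (D : ℕ) (T : ℝ → ℝ) : Prop :=
  Measurable T ∧ (∃ C : ℝ, ∀ r : ℝ, 0 < r → |T r| ≤ C * (1 + r) ^ (((D : ℝ) - 3) / 2)) ∧
    ∃ e : ℕ → ℝ, Tendsto e atTop (𝓝 0) ∧ ∀ k : ℕ,
      e k ≤ ((k : ℝ) + 1) * ∫ r in Ioi (0 : ℝ), wr D ((k : ℝ) + 1) r * T r

theorem one_le_pow_rate (hD : 3 ≤ D) {r : ℝ} (hr : 0 < r) :
    (1 : ℝ) ≤ (1 + r) ^ (((D : ℝ) - 3) / 2) := by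
  refine Real.one_le_rpow (by linarith) ?_
  have : (3 : ℝ) ≤ D := by exact_mod_cast hD
  linarith

/-- A comparison function gives the conclusion. -/
theorem pairOK_of (hD : 3 ≤ D) {T B : ℝ → ℝ} (hT : Measurable T) (hB : Measurable B)
    {C₁ C₂ : ℝ} (hTb : ∀ r : ℝ, 0 < r → |T r| ≤ C₁ * (1 + r) ^ (((D : ℝ) - 3) / 2))
    (hBb : ∀ r : ℝ, 0 < r → |B r| ≤ C₂ * (1 + r) ^ (((D : ℝ) - 3) / 2))
    (hlim : Tendsto (fun r => T r - B r) (𝓝[>] 0) (𝓝 0))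
    (hpos : ∀ Λ : ℝ, 1 ≤ Λ → 0 ≤ ∫ r in Ioi (0 : ℝ), wr D Λ r * B r) : PairOK D T := by
  refine ⟨hT, ⟨C₁, hTb⟩, ?_⟩
  have hEm : AEStronglyMeasurable (fun r => T r - B r) (volume.restrict (Ioi (0 : ℝ))) :=
    (hT.sub hB).aestronglyMeasurable
  have hEb : ∀ r : ℝ, 0 < r → |T r - B r| ≤ (C₁ + C₂) * (1 + r) ^ (((D : ℝ) - 3) / 2) := by
    intro r hr
    have h1 := abs_sub (T r) (B r)
    have h2 := hTb r hr
    have h3 := hBb r hr
    linarith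
  refine ⟨fun k => ((k : ℝ) + 1) * ∫ r in Ioi (0 : ℝ), wr D ((k : ℝ) + 1) r * (T r - B r),
    ?_, ?_⟩
  · have := tendsto_abel hD hEm hEb hlim
    rwa [zero_mul] at this
  · intro k
    have hk1 : (1 : ℝ) ≤ (k : ℝ) + 1 := by
      have : (0 : ℝ) ≤ k := Nat.cast_nonneg k
      linarith
    have iE := integrableOn_wr_mul hD hEm hEb hk1
    have iB := integrableOn_wr_mul hD hB.aestronglyMeasurable hBb hk1
    have hsum : ∫ r in Ioi (0 : ℝ), wr D ((k : ℝ) + 1) r * T r =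
        (∫ r in Ioi (0 : ℝ), wr D ((k : ℝ) + 1) r * (T r - B r)) +
          ∫ r in Ioi (0 : ℝ), wr D ((k : ℝ) + 1) r * B r := by
      rw [← integral_add iE iB]
      refine integral_congr_ae (Eventually.of_forall fun r => ?_)
      simp only
      ring
    rw [hsum]
    refine mul_le_mul_of_nonneg_left ?_ (by linarith)
    have := hpos _ hk1
    linarith

/-- The comparison function from a family in local coordinates. -/
theorem local_of_kern {X : Type*} [MeasurableSpace X] {μ : Measure X} [SFinite μ] {ω : X → ℝ}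
    {y : X → Fin n → ℝ} {s r : Fin n → Fin n → ℝ} {C κ : ℝ} (h : Kern μ ω y s r C κ)
    (hD : 3 ≤ D) (φ : ℕ → ℝ) (L : Finset (Fin n)) (i j : Fin n) (c : Fin n → ℝ) {B : ℝ}
    (hB : 0 ≤ B) (hb : ∀ ρ : ℝ, 0 < ρ → ∀ v : ℝ, 0 ≤ v →
      |GK μ ω y φ L i j c ρ v| ≤ B * (1 + ρ) ^ (((D : ℝ) - 3) / 2)) {K : ℝ} {ε : ℝ}
    (hε : 0 ≤ ε) (ν m : ℕ) :
    Measurable (fun ρ => K * (Jop ε)^[ν] ((Dop ε)^[m] (GK μ ω y φ L i j c ρ)) 0) ∧
    ∃ C₂ : ℝ, ∀ ρ : ℝ, 0 < ρ → |K * (Jop ε)^[ν] ((Dop ε)^[m] (GK μ ω y φ L i j c ρ)) 0| ≤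
      C₂ * (1 + ρ) ^ (((D : ℝ) - 3) / 2) := by
  have hm := measurable_GK h φ L i j c
  constructor
  · have h1 : Measurable (Function.uncurry fun ρ v => (Dop ε)^[m] (GK μ ω y φ L i j c ρ) v) :=
      measurable_Dop_iter hm ε m
    have h2 := measurable_Jop_iter h1 ε ν
    have h3 : Measurable fun ρ : ℝ => ((ρ, (0 : ℝ)) : ℝ × ℝ) := by fun_prop
    exact (h2.comp h3).const_mul K
  · refine ⟨|K| * (ε ^ ν * (2 ^ m * B)), fun ρ hρ => ?_⟩
    have hBd : Bd (GK μ ω y φ L i j c ρ) (B * (1 + ρ) ^ (((D : ℝ) - 3) / 2)) := by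
      refine ⟨?_, fun v hv => hb ρ hρ v hv⟩
      have h3 : Measurable fun v : ℝ => ((ρ, v) : ℝ × ℝ) := by fun_prop
      exact hm.comp h3
    have h4 := ((hBd.dop hε m).jop hε ν).bound 0 le_rfl
    rw [abs_mul]
    refine (mul_le_mul_of_nonneg_left h4 (abs_nonneg K)).trans (le_of_eq ?_)
    ring

end Pool.Agent.KneserLine
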