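import Pool.Agent.KneserLine.Defs

/-!
# Property `Pos` at all scales

PROOF. Apply `pos_of_rank` (`Pool/Agent/KneserRank/Final.lean`), resp. `pos_of_conf` and
`exists_conf` (`Pool/Agent/KneserRank/Path.lean`) to `σ • p`, `σ • q`, `σ = (√ρ)⁻¹`; `‖σ • p i - σ
• p j‖² = ‖p i - p j‖² / ρ`. The vectors `(1, σ p i, σ q i, σ² (‖p i‖² - ‖q i‖²))` are the images
of `(1, p i, q i, ‖p i‖² - ‖q i‖²)` under a linear map (`Submodule.map_span`,
`Submodule.finrank_map_le`), and the span of the vectors `(σ p i - σ p i₀, σ q i - σ q i₀)` is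
contained in the span of the vectors `(p i - p i₀, q i - q i₀)`. See the proof of `low_le` in
`Pool/Agent/KneserCone/Low.lean`.
-/

set_option autoImplicit false
set_option linter.unusedSectionVars false

namespace Pool.Agent.KneserLine

open MeasureTheory Set Filter Topology Module
open scoped ENNReal
open Pool.Agent.Kneser Pool.Agent.KneserRank Pool.Agent.KneserCentre Pool.Agent.KneserCone

variable {D n : ℕ}

variable {E : Type*} [NormedAddCommGroup E] [InnerProductSpace ℝ E] [FiniteDimensional ℝ E]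
  [MeasurableSpace E] [BorelSpace E]

private theorem dist_scale_rnklow {ρ : ℝ} (hρ : 0 < ρ) (x y : E) :
    ‖(√ρ)⁻¹ • x - (√ρ)⁻¹ • y‖ ^ 2 = ‖x - y‖ ^ 2 / ρ := by
  rw [← smul_sub, norm_smul, mul_pow, Real.norm_eq_abs, sq_abs, inv_pow, Real.sq_sqrt hρ.le,
    div_eq_inv_mul]

theorem pos_scale_of_rank (p q : Fin n → E)
    (h : finrank ℝ (Submodule.span ℝ (Set.range fun i : Fin n =>
      ((1 : ℝ), p i, q i, ‖p i‖ ^ 2 - ‖q i‖ ^ 2))) ≤ finrank ℝ E + 4) {ρ : ℝ} (hρ : 0 < ρ) :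
    Pos (finrank ℝ E) (fun i j => ‖p i - p j‖ ^ 2 / ρ) (fun i j => ‖q i - q j‖ ^ 2 / ρ) := by
  set σ : ℝ := (√ρ)⁻¹ with hσ
  have hpos := pos_of_rank (fun l => σ • p l) (fun l => σ • q l) ?_
  · have e1 : (fun i j : Fin n => ‖σ • p i - σ • p j‖ ^ 2) = fun i j => ‖p i - p j‖ ^ 2 / ρ := by
      funext x y
      exact dist_scale_rnklow hρ _ _
    have e2 : (fun i j : Fin n => ‖σ • q i - σ • q j‖ ^ 2) = fun i j => ‖q i - q j‖ ^ 2 / ρ := by
      funext x y
      exact dist_scale_rnklow hρ _ _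
    rw [← e1, ← e2]
    exact hpos
  · refine le_trans ?_ h
    set f : ℝ × E × E × ℝ →ₗ[ℝ] ℝ × E × E × ℝ :=
      LinearMap.prodMap LinearMap.id (LinearMap.prodMap (σ • LinearMap.id)
        (LinearMap.prodMap (σ • LinearMap.id) ((σ ^ 2) • LinearMap.id))) with hf
    set V : Fin n → ℝ × E × E × ℝ := fun k => ((1 : ℝ), p k, q k, ‖p k‖ ^ 2 - ‖q k‖ ^ 2) with hV
    have hle : Submodule.span ℝ (Set.range fun l : Fin n => ((1 : ℝ), σ • p l, σ • q l,
        ‖σ • p l‖ ^ 2 - ‖σ • q l‖ ^ 2)) ≤ (Submodule.span ℝ (Set.range V)).map f := by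
      refine Submodule.span_le.mpr ?_
      rintro _ ⟨l, rfl⟩
      refine ⟨V l, Submodule.subset_span ⟨l, rfl⟩, ?_⟩
      simp only [hf, hV, LinearMap.prodMap_apply, LinearMap.id_apply, LinearMap.smul_apply,
        norm_smul, mul_pow, Real.norm_eq_abs, sq_abs, smul_eq_mul, mul_sub]
    exact (Submodule.finrank_mono hle).trans (Submodule.finrank_map_le f _)

theorem pos_scale_of_dim (p q : Fin n → E) (i₀ : Fin n)
    (h : finrank ℝ (Submodule.span ℝ (Set.range fun i : Fin n =>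
      (WithLp.toLp 2 (p i - p i₀, q i - q i₀) : WithLp 2 (E × E)))) ≤ finrank ℝ E + 2) {ρ : ℝ}
    (hρ : 0 < ρ) :
    Pos (finrank ℝ E) (fun i j => ‖p i - p j‖ ^ 2 / ρ) (fun i j => ‖q i - q j‖ ^ 2 / ρ) := by
  set σ : ℝ := (√ρ)⁻¹ with hσ
  set W := Submodule.span ℝ (Set.range fun i : Fin n =>
      (WithLp.toLp 2 (p i - p i₀, q i - q i₀) : WithLp 2 (E × E))) with hW
  have hpos := pos_of_conf _ _ (exists_conf (fun l => σ • p l) (fun l => σ • q l) i₀ W h
    fun i => ?_)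
  · have e1 : (fun i j : Fin n => ‖σ • p i - σ • p j‖ ^ 2) = fun i j => ‖p i - p j‖ ^ 2 / ρ := by
      funext x y
      exact dist_scale_rnklow hρ _ _
    have e2 : (fun i j : Fin n => ‖σ • q i - σ • q j‖ ^ 2) = fun i j => ‖q i - q j‖ ^ 2 / ρ := by
      funext x y
      exact dist_scale_rnklow hρ _ _
    rw [← e1, ← e2]
    exact hpos
  · have e : WithLp.toLp 2 (σ • p i - σ • p i₀, σ • q i - σ • q i₀) =
        σ • WithLp.toLp 2 (p i - p i₀, q i - q i₀) := by
      rw [← smul_sub, ← smul_sub]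
      rfl
    show WithLp.toLp 2 (σ • p i - σ • p i₀, σ • q i - σ • q i₀) ∈ W
    rw [e]
    exact W.smul_mem σ (Submodule.subset_span ⟨i, rfl⟩)

end Pool.Agent.KneserLine
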