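import Pool.Agent.KneserLine.SpaceEq
import Pool.Agent.KneserLine.GenAe4

/-!
# The averaged inequality for an apex line

PROOF. By `SI_eq` the integrand is `ofReal (r ^ D * wr D Λ r) * ∫⁻ U, g U * ∫⁻ t in Ioo 0 1, ..`
for `r > 0` (`(r⁻¹) ^ 2 * r ^ (D + 2) = r ^ D`, `wr ≥ 0`). Exchange the integrals (Tonelli; the
function `(r, U, t) ↦ GS a w₀ e U.1 h₀ β U.2 t r` is measurable): the left side is `∫⁻ U, g U * ∫⁻
t in Ioo 0 1, ∫⁻ r in Ioi 0, ofReal (om a t * (r ^ D * wr D Λ r)) * 1_(-δ, 0) (GS + ε)`, and `r ^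
D * wr D Λ r = cut D Λ r` for `r > 0`, `cut D Λ r = 0` for `r ≤ 0` (`D ≥ 7`), so the inner double
integral is the one of `strip_le` with `k = indicator`. Use `strip_le` for almost every `U`
(`ae_genO`).
-/

set_option autoImplicit false
set_option linter.unusedSectionVars false

namespace Pool.Agent.KneserLine

open MeasureTheory Set Filter Topology Module
open scoped ENNReal
open Pool.Agent.Kneser Pool.Agent.KneserRank Pool.Agent.KneserCentre Pool.Agent.KneserCone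

variable {D n : ℕ}

/-- the window -/
private noncomputable def s4_k (δ : ℝ) : ℝ → ℝ≥0∞ := (Ioo (-δ) 0).indicator fun _ => (1 : ℝ≥0∞)

private theorem s4_k_meas (δ : ℝ) : Measurable (s4_k δ) :=
  measurable_const.indicator measurableSet_Ioo

/-- the integrand, as a function of `((r, U), t)` -/
private noncomputable def s4_F (N : ℕ) (a w₀ e : Fin D → ℝ) (h₀ β Λ δ ε : ℝ)
    (x : (ℝ × ((Fin D → ℝ) × ℝ)) × ℝ) : ℝ≥0∞ :=
  ENNReal.ofReal (om a x.2 * KneserCone.cut N Λ x.1.1) *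
    s4_k δ (GS a w₀ e x.1.2.1 h₀ β x.1.2.2 x.2 x.1.1 + ε)

private theorem s4_GS_meas (a w₀ e : Fin D → ℝ) (h₀ β : ℝ) :
    Measurable fun x : (ℝ × ((Fin D → ℝ) × ℝ)) × ℝ =>
      GS a w₀ e x.1.2.1 h₀ β x.1.2.2 x.2 x.1.1 := by
  unfold GS HH ll
  simp only [Pi.add_apply, Pi.smul_apply, Pi.zero_apply, smul_eq_mul]
  fun_prop

private theorem s4_cut_meas (N : ℕ) (Λ : ℝ) : Measurable (KneserCone.cut N Λ) := by
  unfold KneserCone.cut
  fun_prop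

private theorem s4_F_meas (N : ℕ) (a w₀ e : Fin D → ℝ) (h₀ β Λ δ ε : ℝ) :
    Measurable (s4_F N a w₀ e h₀ β Λ δ ε) := by
  unfold s4_F
  refine Measurable.mul ?_ ?_
  · exact (((measurable_om a).comp measurable_snd).mul
      ((s4_cut_meas N Λ).comp (measurable_fst.comp measurable_fst))).ennreal_ofReal
  · exact (s4_k_meas δ).comp ((s4_GS_meas a w₀ e h₀ β).add_const ε)

private theorem s4_om_nonneg (a : Fin D → ℝ) (t : ℝ) : 0 ≤ om a t := by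
  unfold om
  positivity

private theorem s4_cut_zero {N : ℕ} (hN : N ≠ 0) (Λ : ℝ) {r : ℝ} (hr : r ≤ 0) :
    KneserCone.cut N Λ r = 0 := by
  unfold KneserCone.cut
  rw [max_eq_right hr, zero_pow hN, zero_mul]

private theorem s4_cut_pos (N : ℕ) (Λ : ℝ) {r : ℝ} (hr : 0 < r) :
    KneserCone.cut N Λ r = wr N Λ r * (r⁻¹) ^ 2 * r ^ (N + 1 + 1) := by
  unfold KneserCone.cut wr
  rw [max_eq_left hr.le, pow_add, pow_add]
  field_simp

private theorem s4_wr_nonneg (N : ℕ) {Λ : ℝ} (hΛ : 0 ≤ Λ) {r : ℝ} (hr : 0 < r) :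
    0 ≤ wr N Λ r := by
  unfold wr
  exact Real.rpow_nonneg (by nlinarith [mul_nonneg hΛ hr.le]) _

private theorem s4_point {a : Fin (D + 1) → ℝ} (w₀ e : Fin (D + 1) → ℝ) (h₀ β : ℝ) {Λ : ℝ}
    (hΛ : 0 ≤ Λ) (δ ε : ℝ) {g : (Fin (D + 1) → ℝ) × ℝ → ℝ≥0∞} (hg : Measurable g) {r : ℝ}
    (hr : 0 < r) :
    ENNReal.ofReal (wr D Λ r * (r⁻¹) ^ 2) * SI a w₀ e h₀ β δ g r ε =
      ∫⁻ U, g U * ∫⁻ t in Ioo (0 : ℝ) 1, s4_F D a w₀ e h₀ β Λ δ ε ((r, U), t) := by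
  rw [SI_eq a w₀ e h₀ β δ hg hr ε, ← mul_assoc,
    ← ENNReal.ofReal_mul (mul_nonneg (s4_wr_nonneg D hΛ hr) (by positivity)),
    ← s4_cut_pos D Λ hr]
  have hc : 0 ≤ KneserCone.cut D Λ r := by
    rw [s4_cut_pos D Λ hr]
    have := s4_wr_nonneg D hΛ hr
    positivity
  have hm : Measurable fun x : ((Fin (D + 1) → ℝ) × ℝ) × ℝ => ENNReal.ofReal (om a x.2) *
      s4_k δ (GS a w₀ e x.1.1 h₀ β x.1.2 x.2 r + ε) := by
    have h1 : Measurable fun x : ((Fin (D + 1) → ℝ) × ℝ) × ℝ =>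
        GS a w₀ e x.1.1 h₀ β x.1.2 x.2 r := by
      unfold GS HH ll
      simp only [Pi.add_apply, Pi.smul_apply, Pi.zero_apply, smul_eq_mul]
      fun_prop
    have h2 : Measurable fun x : ((Fin (D + 1) → ℝ) × ℝ) × ℝ =>
        s4_k δ (GS a w₀ e x.1.1 h₀ β x.1.2 x.2 r + ε) :=
      (s4_k_meas δ).comp (h1.add_const ε)
    have h3 : Measurable fun x : ((Fin (D + 1) → ℝ) × ℝ) × ℝ =>
        ENNReal.ofReal (om a x.2) := ((measurable_om a).comp measurable_snd).ennreal_ofReal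
    exact h3.mul h2
  have hm' : Measurable fun U : (Fin (D + 1) → ℝ) × ℝ => g U *
      ∫⁻ t in Ioo (0 : ℝ) 1, ENNReal.ofReal (om a t) *
        s4_k δ (GS a w₀ e U.1 h₀ β U.2 t r + ε) := hg.mul hm.lintegral_prod_right'
  have h4 : (∫⁻ U : (Fin (D + 1) → ℝ) × ℝ, g U *
      ∫⁻ t in Ioo (0 : ℝ) 1, ENNReal.ofReal (om a t) *
        (Ioo (-δ) 0).indicator (fun _ => (1 : ℝ≥0∞)) (GS a w₀ e U.1 h₀ β U.2 t r + ε)) =
      ∫⁻ U : (Fin (D + 1) → ℝ) × ℝ, g U *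
        ∫⁻ t in Ioo (0 : ℝ) 1, ENNReal.ofReal (om a t) *
          s4_k δ (GS a w₀ e U.1 h₀ β U.2 t r + ε) := rfl
  rw [h4, ← lintegral_const_mul _ hm']
  refine lintegral_congr fun U => ?_
  have h5 : Measurable fun t : ℝ => ENNReal.ofReal (om a t) *
      s4_k δ (GS a w₀ e U.1 h₀ β U.2 t r + ε) :=
    hm.comp (measurable_const.prodMk measurable_id)
  rw [mul_left_comm, ← lintegral_const_mul _ h5]
  congr 1
  refine lintegral_congr fun t => ?_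
  unfold s4_F
  rw [mul_comm (om a t), ENNReal.ofReal_mul hc, mul_assoc]

private theorem s4_eq (hD : D ≠ 0) {a : Fin (D + 1) → ℝ} (w₀ e : Fin (D + 1) → ℝ) (h₀ β : ℝ)
    {Λ : ℝ} (hΛ : 0 ≤ Λ) (δ ε : ℝ) {g : (Fin (D + 1) → ℝ) × ℝ → ℝ≥0∞} (hg : Measurable g) :
    ∫⁻ r in Ioi (0 : ℝ), ENNReal.ofReal (wr D Λ r * (r⁻¹) ^ 2) * SI a w₀ e h₀ β δ g r ε =
      ∫⁻ U, g U * ∫⁻ t in Ioo (0 : ℝ) 1, ∫⁻ r, s4_F D a w₀ e h₀ β Λ δ ε ((r, U), t) := by
  have hF := s4_F_meas D a w₀ e h₀ β Λ δ ε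
  have h1 : ∫⁻ r in Ioi (0 : ℝ),
      ENNReal.ofReal (wr D Λ r * (r⁻¹) ^ 2) * SI a w₀ e h₀ β δ g r ε =
      ∫⁻ r, ∫⁻ U, g U * ∫⁻ t in Ioo (0 : ℝ) 1, s4_F D a w₀ e h₀ β Λ δ ε ((r, U), t) := by
    rw [← lintegral_indicator measurableSet_Ioi]
    refine lintegral_congr fun r => ?_
    by_cases hr : r ∈ Ioi (0 : ℝ)
    · rw [indicator_of_mem hr]
      exact s4_point w₀ e h₀ β hΛ δ ε hg hr
    · rw [indicator_of_notMem hr]
      have h2 : ∀ U t, s4_F D a w₀ e h₀ β Λ δ ε ((r, U), t) = 0 := by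
        intro U t
        unfold s4_F
        rw [s4_cut_zero hD Λ (not_lt.1 hr), mul_zero, ENNReal.ofReal_zero, zero_mul]
      simp only [h2, lintegral_zero, mul_zero]
  rw [h1, lintegral_lintegral_swap]
  · refine lintegral_congr fun U => ?_
    rw [lintegral_const_mul]
    · congr 1
      rw [lintegral_lintegral_swap]
      exact (hF.comp ((measurable_fst.prodMk measurable_const).prodMk
        measurable_snd)).aemeasurable
    · exact hF.lintegral_prod_right'.comp (measurable_id.prodMk measurable_const)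
  · exact ((hg.comp measurable_snd).mul hF.lintegral_prod_right').aemeasurable

theorem space4_le {a : Fin (D + 1) → ℝ} (ha : Pencil4 a) {w₀ e : Fin (D + 1) → ℝ}
    (hl : ∃ k, a k = 1 ∧ w₀ k ≠ 0) (hr : ∃ k, a k = 0 ∧ w₀ k + e k ≠ 0) (h₀ β : ℝ) {Λ : ℝ}
    (hΛ : 0 ≤ Λ) (δ : ℝ) {ε : ℝ} (hε : 0 ≤ ε) {g : (Fin (D + 1) → ℝ) × ℝ → ℝ≥0∞}
    (hg : Measurable g) :
    ∫⁻ r in Ioi (0 : ℝ), ENNReal.ofReal (wr D Λ r * (r⁻¹) ^ 2) * SI a w₀ e h₀ β δ g r ε ≤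
      ∫⁻ r in Ioi (0 : ℝ), ENNReal.ofReal (wr D Λ r * (r⁻¹) ^ 2) * SI a w₀ e h₀ β δ g r 0 := by
  have h8 : 4 + 4 ≤ D + 1 := by
    have h1 := ha.zeros
    have h2 := ha.ones
    have h3 : Disjoint (Finset.univ.filter fun k => a k = 0)
        (Finset.univ.filter fun k => a k = 1) := by
      rw [Finset.disjoint_filter]
      intro k _ h4 h5
      rw [h4] at h5
      exact zero_ne_one h5
    have h6 := Finset.card_union_of_disjoint h3
    have h7 := Finset.card_le_univ ((Finset.univ.filter fun k => a k = 0) ∪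
      (Finset.univ.filter fun k => a k = 1))
    rw [Fintype.card_fin] at h7
    omega
  have hD : D ≠ 0 := by omega
  rw [s4_eq hD w₀ e h₀ β hΛ δ ε hg, s4_eq hD w₀ e h₀ β hΛ δ 0 hg]
  refine lintegral_mono_ae ?_
  filter_upwards [ae_genO ha.pencil hl hr] with U hU
  refine mul_le_mul' le_rfl ?_
  have h1 := strip_le ha hU h₀ β U.2 hΛ hε (s4_k_meas δ)
  unfold s4_F
  simpa only [add_zero] using h1

end Pool.Agent.KneserLine
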