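import Pool.Agent.KneserLine.Strip

/-!
# The window integral in polar form

PROOF. `SI` is the integral over `s ∈ (0, δ)`, `t ∈ (0, 1)`, `w ∈ ℝ ^ D` (Tonelli; all functions
are measurable, `HH a 0 w t` is measurable in `(t, w)`). For fixed `t` substitute `w = w₀ + t e +
r ω` (factor `r ^ D`, `Measure.addHaar` scaling, `Measure.map_addHaar_smul` or `lintegral`
versions, as in `Pool/Agent/KneserCone/ScaleX.lean`), then, for fixed `t`, `ω`, `s = r η + h₀ + t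
β - HH a 0 (..) t - ε = -(GS a w₀ e ω h₀ β η t r + ε)` (factor `r`); the condition `0 < s < δ`
becomes `GS + ε ∈ (-δ, 0)`.
-/

set_option autoImplicit false
set_option linter.unusedSectionVars false

namespace Pool.Agent.KneserLine

open MeasureTheory Set Filter Topology Module
open scoped ENNReal
open Pool.Agent.Kneser Pool.Agent.KneserRank Pool.Agent.KneserCentre Pool.Agent.KneserCone

variable {D n : ℕ}

private theorem SpaceEq_meas_ll (a : Fin D → ℝ) (k : Fin D) : Measurable (ll a k) := by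
  have h : Continuous (ll a k) := by
    unfold ll
    fun_prop
  exact h.measurable

private theorem SpaceEq_meas_HH (a : Fin D → ℝ) :
    Measurable fun x : ℝ × (Fin D → ℝ) => HH a 0 x.2 x.1 := by
  unfold HH
  refine Finset.measurable_sum _ fun k _ => ?_
  refine Measurable.div ?_ ?_
  · fun_prop
  · exact ((SpaceEq_meas_ll a k).comp measurable_fst).const_mul 4

private theorem SpaceEq_finrank : finrank ℝ ((Fin D → ℝ) × ℝ) = D + 1 := by
  rw [Module.finrank_prod, Module.finrank_self, Module.finrank_fin_fun]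

private theorem SpaceEq_haar : (volume : Measure ((Fin D → ℝ) × ℝ)).IsAddHaarMeasure := by
  rw [Measure.volume_eq_prod]
  infer_instance

private theorem SpaceEq_scale {M g : (Fin D → ℝ) × ℝ → ℝ≥0∞} (hM : Measurable M)
    (hg : Measurable g) (O : (Fin D → ℝ) × ℝ) {r : ℝ} (hr : 0 < r) :
    ∫⁻ X : (Fin D → ℝ) × ℝ, M X * g (r⁻¹ • (X - O)) =
      ENNReal.ofReal (r ^ (D + 1)) * ∫⁻ U : (Fin D → ℝ) × ℝ, M (O + r • U) * g U := by
  have hpos : 0 < r ^ (D + 1) := pow_pos hr _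
  have := SpaceEq_haar (D := D)
  have h1 : ∫⁻ X : (Fin D → ℝ) × ℝ, M X * g (r⁻¹ • (X - O)) =
      ∫⁻ X : (Fin D → ℝ) × ℝ, M (O + X) * g (r⁻¹ • X) := by
    rw [← lintegral_add_left_eq_self
      (fun X : (Fin D → ℝ) × ℝ => M X * g (r⁻¹ • (X - O))) O]
    simp only [add_sub_cancel_left]
  have hG : Measurable fun X : (Fin D → ℝ) × ℝ => M (O + X) * g (r⁻¹ • X) :=
    (hM.comp (measurable_const_add O)).mul (hg.comp (measurable_const_smul r⁻¹))
  have h2 : ∫⁻ U : (Fin D → ℝ) × ℝ, M (O + r • U) * g U =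
      ENNReal.ofReal |(r ^ finrank ℝ ((Fin D → ℝ) × ℝ))⁻¹| *
        ∫⁻ X : (Fin D → ℝ) × ℝ, M (O + X) * g (r⁻¹ • X) := by
    rw [← smul_eq_mul, ← lintegral_smul_measure, ← Measure.map_addHaar_smul volume hr.ne',
      lintegral_map hG (measurable_const_smul r)]
    refine lintegral_congr fun U => ?_
    rw [inv_smul_smul₀ hr.ne']
  rw [h1, h2, SpaceEq_finrank, ← mul_assoc, ← ENNReal.ofReal_mul hpos.le,
    abs_of_pos (inv_pos.mpr hpos), mul_inv_cancel₀ hpos.ne', ENNReal.ofReal_one, one_mul]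

/-- The inner function of `SI`, jointly measurable in `(r, s, t, w)`. -/
private theorem SpaceEq_meas (a w₀ e : Fin D → ℝ) (h₀ β ε : ℝ)
    {g : (Fin D → ℝ) × ℝ → ℝ≥0∞} (hg : Measurable g) :
    Measurable fun x : (ℝ × ℝ) × (ℝ × (Fin D → ℝ)) => ENNReal.ofReal (om a x.2.1) *
      g (x.1.1⁻¹ • (x.2.2 - w₀ - x.2.1 • e),
        x.1.1⁻¹ * (HH a 0 x.2.2 x.2.1 + x.1.2 + ε - h₀ - x.2.1 * β)) := by
  have hH : Measurable fun x : (ℝ × ℝ) × (ℝ × (Fin D → ℝ)) => HH a 0 x.2.2 x.2.1 :=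
    (SpaceEq_meas_HH a).comp measurable_snd
  have hom : Measurable fun x : (ℝ × ℝ) × (ℝ × (Fin D → ℝ)) => ENNReal.ofReal (om a x.2.1) :=
    ((measurable_om a).comp (measurable_fst.comp measurable_snd)).ennreal_ofReal
  refine hom.mul (hg.comp (Measurable.prodMk ?_ ?_))
  · have h1 : Measurable fun x : (ℝ × ℝ) × (ℝ × (Fin D → ℝ)) => x.1.1⁻¹ := by fun_prop
    have h2 : Measurable fun x : (ℝ × ℝ) × (ℝ × (Fin D → ℝ)) => x.2.2 - w₀ - x.2.1 • e := by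
      fun_prop
    exact h1.smul h2
  · refine Measurable.mul (by fun_prop) ?_
    exact (((hH.add (by fun_prop)).add (by fun_prop)).sub (by fun_prop)).sub (by fun_prop)

/-- The substitution for fixed `t`. -/
private theorem SpaceEq_inner (a w₀ e : Fin D → ℝ) (h₀ β δ : ℝ) {g : (Fin D → ℝ) × ℝ → ℝ≥0∞}
    (hg : Measurable g) {r : ℝ} (hr : 0 < r) (ε t : ℝ) :
    ∫⁻ s in Ioo (0 : ℝ) δ, ∫⁻ w : Fin D → ℝ,
      g (r⁻¹ • (w - w₀ - t • e), r⁻¹ * (HH a 0 w t + s + ε - h₀ - t * β)) =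
    ENNReal.ofReal (r ^ (D + 1)) * ∫⁻ U : (Fin D → ℝ) × ℝ, g U *
      (Ioo (-δ) 0).indicator (fun _ => (1 : ℝ≥0∞)) (GS a w₀ e U.1 h₀ β U.2 t r + ε) := by
  have hHt : Measurable fun w : Fin D → ℝ => HH a 0 w t :=
    (SpaceEq_meas_HH a).comp (measurable_const.prodMk measurable_id)
  have hone : Measurable ((Ioo (0 : ℝ) δ).indicator fun _ => (1 : ℝ≥0∞)) :=
    measurable_const.indicator measurableSet_Ioo
  set M : (Fin D → ℝ) × ℝ → ℝ≥0∞ := fun X =>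
    (Ioo (0 : ℝ) δ).indicator (fun _ => (1 : ℝ≥0∞)) (X.2 - (HH a 0 X.1 t + ε - h₀ - t * β))
    with hMdef
  have hM : Measurable M := by
    refine hone.comp ?_
    exact measurable_snd.sub
      ((((hHt.comp measurable_fst).add measurable_const).sub measurable_const).sub
        measurable_const)
  have hF : Measurable fun x : ℝ × (Fin D → ℝ) =>
      g (r⁻¹ • (x.2 - w₀ - t • e), r⁻¹ * (HH a 0 x.2 t + x.1 + ε - h₀ - t * β)) := by
    refine hg.comp (Measurable.prodMk (by fun_prop) ?_)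
    refine Measurable.const_mul ?_ _
    exact ((((hHt.comp measurable_snd).add measurable_fst).add measurable_const).sub
      measurable_const).sub measurable_const
  have h1 : ∫⁻ s in Ioo (0 : ℝ) δ, ∫⁻ w : Fin D → ℝ,
      g (r⁻¹ • (w - w₀ - t • e), r⁻¹ * (HH a 0 w t + s + ε - h₀ - t * β)) =
      ∫⁻ s : ℝ, ∫⁻ w : Fin D → ℝ, (Ioo (0 : ℝ) δ).indicator (fun _ => (1 : ℝ≥0∞)) s *
        g (r⁻¹ • (w - w₀ - t • e), r⁻¹ * (HH a 0 w t + s + ε - h₀ - t * β)) := by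
    rw [← lintegral_indicator measurableSet_Ioo]
    refine lintegral_congr fun s => ?_
    by_cases hs : s ∈ Ioo (0 : ℝ) δ
    · simp only [indicator_of_mem hs, one_mul]
    · simp only [indicator_of_notMem hs, zero_mul, lintegral_zero]
  have h2 : ∫⁻ s : ℝ, ∫⁻ w : Fin D → ℝ, (Ioo (0 : ℝ) δ).indicator (fun _ => (1 : ℝ≥0∞)) s *
        g (r⁻¹ • (w - w₀ - t • e), r⁻¹ * (HH a 0 w t + s + ε - h₀ - t * β)) =
      ∫⁻ w : Fin D → ℝ, ∫⁻ s : ℝ, (Ioo (0 : ℝ) δ).indicator (fun _ => (1 : ℝ≥0∞)) s *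
        g (r⁻¹ • (w - w₀ - t • e), r⁻¹ * (HH a 0 w t + s + ε - h₀ - t * β)) :=
    lintegral_lintegral_swap ((hone.comp measurable_fst).mul hF).aemeasurable
  have h3 : ∀ w : Fin D → ℝ, ∫⁻ s : ℝ, (Ioo (0 : ℝ) δ).indicator (fun _ => (1 : ℝ≥0∞)) s *
        g (r⁻¹ • (w - w₀ - t • e), r⁻¹ * (HH a 0 w t + s + ε - h₀ - t * β)) =
      ∫⁻ s : ℝ, M (w, s) * g (r⁻¹ • ((w, s) - (w₀ + t • e, 0))) := by
    intro w
    rw [← lintegral_sub_right_eq_self (fun s : ℝ =>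
      (Ioo (0 : ℝ) δ).indicator (fun _ => (1 : ℝ≥0∞)) s *
        g (r⁻¹ • (w - w₀ - t • e), r⁻¹ * (HH a 0 w t + s + ε - h₀ - t * β)))
      (HH a 0 w t + ε - h₀ - t * β)]
    refine lintegral_congr fun s => ?_
    simp only [hMdef]
    congr 2
    rw [Prod.mk_sub_mk, Prod.smul_mk, smul_eq_mul, sub_sub, sub_zero]
    congr 2
    ring
  have h4 : ∫⁻ w : Fin D → ℝ, ∫⁻ s : ℝ, M (w, s) * g (r⁻¹ • ((w, s) - (w₀ + t • e, 0))) =
      ∫⁻ X : (Fin D → ℝ) × ℝ, M X * g (r⁻¹ • (X - (w₀ + t • e, 0))) := by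
    rw [Measure.volume_eq_prod, lintegral_prod]
    exact (hM.mul (hg.comp (by fun_prop))).aemeasurable
  rw [h1, h2, lintegral_congr h3, h4, SpaceEq_scale hM hg _ hr]
  congr 1
  refine lintegral_congr fun U => ?_
  rw [mul_comm]
  congr 1
  simp only [hMdef, Prod.fst_add, Prod.snd_add, Prod.smul_fst, Prod.smul_snd, zero_add,
    smul_eq_mul]
  unfold GS
  by_cases h : HH a 0 (w₀ + t • e + r • U.1) t - h₀ - t * β - r * U.2 + ε ∈ Ioo (-δ) 0
  · rw [indicator_of_mem h, indicator_of_mem]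
    constructor <;> linarith [h.1, h.2]
  · rw [indicator_of_notMem h, indicator_of_notMem]
    intro h'
    exact h ⟨by linarith [h'.2], by linarith [h'.1]⟩

private theorem SpaceEq_swap {Y : Type*} [MeasurableSpace Y] {μ : Measure Y} [SFinite μ]
    {ν : Measure ℝ} [SFinite ν] {o : ℝ → ℝ≥0∞} {g : Y → ℝ≥0∞} {F : Y × ℝ → ℝ≥0∞}
    (ho : Measurable o) (hg : Measurable g) (hF : Measurable F) (c : ℝ≥0∞) :
    ∫⁻ t, o t * (c * ∫⁻ U, g U * F (U, t) ∂μ) ∂ν = c * ∫⁻ U, g U * ∫⁻ t, o t * F (U, t) ∂ν ∂μ := by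
  have hU : ∀ t : ℝ, Measurable fun U : Y => F (U, t) := fun t =>
    hF.comp (measurable_id.prodMk measurable_const)
  have ht : ∀ U : Y, Measurable fun t : ℝ => F (U, t) := fun U =>
    hF.comp (measurable_const.prodMk measurable_id)
  have hprod : Measurable fun x : Y × ℝ => g x.1 * (o x.2 * F x) :=
    (hg.comp measurable_fst).mul ((ho.comp measurable_snd).mul hF)
  have h1 : ∀ t : ℝ, o t * (c * ∫⁻ U, g U * F (U, t) ∂μ) =
      c * ∫⁻ U, g U * (o t * F (U, t)) ∂μ := by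
    intro t
    have h : ∫⁻ U, o t * (g U * F (U, t)) ∂μ = o t * ∫⁻ U, g U * F (U, t) ∂μ :=
      lintegral_const_mul _ (hg.mul (hU t))
    rw [mul_left_comm, ← h]
    congr 1
    exact lintegral_congr fun U => mul_left_comm _ _ _
  have h2 : ∀ U : Y, g U * ∫⁻ t, o t * F (U, t) ∂ν = ∫⁻ t, g U * (o t * F (U, t)) ∂ν := by
    intro U
    exact (lintegral_const_mul _ (ho.mul (ht U))).symm
  rw [lintegral_congr h1, lintegral_congr h2, lintegral_const_mul]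
  · congr 1
    exact (lintegral_lintegral_swap (f := fun U t => g U * (o t * F (U, t)))
      hprod.aemeasurable).symm
  · exact (hprod.comp measurable_swap).lintegral_prod_right'

/-- `SI` as an iterated integral. -/
private theorem SpaceEq_iter {A : ℝ → ℝ → (Fin D → ℝ) → ℝ≥0∞} {o : ℝ → ℝ≥0∞} {δ : ℝ}
    (hA : Measurable fun x : (ℝ × ℝ) × (Fin D → ℝ) => A x.1.1 x.1.2 x.2) (ho : Measurable o) :
    ∫⁻ s in Ioo (0 : ℝ) δ, ∫⁻ x : ℝ × (Fin D → ℝ), o x.1 * A s x.1 x.2 ∂(nu D) =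
      ∫⁻ t in Ioo (0 : ℝ) 1, o t * ∫⁻ s in Ioo (0 : ℝ) δ, ∫⁻ w : Fin D → ℝ, A s t w := by
  have hprod : Measurable fun x : (ℝ × ℝ) × (Fin D → ℝ) => o x.1.2 * A x.1.1 x.1.2 x.2 :=
    (ho.comp (measurable_snd.comp measurable_fst)).mul hA
  have h1 : ∀ s : ℝ, ∫⁻ x : ℝ × (Fin D → ℝ), o x.1 * A s x.1 x.2 ∂(nu D) =
      ∫⁻ t in Ioo (0 : ℝ) 1, ∫⁻ w : Fin D → ℝ, o t * A s t w := by
    intro s
    unfold nu
    refine lintegral_prod _ (Measurable.aemeasurable ?_)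
    exact hprod.comp (by fun_prop : Measurable fun x : ℝ × (Fin D → ℝ) => ((s, x.1), x.2))
  have hAt : ∀ s t : ℝ, Measurable fun w : Fin D → ℝ => A s t w := fun s t =>
    hA.comp (by fun_prop : Measurable fun w : Fin D → ℝ => ((s, t), w))
  have h2 : ∀ s t : ℝ, ∫⁻ w : Fin D → ℝ, o t * A s t w = o t * ∫⁻ w : Fin D → ℝ, A s t w :=
    fun s t => lintegral_const_mul _ (hAt s t)
  have h3 : Measurable fun x : ℝ × ℝ => ∫⁻ w : Fin D → ℝ, A x.1 x.2 w :=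
    hA.lintegral_prod_right'
  have h4 : Measurable fun x : ℝ × ℝ => o x.2 * ∫⁻ w : Fin D → ℝ, A x.1 x.2 w :=
    (ho.comp measurable_snd).mul h3
  calc ∫⁻ s in Ioo (0 : ℝ) δ, ∫⁻ x : ℝ × (Fin D → ℝ), o x.1 * A s x.1 x.2 ∂(nu D)
      = ∫⁻ s in Ioo (0 : ℝ) δ, ∫⁻ t in Ioo (0 : ℝ) 1, o t * ∫⁻ w : Fin D → ℝ, A s t w := by
        refine lintegral_congr fun s => ?_
        rw [h1 s]
        exact lintegral_congr fun t => h2 s t
    _ = ∫⁻ t in Ioo (0 : ℝ) 1, ∫⁻ s in Ioo (0 : ℝ) δ, o t * ∫⁻ w : Fin D → ℝ, A s t w :=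
        lintegral_lintegral_swap (f := fun s t => o t * ∫⁻ w : Fin D → ℝ, A s t w)
          h4.aemeasurable
    _ = ∫⁻ t in Ioo (0 : ℝ) 1, o t * ∫⁻ s in Ioo (0 : ℝ) δ, ∫⁻ w : Fin D → ℝ, A s t w := by
        refine lintegral_congr fun t => ?_
        exact lintegral_const_mul _ (h3.comp (measurable_id.prodMk measurable_const))

theorem SI_eq (a w₀ e : Fin D → ℝ) (h₀ β δ : ℝ) {g : (Fin D → ℝ) × ℝ → ℝ≥0∞} (hg : Measurable g)
    {r : ℝ} (hr : 0 < r) (ε : ℝ) :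
    SI a w₀ e h₀ β δ g r ε = ENNReal.ofReal (r ^ (D + 1)) * ∫⁻ U : (Fin D → ℝ) × ℝ, g U *
      ∫⁻ t in Ioo (0 : ℝ) 1, ENNReal.ofReal (om a t) *
        (Ioo (-δ) 0).indicator (fun _ => (1 : ℝ≥0∞)) (GS a w₀ e U.1 h₀ β U.2 t r + ε) := by
  have hom : Measurable fun t : ℝ => ENNReal.ofReal (om a t) := (measurable_om a).ennreal_ofReal
  have hI : Measurable ((Ioo (-δ) 0).indicator fun _ => (1 : ℝ≥0∞)) :=
    measurable_const.indicator measurableSet_Ioo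
  have hGS : Measurable fun x : ((Fin D → ℝ) × ℝ) × ℝ =>
      GS a w₀ e x.1.1 h₀ β x.1.2 x.2 r + ε := by
    unfold GS
    have h1 : Measurable fun x : ((Fin D → ℝ) × ℝ) × ℝ =>
        HH a 0 (w₀ + x.2 • e + r • x.1.1) x.2 :=
      (SpaceEq_meas_HH a).comp (measurable_snd.prodMk (by fun_prop))
    exact ((((h1.sub measurable_const).sub (by fun_prop)).sub (by fun_prop))).add measurable_const
  have hF : Measurable fun x : ((Fin D → ℝ) × ℝ) × ℝ =>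
      (Ioo (-δ) 0).indicator (fun _ => (1 : ℝ≥0∞)) (GS a w₀ e x.1.1 h₀ β x.1.2 x.2 r + ε) :=
    Measurable.comp (g := (Ioo (-δ) 0).indicator fun _ => (1 : ℝ≥0∞)) hI hGS
  have hHs : Measurable fun x : (ℝ × ℝ) × (Fin D → ℝ) => HH a 0 x.2 x.1.2 :=
    (SpaceEq_meas_HH a).comp (by fun_prop :
      Measurable fun x : (ℝ × ℝ) × (Fin D → ℝ) => (x.1.2, x.2))
  have hA : Measurable fun x : (ℝ × ℝ) × (Fin D → ℝ) =>
      g (r⁻¹ • (x.2 - w₀ - x.1.2 • e),
        r⁻¹ * (HH a 0 x.2 x.1.2 + x.1.1 + ε - h₀ - x.1.2 * β)) := by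
    refine hg.comp (Measurable.prodMk (by fun_prop) ?_)
    refine Measurable.const_mul ?_ _
    exact (((hHs.add (by fun_prop)).add (by fun_prop)).sub (by fun_prop)).sub (by fun_prop)
  have h1 := SpaceEq_iter (δ := δ) (A := fun s t w =>
    g (r⁻¹ • (w - w₀ - t • e), r⁻¹ * (HH a 0 w t + s + ε - h₀ - t * β))) hA hom
  unfold SI
  rw [h1]
  simp only [SpaceEq_inner a w₀ e h₀ β δ hg hr ε]
  exact SpaceEq_swap (F := fun x : ((Fin D → ℝ) × ℝ) × ℝ =>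
    (Ioo (-δ) 0).indicator (fun _ => (1 : ℝ≥0∞)) (GS a w₀ e x.1.1 h₀ β x.1.2 x.2 r + ε))
    hom hg hF _

theorem measurable_SI (a w₀ e : Fin D → ℝ) (h₀ β δ : ℝ) {g : (Fin D → ℝ) × ℝ → ℝ≥0∞}
    (hg : Measurable g) (ε : ℝ) : Measurable fun r => SI a w₀ e h₀ β δ g r ε := by
  unfold SI
  have hF := SpaceEq_meas a w₀ e h₀ β ε hg
  have h1 : Measurable fun y : ℝ × ℝ => ∫⁻ x, ENNReal.ofReal (om a x.1) *
      g (y.1⁻¹ • (x.2 - w₀ - x.1 • e), y.1⁻¹ * (HH a 0 x.2 x.1 + y.2 + ε - h₀ - x.1 * β))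
        ∂(nu D) := hF.lintegral_prod_right'
  exact h1.lintegral_prod_right'

end Pool.Agent.KneserLine
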