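import Pool.Agent.KneserLine.StripMin
import Pool.Agent.KneserLine.LineAff

/-!
# The inequality in the strip

PROOF. Let `(tP, rP)` be the minimum (`exists_min`). For fixed `t ≠ tP` substitute `r = rP + μ (t
- tP)` (`lintegral` under affine maps), then exchange the integrals over `t` and `μ` (Tonelli;
everything is measurable): the left side is `∫⁻ μ, ∫⁻ t in Ioo 0 1, ofReal (|t - tP| (om a t * cut
D Λ (rP + μ (t - tP)))) * k (GS t (rP + μ (t - tP)) + ε)`. With `w = w₀ + (rP - μ tP) • ω`, `e' =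
e + μ • ω`, `GS a w₀ e ω h₀ β η t (rP + μ (t - tP)) = HH a e' w t - (β + μ η) * t - (h₀ + (rP - μ
tP) η)` (`HH a 0 (w + t • e') t = HH a e' w t`). `Generic a e' w` holds for every `μ`: if `w j = w
k = 0` for the indices of `hg.left` then `w₀ j ω k - w₀ k ω j = 0`, and similarly for `w + e' =
(w₀ + e) + (rP + μ (1 - tP)) • ω`. The minimum of `GS` gives `hmin` for `line_le`, with `x0 = rP -
μ tP`, `x1 = μ`.
-/

set_option autoImplicit false
set_option linter.unusedSectionVars false

namespace Pool.Agent.KneserLine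

open MeasureTheory Set Filter Topology Module
open scoped ENNReal
open Pool.Agent.Kneser Pool.Agent.KneserRank Pool.Agent.KneserCentre Pool.Agent.KneserCone

variable {D n : ℕ}

theorem measurable_GS (a w₀ e ω : Fin D → ℝ) (h₀ β η : ℝ) :
    Measurable (fun x : ℝ × ℝ => GS a w₀ e ω h₀ β η x.1 x.2) := by
  unfold GS HH ll
  have h1 : Measurable (fun x : ℝ × ℝ => ∑ k, ((w₀ + x.1 • e + x.2 • ω) k +
      x.1 * (0 : Fin D → ℝ) k) ^ 2 / (4 * (a k * x.1 + (1 - a k) * (1 - x.1)))) := by
    refine Finset.measurable_sum _ fun k _ => ?_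
    refine Measurable.div ?_ ?_
    · simp only [Pi.add_apply, Pi.smul_apply, smul_eq_mul, Pi.zero_apply, mul_zero, add_zero]
      fun_prop
    · fun_prop
  exact ((h1.sub measurable_const).sub (measurable_fst.mul measurable_const)).sub
    (measurable_snd.mul measurable_const)

private theorem strip_meas_cut (D : ℕ) (Λ : ℝ) : Measurable (KneserCone.cut D Λ) := by
  unfold KneserCone.cut
  fun_prop

private theorem strip_om_nonneg (a : Fin D → ℝ) (t : ℝ) : 0 ≤ om a t := by
  unfold om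
  positivity

private theorem strip_lintegral_affine (b c : ℝ) (hb : b ≠ 0) {f : ℝ → ℝ≥0∞}
    (hf : Measurable f) :
    ∫⁻ r : ℝ, f r = ∫⁻ m : ℝ, ENNReal.ofReal |b| * f (c + m * b) := by
  have h1 : ∫⁻ r : ℝ, f r = ∫⁻ r : ℝ, f (c + r) := (lintegral_add_left_eq_self f c).symm
  have hg : Measurable fun r : ℝ => f (c + r) := hf.comp (measurable_const.add measurable_id)
  have h2 : ∫⁻ r : ℝ, f (c + r) =
      ENNReal.ofReal |b| * ∫⁻ m : ℝ, f (c + b * m) := by
    conv_lhs => rw [← Real.smul_map_volume_mul_left hb]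
    rw [lintegral_smul_measure, lintegral_map hg (measurable_const_mul b)]
    rfl
  rw [h1, h2, ← lintegral_const_mul]
  · simp only [mul_comm b]
  · exact hf.comp (measurable_const.add (measurable_const.mul measurable_id))

/-- The change of variables to the lines through `(tP, rP)`. -/
private theorem strip_fubini (a w₀ e ω : Fin (D + 1) → ℝ) (h₀ β η Λ : ℝ)
    {k : ℝ → ℝ≥0∞} (hk : Measurable k) (tP rP : ℝ) :
    ∫⁻ t in Ioo (0 : ℝ) 1, ∫⁻ r : ℝ, ENNReal.ofReal (om a t * KneserCone.cut D Λ r) *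
        k (GS a w₀ e ω h₀ β η t r) =
      ∫⁻ m : ℝ, ∫⁻ t in Ioo (0 : ℝ) 1,
        ENNReal.ofReal (|t - tP| * (om a t * KneserCone.cut D Λ (rP + m * (t - tP)))) *
        k (GS a w₀ e ω h₀ β η t (rP + m * (t - tP))) := by
  have hF : Measurable (fun x : ℝ × ℝ =>
      ENNReal.ofReal (|x.1 - tP| * (om a x.1 * KneserCone.cut D Λ (rP + x.2 * (x.1 - tP)))) *
        k (GS a w₀ e ω h₀ β η x.1 (rP + x.2 * (x.1 - tP)))) := by
    have h1 : Measurable (fun x : ℝ × ℝ => rP + x.2 * (x.1 - tP)) := by fun_prop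
    have h3 : Measurable (fun x : ℝ × ℝ => |x.1 - tP|) := by fun_prop
    have h4 : Measurable (fun x : ℝ × ℝ => om a x.1) := (measurable_om a).comp measurable_fst
    have h5 : Measurable (fun x : ℝ × ℝ => KneserCone.cut D Λ (rP + x.2 * (x.1 - tP))) :=
      (strip_meas_cut D Λ).comp h1
    have h2 : Measurable (fun x : ℝ × ℝ =>
        |x.1 - tP| * (om a x.1 * KneserCone.cut D Λ (rP + x.2 * (x.1 - tP)))) :=
      h3.mul (h4.mul h5)
    have h6 : Measurable (fun x : ℝ × ℝ =>
        GS a w₀ e ω h₀ β η x.1 (rP + x.2 * (x.1 - tP))) := by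
      have h7 : Measurable (fun x : ℝ × ℝ => (x.1, rP + x.2 * (x.1 - tP))) :=
        measurable_fst.prodMk h1
      have h8 := (measurable_GS a w₀ e ω h₀ β η).comp h7
      simpa only [Function.comp_def] using h8
    exact (ENNReal.measurable_ofReal.comp h2).mul (hk.comp h6)
  have hswap := lintegral_lintegral_swap (μ := volume.restrict (Ioo (0 : ℝ) 1)) (ν := volume)
    (f := fun t m : ℝ =>
      ENNReal.ofReal (|t - tP| * (om a t * KneserCone.cut D Λ (rP + m * (t - tP)))) *
        k (GS a w₀ e ω h₀ β η t (rP + m * (t - tP)))) hF.aemeasurable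
  rw [← hswap]
  refine lintegral_congr_ae ?_
  have hne : ∀ᵐ t : ℝ ∂(volume.restrict (Ioo (0 : ℝ) 1)), t ≠ tP := by
    refine ae_restrict_of_ae ?_
    have : ({tP}ᶜ : Set ℝ) ∈ ae (volume : Measure ℝ) := by
      rw [mem_ae_iff, compl_compl]
      exact measure_singleton tP
    filter_upwards [this] with t ht using ht
  filter_upwards [hne] with t ht
  have hb : t - tP ≠ 0 := sub_ne_zero.mpr ht
  have hf : Measurable (fun r : ℝ => ENNReal.ofReal (om a t * KneserCone.cut D Λ r) *
      k (GS a w₀ e ω h₀ β η t r)) := by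
    have h1 : Measurable (fun r : ℝ => om a t * KneserCone.cut D Λ r) :=
      (strip_meas_cut D Λ).const_mul _
    have h2 : Measurable (fun r : ℝ => GS a w₀ e ω h₀ β η t r) := by
      have h7 : Measurable (fun r : ℝ => (t, r)) := by fun_prop
      have h8 := (measurable_GS a w₀ e ω h₀ β η).comp h7
      simpa only [Function.comp_def] using h8
    exact (ENNReal.measurable_ofReal.comp h1).mul (hk.comp h2)
  rw [strip_lintegral_affine (t - tP) rP hb hf]
  refine lintegral_congr fun m => ?_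
  rw [← mul_assoc, ← ENNReal.ofReal_mul (abs_nonneg _)]

private theorem strip_GS_line (a w₀ e ω : Fin D → ℝ) (h₀ β η tP rP m t : ℝ) :
    GS a w₀ e ω h₀ β η t (rP + m * (t - tP)) =
      HH a (e + m • ω) (w₀ + (rP - m * tP) • ω) t - (β + m * η) * t -
        (h₀ + (rP - m * tP) * η) := by
  have h1 : HH a 0 (w₀ + t • e + (rP + m * (t - tP)) • ω) t =
      HH a (e + m • ω) (w₀ + (rP - m * tP) • ω) t := by
    unfold HH
    refine Finset.sum_congr rfl fun k _ => ?_
    congr 2
    simp only [Pi.add_apply, Pi.smul_apply, smul_eq_mul, Pi.zero_apply]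
    ring
  unfold GS
  rw [h1]
  ring

private theorem strip_generic {a w₀ e ω : Fin D → ℝ} (hg : GenO a w₀ e ω) (tP rP m : ℝ) :
    Generic a (e + m • ω) (w₀ + (rP - m * tP) • ω) := by
  constructor
  · obtain ⟨j, k, hj, hk, h⟩ := hg.left
    by_contra hcon
    have h1 := by_contra fun h0 => hcon ⟨j, hj, h0⟩
    have h2 := by_contra fun h0 => hcon ⟨k, hk, h0⟩
    simp only [Pi.add_apply, Pi.smul_apply, smul_eq_mul] at h1 h2
    apply h
    have h3 : w₀ j = -((rP - m * tP) * ω j) := by linarith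
    have h4 : w₀ k = -((rP - m * tP) * ω k) := by linarith
    rw [h3, h4]
    ring
  · obtain ⟨j, k, hj, hk, h⟩ := hg.right
    by_contra hcon
    have h1 := by_contra fun h0 => hcon ⟨j, hj, h0⟩
    have h2 := by_contra fun h0 => hcon ⟨k, hk, h0⟩
    simp only [Pi.add_apply, Pi.smul_apply, smul_eq_mul] at h1 h2
    apply h
    have h3 : w₀ j + e j = -((rP - m * tP + m) * ω j) := by linarith
    have h4 : w₀ k + e k = -((rP - m * tP + m) * ω k) := by linarith
    rw [h3, h4]
    ring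

theorem strip_le {a : Fin (D + 1) → ℝ} (ha : Pencil4 a) {w₀ e ω : Fin (D + 1) → ℝ}
    (hg : GenO a w₀ e ω) (h₀ β η : ℝ) {Λ : ℝ} (hΛ : 0 ≤ Λ) {ε : ℝ} (hε : 0 ≤ ε)
    {k : ℝ → ℝ≥0∞} (hk : Measurable k) :
    ∫⁻ t in Ioo (0 : ℝ) 1, ∫⁻ r : ℝ, ENNReal.ofReal (om a t * KneserCone.cut D Λ r) *
        k (GS a w₀ e ω h₀ β η t r + ε) ≤
      ∫⁻ t in Ioo (0 : ℝ) 1, ∫⁻ r : ℝ, ENNReal.ofReal (om a t * KneserCone.cut D Λ r) *
        k (GS a w₀ e ω h₀ β η t r) := by
  obtain ⟨tP, htP, rP, hmin⟩ := exists_min ha.pencil hg h₀ β η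
  have hk' : Measurable fun x : ℝ => k (x + ε) := hk.comp (measurable_id.add_const ε)
  rw [strip_fubini a w₀ e ω h₀ β η Λ hk tP rP,
    strip_fubini a w₀ e ω h₀ β η Λ hk' tP rP]
  refine lintegral_mono fun m => ?_
  have hmin' : ∀ t ∈ Ioo (0 : ℝ) 1,
      HH a (e + m • ω) (w₀ + (rP - m * tP) • ω) tP - (β + m * η) * tP ≤
        HH a (e + m • ω) (w₀ + (rP - m * tP) • ω) t - (β + m * η) * t := by
    intro t ht
    have h1 := hmin t ht (rP + m * (t - tP))
    have h2 : GS a w₀ e ω h₀ β η tP rP = GS a w₀ e ω h₀ β η tP (rP + m * (tP - tP)) := by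
      rw [sub_self, mul_zero, add_zero]
    rw [h2, strip_GS_line, strip_GS_line] at h1
    linarith
  have key := line_le ha (strip_generic hg tP rP m) (β + m * η) (h₀ + (rP - m * tP) * η) htP
    hmin' hΛ (rP - m * tP) m hε hk
  have hx : ∀ t : ℝ, rP - m * tP + m * t = rP + m * (t - tP) := fun t => by ring
  simp only [hx] at key
  simp only [strip_GS_line]
  exact key

end Pool.Agent.KneserLine
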