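import Pool.Agent.KneserLine.Defs

/-!
# The minimum in the strip

PROOF. Let `N = GS (1/2) 0 + 1`. Let `j, k` be the indices of `hg.left`, `A = w₀ j ω k - w₀ k ω j
≠ 0`, `B = e j ω k - e k ω j`, `S = ω j ² + ω k ² > 0`; for all `t`, `r`, `(w₀ j + t e j + r ω j)
ω k - (w₀ k + t e k + r ω k) ω j = A + t B`, so by Cauchy-Schwarz `(A + t B)² ≤ S ((w₀ j + t e j +
r ω j)² + (w₀ k + t e k + r ω k)²)`, and these two terms contribute to `HH a 0 (w₀ + t e + r ω) t`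
with the denominator `4 t`: `HH ≥ (A + t B)² / (4 t S)`. Similarly with `hg.right` and `1 - t`:
`HH ≥ (A' + (t - 1) B')² / (4 (1 - t) S')`, `A' = (w₀ j + e j) ω k - (w₀ k + e k) ω j`. Moreover
`HH ≥ (w₀ j + t e j + r ω j)² / 4` for every `j` (`0 < ll ≤ 1`), with `ω j ≠ 0` for some `j`.
Using one half of `HH` for each: `GS ≥ N` if `|r| ≥ R` for a suitable `R`, (`|r|` large beats the
linear term `r η`, since the other half is `≥ 0`), and then, for `|r| ≤ R`, `GS ≥ N` if `t ≤ δ` or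
`t ≥ 1 - δ`. `GS` is continuous on the compact set `[δ, 1 - δ] × [-R, R]` (which contains `(1/2,
0)`), take a minimum.
-/

set_option autoImplicit false
set_option linter.unusedSectionVars false

namespace Pool.Agent.KneserLine

open MeasureTheory Set Filter Topology Module
open scoped ENNReal
open Pool.Agent.Kneser Pool.Agent.KneserRank Pool.Agent.KneserCentre Pool.Agent.KneserCone

variable {D n : ℕ}

/-- A quotient which is large near zero. -/
private theorem sm_large (A B S T : ℝ) (hA : A ≠ 0) (hS : 0 < S) :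
    ∃ δ : ℝ, 0 < δ ∧ ∀ u ∈ Ioo (0 : ℝ) δ, T ≤ (A + u * B) ^ 2 / (8 * u * S) := by
  have h1 : Tendsto (fun u : ℝ => (A + u * B) ^ 2 / (8 * S)) (𝓝[>] 0)
      (𝓝 ((A + 0 * B) ^ 2 / (8 * S))) := by
    have hc : Continuous fun u : ℝ => (A + u * B) ^ 2 / (8 * S) := by fun_prop
    exact (hc.tendsto 0).mono_left nhdsWithin_le_nhds
  have h2 : 0 < (A + 0 * B) ^ 2 / (8 * S) := by
    rw [zero_mul, add_zero]
    positivity
  have h3 := (h1.pos_mul_atTop h2 tendsto_inv_nhdsGT_zero).eventually_ge_atTop T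
  obtain ⟨δ, hδ, h4⟩ := mem_nhdsGT_iff_exists_Ioo_subset.1 h3
  refine ⟨δ, hδ, fun u hu => ?_⟩
  have h5 := h4 hu
  simp only [mem_ofPred_eq] at h5
  refine h5.trans_eq ?_
  have := hu.1.ne'
  field_simp

private theorem sm_term {a : Fin D → ℝ} (ha : Pencil a) (w : Fin D → ℝ) {t : ℝ}
    (ht : t ∈ Ioo (0 : ℝ) 1) (j : Fin D) : w j ^ 2 / (4 * ll a j t) ≤ HH a 0 w t := by
  unfold HH
  have h1 := Finset.single_le_sum (f := fun k => (w k + t * (0 : Fin D → ℝ) k) ^ 2 /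
    (4 * ll a k t)) (fun k _ => div_nonneg (sq_nonneg _)
      (mul_nonneg (by norm_num) (ll_pos ha ht k).le)) (Finset.mem_univ j)
  simp only [Pi.zero_apply, mul_zero, add_zero] at h1 ⊢
  exact h1

private theorem sm_ll_le {a : Fin D → ℝ} (ha : Pencil a) {t : ℝ} (ht : t ∈ Ioo (0 : ℝ) 1)
    (j : Fin D) : ll a j t ≤ 1 := by
  unfold ll
  have h0 := ha.nonneg j
  have h1 := ha.le_one j
  have h2 := ht.1
  have h3 := ht.2
  nlinarith

/-- The lower bound near an end. -/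
private theorem sm_pair {a : Fin D → ℝ} (ha : Pencil a) (w ω : Fin D → ℝ) {t u : ℝ}
    (ht : t ∈ Ioo (0 : ℝ) 1) {j k : Fin D} (hj : ll a j t = u) (hk : ll a k t = u)
    (hS : 0 < ω j ^ 2 + ω k ^ 2) :
    (w j * ω k - w k * ω j) ^ 2 / (8 * u * (ω j ^ 2 + ω k ^ 2)) ≤ HH a 0 w t := by
  have h1 := sm_term ha w ht j
  have h2 := sm_term ha w ht k
  have hu : 0 < u := hj ▸ ll_pos ha ht j
  rw [hj] at h1
  rw [hk] at h2
  have h3 : (w j * ω k - w k * ω j) ^ 2 ≤ (w j ^ 2 + w k ^ 2) * (ω j ^ 2 + ω k ^ 2) := by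
    nlinarith [sq_nonneg (w j * ω j + w k * ω k)]
  have h4 : (w j * ω k - w k * ω j) ^ 2 / (8 * u * (ω j ^ 2 + ω k ^ 2)) ≤
      (w j ^ 2 + w k ^ 2) / (8 * u) := by
    rw [div_le_div_iff₀ (by positivity) (by positivity)]
    nlinarith
  have h5 : (w j ^ 2 + w k ^ 2) / (8 * u) = (w j ^ 2 / (4 * u) + w k ^ 2 / (4 * u)) / 2 := by
    field_simp
    ring
  linarith

/-- The growth in the second variable. -/
private theorem sm_growth {a w₀ e ω : Fin D → ℝ} (ha : Pencil a) {j : Fin D} (hj : ω j ≠ 0)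
    (h₀ β η : ℝ) : ∃ C : ℝ, ∀ t ∈ Ioo (0 : ℝ) 1, ∀ r : ℝ,
      HH a 0 (w₀ + t • e + r • ω) t / 2 + |r| - C ≤ GS a w₀ e ω h₀ β η t r := by
  obtain ⟨K, hK⟩ : ∃ K : ℝ, K = 2 * (|η| + 1) / |ω j| := ⟨_, rfl⟩
  have hω : 0 < |ω j| := abs_pos.2 hj
  have hK0 : 0 ≤ K := by rw [hK]; positivity
  have hK1 : K * |ω j| = 2 * (|η| + 1) := by rw [hK]; field_simp
  refine ⟨K / 2 * (|w₀ j| + |e j|) + K ^ 2 / 2 + |h₀| + |β|, fun t ht r => ?_⟩
  have hw : (w₀ + t • e + r • ω) j = w₀ j + t * e j + r * ω j := by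
    simp
  have h1 := sm_term ha (w₀ + t • e + r • ω) ht j
  rw [hw] at h1
  unfold GS
  generalize HH a 0 (w₀ + t • e + r • ω) t = Q at h1 ⊢
  have hl0 := ll_pos ha ht j
  have hl1 := sm_ll_le ha ht j
  have h2 : (w₀ j + t * e j + r * ω j) ^ 2 / 4 ≤ Q := by
    refine le_trans ?_ h1
    exact div_le_div_of_nonneg_left (sq_nonneg _) (by positivity) (by linarith)
  have h3 : |r| * |ω j| - |w₀ j| - |e j| ≤ |w₀ j + t * e j + r * ω j| := by
    have h4 : |r * ω j| ≤ |w₀ j + t * e j + r * ω j| + |w₀ j| + |t * e j| := by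
      have : r * ω j = (w₀ j + t * e j + r * ω j) - w₀ j - t * e j := by ring
      calc |r * ω j| = |(w₀ j + t * e j + r * ω j) - w₀ j - t * e j| := by rw [← this]
        _ ≤ |(w₀ j + t * e j + r * ω j) - w₀ j| + |t * e j| := abs_sub _ _
        _ ≤ |w₀ j + t * e j + r * ω j| + |w₀ j| + |t * e j| := by
          have := abs_sub (w₀ j + t * e j + r * ω j) (w₀ j)
          linarith
    rw [abs_mul, abs_mul, abs_of_pos ht.1] at h4
    have h5 : t * |e j| ≤ |e j| := mul_le_of_le_one_left (abs_nonneg _) ht.2.le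
    linarith
  have h4 : K * |w₀ j + t * e j + r * ω j| - K ^ 2 ≤ (w₀ j + t * e j + r * ω j) ^ 2 / 4 := by
    rw [← sq_abs (w₀ j + t * e j + r * ω j)]
    nlinarith [sq_nonneg (|w₀ j + t * e j + r * ω j| / 2 - K)]
  have h5 : K * (|r| * |ω j| - |w₀ j| - |e j|) ≤ K * |w₀ j + t * e j + r * ω j| :=
    mul_le_mul_of_nonneg_left h3 hK0
  have h6 : K * (|r| * |ω j| - |w₀ j| - |e j|) =
      |r| * (2 * (|η| + 1)) - K * (|w₀ j| + |e j|) := by
    rw [← hK1]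
    ring
  have h7 : r * η ≤ |r| * |η| := by
    rw [← abs_mul]
    exact le_abs_self _
  have h8 : t * β ≤ |β| := by
    calc t * β ≤ |t * β| := le_abs_self _
      _ = t * |β| := by rw [abs_mul, abs_of_pos ht.1]
      _ ≤ |β| := mul_le_of_le_one_left (abs_nonneg _) ht.2.le
  have h9 := le_abs_self h₀
  nlinarith

private theorem sm_cont {a w₀ e ω : Fin D → ℝ} (ha : Pencil a) (h₀ β η : ℝ) :
    ContinuousOn (fun x : ℝ × ℝ => GS a w₀ e ω h₀ β η x.1 x.2) (Ioo (0 : ℝ) 1 ×ˢ univ) := by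
  unfold GS HH
  refine ((ContinuousOn.sub ?_ (by fun_prop)).sub (by fun_prop)).sub (by fun_prop)
  refine continuousOn_finsetSum _ fun k _ => ContinuousOn.div ?_ ?_ ?_
  · simp only [Pi.add_apply, Pi.smul_apply, smul_eq_mul]
    fun_prop
  · unfold ll
    fun_prop
  · intro x hx
    have := ll_pos ha hx.1 k
    positivity

theorem exists_min {a w₀ e ω : Fin D → ℝ} (ha : Pencil a) (hg : GenO a w₀ e ω) (h₀ β η : ℝ) :
    ∃ tP ∈ Ioo (0 : ℝ) 1, ∃ rP : ℝ, ∀ t ∈ Ioo (0 : ℝ) 1, ∀ r : ℝ,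
      GS a w₀ e ω h₀ β η tP rP ≤ GS a w₀ e ω h₀ β η t r := by
  obtain ⟨j, k, hj, hk, hA⟩ := hg.left
  obtain ⟨j', k', hj', hk', hA'⟩ := hg.right
  have hS : ∀ {j k : Fin D} {x y : ℝ}, x * ω k - y * ω j ≠ 0 → 0 < ω j ^ 2 + ω k ^ 2 := by
    intro j k x y h
    by_contra h0
    have h1 : ω j ^ 2 + ω k ^ 2 = 0 :=
      le_antisymm (not_lt.1 h0) (add_nonneg (sq_nonneg _) (sq_nonneg _))
    have h2 : ω j = 0 := by nlinarith [sq_nonneg (ω j), sq_nonneg (ω k)]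
    have h3 : ω k = 0 := by nlinarith [sq_nonneg (ω j), sq_nonneg (ω k)]
    rw [h2, h3, mul_zero, mul_zero, sub_zero] at h
    exact h rfl
  have hS1 := hS hA
  have hS2 := hS hA'
  obtain ⟨C, hC⟩ : ∃ C : ℝ, ∀ t ∈ Ioo (0 : ℝ) 1, ∀ r : ℝ,
      HH a 0 (w₀ + t • e + r • ω) t / 2 + |r| - C ≤ GS a w₀ e ω h₀ β η t r := by
    by_cases h0 : ω j = 0
    · have h1 : ω k ≠ 0 := by
        rintro h1
        rw [h0, h1, mul_zero, mul_zero, sub_zero] at hA
        exact hA rfl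
      exact sm_growth ha h1 h₀ β η
    · exact sm_growth ha h0 h₀ β η
  obtain ⟨N, hN⟩ : ∃ N : ℝ, N = GS a w₀ e ω h₀ β η (1 / 2) 0 := ⟨_, rfl⟩
  obtain ⟨δ₁, hδ₁, h1⟩ := sm_large _ (e j * ω k - e k * ω j) _ (2 * (N + C)) hA hS1
  obtain ⟨δ₂, hδ₂, h2⟩ := sm_large _ (-(e j' * ω k' - e k' * ω j')) _ (2 * (N + C)) hA' hS2
  obtain ⟨δ, hδ⟩ : ∃ δ : ℝ, δ = min (min δ₁ δ₂) (1 / 4) := ⟨_, rfl⟩
  have hδ0 : 0 < δ := by rw [hδ]; positivity
  have hδ3 : δ ≤ 1 / 4 := by rw [hδ]; exact min_le_right _ _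
  have hδ4 : δ ≤ δ₁ := by rw [hδ]; exact (min_le_left _ _).trans (min_le_left _ _)
  have hδ5 : δ ≤ δ₂ := by rw [hδ]; exact (min_le_left _ _).trans (min_le_right _ _)
  obtain ⟨R, hR⟩ : ∃ R : ℝ, R = max (N + C) 0 := ⟨_, rfl⟩
  have hR0 : 0 ≤ R := by rw [hR]; exact le_max_right _ _
  have hR1 : N + C ≤ R := by rw [hR]; exact le_max_left _ _
  have hsub : Icc δ (1 - δ) ×ˢ Icc (-R) R ⊆ Ioo (0 : ℝ) 1 ×ˢ (univ : Set ℝ) :=
    fun x hx => ⟨⟨hδ0.trans_le hx.1.1, by linarith [hx.1.2]⟩, mem_univ _⟩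
  have hmem : ((1 / 2, 0) : ℝ × ℝ) ∈ Icc δ (1 - δ) ×ˢ Icc (-R) R :=
    ⟨⟨by simp only; linarith, by simp only; linarith⟩, ⟨by simp only; linarith, hR0⟩⟩
  obtain ⟨⟨tP, rP⟩, hP, hmin⟩ := (isCompact_Icc.prod isCompact_Icc).exists_isMinOn ⟨_, hmem⟩
    ((sm_cont (w₀ := w₀) (e := e) (ω := ω) ha h₀ β η).mono hsub)
  refine ⟨tP, (hsub hP).1, rP, fun t ht r => ?_⟩
  have hmin' := fun x hx => isMinOn_iff.1 hmin x hx
  clear hmin
  simp only at hmin'
  have hle : GS a w₀ e ω h₀ β η tP rP ≤ N := by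
    rw [hN]
    exact hmin' (1 / 2, 0) hmem
  by_cases hr : |r| ≤ R
  · by_cases ht1 : t < δ
    · refine hle.trans ?_
      have h3 := sm_pair ha (w₀ + t • e + r • ω) ω ht (j := j) (k := k) (u := t)
        (by unfold ll; rw [hj]; ring) (by unfold ll; rw [hk]; ring) hS1
      have h4 := h1 t ⟨ht.1, ht1.trans_le hδ4⟩
      have h5 : (w₀ + t • e + r • ω) j * ω k - (w₀ + t • e + r • ω) k * ω j =
          w₀ j * ω k - w₀ k * ω j + t * (e j * ω k - e k * ω j) := by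
        simp only [Pi.add_apply, Pi.smul_apply, smul_eq_mul]
        ring
      rw [h5] at h3
      have h6 := hC t ht r
      have h7 := abs_nonneg r
      linarith
    · by_cases ht2 : 1 - δ < t
      · refine hle.trans ?_
        have h3 := sm_pair ha (w₀ + t • e + r • ω) ω ht (j := j') (k := k') (u := 1 - t)
          (by unfold ll; rw [hj']; ring) (by unfold ll; rw [hk']; ring) hS2
        have h4 := h2 (1 - t) ⟨by linarith [ht.2], by linarith⟩
        have h5 : (w₀ + t • e + r • ω) j' * ω k' - (w₀ + t • e + r • ω) k' * ω j' =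
            (w₀ j' + e j') * ω k' - (w₀ k' + e k') * ω j' +
              (1 - t) * (-(e j' * ω k' - e k' * ω j')) := by
          simp only [Pi.add_apply, Pi.smul_apply, smul_eq_mul]
          ring
        rw [h5] at h3
        have h6 := hC t ht r
        have h7 := abs_nonneg r
        linarith
      · exact hmin' (t, r) ⟨⟨not_lt.1 ht1, not_lt.1 ht2⟩, abs_le.1 hr⟩
  · refine hle.trans ?_
    have h3 := hC t ht r
    have h4 : 0 ≤ HH a 0 (w₀ + t • e + r • ω) t :=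
      (div_nonneg (sq_nonneg _) (mul_nonneg (by norm_num) (ll_pos ha ht j).le)).trans
        (sm_term ha _ ht j)
    have h5 := not_le.1 hr
    linarith

end Pool.Agent.KneserLine
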